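import Mathlib

/-!
The box complexes of a finite graph, their geometric realisations and the coindex.
-/

set_option autoImplicit false

namespace Pool.Agent.H799Z.Box

variable {V : Type} [Fintype V]

/-- Common neighbours of `A`. -/
def CN (G : SimpleGraph V) (A : Set V) : Set V := {v | ∀ a ∈ A, G.Adj a v}

/-- `A' ⊎ A''` is a simplex of `B₀(G)`: `A'` and `A''` are disjoint and completely joined. -/
def SimplexB0 (G : SimpleGraph V) (A' A'' : Set V) : Prop :=
  Disjoint A' A'' ∧ ∀ a ∈ A', ∀ b ∈ A'', G.Adj a b

/-- `A' ⊎ A''` is a simplex of `B(G)`: moreover both sets have a common neighbour. -/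
def SimplexB (G : SimpleGraph V) (A' A'' : Set V) : Prop :=
  SimplexB0 G A' A'' ∧ (CN G A').Nonempty ∧ (CN G A'').Nonempty

/-- Geometric realisation of the complex on the vertices `+v = (v, true)`, `-v = (v, false)`
whose simplices are the `A' ⊎ A''` with `K A' A''`: the convex combinations of vertices
whose support is a simplex. -/
def realization (K : Set V → Set V → Prop) : Set (V × Bool → ℝ) :=
  {t | (∀ i, 0 ≤ t i) ∧ ∑ i, t i = 1 ∧ K {v | t (v, true) ≠ 0} {v | t (v, false) ≠ 0}}

/-- The involution `+v ↔ -v` on barycentric coordinates. -/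
def swap (t : V × Bool → ℝ) : V × Bool → ℝ := fun i => t (i.1, !i.2)

/-- There is a continuous equivariant map from the sphere `S^n` (antipodal action) to `X`. -/
def HasEquivMap (n : ℕ) (X : Set (V × Bool → ℝ)) : Prop :=
  ∃ f : Metric.sphere (0 : EuclideanSpace ℝ (Fin (n + 1))) 1 → (V × Bool → ℝ),
    Continuous f ∧ (∀ x, f x ∈ X) ∧ ∀ x, f (-x) = swap (f x)

/-- The coindex: the supremum of the `n` with an equivariant map `S^n → X`, and `-1` if there is
none. -/
noncomputable def coind (X : Set (V × Bool → ℝ)) : EReal :=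
  sSup ({-1} ∪ {r | ∃ n : ℕ, r = n ∧ HasEquivMap n X})

end Pool.Agent.H799Z.Box
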