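import Pool.Agent.H799Z.BoxSwindle

/-!
Monodromy: a flat bundle on the plane is trivial on a square, so it cannot be equivariant on the
boundary of the square when the group has no odd involution.
-/

set_option autoImplicit false

open Topology Set Metric Filter

namespace Pool.Agent.H799Z.Box

lemma interval_ind (P : ℝ → ℝ → Prop) (htr : ∀ a b c, a ≤ b → b ≤ c → P a b → P b c → P a c)
    (hloc : ∀ x, ∃ δ > 0, ∀ a b, x - δ ≤ a → a ≤ b → b ≤ x + δ → P a b) {a b : ℝ} (hab : a ≤ b) :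
    P a b := by
  let S : Set ℝ := {t | t ∈ Icc a b ∧ P a t}
  have ha : a ∈ S := by
    obtain ⟨δ, hδ, h⟩ := hloc a
    exact ⟨⟨le_rfl, hab⟩, h a a (by linarith) le_rfl (by linarith)⟩
  have hb : BddAbove S := ⟨b, fun t ht => ht.1.2⟩
  obtain ⟨δ, hδ, h⟩ := hloc (sSup S)
  obtain ⟨t, ht, ht'⟩ := exists_lt_of_lt_csSup ⟨a, ha⟩ (show sSup S - δ < sSup S by linarith)
  have h1 : t ≤ sSup S := le_csSup hb ht
  have h2 : t ≤ min b (sSup S + δ) := le_min ht.1.2 (by linarith)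
  have h3 : P a (min b (sSup S + δ)) :=
    htr _ _ _ ht.1.1 h2 ht.2 (h _ _ ht'.le h2 (min_le_right _ _))
  have h4 : min b (sSup S + δ) ≤ sSup S :=
    le_csSup hb ⟨⟨ht.1.1.trans h2, min_le_left _ _⟩, h3⟩
  rcases min_cases b (sSup S + δ) with h5 | h5
  · rwa [h5.1] at h3
  · rw [h5.1] at h4
    linarith

variable {X : Type} [TopologicalSpace X] {Γ : GP} {c : X → X → Γ.G} {ε : X → ℤˣ}

/-- a trivialisation over `A` -/
def Triv (Γ : GP) (c : X → X → Γ.G) (ε : X → ℤˣ) (A : Set X) : Prop :=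
  ∃ (g : X → Γ.G) (σ : ℤˣ), ∀ x ∈ A, (g x, σ * ε x) ∈ Γ.S ∧
    ∀ᶠ y in 𝓝[A] x, c x y = (g x)⁻¹ * g y

lemma Triv.mono {A B : Set X} (h : Triv Γ c ε A) (hB : B ⊆ A) : Triv Γ c ε B := by
  obtain ⟨g, σ, h⟩ := h
  exact ⟨g, σ, fun x hx => ⟨(h x (hB hx)).1, (h x (hB hx)).2.filter_mono (nhdsWithin_mono _ hB)⟩⟩

lemma Triv.glue {A B : Set X} (hA : Triv Γ c ε A) (hB : Triv Γ c ε B) (cA : IsClosed A)
    (cB : IsClosed B) (hc : IsPreconnected (A ∩ B)) (hne : (A ∩ B).Nonempty) :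
    Triv Γ c ε (A ∪ B) := by
  classical
  obtain ⟨g, σ, h⟩ := hA
  obtain ⟨g', σ', h'⟩ := hB
  obtain ⟨z, hz⟩ := hne
  have hk : ∀ x ∈ A ∩ B, g z * (g' z)⁻¹ = g x * (g' x)⁻¹ := by
    intro x hx
    refine hc.induction₂' (fun x y => g x * (g' x)⁻¹ = g y * (g' y)⁻¹) (fun x hx => ?_)
      (fun _ _ _ _ _ _ h1 h2 => h1.trans h2) hz hx
    filter_upwards [(h x hx.1).2.filter_mono (nhdsWithin_mono _ inter_subset_left),
      (h' x hx.2).2.filter_mono (nhdsWithin_mono _ inter_subset_right)] with y h1 h2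
    have : g x * (g' x)⁻¹ = g y * (g' y)⁻¹ := by
      have h3 : g y = g x * ((g' x)⁻¹ * g' y) := by rw [← h2, h1]; group
      rw [h3]; group
    exact ⟨this, this.symm⟩
  let G : X → Γ.G := fun x => if x ∈ A then g x else g z * (g' z)⁻¹ * g' x
  have GA : ∀ x ∈ A, G x = g x := fun x hx => if_pos hx
  have GB : ∀ x ∈ B, G x = g z * (g' z)⁻¹ * g' x := by
    intro x hx
    by_cases hxA : x ∈ A
    · rw [GA x hxA, hk x ⟨hxA, hx⟩]; group
    · exact if_neg hxA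
  refine ⟨G, σ, fun x hx => ⟨?_, ?_⟩⟩
  · rcases hx with hx | hx
    · rw [GA x hx]; exact (h x hx).1
    · rw [GB x hx]
      have := Γ.S.mul_mem (Γ.S.mul_mem (h z hz.1).1 (Γ.S.inv_mem (h' z hz.2).1)) (h' x hx).1
      convert this using 1
      refine Prod.ext rfl ?_
      show σ * ε x = σ * ε z * (σ' * ε z)⁻¹ * (σ' * ε x)
      rw [mul_inv, mul_comm σ'⁻¹]
      group
  · rw [nhdsWithin_union, eventually_sup]
    constructor
    · by_cases hxA : x ∈ A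
      · filter_upwards [(h x hxA).2, self_mem_nhdsWithin] with y h1 h2
        rw [GA x hxA, GA y h2, h1]
      · rw [notMem_closure_iff_nhdsWithin_eq_bot.1 (by rwa [cA.closure_eq])]
        exact eventually_bot
    · by_cases hxB : x ∈ B
      · filter_upwards [(h' x hxB).2, self_mem_nhdsWithin] with y h1 h2
        rw [GB x hxB, GB y h2, h1]
        group
      · rw [notMem_closure_iff_nhdsWithin_eq_bot.1 (by rwa [cB.closure_eq])]
        exact eventually_bot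

theorem obstruct {c : ℝ × ℝ → ℝ × ℝ → Γ.G} {ε : ℝ × ℝ → ℤˣ}
    (hloc : ∀ x, ∃ U ∈ 𝓝 x, ∀ a ∈ U, ∀ b ∈ U,
      (∀ d ∈ U, c a b * c b d = c a d) ∧ (c a b, ε a * ε b) ∈ Γ.S)
    (hsym : ∀ x, ‖x‖ = 1 → ε (-x) = -ε x ∧ ∀ᶠ y in 𝓝 x, ‖y‖ = 1 → c (-x) (-y) = c x y) :
    False := by
  have step1 : ∀ x : ℝ, ∃ δ > 0, Triv Γ c ε (Icc (x - δ) (x + δ) ×ˢ Icc (-1) 1) := by
    intro x
    refine interval_ind (fun a b => ∃ δ > 0, Triv Γ c ε (Icc (x - δ) (x + δ) ×ˢ Icc a b))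
      ?_ ?_ (by norm_num)
    · rintro a b d hab hbd ⟨δ, hδ, h⟩ ⟨δ', hδ', h'⟩
      have hm := lt_min hδ hδ'
      have m1 := min_le_left δ δ'
      have m2 := min_le_right δ δ'
      refine ⟨min δ δ', hm, ((h.mono (B := Icc (x - min δ δ') (x + min δ δ') ×ˢ Icc a b)
        (prod_mono (Icc_subset_Icc (by linarith) (by linarith)) subset_rfl)).glue
        (h'.mono (B := Icc (x - min δ δ') (x + min δ δ') ×ˢ Icc b d)
          (prod_mono (Icc_subset_Icc (by linarith) (by linarith)) subset_rfl))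
        (isClosed_Icc.prod isClosed_Icc) (isClosed_Icc.prod isClosed_Icc)
        (((convex_Icc _ _).prod (convex_Icc _ _)).inter
          ((convex_Icc _ _).prod (convex_Icc _ _))).isPreconnected
        ⟨(x, b), ⟨⟨by linarith, by linarith⟩, hab, le_rfl⟩, ⟨by linarith, by linarith⟩,
          le_rfl, hbd⟩).mono ?_⟩
      rw [← prod_union, Icc_union_Icc_eq_Icc hab hbd]
    · intro y
      obtain ⟨U, hU, h⟩ := hloc (x, y)
      obtain ⟨r, hr, hb⟩ := Metric.nhds_basis_closedBall.mem_iff.1 hU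
      refine ⟨r, hr, fun a b ha _ hb' => ⟨r, hr, fun p => c (x, y) p, ε (x, y), fun p hp => ?_⟩⟩
      have hs : Icc (x - r) (x + r) ×ˢ Icc a b ⊆ U := by
        refine subset_trans ?_ hb
        rw [← closedBall_prod_same, Real.closedBall_eq_Icc, Real.closedBall_eq_Icc]
        exact prod_mono subset_rfl (Icc_subset_Icc ha hb')
      have h0 := mem_of_mem_nhds hU
      refine ⟨(h _ h0 _ (hs hp)).2, ?_⟩
      filter_upwards [self_mem_nhdsWithin] with q hq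
      rw [← (h _ h0 _ (hs hp)).1 q (hs hq)]
      group
  have step2 : Triv Γ c ε (Icc (-1) 1 ×ˢ Icc (-1) 1) := by
    refine interval_ind (fun a b => Triv Γ c ε (Icc a b ×ˢ Icc (-1) 1)) ?_ ?_ (by norm_num)
    · intro a b d hab hbd h h'
      refine (h.glue h' (isClosed_Icc.prod isClosed_Icc) (isClosed_Icc.prod isClosed_Icc)
        (((convex_Icc _ _).prod (convex_Icc _ _)).inter
          ((convex_Icc _ _).prod (convex_Icc _ _))).isPreconnected
        ⟨(b, 0), ⟨⟨hab, le_rfl⟩, by norm_num⟩, ⟨le_rfl, hbd⟩, by norm_num⟩).mono ?_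
      rw [← union_prod, Icc_union_Icc_eq_Icc hab hbd]
    · intro x
      obtain ⟨δ, hδ, h⟩ := step1 x
      exact ⟨δ, hδ, fun a b ha _ hb => h.mono (prod_mono (Icc_subset_Icc ha hb) subset_rfl)⟩
  have hsub : sphere (0 : ℝ × ℝ) 1 ⊆ Icc (-1) 1 ×ˢ Icc (-1) 1 := by
    intro p hp
    rw [mem_sphere_zero_iff_norm] at hp
    exact ⟨abs_le.1 (hp ▸ norm_fst_le p), abs_le.1 (hp ▸ norm_snd_le p)⟩
  obtain ⟨g, σ, h⟩ := step2.mono hsub
  have hconn : IsPreconnected (sphere (0 : ℝ × ℝ) 1) := by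
    refine isPreconnected_sphere ?_ _ _
    rw [rank_prod', Module.rank_self]
    norm_num
  have hneg : ∀ p ∈ sphere (0 : ℝ × ℝ) 1, -p ∈ sphere (0 : ℝ × ℝ) 1 := fun p hp => by
    simpa using hp
  have h0 : ((1, 0) : ℝ × ℝ) ∈ sphere (0 : ℝ × ℝ) 1 := by simp
  have hk := hconn.induction₂' (fun x y => g x * (g (-x))⁻¹ = g y * (g (-y))⁻¹) (fun x hx => ?_)
    (fun _ _ _ _ _ _ h1 h2 => h1.trans h2) h0 (hneg _ h0)
  · rw [neg_neg] at hk
    refine Γ.noInv (g (1, 0) * (g (-(1, 0)))⁻¹) ?_ (by nth_rewrite 1 [hk]; group)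
    have := Γ.S.mul_mem (h _ h0).1 (Γ.S.inv_mem (h _ (hneg _ h0)).1)
    convert this using 1
    refine Prod.ext rfl ?_
    show -1 = σ * ε (1, 0) * (σ * ε (-(1, 0)))⁻¹
    rw [(hsym _ (mem_sphere_zero_iff_norm.1 h0)).1, mul_neg, inv_neg, mul_neg, mul_inv_cancel]
  · have t1 : Tendsto (fun y : ℝ × ℝ => -y) (𝓝[sphere 0 1] x) (𝓝[sphere 0 1] (-x)) :=
      continuous_neg.continuousWithinAt.tendsto_nhdsWithin hneg
    filter_upwards [(h x hx).2, t1.eventually (h (-x) (hneg x hx)).2,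
      nhdsWithin_le_nhds (hsym x (mem_sphere_zero_iff_norm.1 hx)).2, self_mem_nhdsWithin]
      with y h1 h2 h3 h4
    have : g x * (g (-x))⁻¹ = g y * (g (-y))⁻¹ := by
      have h5 : g y = g x * ((g (-x))⁻¹ * g (-y)) := by
        rw [← h2, h3 (mem_sphere_zero_iff_norm.1 h4), h1]; group
      rw [h5]; group
    exact ⟨this, this.symm⟩

end Pool.Agent.H799Z.Box
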