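import Pool.Agent.H799Z.BoxSwindle

/-!
An odd function on each sphere together with an equivariant flat bundle on the band where the
function is small, whose group has no odd involution.
-/

set_option autoImplicit false

open Topology Set Metric

namespace Pool.Agent.H799Z.Box

/-- equivariant cocycle on `U` -/
def GoodOn (Γ : GP) {V : Type} [Neg V] (c : V → V → Γ.G) (ε : V → ℤˣ) (U : Set V) : Prop :=
  ∀ a ∈ U, ∀ b ∈ U, (∀ d ∈ U, c a b * c b d = c a d) ∧ (c a b, ε a * ε b) ∈ Γ.S ∧
    c (-a) (-b) = c a b ∧ ε (-a) = -ε a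

lemma GoodOn.mono {Γ : GP} {V : Type} [Neg V] {c : V → V → Γ.G} {ε : V → ℤˣ} {U U' : Set V}
    (h : GoodOn Γ c ε U) (hU : U' ⊆ U) : GoodOn Γ c ε U' :=
  fun a ha b hb => ⟨fun d hd => (h a (hU ha) b (hU hb)).1 d (hU hd), (h a (hU ha) b (hU hb)).2⟩

/-- the integers with the usual parity -/
def GP.int : GP where
  G := Multiplicative ℤ
  S := (zpowersHom ℤˣ (-1)).graph
  noInv := by
    intro γ hγ h
    have h1 : γ = 1 := by
      have h2 : γ.toAdd + γ.toAdd = 0 := congrArg Multiplicative.toAdd h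
      exact Multiplicative.toAdd.injective (by simp only [toAdd_one]; omega)
    rw [MonoidHom.mem_graph, h1, map_one] at hγ
    exact absurd hγ (by decide)
  odd := ⟨Multiplicative.ofAdd 1, by simp [MonoidHom.mem_graph]⟩

lemma norm_tail {m : ℕ} {x : Fin (m + 1) → ℝ} (hx : ‖x‖ = 1) (h0 : |x 0| < 1) :
    ‖Fin.tail x‖ = 1 := by
  refine le_antisymm ((pi_norm_le_iff_of_nonneg zero_le_one).2 fun i =>
    hx ▸ norm_le_pi_norm x i.succ) (not_lt.1 fun h => ?_)
  have : ‖x‖ < 1 := (pi_norm_lt_iff one_pos).2 fun i => by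
    refine Fin.cases ?_ (fun j => ?_) i
    · exact h0
    · exact (norm_le_pi_norm (Fin.tail x) j).trans_lt h
  exact absurd hx this.ne

theorem sphereData (m : ℕ) : ∃ (Γ : GP) (h : (Fin m → ℝ) → ℝ)
    (c : (Fin m → ℝ) → (Fin m → ℝ) → Γ.G) (ε : (Fin m → ℝ) → ℤˣ), Continuous h ∧
    (∀ x, h (-x) = -h x) ∧ ∀ x, ‖x‖ = 1 → |h x| < 1 → ∃ U ∈ 𝓝 x, GoodOn Γ c ε U := by
  induction m with
  | zero =>
    refine ⟨GP.int, fun _ => 0, fun _ _ => 1, fun _ => 1, continuous_const, fun _ => neg_zero.symm,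
      fun x hx => ?_⟩
    rw [Subsingleton.elim x 0, norm_zero] at hx
    exact absurd hx zero_ne_one
  | succ m ih =>
    classical
    obtain ⟨Γ, h, c, ε, hc, hodd, hgood⟩ := ih
    let K : Set (Fin m → ℝ) := {x | ‖x‖ = 1 ∧ |h x| ≤ 1 / 2}
    have hK : IsCompact K := by
      refine (isCompact_sphere (0 : Fin m → ℝ) 1).of_isClosed_subset
        ((isClosed_eq continuous_norm continuous_const).inter
          (isClosed_le hc.abs continuous_const)) fun x hx => ?_
      simpa using hx.1
    have hr : ∀ x ∈ K, ∃ r > 0, GoodOn Γ c ε (ball x r) := by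
      intro x hx
      obtain ⟨U, hU, hg⟩ := hgood x hx.1 (hx.2.trans_lt (by norm_num))
      obtain ⟨r, hr, hb⟩ := Metric.mem_nhds_iff.1 hU
      exact ⟨r, hr, hg.mono hb⟩
    choose! r hr0 hr using hr
    obtain ⟨t, ht, hcov⟩ := hK.elim_nhds_subcover (fun x => ball x (r x / 2))
      fun x hx => ball_mem_nhds x (half_pos (hr0 x hx))
    obtain ⟨γ₀, hγ₀⟩ := Γ.odd
    let g : (Fin m → ℝ) → Γ.G := fun a => if ε a = 1 then 1 else γ₀
    have hg : ∀ a, (g a, ε a) ∈ Γ.S := by
      intro a
      rcases Int.units_eq_one_or (ε a) with h1 | h1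
      · simp only [g, h1, if_true]
        exact Γ.S.one_mem
      · simp only [g, h1]
        rw [if_neg (by decide)]
        exact hγ₀
    let P : (Fin m → ℝ) → (Fin m → ℝ) → Γ.G := fun a b =>
      if g a * c a b * (g b)⁻¹ ∈ Γ.Ev then g a * c a b * (g b)⁻¹ else 1
    have hP : ∀ a b, (c a b, ε a * ε b) ∈ Γ.S → P a b = g a * c a b * (g b)⁻¹ := by
      intro a b hab
      refine if_pos ?_
      have := Γ.S.mul_mem (Γ.S.mul_mem (hg a) hab) (Γ.S.inv_mem (hg b))
      rw [GP.mem_Ev]
      convert this using 1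
      refine Prod.ext rfl ?_
      show 1 = ε a * (ε a * ε b) * (ε b)⁻¹
      rw [← mul_assoc, Int.units_mul_self, one_mul, mul_inv_cancel]
    obtain ⟨Γ', ι, hι, k, e, k1, k2, k3, k4, k5, k6⟩ := swindle
      (t.toList.map fun x v => 2 - 2 * dist v x / r x)
      (by
        intro φ hφ
        obtain ⟨x, -, rfl⟩ := List.mem_map.1 hφ
        fun_prop) Γ P
      (by
        intro a b
        simp only [P]
        split_ifs with h1
        · exact h1
        · exact Subgroup.one_mem _)
      (by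
        intro φ hφ a b d ha hb hd
        obtain ⟨x, hx, rfl⟩ := List.mem_map.1 hφ
        have hx' := ht x (Finset.mem_toList.1 hx)
        have hb' : ∀ v, 0 < 2 - 2 * dist v x / r x → v ∈ ball x (r x) := by
          intro v hv
          have h1 : 2 * dist v x / r x < 2 := by linarith
          rw [div_lt_iff₀ (hr0 x hx')] at h1
          exact mem_ball.2 (by linarith)
        have G := hr x hx'
        rw [hP a b (G a (hb' a ha) b (hb' b hb)).2.1, hP b d (G b (hb' b hb) d (hb' d hd)).2.1,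
          hP a d (G a (hb' a ha) d (hb' d hd)).2.1, ← (G a (hb' a ha) b (hb' b hb)).1 d (hb' d hd)]
        group)
    have htail : Continuous (Fin.tail : (Fin (m + 1) → ℝ) → Fin m → ℝ) :=
      continuous_pi fun i => continuous_apply i.succ
    have h0c : Continuous fun x : Fin (m + 1) → ℝ => x 0 := continuous_apply 0
    have tn : ∀ x : Fin (m + 1) → ℝ, Fin.tail (-x) = -Fin.tail x := fun _ => rfl
    have zn : ∀ x : Fin (m + 1) → ℝ, (-x) 0 = -x 0 := fun _ => rfl
    let F : (Fin (m + 1) → ℝ) → (Fin m → ℝ) × ℝ × ℝ :=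
      fun x => (Fin.tail x, 8 * x 0 - 2, 2 * h (Fin.tail x))
    have hF : Continuous F := by
      simp only [F]
      exact htail.prodMk ((by fun_prop : Continuous fun x : Fin (m + 1) → ℝ => 8 * x 0 - 2).prodMk
        (continuous_const.mul (hc.comp htail)))
    let cp : (Fin (m + 1) → ℝ) → (Fin (m + 1) → ℝ) → Γ'.G :=
      fun a b => (ι (g (Fin.tail a)))⁻¹ * e (F a) (F b) * ((ι (g (Fin.tail b)))⁻¹)⁻¹
    have cpS : ∀ a b, (cp a b, ε (Fin.tail a) * ε (Fin.tail b)) ∈ Γ'.S := by
      intro a b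
      have := Γ'.S.mul_mem (Γ'.S.mul_mem (Γ'.S.inv_mem (hι _ _ (hg (Fin.tail a))))
        (k2 (F a) (F b))) (hι _ _ (hg (Fin.tail b)))
      convert this using 1
      refine Prod.ext ?_ ?_
      · simp [cp]
      · show _ = (ε (Fin.tail a))⁻¹ * 1 * ε (Fin.tail b)
        rw [Int.units_inv_eq_self, mul_one]
    have cpE : ∀ a b : Fin (m + 1) → ℝ, a 0 ≤ 1 / 8 → b 0 ≤ 1 / 8 →
        (c (Fin.tail a) (Fin.tail b), ε (Fin.tail a) * ε (Fin.tail b)) ∈ Γ.S →
        cp a b = ι (c (Fin.tail a) (Fin.tail b)) := by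
      intro a b ha hb hab
      simp only [cp]
      rw [k4 (F a) (F b) (by simp only [F]; linarith) (by simp only [F]; linarith)]
      simp only [F]
      rw [hP _ _ hab, map_mul, map_mul, map_inv]
      group
    have hsmall : ∀ x, |k (F x)| < 1 → |h (Fin.tail x)| < 1 / 2 := by
      intro x hx
      by_contra hcon
      have h1 : 1 ≤ |2 * h (Fin.tail x)| := by
        rw [abs_mul, abs_two]
        linarith [not_lt.1 hcon]
      rw [k3 (F x) (Or.inr h1)] at hx
      exact absurd (cl_lt hx) (not_lt.2 h1)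
    have up : ∀ x, ‖x‖ = 1 → 0 ≤ x 0 → |k (F x)| < 1 → Loc cp x := by
      intro x hx h0 hk
      refine Loc.gauge (c := fun a b => e (F a) (F b)) ?_ _
      by_cases h1 : 3 / 8 < x 0
      · refine (Loc.one x).congr (mem_gt h0c h1) fun a ha b hb => ?_
        have ha' : 3 / 8 < a 0 := ha
        have hb' : 3 / 8 < b 0 := hb
        exact k5 (F a) (F b) (by simp only [F]; linarith) (by simp only [F]; linarith)
      · refine (k6 (F x) ?_ hk).comp hF.continuousAt
        have hxK : Fin.tail x ∈ K :=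
          ⟨norm_tail hx (abs_lt.2 ⟨by linarith, by linarith⟩), (hsmall x hk).le⟩
        obtain ⟨y, hy, hxy⟩ := mem_iUnion₂.1 (hcov hxK)
        refine ⟨_, List.mem_map.2 ⟨y, Finset.mem_toList.2 hy, rfl⟩, ?_⟩
        have h2 : 2 * dist (Fin.tail x) y / r y ≤ 1 := by
          rw [div_le_one (hr0 y (ht y hy))]
          linarith [mem_ball.1 hxy]
        simp only [F]
        linarith
    have eq0 : ∀ x : Fin (m + 1) → ℝ, x 0 = 0 → k (F (-x)) = -k (F x) := by
      intro x hx
      rw [k3 (F x) (Or.inl (by simp only [F, hx]; norm_num)),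
        k3 (F (-x)) (Or.inl (by simp only [F, zn, hx]; norm_num))]
      simp only [F, tn, hodd, mul_neg, cl_neg]
    refine ⟨Γ', fun x => if 0 ≤ x 0 then k (F x) else -k (F (-x)),
      fun a b => if 0 ≤ a 0 then cp a b else cp (-a) (-b),
      fun a => if 0 ≤ a 0 then ε (Fin.tail a) else -ε (Fin.tail (-a)), ?_, ?_, ?_⟩
    · refine Continuous.if_le (k1.comp hF) ((k1.comp hF).comp continuous_neg).neg continuous_const
        h0c fun x hx => ?_
      rw [eq0 x hx.symm, neg_neg]
    · intro x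
      rcases lt_trichotomy (x 0) 0 with h0 | h0 | h0
      · simp only [zn]
        rw [if_pos (by linarith), if_neg (by linarith), neg_neg]
      · simp only [zn]
        rw [if_pos (by linarith), if_pos (by linarith), eq0 x h0]
      · simp only [zn]
        rw [if_neg (by linarith), if_pos (by linarith), neg_neg]
    · intro x hx hk
      beta_reduce at hk
      rcases lt_trichotomy (x 0) 0 with h0 | h0 | h0
      · rw [if_neg (by linarith), abs_neg] at hk
        obtain ⟨V, hV, hL⟩ := up (-x) (by rwa [norm_neg]) (by rw [zn]; linarith) hk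
        refine ⟨(fun a => -a) ⁻¹' V ∩ {a | a 0 < 0},
          Filter.inter_mem (continuous_neg.continuousAt hV) (mem_lt h0c h0), fun a ha b hb => ?_⟩
        have ha' : a 0 < 0 := ha.2
        have hb' : b 0 < 0 := hb.2
        simp only [zn]
        rw [if_neg (by linarith), if_neg (by linarith), if_neg (by linarith), if_pos (by linarith),
          if_pos (by linarith), neg_mul_neg, neg_neg]
        refine ⟨fun d hd => ?_, cpS _ _, rfl, rfl⟩
        rw [if_neg (by linarith), if_neg (by linarith)]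
        exact hL _ ha.1 _ hb.1 _ hd.1
      · rw [if_pos (by linarith)] at hk
        obtain ⟨U, hU, hG⟩ := hgood (Fin.tail x) (norm_tail hx (by rw [h0]; norm_num))
          ((hsmall x hk).trans (by norm_num))
        have hU' : Fin.tail ⁻¹' U ∩ {a : Fin (m + 1) → ℝ | |a 0| < 1 / 8} ∈ 𝓝 x :=
          Filter.inter_mem (htail.continuousAt hU) (mem_lt h0c.abs (by rw [h0]; norm_num))
        have e1 : ∀ a ∈ Fin.tail ⁻¹' U ∩ {a : Fin (m + 1) → ℝ | |a 0| < 1 / 8},
            ∀ b ∈ Fin.tail ⁻¹' U ∩ {a : Fin (m + 1) → ℝ | |a 0| < 1 / 8},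
            cp a b = ι (c (Fin.tail a) (Fin.tail b)) ∧
              cp (-a) (-b) = ι (c (Fin.tail a) (Fin.tail b)) := by
          intro a ha b hb
          have ha' := abs_lt.1 (show |a 0| < 1 / 8 from ha.2)
          have hb' := abs_lt.1 (show |b 0| < 1 / 8 from hb.2)
          have G := hG _ ha.1 _ hb.1
          refine ⟨cpE a b ha'.2.le hb'.2.le G.2.1, ?_⟩
          rw [cpE (-a) (-b) (by rw [zn]; linarith) (by rw [zn]; linarith), tn, tn, G.2.2.1]
          rw [tn, tn, G.2.2.1, G.2.2.2, (hG _ hb.1 _ ha.1).2.2.2, neg_mul_neg]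
          exact G.2.1
        have e2 : ∀ a ∈ Fin.tail ⁻¹' U ∩ {a : Fin (m + 1) → ℝ | |a 0| < 1 / 8},
            (if 0 ≤ a 0 then ε (Fin.tail a) else -ε (Fin.tail (-a))) = ε (Fin.tail a) := by
          intro a ha
          rw [tn, (hG _ ha.1 _ ha.1).2.2.2, neg_neg, ite_self]
        refine ⟨_, hU', fun a ha b hb => ?_⟩
        beta_reduce
        rw [e2 a ha, e2 b hb, neg_neg, neg_neg, (e1 a ha b hb).1, (e1 a ha b hb).2, ite_self,
          ite_self, tn, (hG _ ha.1 _ ha.1).2.2.2, ite_self]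
        refine ⟨fun d hd => ?_, hι _ _ (hG _ ha.1 _ hb.1).2.1, rfl, rfl⟩
        rw [(e1 b hb d hd).1, (e1 b hb d hd).2, (e1 a ha d hd).1, (e1 a ha d hd).2, ite_self,
          ite_self, ← map_mul, (hG _ ha.1 _ hb.1).1 _ hd.1]
      · rw [if_pos (by linarith)] at hk
        obtain ⟨V, hV, hL⟩ := up x hx h0.le hk
        refine ⟨V ∩ {a | 0 < a 0}, Filter.inter_mem hV (mem_gt h0c h0), fun a ha b hb => ?_⟩
        have ha' : 0 < a 0 := ha.2
        have hb' : 0 < b 0 := hb.2
        simp only [zn]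
        rw [if_pos (by linarith), if_pos (by linarith), if_pos (by linarith), if_neg (by linarith),
          if_neg (by linarith), neg_neg, neg_neg]
        refine ⟨fun d hd => ?_, cpS _ _, rfl, rfl⟩
        rw [if_pos (by linarith), if_pos (by linarith)]
        exact hL _ ha.1 _ hb.1 _ hd.1

end Pool.Agent.H799Z.Box
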