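import Pool.Agent.H799Z.BoxDefs
import Pool.Agent.H799Z.BoxSphere
import Pool.Agent.H799Z.BoxObs

/-!
A finite graph whose box complexes have coindices at most `1` and at least `n`.
-/

set_option autoImplicit false

open Topology Set Metric Filter

namespace Pool.Agent.H799Z.Box

section graph

variable {E : Type} [NormedAddCommGroup E] (t : Finset E) (η : ℝ)

/-- position of a vertex -/
def pos (v : Option t) : E := v.elim 0 (fun a => a.1)

/-- the graph on a net of the band, plus one isolated vertex -/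
def gr (ht : ∀ a ∈ t, 2 * η ≤ ‖a + a‖) : SimpleGraph (Option t) where
  Adj u v := u ≠ none ∧ v ≠ none ∧ ‖pos t u + pos t v‖ < 2 * η
  symm := ⟨fun _ _ h => ⟨h.2.1, h.1, by rw [add_comm]; exact h.2.2⟩⟩
  loopless := ⟨fun u h => by
    rcases u with _ | a
    · exact h.1 rfl
    · exact absurd h.2.2 (not_lt.2 (ht a.1 a.2))⟩

/-- unnormalised weights -/
noncomputable def wt (h : E → ℝ) (x : E) (v : Option t) : ℝ :=
  v.elim (max 0 (h x - 1 / 4)) fun a => max 0 (h x + 1 / 4) * max 0 (η - dist x a.1)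

variable {t η} {h : E → ℝ}

lemma wt_nonneg (x : E) (v : Option t) : 0 ≤ wt t η h x v := by
  rcases v with _ | a
  · exact le_max_left _ _
  · exact mul_nonneg (le_max_left _ _) (le_max_left _ _)

lemma wt_cont (hc : Continuous h) (v : Option t) : Continuous fun x => wt t η h x v := by
  rcases v with _ | a <;> simp only [wt, Option.elim] <;> fun_prop

lemma wt_ne {x : E} {v : Option t} (hv : wt t η h x v ≠ 0) :
    -1 / 4 < h x ∧ (h x ≤ 1 / 4 → v ≠ none ∧ dist x (pos t v) < η) := by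
  rcases v with _ | a
  · have h1 : 1 / 4 < h x := by
      by_contra hc
      exact hv (max_eq_left (by linarith [not_lt.1 hc]))
    exact ⟨by linarith, fun h2 => absurd h1 (not_lt.2 h2)⟩
  · obtain ⟨h1, h2⟩ := mul_ne_zero_iff.1 hv
    refine ⟨?_, fun _ => ⟨by simp, ?_⟩⟩
    · by_contra hc
      exact h1 (max_eq_left (by linarith [not_lt.1 hc]))
    · by_contra hc
      have h3 : η ≤ dist x a.1 := not_lt.1 hc
      exact h2 (max_eq_left (by linarith))

lemma map_B0 (ht : ∀ a ∈ t, 2 * η ≤ ‖a + a‖) (hc : Continuous h) (hodd : ∀ x, h (-x) = -h x)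
    (hcov : ∀ x, ‖x‖ = 1 → |h x| ≤ 1 / 2 → ∃ a ∈ t, dist x a < η) :
    ∃ f : E → (Option t × Bool → ℝ), ContinuousOn f {x | ‖x‖ = 1} ∧
      (∀ x, ‖x‖ = 1 → f x ∈ realization (SimplexB0 (gr t η ht))) ∧ ∀ x, f (-x) = swap (f x) := by
  let raw : E → Option t × Bool → ℝ := fun x i => if i.2 then wt t η h x i.1 else wt t η h (-x) i.1
  have r0 : ∀ x i, 0 ≤ raw x i := fun x i => by
    simp only [raw]
    split_ifs <;> exact wt_nonneg _ _
  have rc : ∀ i, Continuous fun x => raw x i := fun i => by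
    simp only [raw]
    split_ifs
    · exact wt_cont hc _
    · exact (wt_cont hc _).comp continuous_neg
  have rs : ∀ x, raw (-x) = swap (raw x) := fun x => by
    ext ⟨v, b⟩
    cases b <;> simp [raw, swap]
  have ss : ∀ x, ∑ i, raw (-x) i = ∑ i, raw x i := fun x => by
    simp only [Fintype.sum_prod_type, Fintype.sum_bool, raw]
    simp [add_comm]
  have p1 : ∀ x, ‖x‖ = 1 → 0 ≤ h x → 0 < ∑ i, raw x i := by
    intro x hx h0
    obtain ⟨v, hv⟩ : ∃ v, 0 < wt t η h x v := by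
      by_cases h1 : 1 / 4 < h x
      · exact ⟨none, lt_max_of_lt_right (by linarith)⟩
      · obtain ⟨a, ha, hd⟩ := hcov x hx (abs_le.2 ⟨by linarith, by linarith⟩)
        exact ⟨some ⟨a, ha⟩, mul_pos (lt_max_of_lt_right (by linarith))
          (lt_max_of_lt_right (by linarith))⟩
    exact Finset.sum_pos' (fun i _ => r0 x i) ⟨(v, true), Finset.mem_univ _, hv⟩
  have p2 : ∀ x, ‖x‖ = 1 → 0 < ∑ i, raw x i := by
    intro x hx
    rcases le_total 0 (h x) with h0 | h0
    · exact p1 x hx h0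
    · rw [← ss]
      exact p1 (-x) (by rwa [norm_neg]) (by rw [hodd]; linarith)
  refine ⟨fun x i => raw x i / ∑ j, raw x j, continuousOn_pi.2 fun i => (rc i).continuousOn.div
    (continuous_finsetSum _ fun j _ => rc j).continuousOn fun x hx => (p2 x hx).ne',
    fun x hx => ⟨fun i => div_nonneg (r0 x i) (p2 x hx).le, ?_, ?_⟩, fun x => ?_⟩
  · rw [← Finset.sum_div, div_self (p2 x hx).ne']
  · have key : ∀ a ∈ {v | raw x (v, true) / ∑ j, raw x j ≠ 0},
        ∀ b ∈ {v | raw x (v, false) / ∑ j, raw x j ≠ 0}, (gr t η ht).Adj a b := by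
      intro a ha b hb
      have h1 := wt_ne (div_ne_zero_iff.1 ha).1
      have h2 := wt_ne (div_ne_zero_iff.1 hb).1
      rw [hodd] at h2
      obtain ⟨a1, a2⟩ := h1.2 (by linarith [h2.1])
      obtain ⟨b1, b2⟩ := h2.2 (by linarith [h1.1])
      refine ⟨a1, b1, ?_⟩
      rw [dist_eq_norm] at a2 b2
      have : pos t a + pos t b = -(x - pos t a) + -(-x - pos t b) := by abel
      rw [this]
      refine (norm_add_le _ _).trans_lt ?_
      rw [norm_neg, norm_neg]
      linarith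
    exact ⟨disjoint_left.2 fun a ha hb => (gr t η ht).irrefl (key a ha a hb), key⟩
  · ext i
    show raw (-x) i / ∑ j, raw (-x) j = _
    rw [ss, rs]
    rfl

/-- position of a vertex of the box complex -/
def spos (i : Option t × Bool) : E := if i.2 then pos t i.1 else -pos t i.1

lemma close_B {ht : ∀ a ∈ t, 2 * η ≤ ‖a + a‖} {y : Option t × Bool → ℝ}
    (hy : y ∈ realization (SimplexB (gr t η ht))) {i j : Option t × Bool} (hi : y i ≠ 0)
    (hj : y j ≠ 0) : i.1 ≠ none ∧ dist (spos i) (spos j) < 4 * η := by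
  obtain ⟨-, -, ⟨-, h1⟩, ⟨z, hz⟩, ⟨z', hz'⟩⟩ := hy
  have tri : ∀ a b z : E, ‖a + z‖ < 2 * η → ‖b + z‖ < 2 * η → dist a b < 4 * η := by
    intro a b z ha hb
    rw [dist_eq_norm, show a - b = (a + z) - (b + z) by abel]
    linarith [norm_sub_le (a + z) (b + z)]
  obtain ⟨u, _ | _⟩ := i <;> obtain ⟨v, _ | _⟩ := j
  · refine ⟨(hz' u hi).1, ?_⟩
    simp only [spos, Bool.false_eq_true, if_false, dist_neg_neg]
    exact tri _ _ _ (hz' u hi).2.2 (hz' v hj).2.2
  · refine ⟨(hz' u hi).1, ?_⟩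
    have := (h1 v hj u hi).2.2
    simp only [spos, Bool.false_eq_true, if_false, if_true, dist_eq_norm]
    rw [show -pos t u - pos t v = -(pos t v + pos t u) by abel, norm_neg]
    linarith [norm_nonneg (pos t v + pos t u)]
  · refine ⟨(hz u hi).1, ?_⟩
    have := (h1 u hi v hj).2.2
    simp only [spos, Bool.false_eq_true, if_false, if_true, dist_eq_norm, sub_neg_eq_add]
    linarith [norm_nonneg (pos t u + pos t v)]
  · refine ⟨(hz u hi).1, ?_⟩
    simp only [spos, if_true]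
    exact tri _ _ _ (hz u hi).2.2 (hz v hj).2.2

lemma exists_pick (ht : ∀ a ∈ t, 2 * η ≤ ‖a + a‖) :
    ∃ q : (Option t × Bool → ℝ) → E, ∀ y ∈ realization (SimplexB (gr t η ht)),
      (∃ i, y i ≠ 0 ∧ q y = spos i) ∧ q (swap y) = -q y := by
  classical
  let pick : Set (Option t) → Option t := fun s => if h : s.Nonempty then h.some else none
  let u : (Option t × Bool → ℝ) → Option t :=
    fun y => pick {v | y (v, true) ≠ 0 ∨ y (v, false) ≠ 0}
  refine ⟨fun y => if y (u y, true) ≠ 0 then pos t (u y) else -pos t (u y), fun y hy => ?_⟩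
  have hne : {v | y (v, true) ≠ 0 ∨ y (v, false) ≠ 0}.Nonempty := by
    by_contra hc
    have h1 : ∀ i, y i = 0 := by
      rintro ⟨v, b⟩
      by_contra h2
      refine hc ⟨v, ?_⟩
      cases b
      · exact Or.inr h2
      · exact Or.inl h2
    have h2 := hy.2.1
    simp [h1] at h2
  have hu : y (u y, true) ≠ 0 ∨ y (u y, false) ≠ 0 := by
    have := hne.some_mem
    simp only [u, pick, dif_pos hne]
    exact this
  have hs : u (swap y) = u y := by
    simp only [u, swap, Bool.not_true, Bool.not_false, or_comm]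
  have hd : y (u y, true) ≠ 0 → y (u y, false) ≠ 0 → False :=
    fun h1 h2 => disjoint_left.1 hy.2.2.1.1 h1 h2
  beta_reduce
  rw [hs]
  by_cases h1 : y (u y, true) ≠ 0
  · rw [if_pos h1, if_neg (show ¬swap y (u y, true) ≠ 0 from fun h2 => hd h1 h2)]
    exact ⟨⟨(u y, true), h1, rfl⟩, rfl⟩
  · rw [if_neg h1, if_pos (show swap y (u y, true) ≠ 0 from hu.resolve_left h1), neg_neg]
    exact ⟨⟨(u y, false), hu.resolve_left h1, rfl⟩, rfl⟩

end graph

lemma exists_psi (j : ℕ) : ∃ ψ : ℝ × ℝ → sphere (0 : EuclideanSpace ℝ (Fin (j + 2 + 1))) 1,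
    Continuous ψ ∧ ∀ p, ‖p‖ = 1 → ψ (-p) = -ψ p := by
  let w : ℝ × ℝ → EuclideanSpace ℝ (Fin (j + 2 + 1)) := fun p =>
    p.1 • EuclideanSpace.single 0 1 + p.2 • EuclideanSpace.single 1 1 +
      (1 - ‖p‖) • EuclideanSpace.single 2 1
  have wc : Continuous w := by simp only [w]; fun_prop
  have n01 : (0 : Fin (j + 2 + 1)) ≠ 1 := by simp
  have n02 : (0 : Fin (j + 2 + 1)) ≠ 2 := by
    simp [Fin.ext_iff, Nat.mod_eq_of_lt (show 2 < j + 2 + 1 by omega)]
  have n12 : (1 : Fin (j + 2 + 1)) ≠ 2 := by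
    simp [Fin.ext_iff, Nat.mod_eq_of_lt (show 2 < j + 2 + 1 by omega)]
  have w0 : ∀ p, ‖w p‖ ≠ 0 := by
    intro p hp
    have h0 := norm_eq_zero.1 hp
    have h1 : p.1 = 0 := by
      simpa [w, n01, n02, n12, n01.symm, n02.symm, n12.symm] using congrArg (fun z => z 0) h0
    have h2 : p.2 = 0 := by
      simpa [w, n01, n02, n12, n01.symm, n02.symm, n12.symm] using congrArg (fun z => z 1) h0
    have h3 : 1 - ‖p‖ = 0 := by
      simpa [w, n01, n02, n12, n01.symm, n02.symm, n12.symm] using congrArg (fun z => z 2) h0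
    rw [show p = 0 from Prod.ext h1 h2, norm_zero] at h3
    norm_num at h3
  have w1 : ∀ p, ‖w p‖⁻¹ • w p ∈ sphere (0 : EuclideanSpace ℝ (Fin (j + 2 + 1))) 1 := fun p => by
    rw [mem_sphere_zero_iff_norm, norm_smul, norm_inv, norm_norm, inv_mul_cancel₀ (w0 p)]
  refine ⟨fun p => ⟨‖w p‖⁻¹ • w p, w1 p⟩,
    ((wc.norm.inv₀ w0).smul wc).subtype_mk w1, fun p hp => Subtype.ext ?_⟩
  have : w (-p) = -w p := by
    simp only [w, norm_neg, hp, Prod.fst_neg, Prod.snd_neg, sub_self, zero_smul, add_zero, neg_smul,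
      neg_add]
  simp [this]

theorem main (n : ℕ) : ∃ (V : Type) (_ : Fintype V) (G : SimpleGraph V),
    HasEquivMap n (realization (SimplexB0 G)) ∧
      ∀ k, 2 ≤ k → ¬HasEquivMap k (realization (SimplexB G)) := by
  obtain ⟨Γ, h, c, ε, hc, hodd, hgood⟩ := sphereData (n + 1)
  let K : Set (Fin (n + 1) → ℝ) := {x | ‖x‖ = 1 ∧ |h x| ≤ 1 / 2}
  have hK : IsCompact K := by
    refine (isCompact_sphere (0 : Fin (n + 1) → ℝ) 1).of_isClosed_subset
      ((isClosed_eq continuous_norm continuous_const).inter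
        (isClosed_le hc.abs continuous_const)) fun x hx => ?_
    simpa using hx.1
  obtain ⟨δ, hδ, hG⟩ : ∃ δ > 0, ∀ x ∈ K, GoodOn Γ c ε (ball x δ) := by
    obtain ⟨δ, hδ, h1⟩ := lebesgue_number_lemma_of_metric_sUnion hK
      (c := {U | IsOpen U ∧ GoodOn Γ c ε U}) (fun U hU => hU.1) (fun x hx => by
        obtain ⟨U, hU, hg⟩ := hgood x hx.1 (hx.2.trans_lt (by norm_num))
        exact ⟨interior U, ⟨isOpen_interior, hg.mono interior_subset⟩,
          mem_interior_iff_mem_nhds.2 hU⟩)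
    refine ⟨δ, hδ, fun x hx => ?_⟩
    obtain ⟨U, hU, hb⟩ := h1 x hx
    exact hU.2.mono hb
  obtain ⟨η, hη, η1, η2⟩ : ∃ η > 0, η ≤ 1 ∧ 4 * η ≤ δ :=
    ⟨min 1 (δ / 4), by positivity, min_le_left _ _, by linarith [min_le_right 1 (δ / 4)]⟩
  obtain ⟨t, ht, hcov⟩ := hK.elim_nhds_subcover (fun x => ball x η) fun x _ => ball_mem_nhds x hη
  have ht' : ∀ a ∈ t, 2 * η ≤ ‖a + a‖ := by
    intro a ha
    rw [← two_smul ℝ a, norm_smul, (ht a ha).1]
    norm_num
    exact η1
  refine ⟨Option t, inferInstance, gr t η ht', ?_, ?_⟩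
  · obtain ⟨f, f1, f2, f3⟩ := map_B0 ht' hc hodd fun x h1 h2 => by
      obtain ⟨a, ha, hx⟩ := mem_iUnion₂.1 (hcov (show x ∈ K from ⟨h1, h2⟩))
      exact ⟨a, ha, hx⟩
    have o0 : ∀ y : sphere (0 : EuclideanSpace ℝ (Fin (n + 1))) 1, ‖y.1.ofLp‖ ≠ 0 := by
      intro y hy
      have h1 : y.1 = 0 := by
        ext i
        exact congrFun (norm_eq_zero.1 hy) i
      have h2 := mem_sphere_zero_iff_norm.1 y.2
      rw [h1, norm_zero] at h2
      exact zero_ne_one h2
    have oc : Continuous fun y : sphere (0 : EuclideanSpace ℝ (Fin (n + 1))) 1 => y.1.ofLp := by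
      fun_prop
    have o1 : ∀ y : sphere (0 : EuclideanSpace ℝ (Fin (n + 1))) 1,
        ‖‖y.1.ofLp‖⁻¹ • y.1.ofLp‖ = 1 := fun y => by
      rw [norm_smul, norm_inv, norm_norm, inv_mul_cancel₀ (o0 y)]
    refine ⟨fun y => f (‖y.1.ofLp‖⁻¹ • y.1.ofLp),
      f1.comp_continuous ((oc.norm.inv₀ o0).smul oc) o1, fun y => f2 _ (o1 y), fun y => ?_⟩
    rw [← f3]
    simp
  · rintro k hk ⟨f, f1, f2, f3⟩
    obtain ⟨j, rfl⟩ : ∃ j, k = j + 2 := ⟨k - 2, by omega⟩
    obtain ⟨ψ, ψ1, ψ2⟩ := exists_psi j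
    obtain ⟨q, hq⟩ := exists_pick ht'
    have near : ∀ x, ∃ U ∈ 𝓝 x, ∃ z ∈ K, ∀ p ∈ U, q (f (ψ p)) ∈ ball z δ := by
      intro x
      obtain ⟨i, hi, -⟩ := (hq _ (f2 (ψ x))).1
      refine ⟨{p | f (ψ p) i ≠ 0}, (isOpen_ne_fun ((continuous_apply i).comp (f1.comp ψ1))
        continuous_const).mem_nhds hi, spos i, ?_, fun p hp => ?_⟩
      · have h1 := (close_B (f2 (ψ x)) hi hi).1
        obtain ⟨_ | a, b⟩ := i
        · exact absurd rfl h1
        · have h2 := ht a.1 a.2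
          cases b
          · exact ⟨(norm_neg _).trans h2.1, by
              show |h (-a.1)| ≤ _
              rw [hodd, abs_neg]
              exact h2.2⟩
          · exact h2
      · obtain ⟨i', hi', e⟩ := (hq _ (f2 (ψ p))).1
        rw [e]
        exact (close_B (f2 (ψ p)) hi' hp).2.trans_le η2
    refine obstruct (Γ := Γ) (c := fun a b => c (q (f (ψ a))) (q (f (ψ b))))
      (ε := fun a => ε (q (f (ψ a)))) (fun x => ?_) fun x hx => ?_
    · obtain ⟨U, hU, z, hz, hb⟩ := near x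
      exact ⟨U, hU, fun a ha b hb' => ⟨fun d hd => (hG z hz _ (hb a ha) _ (hb b hb')).1 _ (hb d hd),
        (hG z hz _ (hb a ha) _ (hb b hb')).2.1⟩⟩
    · obtain ⟨U, hU, z, hz, hb⟩ := near x
      have e : ∀ p, ‖p‖ = 1 → q (f (ψ (-p))) = -q (f (ψ p)) := fun p hp => by
        rw [ψ2 p hp, f3, (hq _ (f2 _)).2]
      have hx' := hb x (mem_of_mem_nhds hU)
      refine ⟨by rw [e x hx]; exact (hG z hz _ hx' _ hx').2.2.2, ?_⟩
      filter_upwards [hU] with y hy hy1
      rw [e x hx, e y hy1]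
      exact (hG z hz _ hx' _ (hb y hy)).2.2.1

end Pool.Agent.H799Z.Box
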