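import Mathlib

/-!
Local cocycles (flat bundles written in a set-theoretic trivialisation) and homotopies between
their suspensions.
-/

set_option autoImplicit false

open Topology Set

namespace Pool.Agent.H799Z.Box

variable {X Y Z : Type*} [TopologicalSpace X] [TopologicalSpace Y] [TopologicalSpace Z]
  {H H' : Type*} [Group H] [Group H']

/-- `c` satisfies the cocycle identity near `x`. -/
def Loc (c : X → X → H) (x : X) : Prop :=
  ∃ V ∈ 𝓝 x, ∀ a ∈ V, ∀ b ∈ V, ∀ d ∈ V, c a b * c b d = c a d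

lemma Loc.congr {c c' : X → X → H} {x : X} (h : Loc c x) {U : Set X} (hU : U ∈ 𝓝 x)
    (he : ∀ a ∈ U, ∀ b ∈ U, c' a b = c a b) : Loc c' x := by
  obtain ⟨V, hV, h⟩ := h
  refine ⟨V ∩ U, Filter.inter_mem hV hU, fun a ha b hb d hd => ?_⟩
  rw [he a ha.2 b hb.2, he b hb.2 d hd.2, he a ha.2 d hd.2]
  exact h a ha.1 b hb.1 d hd.1

lemma Loc.comp {c : X → X → H} {f : Y → X} {y : Y} (h : Loc c (f y)) (hf : ContinuousAt f y) :
    Loc (fun a b => c (f a) (f b)) y := by
  obtain ⟨V, hV, h⟩ := h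
  exact ⟨f ⁻¹' V, hf hV, fun a ha b hb d hd => h _ ha _ hb _ hd⟩

lemma Loc.mul {c c' : X → X → H} {x : X} (h : Loc c x) (h' : Loc c' x)
    (hc : ∀ a b a' b', Commute (c a b) (c' a' b')) : Loc (fun a b => c a b * c' a b) x := by
  obtain ⟨V, hV, h⟩ := h
  obtain ⟨V', hV', h'⟩ := h'
  refine ⟨V ∩ V', Filter.inter_mem hV hV', fun a ha b hb d hd => ?_⟩
  show c a b * c' a b * (c b d * c' b d) = c a d * c' a d
  rw [← h a ha.1 b hb.1 d hd.1, ← h' a ha.2 b hb.2 d hd.2, mul_assoc, mul_assoc,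
    ← mul_assoc (c' a b), ← (hc b d a b).eq, mul_assoc]

lemma Loc.map {c : X → X → H} {x : X} (h : Loc c x) (φ : H →* H') :
    Loc (fun a b => φ (c a b)) x := by
  obtain ⟨V, hV, h⟩ := h
  exact ⟨V, hV, fun a ha b hb d hd => by
    show φ (c a b) * φ (c b d) = φ (c a d)
    rw [← map_mul, h a ha b hb d hd]⟩

lemma Loc.gauge {c : X → X → H} {x : X} (h : Loc c x) (g : X → H) :
    Loc (fun a b => g a * c a b * (g b)⁻¹) x := by
  obtain ⟨V, hV, h⟩ := h
  refine ⟨V, hV, fun a ha b hb d hd => ?_⟩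
  show g a * c a b * (g b)⁻¹ * (g b * c b d * (g d)⁻¹) = g a * c a d * (g d)⁻¹
  rw [← h a ha b hb d hd]
  group

lemma Loc.one (x : X) : Loc (fun _ _ => (1 : H)) x :=
  ⟨univ, Filter.univ_mem, fun _ _ _ _ _ _ => mul_one 1⟩

/-- clamp to `[-1, 1]` -/
def cl (s : ℝ) : ℝ := max (-1) (min 1 s)

lemma cl_cont : Continuous cl := by unfold cl; fun_prop

lemma cl_ge {s : ℝ} (h : 1 ≤ s) : cl s = 1 := by
  unfold cl; rw [min_eq_left h]; norm_num

lemma cl_le {s : ℝ} (h : s ≤ -1) : cl s = -1 := by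
  unfold cl; rw [min_eq_right (by linarith), max_eq_left h]

lemma cl_lt {s : ℝ} (h : |cl s| < 1) : |s| < 1 := by
  by_contra hc
  rcases le_abs'.1 (not_lt.1 hc) with h1 | h1
  · rw [cl_le h1] at h; norm_num at h
  · rw [cl_ge h1] at h; norm_num at h

lemma cl_neg (s : ℝ) : cl (-s) = -cl s := by
  unfold cl
  rcases le_total s 1 with h | h <;> rcases le_total s (-1) with h' | h'
  · rw [min_eq_left (by linarith), min_eq_right h, max_eq_right (by linarith), max_eq_left h']
    norm_num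
  · rw [min_eq_right (by linarith), min_eq_right h, max_eq_right (by linarith), max_eq_right h']
  · linarith
  · rw [min_eq_right (by linarith), min_eq_left h, max_eq_left (by linarith),
      max_eq_right (by linarith)]

/-- A homotopy, valid over `W`, with values in `E`, between the suspensions of `P` and `P'`. -/
def RelM (M : ℝ) (E : Subgroup H) (W : Set Z) (P P' : Z → Z → H) : Prop :=
  ∃ (h : Z × ℝ × ℝ → ℝ) (c : Z × ℝ × ℝ → Z × ℝ × ℝ → H), Continuous h ∧ (∀ a b, c a b ∈ E) ∧
    (∀ a, (M ≤ |a.2.1| ∨ M ≤ |a.2.2|) → h a = cl a.2.2) ∧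
    (∀ a b, a.2.1 ≤ -M → b.2.1 ≤ -M → c a b = P a.1 b.1) ∧
    (∀ a b, M ≤ a.2.1 → M ≤ b.2.1 → c a b = P' a.1 b.1) ∧
    ∀ a, a.1 ∈ W → |h a| < 1 → Loc c a

variable {E E' : Subgroup H} {W W' : Set Z} {P P' P'' : Z → Z → H}

lemma RelM.normalize {M : ℝ} (hM : 1 ≤ M) (h : RelM M E W P P') : RelM 1 E W P P' := by
  obtain ⟨h, c, h1, h2, h3, h4, h5, h6⟩ := h
  let k : ℝ → ℝ := fun u => max 1 (min M (M * (2 - 2 * |u|)))
  let F : Z × ℝ × ℝ → Z × ℝ × ℝ := fun a => (a.1, 2 * M * a.2.1, k a.2.1 * a.2.2)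
  have hF : Continuous F := by simp only [F, k]; fun_prop
  refine ⟨h ∘ F, fun a b => c (F a) (F b), h1.comp hF, fun a b => h2 _ _, ?_, ?_, ?_, ?_⟩
  · intro a ha
    have hk1 : 1 ≤ k a.2.1 := le_max_left _ _
    have hA : 1 / 2 ≤ |a.2.1| → M ≤ |2 * M * a.2.1| := by
      intro h
      rw [abs_mul, abs_of_pos (by linarith : 0 < 2 * M)]
      nlinarith
    have hB : 1 ≤ |a.2.2| → cl (k a.2.1 * a.2.2) = cl a.2.2 := by
      intro h
      rcases le_abs'.1 h with h | h
      · rw [cl_le h, cl_le (by nlinarith)]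
      · rw [cl_ge h, cl_ge (by nlinarith)]
    show h (F a) = _
    rcases ha with ha | ha
    · rw [h3 (F a) (Or.inl (hA (by linarith)))]
      have : k a.2.1 = 1 := max_eq_left ((min_le_right _ _).trans (by nlinarith))
      show cl (k a.2.1 * a.2.2) = _
      rw [this, one_mul]
    · rcases le_total (1 / 2) |a.2.1| with hu | hu
      · rw [h3 (F a) (Or.inl (hA hu))]
        exact hB ha
      · have : k a.2.1 = M := by
          simp only [k]
          rw [min_eq_left (by nlinarith), max_eq_right hM]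
        rw [h3 (F a) (Or.inr ?_)]
        · exact hB ha
        · show M ≤ |k a.2.1 * a.2.2|
          rw [this, abs_mul, abs_of_pos (by linarith : 0 < M)]
          nlinarith
  · intro a b ha hb
    exact h4 (F a) (F b) (by simp only [F]; nlinarith) (by simp only [F]; nlinarith)
  · intro a b ha hb
    exact h5 (F a) (F b) (by simp only [F]; nlinarith) (by simp only [F]; nlinarith)
  · intro a ha hh
    exact (h6 (F a) ha hh).comp hF.continuousAt

lemma RelM.mono {M : ℝ} (h : RelM M E W P P') (hE : E ≤ E') : RelM M E' W P P' := by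
  obtain ⟨h, c, h1, h2, h3⟩ := h
  exact ⟨h, c, h1, fun a b => hE (h2 a b), h3⟩

lemma RelM.map {M : ℝ} (h : RelM M E W P P') (φ : H →* H') :
    RelM M (E.map φ) W (fun a b => φ (P a b)) (fun a b => φ (P' a b)) := by
  obtain ⟨h, c, h1, h2, h3, h4, h5, h6⟩ := h
  exact ⟨h, fun a b => φ (c a b), h1, fun a b => ⟨_, h2 a b, rfl⟩, h3,
    fun a b ha hb => congrArg φ (h4 a b ha hb), fun a b ha hb => congrArg φ (h5 a b ha hb),
    fun a ha hh => (h6 a ha hh).map φ⟩

lemma mem_lt {f : X → ℝ} (hf : Continuous f) {x : X} {r : ℝ} (h : f x < r) :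
    {y | f y < r} ∈ 𝓝 x := (isOpen_lt hf continuous_const).mem_nhds h

lemma mem_gt {f : X → ℝ} (hf : Continuous f) {x : X} {r : ℝ} (h : r < f x) :
    {y | r < f y} ∈ 𝓝 x := (isOpen_lt continuous_const hf).mem_nhds h

lemma RelM.trans (h : RelM 1 E W P P') (h' : RelM 1 E W P' P'') : RelM 1 E W P P'' := by
  obtain ⟨h, c, h1, h2, h3, h4, h5, h6⟩ := h
  obtain ⟨k, e, k1, k2, k3, k4, k5, k6⟩ := h'
  let F : Z × ℝ × ℝ → Z × ℝ × ℝ := fun a => (a.1, a.2.1 + 2, a.2.2)
  let G : Z × ℝ × ℝ → Z × ℝ × ℝ := fun a => (a.1, a.2.1 - 2, a.2.2)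
  have hF : Continuous F := by simp only [F]; fun_prop
  have hG : Continuous G := by simp only [G]; fun_prop
  have hu : Continuous fun a : Z × ℝ × ℝ => a.2.1 := by fun_prop
  refine RelM.normalize (M := 3) (by norm_num) ⟨fun a => if a.2.1 ≤ 0 then h (F a) else k (G a),
    fun a b => if a.2.1 ≤ 0 then c (F a) (F b) else e (G a) (G b), ?_, ?_, ?_, ?_, ?_, ?_⟩
  · refine Continuous.if_le (h1.comp hF) (k1.comp hG) hu continuous_const fun a ha => ?_
    rw [h3 (F a) (Or.inl (by simp only [F, ha]; norm_num)),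
      k3 (G a) (Or.inl (by simp only [G, ha]; norm_num))]
  · intro a b
    beta_reduce
    split_ifs
    · exact h2 _ _
    · exact k2 _ _
  · intro a ha
    beta_reduce
    split_ifs with h0
    · refine h3 (F a) (ha.imp (fun ha => ?_) fun ha => le_trans (by norm_num) ha)
      rw [abs_of_nonpos h0] at ha
      exact le_abs'.2 (Or.inl (by simp only [F]; linarith))
    · refine k3 (G a) (ha.imp (fun ha => ?_) fun ha => le_trans (by norm_num) ha)
      rw [abs_of_pos (not_le.1 h0)] at ha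
      exact le_abs'.2 (Or.inr (by simp only [G]; linarith))
  · intro a b ha hb
    beta_reduce
    rw [if_pos (by linarith)]
    exact h4 (F a) (F b) (by simp only [F]; linarith) (by simp only [F]; linarith)
  · intro a b ha hb
    beta_reduce
    rw [if_neg (by linarith)]
    exact k5 (G a) (G b) (by simp only [G]; linarith) (by simp only [G]; linarith)
  · intro a ha hh
    beta_reduce at hh
    by_cases h0 : a.2.1 ≤ 0
    · rw [if_pos h0] at hh
      have hl := (h6 (F a) ha hh).comp hF.continuousAt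
      by_cases h00 : a.2.1 < 0
      · exact hl.congr (mem_lt hu h00) fun x hx y _ => if_pos (le_of_lt hx)
      · refine hl.congr (Filter.inter_mem (mem_lt hu (r := 1) (by linarith))
          (mem_gt hu (r := -1) (by linarith))) fun x hx y hy => ?_
        have x1 : x.2.1 < 1 := hx.1
        have x2 : -1 < x.2.1 := hx.2
        have y1 : y.2.1 < 1 := hy.1
        have y2 : -1 < y.2.1 := hy.2
        split_ifs
        · rfl
        · rw [k4 (G x) (G y) (by simp only [G]; linarith) (by simp only [G]; linarith),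
            h5 (F x) (F y) (by simp only [F]; linarith) (by simp only [F]; linarith)]
    · rw [if_neg h0] at hh
      exact ((k6 (G a) ha hh).comp hG.continuousAt).congr (mem_gt hu (not_le.1 h0))
        fun x hx y _ => if_neg (not_le.2 hx)

lemma RelM.gauge (hP : ∀ a b, P a b ∈ E) (hL : ∀ v ∈ W, Loc P v) (g : Z → H) (hg : ∀ a, g a ∈ E) :
    RelM 1 E W P (fun a b => g a * P a b * (g b)⁻¹) := by
  let G : Z × ℝ × ℝ → H := fun a => if a.2.1 ≤ 0 then 1 else g a.1
  have hG : ∀ a, G a ∈ E := fun a => by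
    simp only [G]
    split_ifs
    · exact E.one_mem
    · exact hg _
  refine ⟨fun a => cl a.2.2, fun a b => G a * P a.1 b.1 * (G b)⁻¹, cl_cont.comp (by fun_prop),
    fun a b => E.mul_mem (E.mul_mem (hG a) (hP _ _)) (E.inv_mem (hG b)), fun _ _ => rfl, ?_, ?_, ?_⟩
  · intro a b ha hb
    simp only [G]
    rw [if_pos (by linarith), if_pos (by linarith)]
    simp
  · intro a b ha hb
    simp only [G]
    rw [if_neg (by linarith), if_neg (by linarith)]
  · intro a ha _
    exact ((hL a.1 ha).comp continuous_fst.continuousAt).gauge G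

lemma RelM.empty (hP : ∀ a b, P a b ∈ E) : RelM 1 E (∅ : Set Z) P (fun _ _ => 1) := by
  refine ⟨fun a => cl a.2.2, fun a b => if a.2.1 ≤ 0 then P a.1 b.1 else 1,
    cl_cont.comp (by fun_prop), fun a b => ?_, fun _ _ => rfl,
    fun a b ha hb => if_pos (by linarith), fun a b ha hb => if_neg (by linarith),
    fun a ha => absurd ha (notMem_empty _)⟩
  beta_reduce
  split_ifs
  · exact hP _ _
  · exact E.one_mem

/-- height function of the saddle picture -/
noncomputable def sg (l u s : ℝ) : ℝ :=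
  min |u| 8 - max (8 - s) (4 - |s - 12|) + (1 - 2 * l) * max 0 (2 - |s - 8|)

lemma sg_facts {l : ℝ} (h0 : 0 ≤ l) (h1 : l ≤ 1) (u s : ℝ) :
    (8 ≤ |u| → cl (sg l u s) = cl s) ∧ (20 ≤ |s| → cl (sg l u s) = cl s ∧ 1 ≤ |sg l u s|) ∧
    (s = 12 → |u| ≤ 1 → 1 ≤ |sg l u s|) ∧ (l = 1 → |sg l u s| < 1 → s ≤ 12 → 1 < |u|) ∧
    (s = 8 → |sg l u s| < 1 → 0 < l) ∧ (|sg l u s| < 1 → 8 ≤ s → |u| < 8) := by
  have hb : 0 ≤ max 0 (2 - |s - 8|) := le_max_left _ _
  have hB1 : (1 - 2 * l) * max 0 (2 - |s - 8|) ≤ max 0 (2 - |s - 8|) := by nlinarith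
  have hB2 : -max 0 (2 - |s - 8|) ≤ (1 - 2 * l) * max 0 (2 - |s - 8|) := by nlinarith
  have hB3 : l = 1 → (1 - 2 * l) * max 0 (2 - |s - 8|) = -max 0 (2 - |s - 8|) := by
    rintro rfl; ring
  have hB4 : l = 0 → (1 - 2 * l) * max 0 (2 - |s - 8|) = max 0 (2 - |s - 8|) := by
    rintro rfl; ring
  have hu := abs_nonneg u
  unfold sg
  generalize (1 - 2 * l) * max 0 (2 - |s - 8|) = B at *
  generalize |u| = w at *
  refine ⟨fun hw => ?_, fun hs => ?_, fun hs hw => ?_, fun hl hs hw => ?_, fun hs hw => ?_,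
    fun hs hw => ?_⟩
  · rw [min_eq_right hw]
    rcases le_total s 6 with h | h
    · have e1 : max 0 (2 - |s - 8|) = 0 := max_eq_left (by rw [abs_of_nonpos (by linarith)]; linarith)
      have e2 : B = 0 := by linarith
      rw [max_eq_left (by rw [abs_of_nonpos (by linarith)]; linarith), e2]
      congr 1
      ring
    · rw [cl_ge (s := s) (by linarith), cl_ge]
      rcases abs_cases (s - 8) with h | h <;> rcases abs_cases (s - 12) with h' | h' <;>
        rcases max_cases 0 (2 - |s - 8|) with k | k <;>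
        rcases max_cases (8 - s) (4 - |s - 12|) with k' | k' <;> linarith
  · rcases le_abs'.1 hs with hs | hs
    · have : min w 8 - max (8 - s) (4 - |s - 12|) + B ≤ -1 := by
        rcases abs_cases (s - 8) with h | h <;> rcases abs_cases (s - 12) with h' | h' <;>
          rcases max_cases 0 (2 - |s - 8|) with k | k <;> rcases min_cases w 8 with m | m <;>
          rcases max_cases (8 - s) (4 - |s - 12|) with k' | k' <;> linarith
      exact ⟨by rw [cl_le this, cl_le (by linarith)], le_abs'.2 (Or.inl this)⟩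
    · have : 1 ≤ min w 8 - max (8 - s) (4 - |s - 12|) + B := by
        rcases abs_cases (s - 8) with h | h <;> rcases abs_cases (s - 12) with h' | h' <;>
          rcases max_cases 0 (2 - |s - 8|) with k | k <;> rcases min_cases w 8 with m | m <;>
          rcases max_cases (8 - s) (4 - |s - 12|) with k' | k' <;> linarith
      exact ⟨by rw [cl_ge this, cl_ge (by linarith)], le_abs'.2 (Or.inr this)⟩
  · refine le_abs'.2 (Or.inl ?_)
    rcases abs_cases (s - 8) with h | h <;> rcases abs_cases (s - 12) with h' | h' <;>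
      rcases max_cases 0 (2 - |s - 8|) with k | k <;> rcases min_cases w 8 with m | m <;>
      rcases max_cases (8 - s) (4 - |s - 12|) with k' | k' <;> linarith
  · have := hB3 hl
    have := (abs_lt.1 hs).1
    rcases abs_cases (s - 8) with h | h <;> rcases abs_cases (s - 12) with h' | h' <;>
      rcases max_cases 0 (2 - |s - 8|) with k | k <;> rcases min_cases w 8 with m | m <;>
      rcases max_cases (8 - s) (4 - |s - 12|) with k' | k' <;> linarith
  · refine lt_of_le_of_ne h0 fun hl => ?_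
    have := hB4 hl.symm
    have := (abs_lt.1 hw).2
    rcases abs_cases (s - 8) with h | h <;> rcases abs_cases (s - 12) with h' | h' <;>
      rcases max_cases 0 (2 - |s - 8|) with k | k <;> rcases min_cases w 8 with m | m <;>
      rcases max_cases (8 - s) (4 - |s - 12|) with k' | k' <;> linarith
  · have := (abs_lt.1 hs).2
    rcases abs_cases (s - 8) with h | h <;> rcases abs_cases (s - 12) with h' | h' <;>
      rcases max_cases 0 (2 - |s - 8|) with k | k <;> rcases min_cases w 8 with m | m <;>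
      rcases max_cases (8 - s) (4 - |s - 12|) with k' | k' <;> linarith

/-- The saddle lemma. -/
theorem saddle {Q₀ Q₁ : Z → Z → H} (lam : Z → ℝ) (hlam : Continuous lam) (l0 : ∀ v, 0 ≤ lam v)
    (l1 : ∀ v, lam v ≤ 1) (hW : ∀ v ∈ W, lam v < 1 → v ∈ W')
    (hO : ∀ a b, 0 < lam a → 0 < lam b → Q₀ a b = Q₁ a b)
    (LP : ∀ v ∈ W, Loc P v) (L0 : ∀ v ∈ W, Loc Q₀ v) (L1 : ∀ v ∈ W, Loc Q₁ v)
    (hE : E' ≤ E) (E0 : ∀ a b, Q₀ a b ∈ E) (E1 : ∀ a b, Q₁ a b ∈ E)
    (C0 : ∀ x ∈ E', ∀ a b, Commute x (Q₀ a b)) (C1 : ∀ x ∈ E', ∀ a b, Commute x (Q₁ a b))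
    (hN : RelM 1 E' W' P (fun _ _ => 1)) (hM : RelM 1 E W (fun a b => P a b * Q₁ a b) Q₁) :
    RelM 1 E W (fun a b => P a b * Q₀ a b) Q₀ := by
  obtain ⟨h, c, h1, h2, h3, h4, h5, h6⟩ := hN
  obtain ⟨k, e, k1, k2, k3, k4, k5, k6⟩ := hM
  let F : Z × ℝ × ℝ → Z × ℝ × ℝ := fun a => (a.1, a.2.1, sg (lam a.1) a.2.1 a.2.2)
  have hF : Continuous F := by simp only [F, sg]; fun_prop
  have hu : Continuous fun a : Z × ℝ × ℝ => a.2.1 := by fun_prop
  have hua : Continuous fun a : Z × ℝ × ℝ => |a.2.1| := by fun_prop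
  have hs : Continuous fun a : Z × ℝ × ℝ => a.2.2 := by fun_prop
  have fa := fun a : Z × ℝ × ℝ => sg_facts (l0 a.1) (l1 a.1) a.2.1 a.2.2
  refine RelM.normalize (M := 20) (by norm_num) ⟨fun a => if a.2.2 ≤ 12 then h (F a) else k (F a),
    fun a b => if a.2.2 ≤ 8 ∨ 8 ≤ |a.2.1| then c (F a) (F b) * Q₀ a.1 b.1 else
      if a.2.2 ≤ 12 then c (F a) (F b) * Q₁ a.1 b.1 else e (F a) (F b), ?_, ?_, ?_, ?_, ?_, ?_⟩
  · refine Continuous.if_le (h1.comp hF) (k1.comp hF) hs continuous_const fun a ha => ?_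
    have : 1 ≤ |(F a).2.1| ∨ 1 ≤ |(F a).2.2| := by
      rcases le_total 1 |a.2.1| with h | h
      · exact Or.inl h
      · exact Or.inr ((fa a).2.2.1 ha h)
    rw [h3 _ this, k3 _ this]
  · intro a b
    beta_reduce
    split_ifs
    · exact E.mul_mem (hE (h2 _ _)) (E0 _ _)
    · exact E.mul_mem (hE (h2 _ _)) (E1 _ _)
    · exact k2 _ _
  · intro a ha
    have h' : (1 ≤ |(F a).2.1| ∨ 1 ≤ |(F a).2.2|) ∧ cl (F a).2.2 = cl a.2.2 := by
      rcases ha with ha | ha
      · exact ⟨Or.inl (le_trans (by norm_num) ha), (fa a).1 (le_trans (by norm_num) ha)⟩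
      · exact ⟨Or.inr ((fa a).2.1 ha).2, ((fa a).2.1 ha).1⟩
    beta_reduce
    split_ifs
    · rw [h3 _ h'.1, h'.2]
    · rw [k3 _ h'.1, h'.2]
  · intro a b ha hb
    beta_reduce
    rw [if_pos (Or.inr (le_abs'.2 (Or.inl (by linarith)))),
      h4 (F a) (F b) (by simp only [F]; linarith) (by simp only [F]; linarith)]
  · intro a b ha hb
    beta_reduce
    rw [if_pos (Or.inr (le_abs'.2 (Or.inr (by linarith)))),
      h5 (F a) (F b) (by simp only [F]; linarith) (by simp only [F]; linarith), one_mul]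
  · intro a ha hh
    beta_reduce at hh
    have hsg : |sg (lam a.1) a.2.1 a.2.2| < 1 := by
      by_contra hc
      have : 1 ≤ |(F a).2.1| ∨ 1 ≤ |(F a).2.2| := Or.inr (not_lt.1 hc)
      rw [h3 _ this, k3 _ this, ite_self] at hh
      exact hc (cl_lt hh)
    by_cases h12 : a.2.2 ≤ 12
    · rw [if_pos h12] at hh
      have LN : Loc (fun x y => c (F x) (F y)) a := by
        rcases (l1 a.1).lt_or_eq with hl | hl
        · exact (h6 (F a) (hW _ ha hl) hh).comp hF.continuousAt
        · rcases lt_abs.1 ((fa a).2.2.2.1 hl hsg h12) with h' | h'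
          · exact (Loc.one a).congr (mem_gt hu h') fun x hx y hy =>
              h5 (F x) (F y) (le_of_lt hx) (le_of_lt hy)
          · exact ((LP a.1 ha).comp continuous_fst.continuousAt).congr
              (mem_lt hu (r := -1) (by linarith)) fun x hx y hy =>
              h4 (F x) (F y) (le_of_lt hx) (le_of_lt hy)
      have M0 := LN.mul ((L0 a.1 ha).comp continuous_fst.continuousAt)
        fun x y x' y' => C0 _ (h2 _ _) _ _
      have M1 := LN.mul ((L1 a.1 ha).comp continuous_fst.continuousAt)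
        fun x y x' y' => C1 _ (h2 _ _) _ _
      rcases lt_trichotomy a.2.2 8 with h8 | h8 | h8
      · exact M0.congr (mem_lt hs h8) fun x hx y _ => if_pos (Or.inl (le_of_lt hx))
      · refine M0.congr (Filter.inter_mem (mem_lt hs (r := 12) (by linarith))
          (mem_gt (hlam.comp continuous_fst) ((fa a).2.2.2.2.1 h8 hsg))) fun x hx y hy => ?_
        split_ifs with i1 i2
        · rfl
        · rw [hO x.1 y.1 hx.2 hy.2]
        · exact absurd (le_of_lt hx.1) i2
      · have hu8 := (fa a).2.2.2.2.2 hsg h8.le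
        have hz : ∀ x : Z × ℝ × ℝ, 8 < x.2.2 → |x.2.1| < 8 → ¬(x.2.2 ≤ 8 ∨ 8 ≤ |x.2.1|) :=
          fun x p q => not_or.2 ⟨not_le.2 p, not_le.2 q⟩
        rcases h12.lt_or_eq with h12' | h12'
        · refine M1.congr (Filter.inter_mem (Filter.inter_mem (mem_gt hs h8) (mem_lt hua hu8))
            (mem_lt hs h12')) fun x hx y _ => ?_
          rw [if_neg (hz x hx.1.1 hx.1.2), if_pos (le_of_lt hx.2)]
        · have hu1 : 1 < |a.2.1| := by
            by_contra hc
            exact absurd ((fa a).2.2.1 h12' (not_lt.1 hc)) (not_le.2 hsg)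
          rcases lt_abs.1 hu1 with h' | h'
          · refine M1.congr (Filter.inter_mem (Filter.inter_mem (mem_gt hs h8) (mem_lt hua hu8))
              (mem_gt hu h')) fun x hx y hy => ?_
            rw [if_neg (hz x hx.1.1 hx.1.2)]
            split_ifs
            · rfl
            · rw [k5 (F x) (F y) (le_of_lt hx.2) (le_of_lt hy.2),
                h5 (F x) (F y) (le_of_lt hx.2) (le_of_lt hy.2), one_mul]
          · refine M1.congr (Filter.inter_mem (Filter.inter_mem (mem_gt hs h8) (mem_lt hua hu8))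
              (mem_lt hu (r := -1) (by linarith))) fun x hx y hy => ?_
            rw [if_neg (hz x hx.1.1 hx.1.2)]
            split_ifs
            · rfl
            · rw [k4 (F x) (F y) (le_of_lt hx.2) (le_of_lt hy.2),
                h4 (F x) (F y) (le_of_lt hx.2) (le_of_lt hy.2)]
    · rw [if_neg h12] at hh
      have h12' := not_le.1 h12
      have hu8 := (fa a).2.2.2.2.2 hsg (by linarith)
      refine ((k6 (F a) ha hh).comp hF.continuousAt).congr
        (Filter.inter_mem (mem_gt hs h12') (mem_lt hua hu8)) fun x hx y _ => ?_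
      have x1 : 12 < x.2.2 := hx.1
      have x2 : |x.2.1| < 8 := hx.2
      rw [if_neg (not_or.2 ⟨by linarith, by linarith⟩), if_neg (by linarith)]

end Pool.Agent.H799Z.Box
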