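import Pool.Agent.H799Z.BoxRel

/-!
An Eilenberg swindle in a wreath product: the suspension of a flat bundle that is trivial on each
of finitely many open sets becomes trivial after enlarging the group.
-/

set_option autoImplicit false

open Topology Set

namespace Pool.Agent.H799Z.Box

/-- A group with a parity relation in which no odd element is an involution. -/
structure GP where
  G : Type
  [grp : Group G]
  S : Subgroup (G × ℤˣ)
  noInv : ∀ γ, (γ, -1) ∈ S → γ * γ ≠ 1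
  odd : ∃ γ, (γ, -1) ∈ S

attribute [instance] GP.grp

/-- even elements -/
def GP.Ev (Γ : GP) : Subgroup Γ.G := Γ.S.comap (MonoidHom.inl _ _)

lemma GP.mem_Ev (Γ : GP) (γ : Γ.G) : γ ∈ Γ.Ev ↔ (γ, 1) ∈ Γ.S := Iff.rfl

/-- the free group on the permutations of `ℕ` -/
abbrev TT := FreeGroup (Equiv.Perm ℕ)

/-- its action on `ℕ` -/
noncomputable def prm : TT →* Equiv.Perm ℕ := FreeGroup.lift id

/-- its action on functions -/
noncomputable def act (G : Type) [Group G] : TT →* MulAut (ℕ → G) :=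
  (mulAutArrow (G := Equiv.Perm ℕ)).comp prm

lemma act_apply (G : Type) [Group G] (t : TT) (f : ℕ → G) (n : ℕ) :
    act G t f n = f ((prm t)⁻¹ n) := rfl

/-- the wreath product -/
abbrev Wr (G : Type) [Group G] := (ℕ → G) ⋊[act G] TT

/-- the enlarged group with parity -/
noncomputable def GP.wr (Γ : GP) : GP where
  G := Wr Γ.G
  S :=
    { carrier := {x | ∀ n, (x.1.left n, x.2) ∈ Γ.S}
      mul_mem' := fun {a b} ha hb n => Γ.S.mul_mem (ha n) (hb ((prm a.1.right)⁻¹ n))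
      one_mem' := fun _ => Γ.S.one_mem
      inv_mem' := fun {a} ha n => Γ.S.inv_mem (ha ((prm a.1.right⁻¹)⁻¹ n)) }
  noInv := by
    intro γ hγ h
    have h1 : γ.right * γ.right = 1 := by
      rw [← SemidirectProduct.mul_right, h, SemidirectProduct.one_right]
    have h2 : γ.right = 1 := by
      have : γ.right ^ 2 = 1 ^ 2 := by rw [pow_two, h1, one_pow]
      exact pow_left_injective (two_ne_zero) this
    have h3 : (γ * γ).left 0 = 1 := by rw [h]; rfl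
    rw [SemidirectProduct.mul_left, h2, map_one] at h3
    exact Γ.noInv _ (hγ 0) h3
  odd := by
    obtain ⟨γ, hγ⟩ := Γ.odd
    exact ⟨SemidirectProduct.inl fun _ => γ, fun _ => hγ⟩

open Classical in
/-- put `γ` on the coordinates in `A` -/
noncomputable def ind (G : Type) [Group G] (A : Set ℕ) : G →* (ℕ → G) where
  toFun γ := fun n => if n ∈ A then γ else 1
  map_one' := by ext n; simp
  map_mul' a b := by
    ext n
    by_cases h : n ∈ A <;> simp [h]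

/-- put `γ` on the coordinates in `A`, in the wreath product -/
noncomputable def jj (Γ : GP) (A : Set ℕ) : Γ.G →* Γ.wr.G :=
  (SemidirectProduct.inl : (ℕ → Γ.G) →* Wr Γ.G).comp (ind Γ.G A)

lemma jj_ev (Γ : GP) (A : Set ℕ) {γ : Γ.G} (h : γ ∈ Γ.Ev) : jj Γ A γ ∈ Γ.wr.Ev := by
  intro n
  show (ind Γ.G A γ n, 1) ∈ Γ.S
  simp only [ind, MonoidHom.coe_mk, OneHom.coe_mk]
  split_ifs
  · exact h
  · exact Γ.S.one_mem

lemma jj_univ (Γ : GP) {γ : Γ.G} {σ : ℤˣ} (h : (γ, σ) ∈ Γ.S) : (jj Γ univ γ, σ) ∈ Γ.wr.S := by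
  intro n
  show (ind Γ.G univ γ n, σ) ∈ Γ.S
  simpa [ind] using h

lemma jj_comm (Γ : GP) {A B : Set ℕ} (h : Disjoint A B) (γ δ : Γ.G) :
    Commute (jj Γ A γ) (jj Γ B δ) := by
  refine Commute.map (?_ : Commute (ind Γ.G A γ) (ind Γ.G B δ))
    (SemidirectProduct.inl : (ℕ → Γ.G) →* Wr Γ.G)
  ext n
  by_cases hA : n ∈ A
  · have hB : n ∉ B := disjoint_left.1 h hA
    simp [ind, hA, hB]
  · simp [ind, hA]

lemma jj_union (Γ : GP) {A B : Set ℕ} (h : Disjoint A B) (γ : Γ.G) :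
    jj Γ A γ * jj Γ B γ = jj Γ (A ∪ B) γ := by
  have : ind Γ.G A γ * ind Γ.G B γ = ind Γ.G (A ∪ B) γ := by
    ext n
    by_cases hA : n ∈ A
    · have hB : n ∉ B := disjoint_left.1 h hA
      simp [ind, hA, hB]
    · by_cases hB : n ∈ B <;> simp [ind, hA, hB]
  exact (map_mul (SemidirectProduct.inl : (ℕ → Γ.G) →* Wr Γ.G) _ _).symm.trans
    (congrArg (SemidirectProduct.inl : (ℕ → Γ.G) →* Wr Γ.G) this)

lemma exists_perm {A B : Set ℕ} (hA : A.Infinite) (hA' : Aᶜ.Infinite) (hB : B.Infinite)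
    (hB' : Bᶜ.Infinite) : ∃ σ : Equiv.Perm ℕ, ∀ n, σ n ∈ B ↔ n ∈ A := by
  classical
  have := hA.to_subtype
  have := hA'.to_subtype
  have := hB.to_subtype
  have := hB'.to_subtype
  obtain ⟨e⟩ : Nonempty (A ≃ B) := nonempty_equiv_of_countable
  obtain ⟨e'⟩ : Nonempty (↥Aᶜ ≃ ↥Bᶜ) := nonempty_equiv_of_countable
  refine ⟨(Equiv.Set.sumCompl A).symm.trans ((e.sumCongr e').trans (Equiv.Set.sumCompl B)),
    fun n => ?_⟩
  by_cases h : n ∈ A
  · simp [Equiv.Set.sumCompl_symm_apply_of_mem h, h]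
  · have h' : ((e' ⟨n, h⟩ : ↥Bᶜ) : ℕ) ∉ B := (e' ⟨n, h⟩).2
    simp [Equiv.Set.sumCompl_symm_apply_of_notMem h, h, h']

lemma jj_conj (Γ : GP) {A B : Set ℕ} (hA : A.Infinite) (hA' : Aᶜ.Infinite) (hB : B.Infinite)
    (hB' : Bᶜ.Infinite) : ∃ t ∈ Γ.wr.Ev, ∀ γ, t * jj Γ A γ * t⁻¹ = jj Γ B γ := by
  obtain ⟨σ, hσ⟩ := exists_perm hA hA' hB hB'
  refine ⟨(SemidirectProduct.inr (FreeGroup.of σ) : Wr Γ.G), fun _ => Γ.S.one_mem, fun γ => ?_⟩
  have h1 : act Γ.G (FreeGroup.of σ) (ind Γ.G A γ) = ind Γ.G B γ := by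
    ext n
    rw [act_apply]
    have : prm (FreeGroup.of σ) = σ := by simp [prm]
    rw [this]
    have h2 := hσ (σ⁻¹ n)
    rw [show σ (σ⁻¹ n) = n from σ.apply_symm_apply n] at h2
    simp only [ind, MonoidHom.coe_mk, OneHom.coe_mk]
    by_cases h3 : n ∈ B
    · rw [if_pos h3, if_pos (h2.1 h3)]
    · rw [if_neg h3, if_neg fun h => h3 (h2.2 h)]
  have h2 := SemidirectProduct.inl_aut (φ := act Γ.G) (FreeGroup.of σ) (ind Γ.G A γ)
  rw [h1, map_inv] at h2
  exact h2.symm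

lemma inf_mod (r : ℕ) (hr : r < 4) {A : Set ℕ} (h : ∀ n, n % 4 = r → n ∈ A) : A.Infinite :=
  infinite_of_injective_forall_mem (f := fun n : ℕ => 4 * n + r)
    (fun a b hab => by simpa using hab) fun n => h _ (by omega)

theorem swindle {Z : Type} [TopologicalSpace Z] (l : List (Z → ℝ)) :
    (∀ φ ∈ l, Continuous φ) → ∀ (Γ : GP) (P : Z → Z → Γ.G), (∀ a b, P a b ∈ Γ.Ev) →
      (∀ φ ∈ l, ∀ a b d, 0 < φ a → 0 < φ b → 0 < φ d → P a b * P b d = P a d) →
      ∃ (Γ' : GP) (ι : Γ.G →* Γ'.G), (∀ γ σ, (γ, σ) ∈ Γ.S → (ι γ, σ) ∈ Γ'.S) ∧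
        RelM 1 Γ'.Ev {v | ∃ φ ∈ l, 1 ≤ φ v} (fun a b => ι (P a b)) (fun _ _ => 1) := by
  induction l with
  | nil =>
    intro _ Γ P hP _
    refine ⟨Γ, MonoidHom.id _, fun _ _ h => h, ?_⟩
    have : {v : Z | ∃ φ ∈ ([] : List (Z → ℝ)), 1 ≤ φ v} = ∅ := by simp
    rw [this]
    exact RelM.empty hP
  | cons φ l ih =>
    intro hc Γ P hP hco
    classical
    have hφ : Continuous φ := hc φ List.mem_cons_self
    obtain ⟨g, hg, hg1⟩ : ∃ g : Z → Γ.G, (∀ a, g a ∈ Γ.Ev) ∧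
        ∀ a b, 0 < φ a → 0 < φ b → g a * P a b * (g b)⁻¹ = 1 := by
      by_cases h0 : ∃ v, 0 < φ v
      · obtain ⟨v, hv⟩ := h0
        exact ⟨fun a => P v a, fun a => hP _ _, fun a b ha hb => by
          rw [hco φ List.mem_cons_self v a b hv ha hb, mul_inv_cancel]⟩
      · exact ⟨fun _ => 1, fun _ => Subgroup.one_mem _, fun a _ ha _ => absurd ⟨a, ha⟩ h0⟩
    let P' : Z → Z → Γ.G := fun a b => g a * P a b * (g b)⁻¹
    have hP' : ∀ a b, P' a b ∈ Γ.Ev := fun a b =>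
      Γ.Ev.mul_mem (Γ.Ev.mul_mem (hg a) (hP a b)) (Γ.Ev.inv_mem (hg b))
    obtain ⟨Γ₁, ι₁, hι₁, N⟩ := ih (fun ψ hψ => hc ψ (List.mem_cons_of_mem _ hψ)) Γ P' hP'
      (fun ψ hψ a b d ha hb hd => by
        simp only [P']
        rw [← hco ψ (List.mem_cons_of_mem _ hψ) a b d ha hb hd]
        group)
    set W : Set Z := {v | ∃ ψ ∈ φ :: l, 1 ≤ ψ v} with hW
    have LP : ∀ v ∈ W, Loc P v := by
      rintro v ⟨ψ, hψ, hv⟩
      exact ⟨{a | 0 < ψ a}, mem_gt (hc ψ hψ) (by linarith),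
        fun a ha b hb d hd => hco ψ hψ a b d ha hb hd⟩
    have LJ : ∀ A, ∀ v ∈ W, Loc (fun a b => jj Γ₁ A (ι₁ (P' a b))) v :=
      fun A v hv => (((LP v hv).gauge g).map ι₁).map (jj Γ₁ A)
    have EJ : ∀ A a b, jj Γ₁ A (ι₁ (P' a b)) ∈ Γ₁.wr.Ev :=
      fun A a b => jj_ev _ _ (hι₁ _ _ (hP' a b))
    let lam : Z → ℝ := fun v => max 0 (min 1 (φ v))
    have hlam : Continuous lam := by simp only [lam]; fun_prop
    have l0 : ∀ v, 0 ≤ lam v := fun v => le_max_left _ _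
    have l1 : ∀ v, lam v ≤ 1 := fun v => max_le zero_le_one (min_le_left _ _)
    have lW : ∀ v ∈ W, lam v < 1 → v ∈ {v | ∃ ψ ∈ l, 1 ≤ ψ v} := by
      rintro v ⟨ψ, hψ, hv⟩ h
      rcases List.mem_cons.1 hψ with rfl | hψ
      · simp only [lam, min_eq_left hv] at h
        norm_num at h
      · exact ⟨ψ, hψ, hv⟩
    have lO : ∀ A a b, 0 < lam a → 0 < lam b → jj Γ₁ A (ι₁ (P' a b)) = 1 := by
      intro A a b ha hb
      have h1 : ∀ v, 0 < lam v → 0 < φ v := fun v hv => by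
        rcases lt_max_iff.1 hv with h | h
        · exact absurd h (lt_irrefl _)
        · exact (lt_min_iff.1 h).2
      simp only [P']
      rw [hg1 a b (h1 a ha) (h1 b hb), map_one, map_one]
    have NA : ∀ A, RelM 1 (Γ₁.Ev.map (jj Γ₁ A)) {v | ∃ ψ ∈ l, 1 ≤ ψ v}
        (fun a b => jj Γ₁ A (ι₁ (P' a b))) (fun _ _ => 1) := fun A => by
      simpa only [map_one] using N.map (jj Γ₁ A)
    have EA : ∀ A, Γ₁.Ev.map (jj Γ₁ A) ≤ Γ₁.wr.Ev := by
      rintro A _ ⟨x, hx, rfl⟩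
      exact jj_ev _ _ hx
    have CA : ∀ A B, Disjoint A B → ∀ x ∈ Γ₁.Ev.map (jj Γ₁ A), ∀ a b,
        Commute x (jj Γ₁ B (ι₁ (P' a b))) := by
      rintro A B h _ ⟨x, -, rfl⟩ a b
      exact jj_comm _ h _ _
    have sw : ∀ A B : Set ℕ, Disjoint A B → B.Infinite → (A ∪ B)ᶜ.Infinite →
        RelM 1 Γ₁.wr.Ev W (fun a b => jj Γ₁ A (ι₁ (P' a b))) (fun _ _ => 1) := by
      intro A B hAB hB hAB'
      obtain ⟨t, ht, hconj⟩ := jj_conj Γ₁ (A := A ∪ B) (B := B) (hB.mono subset_union_right) hAB' hB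
        (hAB'.mono (compl_subset_compl.2 subset_union_right))
      have M' : RelM 1 Γ₁.wr.Ev W (fun a b => jj Γ₁ A (ι₁ (P' a b)) * jj Γ₁ B (ι₁ (P' a b)))
          (fun a b => jj Γ₁ B (ι₁ (P' a b))) := by
        have M := RelM.gauge (W := W) (EJ (A ∪ B)) (LJ (A ∪ B)) (fun _ => t) (fun _ => ht)
        simp only [hconj] at M
        simpa only [jj_union Γ₁ hAB] using M
      simpa only [mul_one] using saddle (Q₀ := fun _ _ => 1) lam hlam l0 l1 lW
        (fun a b ha hb => (lO B a b ha hb).symm) (LJ A) (fun v _ => Loc.one v) (LJ B) (EA A)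
        (fun _ _ => Subgroup.one_mem _) (EJ B) (fun x _ _ _ => Commute.one_right x) (CA A B hAB)
        (NA A) M'
    let A : Set ℕ := {n | n % 4 < 2}
    have swA := sw A {n | n % 4 = 2} (disjoint_left.2 fun n h1 h2 => by
        simp only [A, mem_ofPred_eq] at h1 h2; omega) (inf_mod 2 (by norm_num) fun n h => h)
      (inf_mod 3 (by norm_num) fun n h => by simp [A, h])
    have swB := sw Aᶜ {n | n % 4 = 0} (disjoint_left.2 fun n h1 h2 => by
        simp only [A, mem_compl_iff, mem_ofPred_eq] at h1 h2; omega)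
      (inf_mod 0 (by norm_num) fun n h => h) (inf_mod 1 (by norm_num) fun n h => by simp [A, h])
    have fin := (saddle (Q₁ := fun _ _ => 1) lam hlam l0 l1 lW
        (fun a b ha hb => lO Aᶜ a b ha hb) (LJ A) (LJ Aᶜ) (fun v _ => Loc.one v) (EA A)
        (EJ Aᶜ) (fun _ _ => Subgroup.one_mem _) (CA A Aᶜ disjoint_compl_right)
        (fun x _ _ _ => Commute.one_right x) (NA A) (by simpa only [mul_one] using swA)).trans swB
    simp only [jj_union Γ₁ disjoint_compl_right, union_compl_self] at fin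
    refine ⟨Γ₁.wr, (jj Γ₁ univ).comp ι₁, fun γ σ h => jj_univ _ (hι₁ _ _ h), ?_⟩
    refine RelM.trans ?_ fin
    have G := RelM.gauge (W := W) (E := Γ₁.wr.Ev) (P := fun a b => jj Γ₁ univ (ι₁ (P a b)))
      (fun a b => jj_ev _ _ (hι₁ _ _ (hP a b))) (fun v hv => ((LP v hv).map ι₁).map _)
      (fun a => jj Γ₁ univ (ι₁ (g a))) (fun a => jj_ev _ _ (hι₁ _ _ (hg a)))
    simpa only [P', map_mul, map_inv, MonoidHom.comp_apply] using G

end Pool.Agent.H799Z.Box
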