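import Mathlib

set_option autoImplicit false

namespace Pool.Agent.H799Z.HK

open PowerSeries Finset

section ExpPoly

variable {K : Type*} [Field K] [CharZero K]

/-- The series `exp (b z)`. -/
noncomputable def ex (b : K) : K⟦X⟧ := PowerSeries.mk fun n => b ^ n / (n.factorial : K)

lemma coeff_ex (b : K) (n : ℕ) : coeff n (ex b) = b ^ n / (n.factorial : K) := by
  simp [ex]

lemma deriv_ex (b : K) : derivative K (ex b) = PowerSeries.C b * ex b := by
  ext n
  rw [coeff_derivative, coeff_C_mul, coeff_ex, coeff_ex, Nat.factorial_succ]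
  have h1 : (n.factorial : K) ≠ 0 := Nat.cast_ne_zero.mpr (Nat.factorial_ne_zero n)
  have h2 : ((n : K) + 1) ≠ 0 := by exact_mod_cast Nat.succ_ne_zero n
  push_cast
  field_simp
  ring

lemma eq_zero_of_deriv_add {u : K⟦X⟧} {w : ℕ} (hu : ∀ n, w ≤ n → coeff n u = 0) {b : K}
    (hb : b ≠ 0) (h : derivative K u + PowerSeries.C b * u = 0) : u = 0 := by
  have key : ∀ m n, w ≤ n + m → coeff n u = 0 := by
    intro m
    induction m with
    | zero => intro n hn; exact hu n (by simpa using hn)
    | succ m ih =>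
      intro n hn
      have h1 := congrArg (coeff n) h
      rw [map_add, coeff_derivative, coeff_C_mul, ih (n + 1) (by omega)] at h1
      simpa [hb] using h1
  ext n
  simpa using key w n (by omega)

/-- An exponential polynomial with total width `W` cannot vanish to order `W`. -/
lemma expPoly_vanish (W : ℕ) : ∀ (B : Finset K) (w : K → ℕ) (u : K → K⟦X⟧),
    ∑ b ∈ B, w b = W → (∀ b ∈ B, ∀ n, w b ≤ n → coeff n (u b) = 0) →
    (∀ n, n < W → coeff n (∑ b ∈ B, ex b * u b) = 0) → ∀ b ∈ B, u b = 0 := by
  classical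
  induction W with
  | zero =>
    intro B w u hW hu _ b hb
    ext n
    have : w b = 0 := (Finset.sum_eq_zero_iff.mp hW) b hb
    simpa using hu b hb n (by omega)
  | succ W ih =>
    intro B w u hW hu hG
    obtain ⟨b1, hb1, hw1⟩ : ∃ b1 ∈ B, w b1 ≠ 0 := by
      by_contra hcon
      push Not at hcon
      rw [Finset.sum_eq_zero hcon] at hW
      omega
    set w' : K → ℕ := Function.update w b1 (w b1 - 1) with hw'
    set u' : K → K⟦X⟧ := fun b => derivative K (u b) + PowerSeries.C (b - b1) * u b with hu'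
    have hW' : ∑ b ∈ B, w' b = W := by
      rw [hw', Finset.sum_update_of_mem hb1]
      rw [← Finset.add_sum_erase B w hb1, ← Finset.sdiff_singleton_eq_erase] at hW
      omega
    have hsupp : ∀ b ∈ B, ∀ n, w' b ≤ n → coeff n (u' b) = 0 := by
      intro b hb n hn
      by_cases hbb : b = b1
      · subst hbb
        simp only [hw', Function.update_self] at hn
        simp [hu', coeff_derivative, hu b hb (n + 1) (by omega)]
      · simp only [hw', Function.update_of_ne hbb] at hn
        simp [hu', coeff_derivative, hu b hb (n + 1) (by omega), coeff_C_mul, hu b hb n hn,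
          -map_sub]
    have hder : ∑ b ∈ B, ex b * u' b =
        derivative K (∑ b ∈ B, ex b * u b) - PowerSeries.C b1 * ∑ b ∈ B, ex b * u b := by
      have hs : derivative K (∑ b ∈ B, ex b * u b) = ∑ b ∈ B, derivative K (ex b * u b) := by
        ext n
        simp [coeff_derivative, Finset.sum_mul]
      rw [hs, Finset.mul_sum, ← Finset.sum_sub_distrib]
      refine Finset.sum_congr rfl fun b _ => ?_
      rw [Derivation.leibniz, deriv_ex, hu']
      simp only [smul_eq_mul, map_sub]
      ring
    have hG' : ∀ n, n < W → coeff n (∑ b ∈ B, ex b * u' b) = 0 := by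
      intro n hn
      rw [hder, map_sub, coeff_derivative, coeff_C_mul, hG (n + 1) (by omega), hG n (by omega)]
      simp
    have hz := ih B w' u' hW' hsupp hG'
    have hne : ∀ b ∈ B, b ≠ b1 → u b = 0 := fun b hb hbb =>
      eq_zero_of_deriv_add (hu b hb) (sub_ne_zero.mpr hbb) (hz b hb)
    have h1 : u b1 = 0 := by
      have hd : derivative K (u b1) = 0 := by simpa [hu'] using hz b1 hb1
      have h0 := hG 0 (by omega)
      rw [Finset.sum_eq_single b1 (fun b hb hbb => by rw [hne b hb hbb, mul_zero])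
        (fun h => absurd hb1 h)] at h0
      have h00 : coeff 0 (u b1) = 0 := by
        simpa [coeff_mul, coeff_ex] using h0
      ext n
      cases n with
      | zero => simpa using h00
      | succ n =>
        have := congrArg (coeff n) hd
        rw [coeff_derivative] at this
        have h2 : ((n : K) + 1) ≠ 0 := by exact_mod_cast Nat.succ_ne_zero n
        simpa [h2] using this
    intro b hb
    by_cases hbb : b = b1
    · rw [hbb, h1]
    · exact hne b hb hbb

/-- Shifted form: supports in `[v, v + w b)`. -/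
lemma expPoly_shift (B : Finset K) (v : ℕ) (w : K → ℕ) (u : K → K⟦X⟧)
    (hlo : ∀ b ∈ B, ∀ n, n < v → coeff n (u b) = 0)
    (hhi : ∀ b ∈ B, ∀ n, v + w b ≤ n → coeff n (u b) = 0)
    (hne : ∃ b ∈ B, u b ≠ 0) :
    ∃ n, n < v + ∑ b ∈ B, w b ∧ coeff n (∑ b ∈ B, ex b * u b) ≠ 0 := by
  by_contra hcon
  push Not at hcon
  set u' : K → K⟦X⟧ := fun b => PowerSeries.mk fun n => coeff (n + v) (u b) with hu'
  have hX : ∀ b ∈ B, u b = u' b * X ^ v := by
    intro b hb
    ext n
    rw [coeff_mul_X_pow']
    split_ifs with h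
    · simp [hu', Nat.sub_add_cancel h]
    · exact hlo b hb n (by omega)
  have hs : ∑ b ∈ B, ex b * u b = (∑ b ∈ B, ex b * u' b) * X ^ v := by
    rw [Finset.sum_mul]
    exact Finset.sum_congr rfl fun b hb => by rw [hX b hb, mul_assoc]
  have := expPoly_vanish _ B w u' rfl
    (fun b hb n hn => by simpa [hu'] using hhi b hb (n + v) (by omega))
    (fun n hn => by
      have := hcon (n + v) (by omega)
      rwa [hs, coeff_mul_X_pow] at this)
  obtain ⟨b, hb, hub⟩ := hne
  exact hub (by rw [hX b hb, this b hb, zero_mul])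

end ExpPoly

section Newton

open Polynomial in
/-- The series `exp (P e)` in the variable `e`, with coefficients polynomials. -/
noncomputable def eP {K : Type*} [Field K] (P : K[X]) : (K[X])⟦X⟧ :=
  PowerSeries.mk fun n => Polynomial.C ((n.factorial : K)⁻¹) * P ^ n

variable {K : Type*} [Field K] [CharZero K]

lemma coeff_eP (P : Polynomial K) (n : ℕ) :
    coeff n (eP P) = Polynomial.C ((n.factorial : K)⁻¹) * P ^ n := by
  simp [eP]

lemma eP_add (P R : Polynomial K) : eP (P + R) = eP P * eP R := by
  ext1 n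
  rw [coeff_mul, coeff_eP, add_pow, Finset.mul_sum,
    Finset.Nat.sum_antidiagonal_eq_sum_range_succ_mk]
  refine Finset.sum_congr rfl fun m hm => ?_
  have hmn : m ≤ n := Nat.lt_succ_iff.mp (Finset.mem_range.mp hm)
  rw [coeff_eP, coeff_eP]
  have h1 : ((n.choose m : ℕ) : Polynomial K) = Polynomial.C (n.choose m : K) := by simp
  have h2 : (n.factorial : K)⁻¹ * (n.choose m : K) =
      (m.factorial : K)⁻¹ * ((n - m).factorial : K)⁻¹ := by
    have h3 := Nat.choose_mul_factorial_mul_factorial hmn
    have h4 : (n.factorial : K) = (n.choose m : K) * m.factorial * (n - m).factorial := by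
      exact_mod_cast h3.symm
    have h5 : (m.factorial : K) ≠ 0 := Nat.cast_ne_zero.mpr (Nat.factorial_ne_zero _)
    have h6 : ((n - m).factorial : K) ≠ 0 := Nat.cast_ne_zero.mpr (Nat.factorial_ne_zero _)
    have h7 : (n.choose m : K) ≠ 0 := Nat.cast_ne_zero.mpr (Nat.choose_pos hmn).ne'
    rw [h4]
    field_simp
  calc Polynomial.C ((n.factorial : K)⁻¹) * (P ^ m * R ^ (n - m) * ((n.choose m : ℕ) : Polynomial K))
      = Polynomial.C ((n.factorial : K)⁻¹ * (n.choose m : K)) * (P ^ m * R ^ (n - m)) := by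
        rw [h1, map_mul]; ring
    _ = _ := by rw [h2, map_mul]; ring

/-- Slope bound: every monomial `e^n y^k` of `h` has `k + m ≤ D n`. -/
def Bd (D m : ℕ) (h : (Polynomial K)⟦X⟧) : Prop :=
  ∀ n k, (coeff n h).coeff k ≠ 0 → k + m ≤ D * n

/-- The initial form along the line `k + m = D n`. -/
noncomputable def ini (D m : ℕ) (h : (Polynomial K)⟦X⟧) : K⟦X⟧ :=
  PowerSeries.mk fun n => if m ≤ D * n then (coeff n h).coeff (D * n - m) else 0

lemma coeff_ini (D m : ℕ) (h : (Polynomial K)⟦X⟧) (n : ℕ) :
    coeff n (ini D m h) = if m ≤ D * n then (coeff n h).coeff (D * n - m) else 0 := by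
  simp [ini]

lemma ini_sum {ι : Type*} (D m : ℕ) (S : Finset ι) (h : ι → (Polynomial K)⟦X⟧) :
    ini D m (∑ i ∈ S, h i) = ∑ i ∈ S, ini D m (h i) := by
  ext n
  rw [map_sum, coeff_ini]
  simp only [coeff_ini]
  split_ifs
  · simp [map_sum, Polynomial.finset_sum_coeff]
  · simp

lemma Bd_sum {ι : Type*} {D m : ℕ} (S : Finset ι) (h : ι → (Polynomial K)⟦X⟧)
    (hb : ∀ i ∈ S, Bd D m (h i)) : Bd D m (∑ i ∈ S, h i) := by
  intro n k hk
  rw [map_sum, Polynomial.finset_sum_coeff] at hk
  obtain ⟨i, hi, hne⟩ := Finset.exists_ne_zero_of_sum_ne_zero hk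
  exact hb i hi n k hne

lemma coeff_eP_mono_mul (b : K) (D : ℕ) (g : (Polynomial K)⟦X⟧) (n k : ℕ) :
    (coeff n (eP (Polynomial.C b * Polynomial.X ^ D) * g)).coeff k =
      ∑ p ∈ antidiagonal n, b ^ p.1 / (p.1.factorial : K) *
        (if D * p.1 ≤ k then (coeff p.2 g).coeff (k - D * p.1) else 0) := by
  rw [coeff_mul, Polynomial.finset_sum_coeff]
  refine Finset.sum_congr rfl fun p _ => ?_
  rw [coeff_eP, mul_pow, ← Polynomial.C_pow, ← pow_mul, ← mul_assoc, ← Polynomial.C_mul, mul_assoc,
    Polynomial.coeff_C_mul, Polynomial.coeff_X_pow_mul']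
  ring

lemma Bd_eP_mul {b : K} {D m : ℕ} {g : (Polynomial K)⟦X⟧} (hg : Bd D m g) :
    Bd D m (eP (Polynomial.C b * Polynomial.X ^ D) * g) := by
  intro n k hk
  rw [coeff_eP_mono_mul] at hk
  obtain ⟨p, hp, hne⟩ := Finset.exists_ne_zero_of_sum_ne_zero hk
  have hpn : p.1 + p.2 = n := mem_antidiagonal.mp hp
  split_ifs at hne with h
  · have := hg p.2 _ (right_ne_zero_of_mul hne)
    rw [← hpn, mul_add]
    omega
  · simp at hne

lemma ini_eP_mul (b : K) (D m : ℕ) (g : (Polynomial K)⟦X⟧) :
    ini D m (eP (Polynomial.C b * Polynomial.X ^ D) * g) = ex b * ini D m g := by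
  ext n
  rw [coeff_ini, coeff_eP_mono_mul, coeff_mul]
  split_ifs with h
  · refine Finset.sum_congr rfl fun p hp => ?_
    have hpn : p.1 + p.2 = n := mem_antidiagonal.mp hp
    have hD : D * n = D * p.1 + D * p.2 := by rw [← hpn, mul_add]
    rw [coeff_ex, coeff_ini]
    by_cases h2 : m ≤ D * p.2
    · rw [if_pos h2, if_pos (by omega)]
      congr 2
      omega
    · rw [if_neg h2, if_neg (by omega)]
  · symm
    refine Finset.sum_eq_zero fun p hp => ?_
    have hpn : p.1 + p.2 = n := mem_antidiagonal.mp hp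
    have hD : D * n = D * p.1 + D * p.2 := by rw [← hpn, mul_add]
    rw [coeff_ini, if_neg (by omega), mul_zero]

/-- The combination `∑ c i (e) exp (P i e)`. -/
noncomputable def comb {ι : Type*} (S : Finset ι) (c : ι → K⟦X⟧) (P : ι → Polynomial K) :
    (Polynomial K)⟦X⟧ :=
  ∑ i ∈ S, PowerSeries.map (Polynomial.C : K →+* Polynomial K) (c i) * eP (P i)

lemma Bd_comb {ι : Type*} (S : Finset ι) (c : ι → K⟦X⟧) (P : ι → Polynomial K) (D o : ℕ)
    (hP : ∀ i ∈ S, (P i).natDegree ≤ D) (ho : ∀ i ∈ S, ∀ j, j < o → coeff j (c i) = 0) :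
    Bd D (D * o) (comb S c P) := by
  refine Bd_sum S _ fun i hi => ?_
  intro n k hk
  rw [coeff_mul, Polynomial.finset_sum_coeff] at hk
  obtain ⟨p, hp, hne⟩ := Finset.exists_ne_zero_of_sum_ne_zero hk
  have hpn : p.1 + p.2 = n := mem_antidiagonal.mp hp
  rw [coeff_map, coeff_eP, Polynomial.coeff_C_mul, Polynomial.coeff_C_mul] at hne
  have h1 : o ≤ p.1 := by
    by_contra hcon
    exact left_ne_zero_of_mul hne (ho i hi p.1 (by omega))
  have h2 : k ≤ D * p.2 := by
    have h3 := Polynomial.le_natDegree_of_ne_zero (right_ne_zero_of_mul (right_ne_zero_of_mul hne))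
    have h4 : ((P i) ^ p.2).natDegree ≤ p.2 * (P i).natDegree := Polynomial.natDegree_pow_le
    have h5 : p.2 * (P i).natDegree ≤ p.2 * D := Nat.mul_le_mul_left _ (hP i hi)
    rw [mul_comm D]
    omega
  have h6 : D * o ≤ D * p.1 := Nat.mul_le_mul_left _ h1
  rw [← hpn, mul_add]
  omega

lemma exists_order {ι : Type*} (S : Finset ι) (c : ι → K⟦X⟧) (h : ∃ i ∈ S, c i ≠ 0) :
    ∃ o, (∀ i ∈ S, ∀ j, j < o → coeff j (c i) = 0) ∧ ∃ i ∈ S, coeff o (c i) ≠ 0 := by
  classical
  have hex : ∃ o, ∃ i ∈ S, coeff o (c i) ≠ 0 := by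
    obtain ⟨i, hi, hne⟩ := h
    by_contra hcon
    push Not at hcon
    exact hne (PowerSeries.ext fun n => by simpa using hcon n i hi)
  refine ⟨Nat.find hex, fun i hi j hj => ?_, Nat.find_spec hex⟩
  by_contra hne
  exact Nat.find_min hex hj ⟨i, hi, hne⟩

/-- The Newton polygon induction. -/
theorem newton {ι : Type*} (D : ℕ) : ∀ (S : Finset ι) (c : ι → K⟦X⟧) (P : ι → Polynomial K) (o : ℕ),
    (∀ i ∈ S, (P i).natDegree ≤ D) →
    (∀ i ∈ S, ∀ j ∈ S, i ≠ j → 0 < (P i - P j).natDegree) →
    (∀ i ∈ S, ∀ j, j < o → coeff j (c i) = 0) → (∃ i ∈ S, coeff o (c i) ≠ 0) →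
    ∃ m n0, n0 < o + S.card ∧ Bd D m (comb S c P) ∧ coeff n0 (ini D m (comb S c P)) ≠ 0 := by
  classical
  induction D with
  | zero =>
    intro S c P o hP hdiff ho ⟨i0, hi0, hc0⟩
    have hS : S = {i0} := by
      refine Finset.eq_singleton_iff_unique_mem.mpr ⟨hi0, fun j hj => ?_⟩
      by_contra hne
      have h1 := hdiff j hj i0 hi0 hne
      have h2 := Polynomial.natDegree_sub_le (P j) (P i0)
      have h3 := hP j hj
      have h4 := hP i0 hi0
      omega
    refine ⟨0, o, by simp [hS], by simpa using Bd_comb S c P 0 o hP ho, ?_⟩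
    rw [coeff_ini, if_pos (by simp), hS, comb, Finset.sum_singleton, coeff_mul,
      Finset.sum_eq_single (o, 0)]
    · simpa [coeff_map, coeff_eP] using hc0
    · intro p hp hne
      have hpn : p.1 + p.2 = o := mem_antidiagonal.mp hp
      have : p.1 < o := by
        by_contra hcon
        exact hne (Prod.ext (by simp; omega) (by simp; omega))
      simp [coeff_map, ho i0 hi0 p.1 this]
    · intro h
      exact absurd (by simp) h
  | succ D ih =>
    intro S c P o hP hdiff ho ⟨i0, hi0, hc0⟩
    set t : ι → K := fun i => (P i).coeff (D + 1) with ht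
    set R : ι → Polynomial K := fun i => P i - Polynomial.C (t i) * Polynomial.X ^ (D + 1) with hR
    have hRdeg : ∀ i ∈ S, (R i).natDegree ≤ D := by
      intro i hi
      rw [Polynomial.natDegree_le_iff_coeff_eq_zero]
      intro N hN
      simp only [hR, ht, Polynomial.coeff_sub, Polynomial.coeff_C_mul, Polynomial.coeff_X_pow]
      split_ifs with h
      · simp [h]
      · rw [Polynomial.coeff_eq_zero_of_natDegree_lt (lt_of_le_of_lt (hP i hi) (by omega))]
        simp
    set B : Finset K := S.image t with hB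
    set Sb : K → Finset ι := fun b => S.filter (fun i => t i = b) with hSb
    set h : K → (Polynomial K)⟦X⟧ := fun b => comb (Sb b) c R with hh
    have hsub : ∀ b, ∀ i ∈ Sb b, i ∈ S := fun b i hi => (Finset.mem_filter.mp hi).1
    have hdec : comb S c P = ∑ b ∈ B, eP (Polynomial.C b * Polynomial.X ^ (D + 1)) * h b := by
      rw [comb, ← Finset.sum_fiberwise_of_maps_to (t := B) (g := t)
        (fun i hi => Finset.mem_image_of_mem t hi)]
      refine Finset.sum_congr rfl fun b _ => ?_
      simp only [hh, comb, Finset.mul_sum]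
      refine Finset.sum_congr rfl fun i hi => ?_
      have hti : t i = b := (Finset.mem_filter.mp hi).2
      have : P i = Polynomial.C b * Polynomial.X ^ (D + 1) + R i := by
        simp only [hR, hti]; ring
      rw [this, eP_add]
      ring
    have hcard : S.card = ∑ b ∈ B, (Sb b).card :=
      Finset.card_eq_sum_card_fiberwise (fun i hi => Finset.mem_image_of_mem t hi)
    have hRdiff : ∀ b, ∀ i ∈ Sb b, ∀ j ∈ Sb b, i ≠ j → 0 < (R i - R j).natDegree := by
      intro b i hi j hj hij
      have h1 : t i = b := (Finset.mem_filter.mp hi).2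
      have h2 : t j = b := (Finset.mem_filter.mp hj).2
      have : R i - R j = P i - P j := by simp only [hR, h1, h2]; ring
      rw [this]
      exact hdiff i (hsub b i hi) j (hsub b j hj) hij
    have hRdeg' : ∀ b, ∀ i ∈ Sb b, (R i).natDegree ≤ D + 1 := fun b i hi =>
      (hRdeg i (hsub b i hi)).trans (Nat.le_succ D)
    have hBd0 : ∀ b, Bd (D + 1) 0 (h b) := fun b => by
      simpa using Bd_comb (Sb b) c R (D + 1) 0 (hRdeg' b) (by simp)
    -- the class of `i0`
    have hi0b : i0 ∈ Sb (t i0) := Finset.mem_filter.mpr ⟨hi0, rfl⟩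
    have hb0 : t i0 ∈ B := Finset.mem_image_of_mem t hi0
    obtain ⟨m0, n00, hn00, hBd00, hne00⟩ := ih (Sb (t i0)) c R o
      (fun i hi => hRdeg i (hsub _ i hi)) (hRdiff _) (fun i hi => ho i (hsub _ i hi))
      ⟨i0, hi0b, hc0⟩
    have hex : ∃ m, ∃ b ∈ B, ini (D + 1) m (h b) ≠ 0 := by
      refine ⟨n00 + m0, t i0, hb0, fun hz => hne00 ?_⟩
      have h1 := congrArg (coeff n00) hz
      rw [coeff_ini] at h1 ⊢
      split_ifs with h2
      · rw [if_pos (by nlinarith)] at h1
        have : (D + 1) * n00 - (n00 + m0) = D * n00 - m0 := by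
          rw [add_mul]; omega
        simpa [this] using h1
      · rfl
    set m := Nat.find hex with hm
    have hBdm : ∀ b ∈ B, Bd (D + 1) m (h b) := by
      intro b hb n k hk
      by_contra hcon
      have h1 := hBd0 b n k hk
      refine Nat.find_min hex (m := (D + 1) * n - k) (by omega) ⟨b, hb, fun hz => hk ?_⟩
      have h2 := congrArg (coeff n) hz
      rw [coeff_ini, if_pos (by omega)] at h2
      have : (D + 1) * n - ((D + 1) * n - k) = k := by omega
      simpa [this] using h2
    -- supports of the initial forms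
    have hsupp : ∀ b ∈ B, ∀ m' n0, Bd D m' (h b) → coeff n0 (ini D m' (h b)) ≠ 0 →
        m ≤ (D + 1) * n0 ∧ ∀ n, coeff n (ini (D + 1) m (h b)) ≠ 0 → n ≤ n0 := by
      intro b hb m' n0 hBd hne
      rw [coeff_ini] at hne
      split_ifs at hne with h1
      · have h2 := hBdm b hb n0 _ hne
        rw [add_mul] at h2
        refine ⟨by rw [add_mul]; omega, fun n hn => ?_⟩
        rw [coeff_ini] at hn
        split_ifs at hn with h3
        · have h4 := hBd n _ hn
          rw [add_mul] at h3 h4
          omega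
        · exact absurd rfl hn
      · exact absurd rfl hne
    have hexv : ∃ v, m ≤ (D + 1) * v := ⟨m, by nlinarith⟩
    set v := Nat.find hexv with hv
    have hvm : m ≤ (D + 1) * v := Nat.find_spec hexv
    have hv0 : v ≤ n00 := Nat.find_min' hexv (hsupp _ hb0 m0 n00 hBd00 hne00).1
    set w : K → ℕ := fun b => if b = t i0 then o + (Sb b).card - v else (Sb b).card with hw
    have hsum : v + ∑ b ∈ B, w b = o + S.card := by
      rw [hcard, ← Finset.add_sum_erase B w hb0, ← Finset.add_sum_erase B _ hb0]
      have : ∑ b ∈ B.erase (t i0), w b = ∑ b ∈ B.erase (t i0), (Sb b).card :=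
        Finset.sum_congr rfl fun b hb => by simp [hw, Finset.ne_of_mem_erase hb]
      rw [this]
      simp only [hw, if_true]
      omega
    obtain ⟨n, hn, hcoef⟩ := expPoly_shift B v w (fun b => ini (D + 1) m (h b))
      (fun b _ n hn => by
        rw [coeff_ini, if_neg (Nat.find_min hexv hn)])
      (fun b hb n hn => by
        by_contra hne
        by_cases hbb : b = t i0
        · subst hbb
          have := (hsupp _ hb0 m0 n00 hBd00 hne00).2 n hne
          simp only [hw, if_true] at hn
          omega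
        · simp only [hw, if_neg hbb] at hn
          have hc : ∃ i ∈ Sb b, c i ≠ 0 := by
            by_contra hcon
            push Not at hcon
            apply hne
            have : h b = 0 := by
              simp only [hh, comb]
              exact Finset.sum_eq_zero fun i hi => by rw [hcon i hi]; simp
            rw [this, coeff_ini]
            simp
          obtain ⟨ob, hob, hob'⟩ := exists_order (Sb b) c hc
          obtain ⟨m1, n1, hn1, hBd1, hne1⟩ := ih (Sb b) c R ob
            (fun i hi => hRdeg i (hsub _ i hi)) (hRdiff _) hob hob'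
          have h1 := (hsupp b hb m1 n1 hBd1 hne1).2 n hne
          have h2 := Bd_comb (Sb b) c R (D + 1) ob (hRdeg' b) hob
          rw [coeff_ini] at hne
          split_ifs at hne with h3
          · have h4 := h2 n _ hne
            have h5 : (D + 1) * ob ≤ (D + 1) * v := by omega
            have h6 : ob ≤ v := Nat.le_of_mul_le_mul_left h5 (Nat.succ_pos D)
            omega
          · exact absurd rfl hne)
      (Nat.find_spec hex)
    refine ⟨m, n, by omega, ?_, ?_⟩
    · rw [hdec]
      exact Bd_sum B _ fun b hb => Bd_eP_mul (hBdm b hb)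
    · rw [hdec, ini_sum]
      simpa only [ini_eP_mul] using hcoef

/-- A primitive combination of `exp (P i e)` does not vanish to order `card S`. -/
theorem comb_order {ι : Type*} (S : Finset ι) (c : ι → K⟦X⟧) (P : ι → Polynomial K)
    (hdiff : ∀ i ∈ S, ∀ j ∈ S, i ≠ j → 0 < (P i - P j).natDegree)
    (hc : ∃ i ∈ S, coeff 0 (c i) ≠ 0) :
    ∃ n, n < S.card ∧ coeff n (comb S c P) ≠ 0 := by
  obtain ⟨m, n0, hn0, -, hne⟩ := newton (S.sup fun i => (P i).natDegree) S c P 0
    (fun i hi => Finset.le_sup (f := fun i => (P i).natDegree) hi) hdiff (by simp) hc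
  refine ⟨n0, by simpa using hn0, fun hz => hne ?_⟩
  rw [coeff_ini, hz]
  simp

end Newton

section Relation

open Polynomial

variable {K : Type*} [Field K] [CharZero K]

omit [CharZero K] in
lemma coeff_comp_shift (Q P : K[X]) (s r n : ℕ) (hs : ∀ k, s < k → Q.coeff k = 0) (hrn : r + n = s) :
    ((Q.map (Polynomial.C : K →+* K[X])).comp (Polynomial.X + Polynomial.C P)).coeff r =
      ∑ l ∈ range (n + 1), Polynomial.C (Q.coeff (r + l) * ((r + l).choose r : K)) * P ^ l := by
  have hdeg : Q.natDegree < s + 1 :=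
    Nat.lt_succ_of_le (Polynomial.natDegree_le_iff_coeff_eq_zero.mpr fun N hN => hs N hN)
  conv_lhs => rw [Q.as_sum_range' (s + 1) hdeg]
  simp only [Polynomial.map_sum, Polynomial.sum_comp, Polynomial.map_monomial,
    Polynomial.monomial_comp, Polynomial.finset_sum_coeff, Polynomial.coeff_C_mul,
    Polynomial.coeff_X_add_C_pow]
  rw [← hrn, add_assoc, Finset.sum_range_add, Finset.sum_eq_zero, zero_add]
  · refine Finset.sum_congr rfl fun l _ => ?_
    simp only [Nat.add_sub_cancel_left, map_mul, map_natCast]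
    ring
  · intro k hk
    rw [Nat.choose_eq_zero_of_lt (Finset.mem_range.mp hk)]
    simp

/-- Algebraic relations `∑ Q i (x + P i (y)) = 0` have degree at most `card - 2`. -/
theorem relation_degree {ι : Type*} [Fintype ι] (P Q : ι → K[X])
    (hdiff : ∀ i j, i ≠ j → 0 < (P i - P j).natDegree)
    (hrel : ∑ i, ((Q i).map (Polynomial.C : K →+* K[X])).comp (Polynomial.X + Polynomial.C (P i)) = 0)
    (i : ι) (k : ℕ) (hk : Fintype.card ι ≤ k + 1) : (Q i).coeff k = 0 := by
  classical
  by_contra hne
  have hQ : Q i ≠ 0 := fun h => hne (by simp [h])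
  obtain ⟨i1, hi1, hmax⟩ := Finset.exists_max_image (Finset.univ.filter fun j => Q j ≠ 0)
    (fun j => (Q j).natDegree) ⟨i, by simpa using hQ⟩
  have hQ1 : Q i1 ≠ 0 := by simpa using hi1
  set s := (Q i1).natDegree with hs
  have hks : k ≤ s := (Polynomial.le_natDegree_of_ne_zero hne).trans (hmax i (by simpa using hQ))
  have hz : ∀ j k, s < k → (Q j).coeff k = 0 := by
    intro j k hk
    by_cases hj : Q j = 0
    · simp [hj]
    · exact Polynomial.coeff_eq_zero_of_natDegree_lt (lt_of_le_of_lt (hmax j (by simpa using hj)) hk)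
  set c : ι → K⟦X⟧ := fun j => PowerSeries.mk fun a => ((s - a).factorial : K) * (Q j).coeff (s - a)
    with hc
  obtain ⟨n, hn, hcoef⟩ := comb_order Finset.univ c P (fun a _ b _ hab => hdiff a b hab)
    ⟨i1, Finset.mem_univ _, by
      simp only [hc, PowerSeries.coeff_mk, Nat.sub_zero]
      exact mul_ne_zero (Nat.cast_ne_zero.mpr (Nat.factorial_ne_zero _))
        (by rw [hs]; exact Polynomial.leadingCoeff_ne_zero.mpr hQ1)⟩
  rw [Finset.card_univ] at hn
  have hns : n ≤ s := by omega
  obtain ⟨r, hr⟩ : ∃ r, r + n = s := ⟨s - n, by omega⟩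
  apply hcoef
  have h1 := congrArg (fun F => Polynomial.C (r.factorial : K) * F.coeff r) hrel
  simp only [Polynomial.finset_sum_coeff, Polynomial.coeff_zero, mul_zero, Finset.mul_sum] at h1
  rw [← h1, comb, map_sum]
  refine Finset.sum_congr rfl fun j _ => ?_
  rw [coeff_comp_shift (Q j) (P j) s r n (hz j) hr, PowerSeries.coeff_mul,
    ← Finset.Nat.sum_antidiagonal_swap, Finset.Nat.sum_antidiagonal_eq_sum_range_succ_mk,
    Finset.mul_sum]
  refine Finset.sum_congr rfl fun l hl => ?_
  have hln : l ≤ n := Nat.lt_succ_iff.mp (Finset.mem_range.mp hl)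
  simp only [Prod.swap_prod_mk, PowerSeries.coeff_map, coeff_eP, hc, PowerSeries.coeff_mk]
  have e1 : s - (n - l) = r + l := by omega
  rw [e1, ← mul_assoc, ← mul_assoc, ← map_mul, ← map_mul]
  congr 2
  have h3 := Nat.add_choose_mul_factorial_mul_factorial l r
  have h4 : ((r + l).factorial : K) = ((r + l).choose r : K) * l.factorial * r.factorial := by
    rw [add_comm r l]
    exact_mod_cast h3.symm
  have h5 : (l.factorial : K) ≠ 0 := Nat.cast_ne_zero.mpr (Nat.factorial_ne_zero _)
  rw [h4]
  field_simp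

theorem coeff_eq_zero_of_infinite {l : ℕ} (p Q : Fin l → K[X]) (hp : ∀ i, 0 < (p i).natDegree)
    (hdiff : ∀ i j, i ≠ j → 0 < (p i - p j).natDegree) (M : Set ℕ) (hM : M.Infinite)
    (h : ∀ m ∈ M, ∀ r, 1 ≤ r → (∑ i, (Q i).comp (Polynomial.C (m : K) + p i)).coeff r = 0)
    (j : Fin l) (k : ℕ) (hk : l ≤ k) : (Q j).coeff k = 0 := by
  classical
  set F : K[X][X] :=
    ∑ i, ((Q i).map (Polynomial.C : K →+* K[X])).comp (Polynomial.X + Polynomial.C (p i)) with hF
  set F0 : K[X] := F.map (Polynomial.evalRingHom 0) with hF0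
  have hev : ∀ m : ℕ, F.eval (Polynomial.C (m : K)) = ∑ i, (Q i).comp (Polynomial.C (m : K) + p i) := by
    intro m
    simp only [hF, Polynomial.eval_finset_sum, Polynomial.eval_comp, Polynomial.eval_add,
      Polynomial.eval_X, Polynomial.eval_C, Polynomial.eval_map]
    rfl
  have hG : F - F0.map Polynomial.C = 0 := by
    apply Polynomial.eq_zero_of_infinite_isRoot
    have hinj : Function.Injective (fun m : ℕ => (Polynomial.C (m : K) : K[X])) := by
      intro a b hab
      exact_mod_cast Polynomial.C_injective hab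
    refine (hM.image hinj.injOn).mono ?_
    rintro _ ⟨m, hm, rfl⟩
    simp only [Set.mem_setOf_eq, Polynomial.IsRoot, Polynomial.eval_sub]
    have h1 : (F0.map Polynomial.C).eval (Polynomial.C (m : K)) =
        Polynomial.C ((F.eval (Polynomial.C (m : K))).eval 0) := by
      rw [Polynomial.eval_map, Polynomial.eval₂_at_apply, hF0, Polynomial.eval_map]
      congr 1
      have := Polynomial.hom_eval₂ F (RingHom.id _) (Polynomial.evalRingHom (0 : K))
        (Polynomial.C (m : K))
      simpa using this.symm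
    rw [h1, hev, sub_eq_zero]
    ext r
    rw [Polynomial.coeff_C]
    split_ifs with hr
    · rw [hr, Polynomial.coeff_zero_eq_eval_zero]
    · exact h m hm r (by omega)
  have := relation_degree (ι := Option (Fin l)) (fun o => o.elim 0 p) (fun o => o.elim (-F0) Q)
    (by
      rintro (_ | a) (_ | b) hab
      · exact absurd rfl hab
      · simpa using hp b
      · simpa using hp a
      · exact hdiff a b (fun e => hab (by rw [e])))
    (by
      rw [Fintype.sum_option]
      simp only [Option.elim, Polynomial.map_neg, map_zero, add_zero, Polynomial.comp_X]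
      rw [← hF, ← hG]
      ring)
    (some j) k (by simpa using hk)
  simpa using this

/-- Real version: if for infinitely many shifts all non-constant coefficients are rational, then
the high coefficients of each `Q j` are rational. -/
theorem rational_of_infinite {l : ℕ} (p : Fin l → ℤ[X]) (Q : Fin l → ℝ[X])
    (hp : ∀ i, 0 < (p i).natDegree)
    (hdiff : ∀ i j, i ≠ j → 0 < (p i - p j).natDegree) (M : Set ℕ) (hM : M.Infinite)
    (h : ∀ m ∈ M, ∀ r, 1 ≤ r → ¬ Irrational ((∑ i, (Q i).comp
      (Polynomial.C (m : ℝ) + (p i).map (Int.castRingHom ℝ))).coeff r))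
    (j : Fin l) (k : ℕ) (hk : l ≤ k) : ¬ Irrational ((Q j).coeff k) := by
  classical
  intro hirr
  have hnot : (Q j).coeff k ∉ Submodule.span ℚ {(1 : ℝ)} := by
    intro hmem
    obtain ⟨a, ha⟩ := Submodule.mem_span_singleton.mp hmem
    exact hirr ⟨a, by simpa using ha⟩
  obtain ⟨τ, hτ, hτ0⟩ := Submodule.exists_dual_map_eq_bot_of_notMem hnot inferInstance
  have hτq : ∀ a : ℝ, ¬ Irrational a → τ a = 0 := by
    intro a ha
    obtain ⟨q, rfl⟩ : ∃ q : ℚ, (q : ℝ) = a := by simpa [Irrational] using ha
    have : τ (q : ℝ) ∈ (Submodule.span ℚ {(1 : ℝ)}).map τ :=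
      Submodule.mem_map_of_mem (Submodule.mem_span_singleton.mpr ⟨q, by simp⟩)
    rw [hτ0] at this
    exact (Submodule.mem_bot ℚ).1 this
  set N := Finset.univ.sup (fun i => (Q i).natDegree) + k + 1 with hN
  have hNi : ∀ i, (Q i).natDegree < N := fun i => by
    have : (Q i).natDegree ≤ Finset.univ.sup (fun i => (Q i).natDegree) :=
      Finset.le_sup (f := fun i => (Q i).natDegree) (Finset.mem_univ i)
    omega
  set Q' : Fin l → ℚ[X] := fun i => ∑ a ∈ range N, Polynomial.monomial a (τ ((Q i).coeff a)) with hQ'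
  set p' : Fin l → ℚ[X] := fun i => (p i).map (Int.castRingHom ℚ) with hp'
  have hinj : Function.Injective (Int.castRingHom ℚ) := Int.cast_injective
  have key := coeff_eq_zero_of_infinite p' Q'
    (fun i => by rw [hp', Polynomial.natDegree_map_eq_of_injective hinj]; exact hp i)
    (fun i j hij => by
      simp only [hp']
      rw [← Polynomial.map_sub, Polynomial.natDegree_map_eq_of_injective hinj]
      exact hdiff i j hij) M hM
    (fun m hm r hr => by
      rw [← hτq _ (h m hm r hr)]
      simp only [Polynomial.finset_sum_coeff, map_sum]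
      refine Finset.sum_congr rfl fun i _ => ?_
      conv_rhs => rw [(Q i).as_sum_range' N (hNi i)]
      simp only [hQ', Polynomial.sum_comp, Polynomial.monomial_comp, Polynomial.finset_sum_coeff,
        Polynomial.coeff_C_mul, map_sum]
      refine Finset.sum_congr rfl fun a _ => ?_
      have : (Polynomial.C (m : ℝ) + (p i).map (Int.castRingHom ℝ)) ^ a =
          ((Polynomial.C (m : ℚ) + p' i) ^ a).map (algebraMap ℚ ℝ) := by
        have e : (algebraMap ℚ ℝ).comp (Int.castRingHom ℚ) = Int.castRingHom ℝ := RingHom.ext_int _ _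
        rw [Polynomial.map_pow, Polynomial.map_add, Polynomial.map_C, hp', Polynomial.map_map, e]
        simp
      rw [this, Polynomial.coeff_map, mul_comm ((Q i).coeff a), ← Algebra.smul_def, map_smul,
        smul_eq_mul, mul_comm]) j k hk
  apply hτ
  rw [← key]
  simp only [hQ', Polynomial.finset_sum_coeff, Polynomial.coeff_monomial]
  rw [Finset.sum_ite_eq' (range N) k, if_pos (Finset.mem_range.mpr (by omega))]

end Relation

end Pool.Agent.H799Z.HK
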