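import Mathlib

set_option autoImplicit false

namespace Pool.Agent.H799Z.HK

open MeasureTheory Filter Topology
open scoped ENNReal

variable {α : Type*}

/-- The multiplicative derivative `conj g * (g ∘ T)`. -/
def mulDeriv (T : α → α) (g : α → ℂ) : α → ℂ := fun x => starRingEnd ℂ (g x) * g (T x)

variable [MeasurableSpace α]

/-- `hkPow μ T k f` is the power `‖f‖_{k+1} ^ (2 ^ (k+1))` of the Host-Kra seminorm, defined
inductively: `‖f‖_1 ^ 2` is the integral of `|E(f | I)| ^ 2`, where `I` is the sigma-algebra of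
`T`-invariant sets, and `‖f‖_{k+1} ^ (2 ^ (k+1))` is the upper limit of the averages over
`n = 1, ..., N` of `‖conj f * (f ∘ T ^ n)‖_k ^ (2 ^ k)`. -/
noncomputable def hkPow (μ : Measure α) (T : α → α) : ℕ → (α → ℂ) → ℝ≥0∞
  | 0, f => ∫⁻ x, ‖(μ[f | MeasurableSpace.invariants T]) x‖ₑ ^ 2 ∂μ
  | k + 1, f => limsup (fun N : ℕ => (N : ℝ≥0∞)⁻¹ * ∑ n ∈ Finset.range N,
      hkPow μ T k (fun x => starRingEnd ℂ (f x) * f (T^[n + 1] x))) atTop

/-- A generalized eigenfunction (polynomial phase): a measurable function of modulus one with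
some iterated multiplicative derivative equal to `1` almost everywhere. -/
def IsPhase (μ : Measure α) (T : α → α) (g : α → ℂ) : Prop :=
  Measurable g ∧ (∀ x, ‖g x‖ = 1) ∧ ∃ K : ℕ, (mulDeriv T)^[K] g =ᵐ[μ] fun _ => 1

/-- Finite linear combinations of generalized eigenfunctions are dense in `L²`. -/
def PhasesSpan (μ : Measure α) (T : α → α) : Prop :=
  ∀ f : α → ℂ, MemLp f 2 μ → ∀ ε : ℝ, 0 < ε →
    ∃ (n : ℕ) (c : Fin n → ℂ) (g : Fin n → α → ℂ), (∀ i, IsPhase μ T (g i)) ∧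
      ∫ x, ‖f x - ∑ i, c i * g i x‖ ^ 2 ∂μ < ε

/-- The factor `Z_{l-1}` is characteristic for the family `p` of `l` integer polynomials in the
system `(μ, T)`: if the functions are bounded and one of them has zero `l`-th Host-Kra seminorm,
the multiple averages tend to zero in `L²`. -/
def TopFactorCharacteristic (μ : Measure α) (T : Equiv.Perm α) {l : ℕ}
    (p : Fin l → Polynomial ℤ) : Prop :=
  ∀ f : Fin l → α → ℂ, (∀ i, Measurable (f i)) → (∃ C : ℝ, ∀ i x, ‖f i x‖ ≤ C) →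
    ∀ j : Fin l, hkPow μ T (l - 1) (f j) = 0 →
      Tendsto (fun N : ℕ => ∫ x, ‖((N : ℂ))⁻¹ * ∑ n ∈ Finset.range N, ∏ i : Fin l,
        f i ((T ^ ((p i).eval (n : ℤ))) x)‖ ^ 2 ∂μ) atTop (𝓝 0)

end Pool.Agent.H799Z.HK
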