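import Mathlib
import Pool.Agent.H799Z.HKDefs

set_option autoImplicit false

namespace Pool.Agent.H799Z.HK

open MeasureTheory Filter Topology Finset
open scoped ENNReal ComplexConjugate InnerProductSpace

variable {α : Type*}

section MulDeriv

variable (T : α → α)

lemma iter_mul (k : ℕ) : ∀ g h : α → ℂ, (mulDeriv T)^[k] (fun x => g x * h x) =
    fun x => (mulDeriv T)^[k] g x * (mulDeriv T)^[k] h x := by
  induction k with
  | zero => intro g h; rfl
  | succ k ih =>
    intro g h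
    rw [Function.iterate_succ_apply, Function.iterate_succ_apply, Function.iterate_succ_apply, ← ih]
    congr 1
    funext x
    simp only [mulDeriv, map_mul]
    ring

lemma iter_conj (k : ℕ) : ∀ g : α → ℂ, (mulDeriv T)^[k] (fun x => conj (g x)) =
    fun x => conj ((mulDeriv T)^[k] g x) := by
  induction k with
  | zero => intro g; rfl
  | succ k ih =>
    intro g
    rw [Function.iterate_succ_apply, Function.iterate_succ_apply, ← ih]
    congr 1
    funext x
    simp only [mulDeriv, map_mul]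

lemma iter_comp {S : α → α} (hS : ∀ x, S (T x) = T (S x)) (k : ℕ) : ∀ g : α → ℂ,
    (mulDeriv T)^[k] (fun x => g (S x)) = fun x => (mulDeriv T)^[k] g (S x) := by
  induction k with
  | zero => intro g; rfl
  | succ k ih =>
    intro g
    rw [Function.iterate_succ_apply, Function.iterate_succ_apply, ← ih]
    congr 1
    funext x
    simp only [mulDeriv, hS]

lemma iter_norm (k : ℕ) : ∀ g : α → ℂ, (∀ x, ‖g x‖ = 1) → ∀ x, ‖(mulDeriv T)^[k] g x‖ = 1 := by
  induction k with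
  | zero => intro g hg; exact hg
  | succ k ih =>
    intro g hg
    rw [Function.iterate_succ_apply]
    exact ih _ fun x => by simp [mulDeriv, hg]

lemma iter_one (k : ℕ) : (mulDeriv T)^[k] (fun _ => (1 : ℂ)) = fun _ => 1 :=
  Function.iterate_fixed (by funext x; simp [mulDeriv]) k

lemma conj_mul_self_of_norm {z : ℂ} (hz : ‖z‖ = 1) : conj z * z = 1 := by
  rw [Complex.conj_mul', hz]; simp

lemma eq_of_mulDeriv_eq_one {g : α → ℂ} {x : α} (hg : ‖g x‖ = 1) (h : mulDeriv T g x = 1) :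
    g (T x) = g x := by
  have h1 := conj_mul_self_of_norm hg
  simp only [mulDeriv] at h
  calc g (T x) = (conj (g x) * g x) * g (T x) := by rw [h1, one_mul]
    _ = g x * (conj (g x) * g (T x)) := by ring
    _ = g x := by rw [h, mul_one]

end MulDeriv

variable [MeasurableSpace α]

lemma iter_measurable {T : α → α} (hT : Measurable T) (k : ℕ) : ∀ g : α → ℂ, Measurable g →
    Measurable ((mulDeriv T)^[k] g) := by
  induction k with
  | zero => intro g hg; exact hg
  | succ k ih =>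
    intro g hg
    rw [Function.iterate_succ_apply]
    exact ih _ ((Complex.continuous_conj.measurable.comp hg).mul (hg.comp hT))

/-- Bounded measurable functions. -/
def BM (f : α → ℂ) : Prop := Measurable f ∧ ∃ C : ℝ, ∀ x, ‖f x‖ ≤ C

lemma BM.const (c : ℂ) : BM (fun _ : α => c) := ⟨measurable_const, ‖c‖, fun _ => le_rfl⟩

lemma BM.of_norm {g : α → ℂ} (hg : Measurable g) (h : ∀ x, ‖g x‖ = 1) : BM g :=
  ⟨hg, 1, fun x => (h x).le⟩

lemma BM.mul {f g : α → ℂ} (hf : BM f) (hg : BM g) : BM (fun x => f x * g x) := by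
  obtain ⟨hf, C, hC⟩ := hf
  obtain ⟨hg, D, hD⟩ := hg
  refine ⟨hf.mul hg, C * D, fun x => ?_⟩
  rw [norm_mul]
  exact mul_le_mul (hC x) (hD x) (norm_nonneg _) ((norm_nonneg _).trans (hC x))

lemma BM.add {f g : α → ℂ} (hf : BM f) (hg : BM g) : BM (fun x => f x + g x) := by
  obtain ⟨hf, C, hC⟩ := hf
  obtain ⟨hg, D, hD⟩ := hg
  exact ⟨hf.add hg, C + D, fun x => (norm_add_le _ _).trans (add_le_add (hC x) (hD x))⟩

lemma BM.sub {f g : α → ℂ} (hf : BM f) (hg : BM g) : BM (fun x => f x - g x) := by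
  obtain ⟨hf, C, hC⟩ := hf
  obtain ⟨hg, D, hD⟩ := hg
  exact ⟨hf.sub hg, C + D, fun x => (norm_sub_le _ _).trans (add_le_add (hC x) (hD x))⟩

lemma BM.conj {f : α → ℂ} (hf : BM f) : BM (fun x => conj (f x)) := by
  obtain ⟨hf, C, hC⟩ := hf
  exact ⟨Complex.continuous_conj.measurable.comp hf, C, fun x => by simpa using hC x⟩

lemma BM.comp {f : α → ℂ} (hf : BM f) {S : α → α} (hS : Measurable S) : BM (fun x => f (S x)) := by
  obtain ⟨hf, C, hC⟩ := hf
  exact ⟨hf.comp hS, C, fun x => hC _⟩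

lemma BM.indicator {f : α → ℂ} (hf : BM f) {F : Set α} (hF : MeasurableSet F) :
    BM (F.indicator f) := by
  obtain ⟨hf, C, hC⟩ := hf
  exact ⟨hf.indicator hF, C, fun x => (norm_indicator_le_norm_self f x).trans (hC x)⟩

lemma BM.sum {ι : Type*} (s : Finset ι) {f : ι → α → ℂ} (hf : ∀ i ∈ s, BM (f i)) :
    BM (fun x => ∑ i ∈ s, f i x) := by
  classical
  induction s using Finset.induction_on with
  | empty => simpa using BM.const 0
  | insert a s ha ih =>
    simp only [Finset.sum_insert ha]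
    exact (hf a (mem_insert_self _ _)).add (ih fun i hi => hf i (mem_insert_of_mem hi))

lemma BM.prod {ι : Type*} (s : Finset ι) {f : ι → α → ℂ} (hf : ∀ i ∈ s, BM (f i)) :
    BM (fun x => ∏ i ∈ s, f i x) := by
  classical
  induction s using Finset.induction_on with
  | empty => simpa using BM.const 1
  | insert a s ha ih =>
    simp only [Finset.prod_insert ha]
    exact (hf a (mem_insert_self _ _)).mul (ih fun i hi => hf i (mem_insert_of_mem hi))

lemma BM.memLp {f : α → ℂ} (hf : BM f) (μ : Measure α) [IsFiniteMeasure μ] (p : ℝ≥0∞) :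
    MemLp f p μ := by
  obtain ⟨hf, C, hC⟩ := hf
  exact MemLp.of_bound hf.aestronglyMeasurable C (ae_of_all _ hC)

lemma BM.integrable {f : α → ℂ} (hf : BM f) (μ : Measure α) [IsFiniteMeasure μ] :
    Integrable f μ := memLp_one_iff_integrable.mp (hf.memLp μ 1)

lemma BM.integrable_sq {f : α → ℂ} (hf : BM f) (μ : Measure α) [IsFiniteMeasure μ] :
    Integrable (fun x => ‖f x‖ ^ 2) μ := (hf.memLp μ 2).integrable_norm_pow (by norm_num)

variable {μ : Measure α} [IsProbabilityMeasure μ]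

/-- Mean ergodic lower bound for averaged autocorrelations. -/
lemma corr_lower {S : α → α} (hS : MeasurePreserving S μ μ) {Φ : α → ℂ} (hΦ : BM Φ) :
    ∃ r : ℝ, ‖∫ x, Φ x ∂μ‖ ^ 2 ≤ r ∧ Tendsto (fun N : ℕ => (N : ℂ)⁻¹ *
      ∑ n ∈ range N, ∫ x, conj (Φ x) * Φ (S^[n + 1] x) ∂μ) atTop (𝓝 (r : ℂ)) := by
  set U : Lp ℂ 2 μ →L[ℂ] Lp ℂ 2 μ :=
    (Lp.compMeasurePreservingₗᵢ ℂ S hS).toContinuousLinearMap with hU
  have hU1 : ‖U‖ ≤ 1 := LinearIsometry.norm_toContinuousLinearMap_le _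
  set v : Lp ℂ 2 μ := (hΦ.memLp μ 2).toLp Φ with hv
  have hvae : (v : α → ℂ) =ᵐ[μ] Φ := MemLp.coeFn_toLp _
  have hUae : ∀ w : Lp ℂ 2 μ, (U w : α → ℂ) =ᵐ[μ] (w : α → ℂ) ∘ S := fun w =>
    Lp.coeFn_compMeasurePreserving w hS
  have hit : ∀ n, ((U^[n] v : Lp ℂ 2 μ) : α → ℂ) =ᵐ[μ] fun x => Φ (S^[n] x) := by
    intro n
    induction n with
    | zero => exact hvae
    | succ n ih =>
      rw [Function.iterate_succ_apply']
      refine (hUae _).trans ?_
      have := hS.quasiMeasurePreserving.ae_eq_comp ih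
      filter_upwards [this] with x hx
      simpa [Function.iterate_succ_apply] using hx
  set K : Submodule ℂ (Lp ℂ 2 μ) := U.eqLocus (1 : Lp ℂ 2 μ →L[ℂ] Lp ℂ 2 μ) with hK
  have hlim := U.tendsto_birkhoffAverage_orthogonalProjection hU1 v
  set p : Lp ℂ 2 μ := K.starProjection v with hp
  have hpK : p ∈ K := K.starProjection_apply_mem v
  have hUp : U p = p := hpK
  set e : Lp ℂ 2 μ := ((BM.const (α := α) 1).memLp μ 2).toLp (fun _ => (1 : ℂ)) with he
  have heae : (e : α → ℂ) =ᵐ[μ] fun _ => 1 := MemLp.coeFn_toLp _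
  have heK : e ∈ K := by
    change U e = e
    apply Lp.ext
    refine (hUae e).trans ?_
    have := hS.quasiMeasurePreserving.ae_eq_comp heae
    filter_upwards [this, heae] with x hx hx'
    rw [hx, hx']
    rfl
  have hen : ‖e‖ ≤ 1 := by
    have := Lp.norm_le_of_ae_bound (f := e) (C := 1) zero_le_one
      (by filter_upwards [heae] with x hx; simp [hx])
    simpa [measureUnivNNReal] using this
  have hev : ⟪e, v⟫_ℂ = ∫ x, Φ x ∂μ := by
    rw [L2.inner_def]
    refine integral_congr_ae ?_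
    filter_upwards [heae, hvae] with x hx hx'
    simp [hx, hx']
  have hep : ⟪e, v⟫_ℂ = ⟪e, p⟫_ℂ := by
    have := K.starProjection_inner_eq_zero v e heK
    rw [inner_eq_zero_symm, inner_sub_right, sub_eq_zero] at this
    exact this
  have hvp : ⟪v, p⟫_ℂ = ((‖p‖ ^ 2 : ℝ) : ℂ) := by
    have := K.starProjection_inner_eq_zero v p hpK
    rw [inner_sub_left, sub_eq_zero] at this
    rw [this, ← hp, inner_self_eq_norm_sq_to_K]
    simp
  refine ⟨‖p‖ ^ 2, ?_, ?_⟩
  · rw [← hev, hep]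
    have h1 : ‖⟪e, p⟫_ℂ‖ ≤ ‖p‖ :=
      (norm_inner_le_norm e p).trans (by nlinarith [norm_nonneg p])
    exact pow_le_pow_left₀ (norm_nonneg _) h1 2
  · have h2 : Tendsto (fun N : ℕ => ⟪v, U (birkhoffAverage ℂ U id N v)⟫_ℂ) atTop (𝓝 ⟪v, U p⟫_ℂ) :=
      tendsto_const_nhds.inner ((U.continuous.tendsto _).comp hlim)
    rw [hUp, hvp] at h2
    refine h2.congr fun N => ?_
    simp only [birkhoffAverage, birkhoffSum, map_smul, map_sum, inner_smul_right, inner_sum, id]
    congr 1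
    refine Finset.sum_congr rfl fun n _ => ?_
    rw [← Function.iterate_succ_apply' U n v, L2.inner_def]
    refine integral_congr_ae ?_
    filter_upwards [hvae, hit (n + 1)] with x hx hx'
    simp only [Nat.succ_eq_add_one, hx, hx', RCLike.inner_apply]
    ring

lemma lintegral_sq_le {g : α → ℝ≥0∞} (hg : AEMeasurable g μ) :
    (∫⁻ x, g x ∂μ) ^ 2 ≤ ∫⁻ x, g x ^ 2 ∂μ := by
  have h := ENNReal.lintegral_mul_le_Lp_mul_Lq μ Real.HolderConjugate.two_two hg
    (aemeasurable_const (b := (1 : ℝ≥0∞)))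
  simp only [Pi.mul_apply, mul_one, ENNReal.one_rpow, lintegral_const, measure_univ,
    ENNReal.rpow_two, one_pow] at h
  calc (∫⁻ x, g x ∂μ) ^ 2 ≤ ((∫⁻ x, g x ^ 2 ∂μ) ^ (1 / 2 : ℝ)) ^ 2 := by gcongr
    _ = _ := by
      rw [← ENNReal.rpow_two, ← ENNReal.rpow_mul]
      norm_num

/-- The quantitative claim at level `k`. -/
def Ctrl (μ : Measure α) (T : α → α) (k : ℕ) : Prop :=
  ∀ (f g : α → ℂ) (F : Set α), BM f → Measurable g → (∀ x, ‖g x‖ = 1) → MeasurableSet F →
    (∀ x, T x ∈ F ↔ x ∈ F) → (∀ x ∈ F, (mulDeriv T)^[k + 1] g x = 1) →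
    ENNReal.ofReal (‖∫ x, F.indicator (fun x => f x * conj (g x)) x ∂μ‖ ^ (2 ^ (k + 1))) ≤
      hkPow μ T k f

lemma ctrl_zero {T : α → α} : Ctrl μ T 0 := by
  intro f g F hf hg hg1 hF hFT hd
  have hle := MeasurableSpace.invariants_le T
  set G : α → ℂ := F.indicator (fun x => conj (g x)) with hG
  have hGB : BM G := (BM.of_norm hg hg1).conj.indicator hF
  have hGT : G ∘ T = G := by
    funext x
    by_cases hx : x ∈ F
    · simp only [Function.comp, hG, Set.indicator_of_mem hx, Set.indicator_of_mem ((hFT x).2 hx)]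
      rw [eq_of_mulDeriv_eq_one T (hg1 x) (hd x hx)]
    · simp only [Function.comp, hG, Set.indicator_of_notMem hx,
        Set.indicator_of_notMem (fun h => hx ((hFT x).1 h))]
  have hGm : StronglyMeasurable[MeasurableSpace.invariants T] G :=
    (MeasurableSpace.measurable_invariants_dom.2 ⟨hGB.1, fun s _ => by rw [hGT]⟩).stronglyMeasurable
  have hpull := condExp_bilin_of_stronglyMeasurable_left (ContinuousLinearMap.mul ℝ ℂ) hGm
    (μ := μ) (g := f) ((hGB.mul hf).integrable μ) (hf.integrable μ)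
  have h1 : ∫ x, F.indicator (fun x => f x * conj (g x)) x ∂μ =
      ∫ x, G x * (μ[f | MeasurableSpace.invariants T]) x ∂μ := by
    have h2 : ∫ x, F.indicator (fun x => f x * conj (g x)) x ∂μ = ∫ x, G x * f x ∂μ := by
      refine integral_congr_ae (ae_of_all _ fun x => ?_)
      by_cases hx : x ∈ F
      · simp [hG, hx, mul_comm]
      · simp [hG, hx]
    rw [h2, ← integral_condExp hle]
    exact integral_congr_ae hpull
  have hGn : ∀ x, ‖G x‖ₑ ≤ 1 := fun x => by
    by_cases hx : x ∈ F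
    · simp [hG, hx, ← ofReal_norm_eq_enorm, hg1]
    · simp [hG, hx]
  rw [h1, ENNReal.ofReal_pow (norm_nonneg _), ofReal_norm_eq_enorm]
  calc ‖∫ x, G x * (μ[f | MeasurableSpace.invariants T]) x ∂μ‖ₑ ^ (2 ^ (0 + 1))
      ≤ (∫⁻ x, ‖(μ[f | MeasurableSpace.invariants T]) x‖ₑ ∂μ) ^ 2 := by
        rw [show 2 ^ (0 + 1) = 2 from rfl]
        gcongr
        refine (enorm_integral_le_lintegral_enorm _).trans (lintegral_mono fun x => ?_)
        rw [enorm_mul]
        exact mul_le_of_le_one_left' (hGn x)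
    _ ≤ _ := lintegral_sq_le (integrable_condExp.aestronglyMeasurable.enorm)

lemma iter_mem_iff {T : α → α} {F : Set α} (hFT : ∀ x, T x ∈ F ↔ x ∈ F) (n : ℕ) (x : α) :
    T^[n] x ∈ F ↔ x ∈ F := by
  induction n with
  | zero => rfl
  | succ n ih => rw [Function.iterate_succ_apply', hFT, ih]

lemma ctrl_step {T : α → α} (hT : MeasurePreserving T μ μ) {k : ℕ} (hk : Ctrl μ T k) (Q : ℕ)
    (hQ : 0 < Q) (f g : α → ℂ) (F : Set α) (hf : BM f) (hg : Measurable g) (hg1 : ∀ x, ‖g x‖ = 1)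
    (hF : MeasurableSet F) (hFT : ∀ x, T x ∈ F ↔ x ∈ F)
    (hd : ∀ x ∈ F, (mulDeriv T)^[k + 1] g (T^[Q] x) = (mulDeriv T)^[k + 1] g x) :
    ENNReal.ofReal (‖∫ x, F.indicator (fun x => f x * conj (g x)) x ∂μ‖ ^ (2 ^ (k + 2))) ≤
      Q * hkPow μ T (k + 1) f := by
  set Φ : α → ℂ := F.indicator (fun x => f x * conj (g x)) with hΦ
  have hgB : BM g := BM.of_norm hg hg1
  have hΦB : BM Φ := (hf.mul hgB.conj).indicator hF
  obtain ⟨r, hr, hlim⟩ := corr_lower (hT.iterate Q) hΦB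
  set γ : ℕ → ℂ := fun n => ∫ x, conj (Φ x) * Φ ((T^[Q])^[n + 1] x) ∂μ with hγ
  set b : ℕ → ℝ≥0∞ := fun m => hkPow μ T k (fun x => conj (f x) * f (T^[m + 1] x)) with hb
  have hper : ∀ n, ∀ x ∈ F, (mulDeriv T)^[k + 1] g ((T^[Q])^[n] x) = (mulDeriv T)^[k + 1] g x := by
    intro n
    induction n with
    | zero => intro x _; rfl
    | succ n ih =>
      intro x hx
      rw [Function.iterate_succ_apply (T^[Q]), ih _ ((iter_mem_iff hFT Q x).2 hx), hd x hx]
  have hγb : ∀ n, ENNReal.ofReal (‖γ n‖ ^ (2 ^ (k + 1))) ≤ b (Q * (n + 1) - 1) := by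
    intro n
    have hpos : Q * (n + 1) - 1 + 1 = Q * (n + 1) :=
      Nat.sub_add_cancel (Nat.mul_pos hQ (Nat.succ_pos n))
    have hmeas : Measurable (T^[Q * (n + 1)]) := hT.measurable.iterate _
    have := hk (fun x => conj (f x) * f (T^[Q * (n + 1)] x))
      (fun x => conj (g x) * g (T^[Q * (n + 1)] x)) F (hf.conj.mul (hf.comp hmeas))
      (hgB.conj.mul (hgB.comp hmeas)).1 (fun x => by simp [hg1]) hF hFT
      (fun x hx => by
        rw [iter_mul, iter_conj, iter_comp T (S := T^[Q * (n + 1)])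
          (fun y => by rw [← Function.iterate_succ_apply, Function.iterate_succ_apply'])]
        simp only
        rw [Function.iterate_mul, hper _ x hx]
        exact conj_mul_self_of_norm (iter_norm T _ g hg1 x))
    simp only [hb, hpos]
    convert this using 4
    simp only [hγ]
    refine integral_congr_ae (ae_of_all _ fun x => ?_)
    rw [← Function.iterate_mul]
    by_cases hx : x ∈ F
    · simp only [hΦ, Set.indicator_of_mem hx, Set.indicator_of_mem ((iter_mem_iff hFT _ x).2 hx),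
        map_mul, Complex.conj_conj]
      ring
    · simp [hΦ, hx]
  have hr0 : 0 ≤ r := le_trans (by positivity) hr
  set a : ℕ → ℝ≥0∞ := fun M => (M : ℝ≥0∞)⁻¹ * ∑ m ∈ range M, b m with ha
  have hlim2 : Tendsto (fun N : ℕ => ENNReal.ofReal (‖(N : ℂ)⁻¹ * ∑ n ∈ range N, γ n‖ ^ (2 ^ (k + 1))))
      atTop (𝓝 (ENNReal.ofReal (r ^ (2 ^ (k + 1))))) := by
    refine ENNReal.tendsto_ofReal ?_
    have := (hlim.norm).pow (2 ^ (k + 1))
    rwa [Complex.norm_real, Real.norm_of_nonneg hr0] at this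
  have hcmp : ∀ᶠ N : ℕ in atTop,
      ENNReal.ofReal (‖(N : ℂ)⁻¹ * ∑ n ∈ range N, γ n‖ ^ (2 ^ (k + 1))) ≤ Q * a (Q * N) := by
    filter_upwards [eventually_gt_atTop 0] with N hN
    have hNr : (0 : ℝ) < N := by exact_mod_cast hN
    obtain ⟨e, he⟩ : ∃ e, 2 ^ (k + 1) = e + 1 := ⟨2 ^ (k + 1) - 1, by
      have := Nat.one_le_two_pow (n := k + 1); omega⟩
    have h1 : ‖(N : ℂ)⁻¹ * ∑ n ∈ range N, γ n‖ ^ (2 ^ (k + 1)) ≤
        (N : ℝ)⁻¹ * ∑ n ∈ range N, ‖γ n‖ ^ (2 ^ (k + 1)) := by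
      have h2 : ‖(N : ℂ)⁻¹ * ∑ n ∈ range N, γ n‖ ≤ (N : ℝ)⁻¹ * ∑ n ∈ range N, ‖γ n‖ := by
        rw [norm_mul, norm_inv, Complex.norm_natCast]
        gcongr
        exact norm_sum_le _ _
      have h3 := pow_sum_div_card_le_sum_pow (s := range N) (f := fun n => ‖γ n‖)
        (fun _ _ => norm_nonneg _) e
      rw [card_range] at h3
      refine (pow_le_pow_left₀ (norm_nonneg _) h2 _).trans ?_
      rw [he, mul_pow]
      calc (N : ℝ)⁻¹ ^ (e + 1) * (∑ n ∈ range N, ‖γ n‖) ^ (e + 1)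
          = (N : ℝ)⁻¹ * ((∑ n ∈ range N, ‖γ n‖) ^ (e + 1) / (N : ℝ) ^ e) := by
            rw [pow_succ' ((N : ℝ)⁻¹), inv_pow, div_eq_mul_inv]
            ring
        _ ≤ _ := by gcongr
    have h4 : ∑ n ∈ range N, b (Q * (n + 1) - 1) ≤ ∑ m ∈ range (Q * N), b m := by
      have hinj : Set.InjOn (fun n => Q * (n + 1) - 1) (range N : Set ℕ) := by
        intro x _ y _ hxy
        have hx : 0 < Q * (x + 1) := Nat.mul_pos hQ (Nat.succ_pos _)
        have hy : 0 < Q * (y + 1) := Nat.mul_pos hQ (Nat.succ_pos _)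
        have : Q * (x + 1) = Q * (y + 1) := by simp only at hxy; omega
        have := Nat.eq_of_mul_eq_mul_left hQ this
        omega
      rw [← Finset.sum_image (f := b) hinj]
      refine Finset.sum_le_sum_of_subset ?_
      · intro m hm
        obtain ⟨n, hn, rfl⟩ := Finset.mem_image.mp hm
        have h5 : Q * (n + 1) ≤ Q * N := Nat.mul_le_mul_left _ (mem_range.mp hn)
        have hx : 0 < Q * (n + 1) := Nat.mul_pos hQ (Nat.succ_pos _)
        exact mem_range.mpr (by omega)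
    calc ENNReal.ofReal (‖(N : ℂ)⁻¹ * ∑ n ∈ range N, γ n‖ ^ (2 ^ (k + 1)))
        ≤ ENNReal.ofReal ((N : ℝ)⁻¹ * ∑ n ∈ range N, ‖γ n‖ ^ (2 ^ (k + 1))) :=
          ENNReal.ofReal_le_ofReal h1
      _ = (N : ℝ≥0∞)⁻¹ * ∑ n ∈ range N, ENNReal.ofReal (‖γ n‖ ^ (2 ^ (k + 1))) := by
          rw [ENNReal.ofReal_mul (by positivity), ENNReal.ofReal_inv_of_pos hNr,
            ENNReal.ofReal_natCast, ENNReal.ofReal_sum_of_nonneg (fun _ _ => by positivity)]
      _ ≤ (N : ℝ≥0∞)⁻¹ * ∑ m ∈ range (Q * N), b m := by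
          gcongr
          exact (Finset.sum_le_sum fun n _ => hγb n).trans h4
      _ = Q * a (Q * N) := by
          simp only [ha]
          have hQ0 : (Q : ℝ≥0∞) ≠ 0 := by exact_mod_cast hQ.ne'
          rw [Nat.cast_mul, ENNReal.mul_inv (Or.inl hQ0) (Or.inl (ENNReal.natCast_ne_top Q)),
            ← mul_assoc, ← mul_assoc, ENNReal.mul_inv_cancel hQ0 (ENNReal.natCast_ne_top Q), one_mul]
  calc ENNReal.ofReal (‖∫ x, Φ x ∂μ‖ ^ (2 ^ (k + 2)))
      ≤ ENNReal.ofReal (r ^ (2 ^ (k + 1))) := by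
        refine ENNReal.ofReal_le_ofReal ?_
        rw [show 2 ^ (k + 2) = 2 * 2 ^ (k + 1) by ring, pow_mul]
        exact pow_le_pow_left₀ (by positivity) hr _
    _ = limsup (fun N : ℕ =>
          ENNReal.ofReal (‖(N : ℂ)⁻¹ * ∑ n ∈ range N, γ n‖ ^ (2 ^ (k + 1)))) atTop :=
        hlim2.limsup_eq.symm
    _ ≤ limsup (fun N : ℕ => (Q : ℝ≥0∞) * a (Q * N)) atTop := limsup_le_limsup hcmp
    _ = Q * limsup (fun N : ℕ => a (Q * N)) atTop :=
        ENNReal.limsup_const_mul_of_ne_top (ENNReal.natCast_ne_top Q)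
    _ ≤ Q * limsup a atTop := by
        gcongr
        exact Tendsto.limsup_comp_le_limsup (v := fun N : ℕ => Q * N) (u := a)
          (tendsto_id.const_mul_atTop' hQ)
    _ = Q * hkPow μ T (k + 1) f := rfl

lemma ctrl_all {T : α → α} (hT : MeasurePreserving T μ μ) (k : ℕ) : Ctrl μ T k := by
  induction k with
  | zero => exact ctrl_zero
  | succ k ih =>
    intro f g F hf hg hg1 hF hFT hd
    have := ctrl_step hT ih 1 one_pos f g F hf hg hg1 hF hFT (fun x hx => by
      have h1 := hd x hx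
      rw [Function.iterate_succ_apply'] at h1
      exact eq_of_mulDeriv_eq_one T (iter_norm T _ g hg1 x) h1)
    simpa using this

/-- A function with zero seminorm does not correlate with phases having a periodic derivative. -/
theorem integral_eq_zero_of_hkPow {T : α → α} (hT : MeasurePreserving T μ μ) {k : ℕ} (Q : ℕ)
    (hQ : 0 < Q) (f g : α → ℂ) (F : Set α) (hf : BM f) (hg : Measurable g) (hg1 : ∀ x, ‖g x‖ = 1)
    (hF : MeasurableSet F) (hFT : ∀ x, T x ∈ F ↔ x ∈ F)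
    (hd : ∀ x ∈ F, (mulDeriv T)^[k + 1] g (T^[Q] x) = (mulDeriv T)^[k + 1] g x)
    (h0 : hkPow μ T (k + 1) f = 0) :
    ∫ x, F.indicator (fun x => f x * conj (g x)) x ∂μ = 0 := by
  have := ctrl_step hT (ctrl_all hT k) Q hQ f g F hf hg hg1 hF hFT hd
  rw [h0, mul_zero, nonpos_iff_eq_zero, ENNReal.ofReal_eq_zero] at this
  have h2 := le_antisymm this (by positivity)
  exact norm_eq_zero.mp (pow_eq_zero_iff (by positivity) |>.mp h2)

end Pool.Agent.H799Z.HK
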