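import Mathlib
import Pool.Agent.H799Z.HKSemi
import Pool.Agent.H799Z.HKAlg
import Pool.Agent.H767R2.Weyl

set_option autoImplicit false

namespace Pool.Agent.H799Z.HK

open MeasureTheory Filter Topology Finset Pool.Agent.H767R2
open scoped ENNReal ComplexConjugate

variable {α : Type*}

section Seq

lemma iter_semiconj {β : Type*} {T : α → α} {R : β → β} {S : β → α} (hS : ∀ y, S (R y) = T (S y))
    (k : ℕ) : ∀ g : α → ℂ,
    (mulDeriv R)^[k] (fun y => g (S y)) = fun y => (mulDeriv T)^[k] g (S y) := by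
  induction k with
  | zero => intro g; rfl
  | succ k ih =>
    intro g
    rw [Function.iterate_succ_apply, Function.iterate_succ_apply, ← ih]
    congr 1
    funext x
    simp only [mulDeriv, hS]

/-- The shift on the integers. -/
def sh : ℤ → ℤ := fun u => u + 1

lemma iter_ee (k : ℕ) : ∀ φ : ℝ → ℝ, (mulDeriv sh)^[k] (fun u : ℤ => ee (φ u)) =
    fun u : ℤ => ee ((fwdDiff (1 : ℝ))^[k] φ u) := by
  induction k with
  | zero => intro φ; rfl
  | succ k ih =>
    intro φ
    rw [Function.iterate_succ_apply, Function.iterate_succ_apply, ← ih]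
    congr 1
    funext u
    simp only [mulDeriv, sh, fwdDiff, ee_sub]
    push_cast
    ring

/-- The `k`-th derivative of the sequence is `Q`-periodic. -/
def PerQ (k : ℕ) (s : ℤ → ℂ) (Q : ℕ) : Prop :=
  ∀ u : ℤ, (mulDeriv sh)^[k] s (u + Q) = (mulDeriv sh)^[k] s u

/-- The `k`-th derivative of the sequence is periodic. -/
def Per (k : ℕ) (s : ℤ → ℂ) : Prop := ∃ Q : ℕ, 0 < Q ∧ PerQ k s Q

lemma PerQ.mul_right {k : ℕ} {s : ℤ → ℂ} {Q : ℕ} (h : PerQ k s Q) (m : ℕ) : PerQ k s (Q * m) := by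
  induction m with
  | zero => intro u; simp
  | succ m ih =>
    intro u
    have : u + ((Q * (m + 1) : ℕ) : ℤ) = (u + ((Q * m : ℕ) : ℤ)) + Q := by push_cast; ring
    rw [this, h, ih]

lemma Per.mul {k : ℕ} {s t : ℤ → ℂ} (hs : Per k s) (ht : Per k t) : Per k (fun u => s u * t u) := by
  obtain ⟨Q, hQ, hs⟩ := hs
  obtain ⟨R, hR, ht⟩ := ht
  refine ⟨Q * R, Nat.mul_pos hQ hR, fun u => ?_⟩
  rw [iter_mul]
  simp only
  rw [hs.mul_right R u, mul_comm Q R, ht.mul_right Q u]

lemma Per.conj {k : ℕ} {s : ℤ → ℂ} (hs : Per k s) : Per k (fun u => conj (s u)) := by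
  obtain ⟨Q, hQ, hs⟩ := hs
  refine ⟨Q, hQ, fun u => ?_⟩
  rw [iter_conj]
  simp only
  rw [hs u]

lemma per_one (k : ℕ) : Per k (fun _ => (1 : ℂ)) := ⟨1, one_pos, fun u => by rw [iter_one]⟩

lemma per_of_periodic {k : ℕ} {s : ℤ → ℂ} {Q : ℕ} (hQ : 0 < Q) (h : ∀ u : ℤ, s (u + Q) = s u) :
    Per k s := by
  refine ⟨Q, hQ, fun u => ?_⟩
  have := iter_comp sh (S := fun u : ℤ => u + Q) (fun x => by simp only [sh]; ring) k s
  simp only [h] at this
  exact (congrFun this u).symm

lemma per_monomial (k j : ℕ) (a : ℝ) (h : k < j → ¬ Irrational a) :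
    Per k (fun u : ℤ => ee (a * (u : ℝ) ^ j)) := by
  by_cases hj : k < j
  · obtain ⟨q, rfl⟩ : ∃ q : ℚ, (q : ℝ) = a := by simpa [Irrational] using h hj
    refine per_of_periodic q.den_pos fun u => ?_
    obtain ⟨z, hz⟩ := sub_dvd_pow_sub_pow (u + q.den) u j
    have h1 : (q : ℝ) * ((u + q.den : ℤ) : ℝ) ^ j = (q : ℝ) * (u : ℝ) ^ j + ((q.num * z : ℤ) : ℝ) := by
      have h2 : ((u + q.den : ℤ) : ℝ) ^ j - (u : ℝ) ^ j = (q.den : ℝ) * z := by
        have := congrArg (fun t : ℤ => (t : ℝ)) hz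
        push_cast at this ⊢
        rw [this]
        ring
      have h3 : (q : ℝ) * (q.den : ℝ) = q.num := by exact_mod_cast Rat.mul_den_eq_num q
      push_cast at h2 ⊢
      rw [← h3]
      linear_combination (q : ℝ) * h2
    rw [h1, ee_add, ee_int, mul_one]
  · refine ⟨1, one_pos, fun u => ?_⟩
    have h1 : (mulDeriv sh)^[k + 1] (fun u : ℤ => ee (a * (u : ℝ) ^ j)) u = 1 := by
      have h2 := Polynomial.fwdDiff_iter_eq_zero_of_degree_lt (P := Polynomial.monomial j a)
        (n := k + 1) (lt_of_le_of_lt (Polynomial.natDegree_monomial_le a) (by omega))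
      have h3 := iter_ee (k + 1) (Polynomial.monomial j a).eval
      rw [h2] at h3
      simp only [Polynomial.eval_monomial, Pi.zero_apply, ee_zero] at h3
      exact congrFun h3 u
    rw [Function.iterate_succ_apply'] at h1
    exact eq_of_mulDeriv_eq_one sh (iter_norm sh k _ (fun _ => norm_ee _) u) h1

lemma per_poly (k : ℕ) (P : Polynomial ℝ) (h : ∀ j, k < j → ¬ Irrational (P.coeff j)) :
    Per k (fun u : ℤ => ee (P.eval (u : ℝ))) := by
  have key : ∀ n, Per k (fun u : ℤ => ee (∑ j ∈ range n, P.coeff j * (u : ℝ) ^ j)) := by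
    intro n
    induction n with
    | zero => simpa [ee_zero] using per_one k
    | succ n ih =>
      simp only [Finset.sum_range_succ, ee_add]
      exact ih.mul (per_monomial k n _ (h n))
  simpa only [Polynomial.eval_eq_sum_range] using key (P.natDegree + 1)

lemma exists_antidiff (R : Polynomial ℝ) : ∃ Q : Polynomial ℝ, ∀ u : ℤ,
    Q.eval ((u : ℝ) + 1) = Q.eval (u : ℝ) + R.eval (u : ℝ) := by
  induction R using Polynomial.induction_on' with
  | add p q hp hq =>
    obtain ⟨P, hP⟩ := hp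
    obtain ⟨Q, hQ⟩ := hq
    refine ⟨P + Q, fun u => ?_⟩
    simp only [Polynomial.eval_add, hP, hQ]
    ring
  | monomial n a =>
    refine ⟨Polynomial.C (a / (n + 1)) * (Polynomial.bernoulli (n + 1)).map (algebraMap ℚ ℝ),
      fun u => ?_⟩
    have h1 : ∀ q : ℚ, ((Polynomial.bernoulli (n + 1)).map (algebraMap ℚ ℝ)).eval (q : ℝ) =
        (((Polynomial.bernoulli (n + 1)).eval q : ℚ) : ℝ) := fun q => by
      rw [Polynomial.eval_map]
      exact Polynomial.eval₂_at_apply (algebraMap ℚ ℝ) q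
    have h2 := h1 (1 + (u : ℚ))
    have h3 := h1 (u : ℚ)
    rw [Polynomial.bernoulli_eval_one_add] at h2
    push_cast at h2 h3
    have h4 : ((n : ℝ) + 1) ≠ 0 := by positivity
    rw [Polynomial.eval_mul, Polynomial.eval_mul, Polynomial.eval_C, Polynomial.eval_C,
      add_comm (u : ℝ) 1, h2, h3, Polynomial.eval_monomial]
    field_simp

lemma exists_ee {z : ℂ} (hz : ‖z‖ = 1) : ∃ a : ℝ, ee a = z := by
  refine ⟨z.arg / (2 * Real.pi), ?_⟩
  have h := Complex.norm_mul_exp_arg_mul_I z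
  rw [hz, Complex.ofReal_one, one_mul] at h
  have : (Real.pi : ℂ) ≠ 0 := by exact_mod_cast Real.pi_ne_zero
  refine Eq.trans ?_ h
  rw [ee]
  congr 1
  push_cast
  field_simp

/-- A unimodular sequence with a trivial iterated derivative is a polynomial phase. -/
lemma exists_poly (K : ℕ) : ∀ s : ℤ → ℂ, (∀ u, ‖s u‖ = 1) → (mulDeriv sh)^[K] s = (fun _ => 1) →
    ∃ P : Polynomial ℝ, ∀ u : ℤ, s u = ee (P.eval (u : ℝ)) := by
  induction K with
  | zero =>
    intro s _ h
    exact ⟨0, fun u => by simpa [ee_zero] using congrFun h u⟩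
  | succ K ih =>
    intro s hs h
    rw [Function.iterate_succ_apply] at h
    obtain ⟨R, hR⟩ := ih _ (fun u => by simp [mulDeriv, hs]) h
    obtain ⟨Q, hQ⟩ := exists_antidiff R
    obtain ⟨a, ha⟩ := exists_ee (hs 0)
    have hstep : ∀ u : ℤ, s (u + 1) = s u * ee (R.eval (u : ℝ)) := by
      intro u
      have h1 := hR u
      simp only [mulDeriv, sh] at h1
      rw [← h1, ← mul_assoc, mul_comm (s u), conj_mul_self_of_norm (hs u), one_mul]
    refine ⟨Q + Polynomial.C (a - Q.eval 0), fun u => ?_⟩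
    induction u using Int.induction_on with
    | zero => simp [ha]
    | succ i ih =>
      rw [hstep, ih, ← ee_add]
      congr 1
      have := hQ i
      push_cast at this ⊢
      simp only [Polynomial.eval_add, Polynomial.eval_C, this]
      ring
    | pred i ih =>
      have h1 := hstep (-(i : ℤ) - 1)
      rw [sub_add_cancel, ih] at h1
      have h2 := hQ (-(i : ℤ) - 1)
      have h3 : ee (R.eval ((-(i : ℤ) - 1 : ℤ) : ℝ)) ≠ 0 := by
        rw [← norm_ne_zero_iff, norm_ee]; exact one_ne_zero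
      apply mul_right_cancel₀ h3
      rw [← h1, ← ee_add]
      congr 1
      push_cast at h2 ⊢
      rw [sub_add_cancel] at h2
      simp only [Polynomial.eval_add, Polynomial.eval_C, h2]
      ring

end Seq

section Orbits

variable (T : Equiv.Perm α)

lemma zpow_succ_apply (u : ℤ) (x : α) : (T ^ (u + 1)) x = T ((T ^ u) x) := by
  rw [add_comm, zpow_one_add]; rfl

lemma zpow_apply_apply (u : ℤ) (x : α) : (T ^ u) (T x) = (T ^ (u + 1)) x := by
  rw [zpow_add_one]; rfl

lemma zpow_add_apply (u v : ℤ) (x : α) : (T ^ u) ((T ^ v) x) = (T ^ (u + v)) x := by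
  rw [zpow_add]; rfl

lemma iterate_eq_zpow (n : ℕ) (x : α) : T^[n] x = (T ^ (n : ℤ)) x := by
  rw [zpow_natCast]; rfl

lemma iter_orb (k : ℕ) (g : α → ℂ) (x : α) :
    (mulDeriv sh)^[k] (fun u : ℤ => g ((T ^ u) x)) = fun u : ℤ => (mulDeriv T)^[k] g ((T ^ u) x) :=
  iter_semiconj (S := fun u : ℤ => (T ^ u) x) (fun u => zpow_succ_apply T u x) k g

/-- Points along whose orbit the `k`-th derivative of `g` is `Q`-periodic. -/
def EQ (k : ℕ) (g : α → ℂ) (Q : ℕ) : Set α := {x | PerQ k (fun u : ℤ => g ((T ^ u) x)) Q}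

/-- Points along whose orbit the `k`-th derivative of `g` is periodic. -/
def EE (k : ℕ) (g : α → ℂ) : Set α := {x | Per k (fun u : ℤ => g ((T ^ u) x))}

lemma mem_EQ {k : ℕ} {g : α → ℂ} {Q : ℕ} {x : α} : x ∈ EQ T k g Q ↔
    ∀ u : ℤ, (mulDeriv T)^[k] g ((T ^ (u + Q)) x) = (mulDeriv T)^[k] g ((T ^ u) x) := by
  simp only [EQ, PerQ, Set.mem_setOf_eq, iter_orb]

lemma EQ_inv {k : ℕ} {g : α → ℂ} {Q : ℕ} (x : α) : T x ∈ EQ T k g Q ↔ x ∈ EQ T k g Q := by
  simp only [mem_EQ, zpow_apply_apply]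
  constructor
  · intro h u
    have := h (u - 1)
    rwa [show u - 1 + Q + 1 = u + Q by ring, sub_add_cancel] at this
  · intro h u
    have := h (u + 1)
    rwa [show u + 1 + Q = u + Q + 1 by ring] at this

lemma EE_eq (k : ℕ) (g : α → ℂ) : EE T k g = ⋃ m : ℕ, EQ T k g m.factorial := by
  ext x
  simp only [EE, Per, Set.mem_setOf_eq, Set.mem_iUnion]
  constructor
  · rintro ⟨Q, hQ, h⟩
    obtain ⟨c, hc⟩ := Nat.dvd_factorial hQ le_rfl
    exact ⟨Q, by rw [hc]; exact PerQ.mul_right h c⟩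
  · rintro ⟨m, h⟩
    exact ⟨_, Nat.factorial_pos m, h⟩

lemma EQ_mono (k : ℕ) (g : α → ℂ) : Monotone fun m : ℕ => EQ T k g m.factorial := by
  intro a b hab x hx
  obtain ⟨c, hc⟩ := Nat.factorial_dvd_factorial hab
  simp only [hc]
  exact PerQ.mul_right hx c

lemma EE_inv {k : ℕ} {g : α → ℂ} (x : α) : T x ∈ EE T k g ↔ x ∈ EE T k g := by
  simp only [EE_eq, Set.mem_iUnion, EQ_inv]

end Orbits

variable [MeasurableSpace α]

/-- Phases whose defining identity holds everywhere. -/
def PhE (T : α → α) (g : α → ℂ) : Prop :=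
  Measurable g ∧ (∀ x, ‖g x‖ = 1) ∧ ∃ K : ℕ, (mulDeriv T)^[K] g = fun _ => 1

lemma PhE.bm {T : α → α} {g : α → ℂ} (hg : PhE T g) : BM g := BM.of_norm hg.1 hg.2.1

lemma iter_eq_one_of_le {β : Type*} {T : β → β} {g : β → ℂ} {K L : ℕ} (hKL : K ≤ L)
    (h : (mulDeriv T)^[K] g = fun _ => 1) : (mulDeriv T)^[L] g = fun _ => 1 := by
  obtain ⟨c, rfl⟩ := Nat.exists_eq_add_of_le hKL
  rw [add_comm, Function.iterate_add_apply, h, iter_one]

lemma PhE.mul_conj {T : α → α} {g h : α → ℂ} (hg : PhE T g) (hh : PhE T h) :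
    PhE T (fun x => g x * conj (h x)) := by
  refine ⟨(hg.bm.mul hh.bm.conj).1, fun x => by simp [hg.2.1, hh.2.1], ?_⟩
  obtain ⟨K, hK⟩ := hg.2.2
  obtain ⟨L, hL⟩ := hh.2.2
  refine ⟨K + L, ?_⟩
  rw [iter_mul, iter_conj, iter_eq_one_of_le (Nat.le_add_right K L) hK,
    iter_eq_one_of_le (Nat.le_add_left L K) hL]
  simp

lemma PhE.exists_poly {T : Equiv.Perm α} {g : α → ℂ} (hg : PhE T g) (x : α) :
    ∃ P : Polynomial ℝ, ∀ u : ℤ, g ((T ^ u) x) = ee (P.eval (u : ℝ)) := by
  obtain ⟨K, hK⟩ := hg.2.2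
  exact HK.exists_poly K _ (fun u => hg.2.1 _) (by rw [iter_orb, hK])

variable {μ : Measure α} {T : Equiv.Perm α}

lemma mp_zpow (hTs : Measurable T.symm) (hT : MeasurePreserving T μ μ) (u : ℤ) :
    MeasurePreserving (T ^ u : Equiv.Perm α) μ μ := by
  have hs : MeasurePreserving T.symm μ μ :=
    MeasurePreserving.symm (⟨T, hT.measurable, hTs⟩ : α ≃ᵐ α) hT
  obtain ⟨n, rfl | rfl⟩ := Int.eq_nat_or_neg u
  · rw [zpow_natCast]
    exact hT.iterate n
  · rw [zpow_neg, zpow_natCast, ← inv_pow]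
    exact hs.iterate n

lemma measurableSet_EQ (hTs : Measurable T.symm) (hT : MeasurePreserving T μ μ) {g : α → ℂ}
    (hg : Measurable g) (k Q : ℕ) : MeasurableSet (EQ T k g Q) := by
  have : EQ T k g Q = ⋂ u : ℤ, {x | (mulDeriv T)^[k] g ((T ^ (u + Q)) x) =
      (mulDeriv T)^[k] g ((T ^ u) x)} := by
    ext x; simp [mem_EQ]
  rw [this]
  have hm := iter_measurable hT.measurable k g hg
  exact MeasurableSet.iInter fun u => measurableSet_eq_fun
    (hm.comp (mp_zpow hTs hT _).measurable) (hm.comp (mp_zpow hTs hT _).measurable)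

lemma measurableSet_EE (hTs : Measurable T.symm) (hT : MeasurePreserving T μ μ) {g : α → ℂ}
    (hg : Measurable g) (k : ℕ) : MeasurableSet (EE T k g) := by
  rw [EE_eq]
  exact MeasurableSet.iUnion fun m => measurableSet_EQ hTs hT hg k _

lemma BM.integral_comp {f : α → ℂ} (hf : BM f) {S : α → α} (hS : MeasurePreserving S μ μ) :
    ∫ x, f (S x) ∂μ = ∫ x, f x ∂μ := by
  rw [← integral_map hS.measurable.aemeasurable hf.1.aestronglyMeasurable, hS.map_eq]

variable [IsProbabilityMeasure μ]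

/-- Functions with zero seminorm are orthogonal to phases on the periodic set. -/
theorem orth_of_hkPow (hTs : Measurable T.symm) (hT : MeasurePreserving T μ μ) {k : ℕ}
    {f g : α → ℂ} (hf : BM f) (hg : PhE T g) (h0 : hkPow μ T (k + 1) f = 0) :
    ∫ x, (EE T (k + 1) g).indicator (fun x => f x * conj (g x)) x ∂μ = 0 := by
  have hB := hf.mul hg.bm.conj
  have hlim := tendsto_setIntegral_of_monotone (μ := μ) (f := fun x => f x * conj (g x))
    (fun m : ℕ => measurableSet_EQ hTs hT hg.1 (k + 1) m.factorial) (EQ_mono T (k + 1) g)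
    (hB.integrable μ).integrableOn
  have hz : ∀ m : ℕ, ∫ x in EQ T (k + 1) g m.factorial, f x * conj (g x) ∂μ = 0 := by
    intro m
    rw [← integral_indicator (measurableSet_EQ hTs hT hg.1 _ _)]
    refine integral_eq_zero_of_hkPow hT _ (Nat.factorial_pos m) f g _ hf hg.1 hg.2.1
      (measurableSet_EQ hTs hT hg.1 _ _) (EQ_inv T) (fun x hx => ?_) h0
    have := (mem_EQ T).1 hx 0
    rw [iterate_eq_zpow]
    simpa using this
  simp only [hz] at hlim
  rw [integral_indicator (measurableSet_EE hTs hT hg.1 _), EE_eq]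
  exact tendsto_nhds_unique hlim tendsto_const_nhds

lemma integral_eq_zero_of_avg (hT : MeasurePreserving T μ μ) {Φ : α → ℂ} (hΦ : BM Φ)
    (h : ∀ x, Tendsto (cav fun n => Φ (T^[n] x)) atTop (𝓝 0)) : ∫ x, Φ x ∂μ = 0 := by
  obtain ⟨C, hC⟩ := hΦ.2
  have hB : ∀ N : ℕ, BM (fun x => cav (fun n => Φ (T^[n] x)) N) := fun N =>
    (BM.const _).mul (BM.sum _ fun n _ => hΦ.comp (hT.measurable.iterate n))
  have hlim := tendsto_integral_of_dominated_convergence (μ := μ)
    (F := fun N x => cav (fun n => Φ (T^[n] x)) N) (f := fun _ => 0) (fun _ => |C|)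
    (fun N => (hB N).1.aestronglyMeasurable) (integrable_const _)
    (fun N => ae_of_all _ fun x => by
      simp only [cav, norm_mul, norm_div, norm_one, Complex.norm_natCast]
      have h1 : ‖∑ n ∈ range N, Φ (T^[n] x)‖ ≤ N * |C| := by
        refine (norm_sum_le _ _).trans ?_
        refine (Finset.sum_le_sum fun n _ => (hC _).trans (le_abs_self C)).trans ?_
        simp
      rcases Nat.eq_zero_or_pos N with rfl | hN
      · simp
      · have hNr : (0 : ℝ) < N := by exact_mod_cast hN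
        calc 1 / (N : ℝ) * ‖∑ n ∈ range N, Φ (T^[n] x)‖ ≤ 1 / (N : ℝ) * (N * |C|) := by gcongr
          _ = |C| := by field_simp)
    (ae_of_all _ h)
  have heq : ∀ᶠ N : ℕ in atTop, ∫ x, cav (fun n => Φ (T^[n] x)) N ∂μ = ∫ x, Φ x ∂μ := by
    filter_upwards [eventually_gt_atTop 0] with N hN
    have hNc : (N : ℂ) ≠ 0 := by exact_mod_cast hN.ne'
    simp only [cav]
    rw [integral_const_mul, integral_finset_sum _
      (fun n _ => (hΦ.comp (hT.measurable.iterate n)).integrable μ)]
    simp only [hΦ.integral_comp (hT.iterate _), Finset.sum_const, card_range, nsmul_eq_mul]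
    field_simp
  have := (hlim.congr' heq)
  rw [integral_zero] at this
  exact tendsto_nhds_unique tendsto_const_nhds this

omit [IsProbabilityMeasure μ] in
lemma avg_of_notMem {k : ℕ} {g : α → ℂ} (hg : PhE T g) {x : α} (hx : x ∉ EE T k g) :
    Tendsto (cav fun n => g (T^[n] x)) atTop (𝓝 0) := by
  obtain ⟨P, hP⟩ := hg.exists_poly x
  have : ∃ i, 1 ≤ i ∧ Irrational (P.coeff i) := by
    by_contra hcon
    push Not at hcon
    apply hx
    simp only [EE, Set.mem_setOf_eq, hP]
    exact per_poly k P fun j hj => hcon j (by omega)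
  have h2 := weyl_poly P this
  simp only [iterate_eq_zpow, hP, Int.cast_natCast]
  exact h2

/-- The periodic part of one phase is orthogonal to the aperiodic part of another. -/
theorem orth_phases (hTs : Measurable T.symm) (hT : MeasurePreserving T μ μ) (k : ℕ)
    {g h : α → ℂ} (hg : PhE T g) (hh : PhE T h) :
    ∫ x, (EE T k h)ᶜ.indicator h x * conj ((EE T k g).indicator g x) ∂μ = 0 := by
  have hEg := measurableSet_EE hTs hT hg.1 k
  have hEh := measurableSet_EE hTs hT hh.1 k
  refine integral_eq_zero_of_avg hT ((hh.bm.indicator hEh.compl).mul (hg.bm.indicator hEg).conj)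
    fun x => ?_
  by_cases hx : x ∈ EE T k g ∧ x ∉ EE T k h
  · have hnot : x ∉ EE T k (fun y => h y * conj (g y)) := by
      intro hmem
      apply hx.2
      have := Per.mul hmem hx.1
      simp only [EE, Set.mem_setOf_eq]
      convert this using 2 with u
      rw [mul_assoc, conj_mul_self_of_norm (hg.2.1 _), mul_one]
    refine (avg_of_notMem (hh.mul_conj hg) hnot).congr fun N => ?_
    congr 1
    funext n
    rw [Set.indicator_of_mem ((iter_mem_iff (EE_inv T) n x).2 hx.1),
      Set.indicator_of_mem (s := (EE T k h)ᶜ) (fun hm => hx.2 ((iter_mem_iff (EE_inv T) n x).1 hm))]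
  · have : ∀ n, (EE T k h)ᶜ.indicator h (T^[n] x) * conj ((EE T k g).indicator g (T^[n] x)) = 0 := by
      intro n
      by_cases h1 : x ∈ EE T k g
      · have h2 : x ∈ EE T k h := by
          by_contra h2
          exact hx ⟨h1, h2⟩
        rw [Set.indicator_of_notMem (s := (EE T k h)ᶜ)
          (fun hm => hm ((iter_mem_iff (EE_inv T) n x).2 h2)), zero_mul]
      · rw [Set.indicator_of_notMem (fun hm => h1 ((iter_mem_iff (EE_inv T) n x).1 hm)), map_zero,
          mul_zero]
    simp only [this]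
    have : (cav fun _ => (0 : ℂ)) = fun _ => 0 := by funext N; simp [cav]
    rw [this]
    exact tendsto_const_nhds

/-- The multiple ergodic average. -/
noncomputable def avg (T : Equiv.Perm α) {l : ℕ} (p : Fin l → Polynomial ℤ) (f : Fin l → α → ℂ)
    (N : ℕ) (x : α) : ℂ :=
  ((N : ℂ))⁻¹ * ∑ n ∈ Finset.range N, ∏ i : Fin l, f i ((T ^ ((p i).eval (n : ℤ))) x)

omit [IsProbabilityMeasure μ] in
lemma avg_bm (hTs : Measurable T.symm) (hT : MeasurePreserving T μ μ) {l : ℕ}
    (p : Fin l → Polynomial ℤ) {f : Fin l → α → ℂ} (hf : ∀ i, BM (f i)) (N : ℕ) :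
    BM (avg T p f N) :=
  (BM.const _).mul (BM.sum _ fun _ _ => BM.prod _ fun i _ =>
    (hf i).comp (mp_zpow hTs hT _).measurable)

/-- Pointwise vanishing of averages of phases off the periodic set. -/
theorem ae_avg_phases (hTs : Measurable T.symm) (hT : MeasurePreserving T μ μ) {k : ℕ}
    (p : Fin (k + 1) → Polynomial ℤ) (hp : ∀ i, 0 < (p i).natDegree)
    (hdiff : ∀ i j, i ≠ j → 0 < (p i - p j).natDegree) {g : Fin (k + 1) → α → ℂ}
    (hg : ∀ i, PhE T (g i)) (j : Fin (k + 1)) :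
    ∀ᵐ x ∂μ, x ∉ EE T k (g j) → Tendsto (fun N => avg T p g N x) atTop (𝓝 0) := by
  set B : Set α := (EE T k (g j))ᶜ ∩ {x | Tendsto (fun N => avg T p g N x) atTop (𝓝 0)}ᶜ with hB
  have hBm : MeasurableSet B := (measurableSet_EE hTs hT (hg j).1 k).compl.inter
    (measurableSet_tendsto _ fun N => (avg_bm hTs hT p (fun i => (hg i).bm) N).1).compl
  filter_upwards [hT.conservative.ae_mem_imp_frequently_image_mem hBm.nullMeasurableSet]
    with x hx hxE
  by_contra hcon
  have hinf := Nat.frequently_atTop_iff_infinite.mp (hx ⟨hxE, hcon⟩)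
  choose P hP using fun i => (hg i).exists_poly x
  apply hxE
  simp only [EE, Set.mem_setOf_eq, hP]
  refine per_poly k _ fun r hr => rational_of_infinite p P hp hdiff _ hinf
    (fun m hm r hr hirr => ?_) j r hr
  apply hm.2
  have hw := weyl_poly _ ⟨r, hr, hirr⟩
  refine hw.congr fun N => ?_
  simp only [cav, avg, one_div]
  congr 1
  refine Finset.sum_congr rfl fun n _ => ?_
  simp only [iterate_eq_zpow, zpow_add_apply, hP, Polynomial.eval_finset_sum]
  have hprod : ∀ (s : Finset (Fin (k + 1))) (a : Fin (k + 1) → ℝ),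
      ee (∑ i ∈ s, a i) = ∏ i ∈ s, ee (a i) := by
    intro s a
    induction s using Finset.induction_on with
    | empty => simp [ee_zero]
    | insert b s hb ih => rw [Finset.sum_insert hb, Finset.prod_insert hb, ee_add, ih]
  rw [hprod]
  refine Finset.prod_congr rfl fun i _ => ?_
  congr 1
  rw [Polynomial.eval_comp, Polynomial.eval_add, Polynomial.eval_C, Polynomial.eval_map]
  congr 1
  have := Polynomial.eval₂_at_apply (p := p i) (Int.castRingHom ℝ) (n : ℤ)
  simp only [eq_intCast, Int.cast_natCast] at this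
  rw [this]
  push_cast
  ring

end Pool.Agent.H799Z.HK
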