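import Mathlib
import Pool.Agent.H799Z.HKPhase

set_option autoImplicit false

namespace Pool.Agent.H799Z.HK

open MeasureTheory Filter Topology Finset Pool.Agent.H767R2
open scoped ENNReal ComplexConjugate

variable {α : Type*} [MeasurableSpace α] {μ : Measure α} {T : Equiv.Perm α}

/-- The squared `L²` norm. -/
noncomputable def N2 (μ : Measure α) (w : α → ℂ) : ℝ := ∫ x, ‖w x‖ ^ 2 ∂μ

lemma N2_nonneg (w : α → ℂ) : 0 ≤ N2 μ w := integral_nonneg fun _ => by positivity

lemma mem_zpow_iff {β : Type*} {T : Equiv.Perm β} {F : Set β} (hFT : ∀ x, T x ∈ F ↔ x ∈ F)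
    (u : ℤ) (x : β) : (T ^ u) x ∈ F ↔ x ∈ F := by
  induction u using Int.induction_on with
  | zero => rfl
  | succ i ih => rw [zpow_succ_apply, hFT, ih]
  | pred i ih =>
    rw [← ih, ← hFT, ← zpow_succ_apply, sub_add_cancel]

lemma exists_phE (hTs : Measurable T.symm) (hT : MeasurePreserving T μ μ) {g : α → ℂ}
    (hg : IsPhase μ T g) : ∃ g', PhE T g' ∧ g' =ᵐ[μ] g := by
  classical
  obtain ⟨hgm, hg1, K, hK⟩ := hg
  set X : Set α := {x | ∀ u : ℤ, (mulDeriv T)^[K] g ((T ^ u) x) = 1} with hX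
  have hXm : MeasurableSet X := by
    have : X = ⋂ u : ℤ, {x | (mulDeriv T)^[K] g ((T ^ u) x) = 1} := by ext x; simp [hX]
    rw [this]
    exact MeasurableSet.iInter fun u => measurableSet_eq_fun
      ((iter_measurable hT.measurable K g hgm).comp (mp_zpow hTs hT _).measurable) measurable_const
  have hXT : ∀ x, T x ∈ X ↔ x ∈ X := by
    intro x
    simp only [hX, Set.mem_setOf_eq, zpow_apply_apply]
    refine ⟨fun h u => ?_, fun h u => h _⟩
    have := h (u - 1)
    rwa [sub_add_cancel] at this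
  have hXae : ∀ᵐ x ∂μ, x ∈ X := by
    simp only [hX, Set.mem_setOf_eq, ae_all_iff]
    intro u
    exact (mp_zpow hTs hT u).quasiMeasurePreserving.ae_eq_comp hK
  refine ⟨X.piecewise g (fun _ => 1), ⟨hgm.piecewise hXm measurable_const, fun x => ?_, K, ?_⟩, ?_⟩
  · by_cases hx : x ∈ X
    · rw [Set.piecewise_eq_of_mem _ _ _ hx, hg1]
    · rw [Set.piecewise_eq_of_notMem _ _ _ hx, norm_one]
  · funext x
    have h1 := congrFun (iter_orb T K (X.piecewise g (fun _ => 1)) x) 0
    simp only [zpow_zero, Equiv.Perm.coe_one, id] at h1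
    rw [← h1]
    by_cases hx : x ∈ X
    · have h2 : (fun u : ℤ => X.piecewise g (fun _ => 1) ((T ^ u) x)) = fun u : ℤ => g ((T ^ u) x) :=
        funext fun u => Set.piecewise_eq_of_mem _ _ _ ((mem_zpow_iff hXT u x).2 hx)
      rw [h2, iter_orb]
      exact hx 0
    · have h2 : (fun u : ℤ => X.piecewise g (fun _ => 1) ((T ^ u) x)) = fun _ : ℤ => 1 :=
        funext fun u => Set.piecewise_eq_of_notMem _ _ _ (fun h => hx ((mem_zpow_iff hXT u x).1 h))
      rw [h2, iter_one]
  · filter_upwards [hXae] with x hx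
    exact Set.piecewise_eq_of_mem _ _ _ hx

variable [IsProbabilityMeasure μ]

lemma span_phE (hTs : Measurable T.symm) (hT : MeasurePreserving T μ μ) (hsp : PhasesSpan μ T)
    {f : α → ℂ} (hf : BM f) {ε : ℝ} (hε : 0 < ε) :
    ∃ (n : ℕ) (c : Fin n → ℂ) (g : Fin n → α → ℂ), (∀ i, PhE T (g i)) ∧
      N2 μ (fun x => f x - ∑ i, c i * g i x) < ε := by
  obtain ⟨n, c, g, hg, hlt⟩ := hsp f (hf.memLp μ 2) ε hε
  choose g' hg' hae using fun i => exists_phE hTs hT (hg i)
  refine ⟨n, c, g', hg', lt_of_eq_of_lt (integral_congr_ae ?_) hlt⟩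
  have : ∀ᵐ x ∂μ, ∀ i, g' i x = g i x := ae_all_iff.2 hae
  filter_upwards [this] with x hx
  simp only [hx]

lemma N2_add_le {a b : α → ℂ} (ha : BM a) (hb : BM b) :
    N2 μ (fun x => a x + b x) ≤ 2 * N2 μ a + 2 * N2 μ b := by
  simp only [N2]
  rw [← integral_const_mul, ← integral_const_mul,
    ← integral_add ((ha.integrable_sq μ).const_mul _) ((hb.integrable_sq μ).const_mul _)]
  refine integral_mono ((ha.add hb).integrable_sq μ)
    (((ha.integrable_sq μ).const_mul _).add ((hb.integrable_sq μ).const_mul _)) fun x => ?_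
  have h1 := norm_add_le (a x) (b x)
  have h2 := pow_le_pow_left₀ (norm_nonneg _) h1 2
  simp only
  nlinarith [sq_nonneg (‖a x‖ - ‖b x‖)]

omit [IsProbabilityMeasure μ] in
lemma N2_const_mul (c : ℂ) (a : α → ℂ) : N2 μ (fun x => c * a x) = ‖c‖ ^ 2 * N2 μ a := by
  simp only [N2, norm_mul, mul_pow]
  rw [integral_const_mul]

lemma N2_le_of_orth {a b : α → ℂ} (ha : BM a) (hb : BM b) (h : ∫ x, a x * conj (b x) ∂μ = 0) :
    N2 μ a ≤ N2 μ (fun x => a x - b x) := by
  have hi := (ha.mul hb.conj).integrable μ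
  have h1 : ∫ x, (a x * conj (b x)).re ∂μ = 0 := by
    have := integral_re hi
    simp only [RCLike.re_to_complex] at this
    rw [this, h, Complex.zero_re]
  have hre : Integrable (fun x => (a x * conj (b x)).re) μ := hi.re
  have h2 : N2 μ a = ∫ x, (‖a x‖ ^ 2 - 2 * (a x * conj (b x)).re) ∂μ := by
    rw [integral_sub (ha.integrable_sq μ) (hre.const_mul 2), integral_const_mul, h1]
    simp [N2]
  rw [h2]
  refine integral_mono ((ha.integrable_sq μ).sub (hre.const_mul 2))
    ((ha.sub hb).integrable_sq μ) fun x => ?_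
  simp only
  rw [← Complex.normSq_eq_norm_sq, ← Complex.normSq_eq_norm_sq, Complex.normSq_sub]
  linarith [Complex.normSq_nonneg (b x)]

/-- Sequences of functions tending to zero in `L²`. -/
def Van (μ : Measure α) (z : ℕ → α → ℂ) : Prop := Tendsto (fun N => N2 μ (z N)) atTop (𝓝 0)

lemma Van.sum {ι : Type*} (s : Finset ι) (c : ι → ℂ) {z : ι → ℕ → α → ℂ}
    (hb : ∀ i N, BM (z i N)) (hz : ∀ i, Van μ (z i)) :
    Van μ (fun N x => ∑ i ∈ s, c i * z i N x) := by
  classical
  induction s using Finset.induction_on with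
  | empty => simpa [Van, N2] using tendsto_const_nhds
  | insert a s ha ih =>
    simp only [Finset.sum_insert ha]
    have h1 : Tendsto (fun N => 2 * (‖c a‖ ^ 2 * N2 μ (z a N)) +
        2 * N2 μ (fun x => ∑ i ∈ s, c i * z i N x)) atTop (𝓝 (2 * (‖c a‖ ^ 2 * 0) + 2 * 0)) :=
      (((hz a).const_mul _).const_mul _).add (Tendsto.const_mul _ ih)
    simp only [mul_zero, add_zero] at h1
    refine squeeze_zero (fun N => N2_nonneg _) (fun N => ?_) h1
    rw [← N2_const_mul]
    exact N2_add_le ((BM.const _).mul (hb a N)) (BM.sum _ fun i _ => (BM.const _).mul (hb i N))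

variable {l : ℕ} (p : Fin l → Polynomial ℤ)

omit [MeasurableSpace α] in
lemma avg_update (f : Fin l → α → ℂ) (i : Fin l) (w : α → ℂ) (N : ℕ) (x : α) :
    avg T p (Function.update f i w) N x = ((N : ℂ))⁻¹ * ∑ n ∈ Finset.range N,
      w ((T ^ ((p i).eval (n : ℤ))) x) *
        ∏ a ∈ univ.erase i, f a ((T ^ ((p a).eval (n : ℤ))) x) := by
  simp only [avg]
  congr 1
  refine Finset.sum_congr rfl fun n _ => ?_
  rw [← Finset.mul_prod_erase univ _ (mem_univ i), Function.update_self]
  congr 1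
  exact Finset.prod_congr rfl fun a ha => by rw [Function.update_of_ne (ne_of_mem_erase ha)]

omit [IsProbabilityMeasure μ] in
lemma bm_update {f : Fin l → α → ℂ} (hf : ∀ i, BM (f i)) (i : Fin l) {w : α → ℂ} (hw : BM w) :
    ∀ a, BM (Function.update f i w a) := by
  intro a
  by_cases h : a = i
  · subst h; simpa using hw
  · rw [Function.update_of_ne h]; exact hf a

lemma N2_avg_le (hTs : Measurable T.symm) (hT : MeasurePreserving T μ μ) {f : Fin l → α → ℂ}
    (hf : ∀ i, BM (f i)) (i : Fin l) : ∃ C : ℝ, 0 ≤ C ∧ ∀ w : α → ℂ, BM w → ∀ N,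
      N2 μ (avg T p (Function.update f i w) N) ≤ C * N2 μ w := by
  choose D hD using fun a => (hf a).2
  refine ⟨(∏ a ∈ univ.erase i, |D a|) ^ 2, by positivity, fun w hw N => ?_⟩
  set C := ∏ a ∈ univ.erase i, |D a| with hC
  have hC0 : 0 ≤ C := Finset.prod_nonneg fun _ _ => abs_nonneg _
  rcases Nat.eq_zero_or_pos N with rfl | hN
  · have : N2 μ (avg T p (Function.update f i w) 0) = 0 := by simp [N2, avg]
    rw [this]
    exact mul_nonneg (by positivity) (N2_nonneg _)
  have hNr : (0 : ℝ) < N := by exact_mod_cast hN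
  have hwn : ∀ n : ℕ, BM (fun x => w ((T ^ ((p i).eval (n : ℤ))) x)) := fun n =>
    hw.comp (mp_zpow hTs hT _).measurable
  have hpt : ∀ x, ‖avg T p (Function.update f i w) N x‖ ^ 2 ≤
      C ^ 2 * ((N : ℝ)⁻¹ * ∑ n ∈ range N, ‖w ((T ^ ((p i).eval (n : ℤ))) x)‖ ^ 2) := by
    intro x
    have h1 : ‖avg T p (Function.update f i w) N x‖ ≤
        C * ((N : ℝ)⁻¹ * ∑ n ∈ range N, ‖w ((T ^ ((p i).eval (n : ℤ))) x)‖) := by
      rw [avg_update, norm_mul, norm_inv, Complex.norm_natCast, mul_left_comm, Finset.mul_sum (a := C)]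
      gcongr
      refine (norm_sum_le _ _).trans (Finset.sum_le_sum fun n _ => ?_)
      rw [norm_mul, mul_comm, norm_prod]
      gcongr
      exact Finset.prod_le_prod (fun _ _ => norm_nonneg _) fun a _ => (hD a _).trans (le_abs_self _)
    refine (pow_le_pow_left₀ (norm_nonneg _) h1 2).trans ?_
    rw [mul_pow]
    gcongr
    have h3 := sq_sum_le_card_mul_sum_sq (s := range N)
      (f := fun n : ℕ => ‖w ((T ^ ((p i).eval (n : ℤ))) x)‖)
    rw [card_range] at h3
    calc ((N : ℝ)⁻¹ * ∑ n ∈ range N, ‖w ((T ^ ((p i).eval (n : ℤ))) x)‖) ^ 2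
        = (N : ℝ)⁻¹ ^ 2 * (∑ n ∈ range N, ‖w ((T ^ ((p i).eval (n : ℤ))) x)‖) ^ 2 := by ring
      _ ≤ (N : ℝ)⁻¹ ^ 2 * (N * ∑ n ∈ range N, ‖w ((T ^ ((p i).eval (n : ℤ))) x)‖ ^ 2) := by gcongr
      _ = _ := by field_simp
  have hint : Integrable (fun x => ∑ n ∈ range N, ‖w ((T ^ ((p i).eval (n : ℤ))) x)‖ ^ 2) μ :=
    integrable_finset_sum _ fun n _ => (hwn n).integrable_sq μ
  calc N2 μ (avg T p (Function.update f i w) N)
      ≤ ∫ x, C ^ 2 * ((N : ℝ)⁻¹ * ∑ n ∈ range N, ‖w ((T ^ ((p i).eval (n : ℤ))) x)‖ ^ 2) ∂μ :=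
        integral_mono ((avg_bm hTs hT p (bm_update hf i hw) N).integrable_sq μ)
          ((hint.const_mul _).const_mul _) hpt
    _ = C ^ 2 * N2 μ w := by
        rw [integral_const_mul, integral_const_mul,
          integral_finset_sum _ fun n _ => (hwn n).integrable_sq μ]
        have : ∀ n : ℕ, ∫ x, ‖w ((T ^ ((p i).eval (n : ℤ))) x)‖ ^ 2 ∂μ = N2 μ w := by
          intro n
          have hS := mp_zpow hTs hT ((p i).eval (n : ℤ))
          rw [N2, ← integral_map (f := fun x => ‖w x‖ ^ 2) hS.measurable.aemeasurable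
            (hw.1.norm.pow_const 2).aestronglyMeasurable, hS.map_eq]
        simp only [this, Finset.sum_const, card_range, nsmul_eq_mul]
        field_simp

lemma van_of_approx (hTs : Measurable T.symm) (hT : MeasurePreserving T μ μ) {f : Fin l → α → ℂ}
    (hf : ∀ i, BM (f i)) (i : Fin l)
    (h : ∀ ε : ℝ, 0 < ε → ∃ (n : ℕ) (c : Fin n → ℂ) (w : Fin n → α → ℂ), (∀ a, BM (w a)) ∧
      (∀ a, Van μ (avg T p (Function.update f i (w a)))) ∧
      N2 μ (fun x => f i x - ∑ a, c a * w a x) < ε) : Van μ (avg T p f) := by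
  obtain ⟨C, hC0, hC⟩ := N2_avg_le p hTs hT hf i
  rw [Van, Metric.tendsto_atTop]
  intro ε hε
  obtain ⟨n, c, w, hw, hvan, hlt⟩ := h (ε / (4 * (C + 1))) (by positivity)
  have hv := Van.sum (μ := μ) univ c (fun a N => avg_bm hTs hT p (bm_update hf i (hw a)) N) hvan
  rw [Van, Metric.tendsto_atTop] at hv
  obtain ⟨N0, hN0⟩ := hv (ε / 4) (by positivity)
  refine ⟨N0, fun N hN => ?_⟩
  have h1 := hN0 N hN
  rw [Real.dist_0_eq_abs, abs_of_nonneg (N2_nonneg _)] at h1 ⊢
  have hr : BM (fun x => f i x - ∑ a, c a * w a x) :=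
    (hf i).sub (BM.sum _ fun a _ => (BM.const _).mul (hw a))
  have hdec : avg T p f N = fun x =>
      avg T p (Function.update f i (fun x => f i x - ∑ a, c a * w a x)) N x +
        ∑ a, c a * avg T p (Function.update f i (w a)) N x := by
    funext x
    conv_lhs => rw [← Function.update_eq_self i f]
    simp only [avg_update, sub_mul, Finset.sum_sub_distrib, mul_sub, Finset.sum_mul, Finset.mul_sum]
    rw [Finset.sum_comm (s := range N), sub_add_eq_add_sub, eq_sub_iff_add_eq]
    congr 1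
    refine Finset.sum_congr rfl fun a _ => Finset.sum_congr rfl fun n _ => ?_
    ring
  rw [hdec]
  refine lt_of_le_of_lt (N2_add_le (avg_bm hTs hT p (bm_update hf i hr) N)
    (BM.sum _ fun a _ => (BM.const _).mul (avg_bm hTs hT p (bm_update hf i (hw a)) N))) ?_
  have h2 := hC _ hr N
  have h3 : C * N2 μ (fun x => f i x - ∑ a, c a * w a x) ≤ ε / 4 := by
    calc C * N2 μ (fun x => f i x - ∑ a, c a * w a x) ≤ (C + 1) * (ε / (4 * (C + 1))) :=
          mul_le_mul (by linarith) hlt.le (N2_nonneg _) (by positivity)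
      _ = ε / 4 := by field_simp
  linarith

lemma van_phases (hTs : Measurable T.symm) (hT : MeasurePreserving T μ μ) {k : ℕ}
    (p : Fin (k + 1) → Polynomial ℤ) (hp : ∀ i, 0 < (p i).natDegree)
    (hdiff : ∀ i j, i ≠ j → 0 < (p i - p j).natDegree) {f : Fin (k + 1) → α → ℂ}
    (j : Fin (k + 1)) (hf : ∀ i, i ≠ j → PhE T (f i)) {h : α → ℂ} (hh : PhE T h) :
    Van μ (avg T p (Function.update f j ((EE T k h)ᶜ.indicator h))) := by
  set g := Function.update f j h with hg
  have hgP : ∀ i, PhE T (g i) := by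
    intro i
    by_cases hi : i = j
    · subst hi; simpa [hg] using hh
    · rw [hg, Function.update_of_ne hi]; exact hf i hi
  have hgj : g j = h := by simp [hg]
  have hae := ae_avg_phases hTs hT p hp hdiff hgP j
  rw [hgj] at hae
  have hE := measurableSet_EE hTs hT hh.1 k
  have heq : ∀ N, avg T p (Function.update f j ((EE T k h)ᶜ.indicator h)) N =
      (EE T k h)ᶜ.indicator (avg T p g N) := by
    intro N
    funext x
    by_cases hx : x ∈ EE T k h
    · rw [Set.indicator_of_notMem (s := (EE T k h)ᶜ) (fun hm => hm hx), avg_update,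
        Finset.sum_eq_zero, mul_zero]
      intro n _
      rw [Set.indicator_of_notMem (s := (EE T k h)ᶜ)
        (fun hm => hm ((mem_zpow_iff (EE_inv T) _ x).2 hx)), zero_mul]
    · rw [Set.indicator_of_mem (s := (EE T k h)ᶜ) hx, hg, avg_update, avg_update]
      congr 1
      refine Finset.sum_congr rfl fun n _ => ?_
      rw [Set.indicator_of_mem (s := (EE T k h)ᶜ)
        (fun hm => hx ((mem_zpow_iff (EE_inv T) _ x).1 hm))]
  have hbd : ∀ N x, ‖avg T p g N x‖ ≤ 1 := by
    intro N x
    simp only [avg, norm_mul, norm_inv, Complex.norm_natCast]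
    have h1 : ‖∑ n ∈ range N, ∏ i, g i ((T ^ ((p i).eval (n : ℤ))) x)‖ ≤ N := by
      refine (norm_sum_le _ _).trans ?_
      simp [norm_prod, (hgP _).2.1]
    rcases Nat.eq_zero_or_pos N with rfl | hN
    · simp
    · have hNr : (0 : ℝ) < N := by exact_mod_cast hN
      calc (N : ℝ)⁻¹ * ‖∑ n ∈ range N, ∏ i, g i ((T ^ ((p i).eval (n : ℤ))) x)‖
          ≤ (N : ℝ)⁻¹ * N := by gcongr
        _ = 1 := by field_simp
  have hlim := tendsto_integral_of_dominated_convergence (μ := μ)
    (F := fun N x => ‖(EE T k h)ᶜ.indicator (avg T p g N) x‖ ^ 2) (f := fun _ => 0) (fun _ => 1)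
    (fun N => (((avg_bm hTs hT p (fun i => (hgP i).bm) N).indicator
      hE.compl).integrable_sq μ).aestronglyMeasurable)
    (integrable_const _)
    (fun N => ae_of_all _ fun x => by
      rw [Real.norm_of_nonneg (by positivity)]
      exact pow_le_one₀ (norm_nonneg _) ((norm_indicator_le_norm_self _ x).trans (hbd N x)))
    (by
      filter_upwards [hae] with x hx
      by_cases hxE : x ∈ EE T k h
      · simp only [Set.indicator_of_notMem (s := (EE T k h)ᶜ) (fun hm => hm hxE)]
        simp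
      · simp only [Set.indicator_of_mem (s := (EE T k h)ᶜ) hxE]
        have := ((hx hxE).norm).pow 2
        simpa using this)
  rw [integral_zero] at hlim
  simpa only [Van, N2, heq] using hlim

theorem van_main (hTs : Measurable T.symm) (hT : MeasurePreserving T μ μ) (hsp : PhasesSpan μ T)
    {k : ℕ} (p : Fin (k + 2) → Polynomial ℤ) (hp : ∀ i, 0 < (p i).natDegree)
    (hdiff : ∀ i j, i ≠ j → 0 < (p i - p j).natDegree) (j : Fin (k + 2)) (s : Finset (Fin (k + 2))) :
    ∀ f : Fin (k + 2) → α → ℂ, (∀ i, BM (f i)) → hkPow μ T (k + 1) (f j) = 0 →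
      (∀ i, i ∉ s → i ≠ j → PhE T (f i)) → Van μ (avg T p f) := by
  induction s using Finset.induction_on with
  | empty =>
    intro f hf h0 hP
    refine van_of_approx p hTs hT hf j fun ε hε => ?_
    obtain ⟨n, c, g, hg, hlt⟩ := span_phE hTs hT hsp (hf j) hε
    have hE := fun a => measurableSet_EE hTs hT (hg a).1 (k + 1)
    have hB2 : ∀ a, BM ((EE T (k + 1) (g a))ᶜ.indicator (g a)) := fun a =>
      (hg a).bm.indicator (hE a).compl
    have hB1 : ∀ a, BM ((EE T (k + 1) (g a)).indicator (g a)) := fun a =>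
      (hg a).bm.indicator (hE a)
    refine ⟨n, c, fun a => (EE T (k + 1) (g a))ᶜ.indicator (g a), hB2,
      fun a => van_phases hTs hT p hp hdiff j (fun i hi => hP i (by simp) hi) (hg a), ?_⟩
    refine lt_of_le_of_lt ?_ hlt
    have hr : BM (fun x => f j x - ∑ a, c a * (EE T (k + 1) (g a))ᶜ.indicator (g a) x) :=
      (hf j).sub (BM.sum _ fun a _ => (BM.const _).mul (hB2 a))
    have horth : ∀ b, ∫ x, (f j x - ∑ a, c a * (EE T (k + 1) (g a))ᶜ.indicator (g a) x) *
        conj ((EE T (k + 1) (g b)).indicator (g b) x) ∂μ = 0 := by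
      intro b
      simp only [sub_mul, Finset.sum_mul, mul_assoc]
      rw [integral_sub (((hf j).mul (hB1 b).conj).integrable μ)
        ((BM.sum _ fun a _ => (BM.const _).mul ((hB2 a).mul (hB1 b).conj)).integrable μ),
        integral_finset_sum _
          (fun a _ => ((BM.const _).mul ((hB2 a).mul (hB1 b).conj)).integrable μ)]
      simp only [integral_const_mul, orth_phases hTs hT (k + 1) (hg b) (hg _), mul_zero,
        Finset.sum_const_zero, sub_zero]
      rw [← orth_of_hkPow hTs hT (hf j) (hg b) h0]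
      refine integral_congr_ae (ae_of_all _ fun x => ?_)
      by_cases hx : x ∈ EE T (k + 1) (g b)
      · simp [hx]
      · simp [hx]
    have := N2_le_of_orth (μ := μ) hr
      (BM.sum univ fun b _ => (BM.const (c b)).mul (hB1 b)) (by
        simp only [map_sum, map_mul, Finset.mul_sum]
        rw [integral_finset_sum _
          (fun b _ => (hr.mul ((BM.const _).mul (hB1 b).conj)).integrable μ)]
        refine Finset.sum_eq_zero fun b _ => ?_
        simp only [mul_left_comm _ (conj (c b))]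
        rw [integral_const_mul, horth b, mul_zero])
    refine this.trans (le_of_eq ?_)
    congr 1
    funext x
    rw [sub_sub, ← Finset.sum_add_distrib]
    congr 1
    refine Finset.sum_congr rfl fun a _ => ?_
    rw [← mul_add, add_comm, Set.indicator_self_add_compl_apply]
  | insert i s hi ih =>
    intro f hf h0 hP
    by_cases hij : i = j
    · refine ih f hf h0 fun a ha haj => hP a ?_ haj
      rw [Finset.mem_insert, hij]
      tauto
    refine van_of_approx p hTs hT hf i fun ε hε => ?_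
    obtain ⟨n, c, g, hg, hlt⟩ := span_phE hTs hT hsp (hf i) hε
    refine ⟨n, c, g, fun a => (hg a).bm, fun a => ?_, hlt⟩
    refine ih _ (bm_update hf i (hg a).bm) (by rwa [Function.update_of_ne (Ne.symm hij)])
      fun b hb hbj => ?_
    by_cases hbi : b = i
    · subst hbi; simpa using hg a
    · rw [Function.update_of_ne hbi]
      exact hP b (by rw [Finset.mem_insert]; tauto) hbj

/-- The bound for all systems spanned by generalized eigenfunctions. -/
theorem characteristic_of_phasesSpan (hTs : Measurable T.symm) (hT : MeasurePreserving T μ μ)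
    (hsp : PhasesSpan μ T) {l : ℕ} (hl : 2 ≤ l) (p : Fin l → Polynomial ℤ)
    (hp : ∀ i, 0 < (p i).natDegree) (hdiff : ∀ i j, i ≠ j → 0 < (p i - p j).natDegree) :
    TopFactorCharacteristic μ T p := by
  obtain ⟨k, rfl⟩ : ∃ k, l = k + 2 := ⟨l - 2, by omega⟩
  intro f hf ⟨C, hC⟩ j h0
  exact van_main hTs hT hsp p hp hdiff j univ f (fun i => ⟨hf i, C, hC i⟩) h0
    (fun i hi => absurd (mem_univ i) hi)

end Pool.Agent.H799Z.HK
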