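import Mathlib
import Pool.Agent.H799Z.HKMain

set_option autoImplicit false

namespace Pool.Agent.H799Z.HK

open MeasureTheory Filter Topology Finset UnitAddTorus
open scoped ENNReal ComplexConjugate InnerProductSpace

variable {d : ℕ}

/-- The pairing of an integer vector with a point of the torus. -/
noncomputable def pair (m : Fin d → ℤ) (x : Fin d → UnitAddCircle) : UnitAddCircle := ∑ i, m i • x i

lemma toCircle_sum {ι : Type*} (s : Finset ι) (a : ι → UnitAddCircle) :
    ((AddCircle.toCircle (∑ i ∈ s, a i) : Circle) : ℂ) =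
      ∏ i ∈ s, ((AddCircle.toCircle (a i) : Circle) : ℂ) := by
  classical
  induction s using Finset.induction_on with
  | empty => simp
  | insert b s hb ih =>
    rw [Finset.sum_insert hb, Finset.prod_insert hb, AddCircle.toCircle_add, Circle.coe_mul, ih]

lemma mFourier_eq (m : Fin d → ℤ) (x : Fin d → UnitAddCircle) :
    mFourier m x = ((AddCircle.toCircle (pair m x) : Circle) : ℂ) := by
  rw [pair, toCircle_sum]
  rfl

lemma norm_mFourier_apply (m : Fin d → ℤ) (x : Fin d → UnitAddCircle) : ‖mFourier m x‖ = 1 := by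
  rw [mFourier_eq, Circle.norm_coe]

variable {A : Matrix (Fin d) (Fin d) ℤ} {b : Fin d → UnitAddCircle}
  {T : (Fin d → UnitAddCircle) → (Fin d → UnitAddCircle)}

lemma mFourier_affine (hT : ∀ x i, T x i = ∑ j, A i j • x j + b i) (m : Fin d → ℤ)
    (x : Fin d → UnitAddCircle) :
    mFourier m (T x) = mFourier m x * (mFourier m b * mFourier (Matrix.vecMul m (A - 1)) x) := by
  have h : pair m (T x) = pair m x + (pair m b + pair (Matrix.vecMul m (A - 1)) x) := by
    have h1 : Matrix.vecMul m (A - 1) = Matrix.vecMul m A - m := by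
      rw [Matrix.vecMul_sub, Matrix.vecMul_one]
    rw [h1]
    simp only [pair, hT, smul_add, Finset.sum_add_distrib, Pi.sub_apply, sub_smul,
      Finset.sum_sub_distrib, Finset.smul_sum, Matrix.vecMul, dotProduct, Finset.sum_smul, mul_smul]
    rw [Finset.sum_comm]
    abel
  simp only [mFourier_eq, h, AddCircle.toCircle_add, Circle.coe_mul]

lemma iter_mFourier (hT : ∀ x i, T x i = ∑ j, A i j • x j + b i) (k : ℕ) :
    ∀ (m : Fin d → ℤ) (c : ℂ), ‖c‖ = 1 → Matrix.vecMul m ((A - 1) ^ k) = 0 →
      (mulDeriv T)^[k + 1] (fun x => c * mFourier m x) = fun _ => 1 := by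
  have hd : ∀ (m : Fin d → ℤ) (c : ℂ), ‖c‖ = 1 → mulDeriv T (fun x => c * mFourier m x) =
      fun x => mFourier m b * mFourier (Matrix.vecMul m (A - 1)) x := by
    intro m c hc
    funext x
    simp only [mulDeriv, mFourier_affine hT, map_mul]
    have h1 := conj_mul_self_of_norm hc
    have h2 := conj_mul_self_of_norm (norm_mFourier_apply m x)
    calc conj c * conj (mFourier m x) *
          (c * (mFourier m x * (mFourier m b * mFourier (Matrix.vecMul m (A - 1)) x)))
        = (conj c * c) * (conj (mFourier m x) * mFourier m x) *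
          (mFourier m b * mFourier (Matrix.vecMul m (A - 1)) x) := by ring
      _ = _ := by rw [h1, h2, one_mul, one_mul]
  induction k with
  | zero =>
    intro m c hc hm
    rw [pow_zero, Matrix.vecMul_one] at hm
    subst hm
    rw [zero_add, Function.iterate_one, hd _ c hc]
    simp [mFourier_zero]
  | succ k ih =>
    intro m c hc hm
    rw [Function.iterate_succ_apply, hd m c hc]
    refine ih _ _ (norm_mFourier_apply m b) ?_
    rw [Matrix.vecMul_vecMul, ← pow_succ', hm]

lemma phasesSpan_torus (hT : ∀ x i, T x i = ∑ j, A i j • x j + b i) (hA : IsNilpotent (A - 1))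
    (μ : Measure (Fin d → UnitAddCircle)) [IsProbabilityMeasure μ] : PhasesSpan μ T := by
  intro f hf ε hε
  obtain ⟨k, hk⟩ := hA
  have hph : ∀ m : Fin d → ℤ, IsPhase μ T (mFourier m) := fun m =>
    ⟨(mFourier m).continuous.measurable, norm_mFourier_apply m, k + 1, by
      have := iter_mFourier hT k m 1 norm_one (by rw [hk, Matrix.vecMul_zero])
      simp only [one_mul] at this
      exact ae_of_all _ (congrFun this)⟩
  have hd := (ContinuousMap.toLp_denseRange ℂ μ ℂ (p := 2)
    (by norm_num)).topologicalClosure_map_submodule (span_mFourier_closure_eq_top (d := Fin d))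
  have hmem : hf.toLp f ∈ closure ((Submodule.map
      (ContinuousMap.toLp (E := ℂ) 2 μ ℂ : C(Fin d → UnitAddCircle, ℂ) →L[ℂ] Lp ℂ 2 μ).toLinearMap
      (Submodule.span ℂ (Set.range (mFourier (d := Fin d)))) : Submodule ℂ (Lp ℂ 2 μ)) :
        Set (Lp ℂ 2 μ)) := by
    rw [← Submodule.topologicalClosure_coe, hd]
    trivial
  obtain ⟨G, hG, hdist⟩ := Metric.mem_closure_iff.mp hmem (Real.sqrt ε) (Real.sqrt_pos.mpr hε)
  obtain ⟨g, hg, rfl⟩ := Submodule.mem_map.mp hG
  obtain ⟨n, c, e, rfl⟩ := Submodule.mem_span_set'.mp hg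
  choose m hm using fun i => (e i).2
  refine ⟨n, c, fun i => mFourier (m i), fun i => hph _, ?_⟩
  set G : Lp ℂ 2 μ := ContinuousMap.toLp (E := ℂ) 2 μ ℂ
    (∑ i, c i • (e i : C(Fin d → UnitAddCircle, ℂ))) with hGdef
  have hae : ((hf.toLp f - G : Lp ℂ 2 μ) : (Fin d → UnitAddCircle) → ℂ) =ᵐ[μ]
      fun x => f x - ∑ i, c i * mFourier (m i) x := by
    filter_upwards [Lp.coeFn_sub (hf.toLp f) G, hf.coeFn_toLp, ContinuousMap.coeFn_toLp (p := 2)
      (𝕜 := ℂ) μ (∑ i, c i • (e i : C(Fin d → UnitAddCircle, ℂ)))] with x h1 h2 h3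
    rw [h1, Pi.sub_apply, h2, hGdef, h3]
    simp [hm]
  have hnorm : ∫ x, ‖f x - ∑ i, c i * mFourier (m i) x‖ ^ 2 ∂μ = ‖hf.toLp f - G‖ ^ 2 := by
    have h1 := inner_self_eq_norm_sq_to_K (𝕜 := ℂ) (hf.toLp f - G)
    rw [L2.inner_def] at h1
    have h2 : ∫ x, ⟪(hf.toLp f - G : Lp ℂ 2 μ) x, (hf.toLp f - G : Lp ℂ 2 μ) x⟫_ℂ ∂μ =
        ∫ x, ((‖f x - ∑ i, c i * mFourier (m i) x‖ ^ 2 : ℝ) : ℂ) ∂μ := by
      refine integral_congr_ae ?_
      filter_upwards [hae] with x hx
      rw [hx, inner_self_eq_norm_sq_to_K]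
      simp
    rw [h2, integral_complex_ofReal] at h1
    apply Complex.ofReal_injective
    rw [h1]
    simp
  rw [hnorm]
  have h3 : ‖hf.toLp f - G‖ < Real.sqrt ε := by rw [← dist_eq_norm]; exact hdist
  calc ‖hf.toLp f - G‖ ^ 2 < (Real.sqrt ε) ^ 2 := by gcongr
    _ = ε := Real.sq_sqrt hε.le

lemma continuous_affine (hT : ∀ x i, T x i = ∑ j, A i j • x j + b i) : Continuous T := by
  refine continuous_pi fun i => ?_
  simp only [hT]
  fun_prop

lemma measurePreserving_affine (hT : ∀ x i, T x i = ∑ j, A i j • x j + b i)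
    (hs : Function.Surjective T) :
    MeasurePreserving T
      (Measure.pi fun _ : Fin d => (AddCircle.haarAddCircle : Measure UnitAddCircle))
      (Measure.pi fun _ : Fin d => (AddCircle.haarAddCircle : Measure UnitAddCircle)) := by
  set L : (Fin d → UnitAddCircle) →+ (Fin d → UnitAddCircle) :=
    { toFun := fun x i => ∑ j, A i j • x j
      map_zero' := by funext i; simp
      map_add' := fun x y => by funext i; simp [Finset.sum_add_distrib] } with hL
  have hTL : T = (fun y => y + b) ∘ L := by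
    funext x i
    simp [hT, hL]
  have hLc : Continuous L := by
    refine continuous_pi fun i => ?_
    simp only [hL, AddMonoidHom.coe_mk, ZeroHom.coe_mk]
    fun_prop
  have hLs : Function.Surjective L := by
    intro y
    obtain ⟨x, hx⟩ := hs (y + b)
    rw [hTL] at hx
    exact ⟨x, add_right_cancel hx⟩
  rw [hTL]
  exact (measurePreserving_add_right _ b).comp (AddMonoidHom.measurePreserving hLc hLs rfl)

/-- The bound for unipotent affine transformations of tori. -/
theorem characteristic_torus {T : Equiv.Perm (Fin d → UnitAddCircle)}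
    (hT : ∀ x i, T x i = ∑ j, A i j • x j + b i) (hA : IsNilpotent (A - 1))
    {l : ℕ} (hl : 2 ≤ l) (p : Fin l → Polynomial ℤ)
    (hp : ∀ i, 0 < (p i).natDegree) (hdiff : ∀ i j, i ≠ j → 0 < (p i - p j).natDegree) :
    TopFactorCharacteristic
      (Measure.pi fun _ : Fin d => (AddCircle.haarAddCircle : Measure UnitAddCircle)) T p :=
  characteristic_of_phasesSpan
    (Continuous.homeoOfEquivCompactToT2 (f := T) (continuous_affine hT)).symm.continuous.measurable
    (measurePreserving_affine hT T.surjective) (phasesSpan_torus hT hA _) hl p hp hdiff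

end Pool.Agent.H799Z.HK
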