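import Pool.Agent.H799Z.HrtFourier

/-! The cohomological equation over the rotation by `√2`, and a second order recurrence with a
quasi-periodic exponential coefficient. -/

set_option autoImplicit false

namespace Pool.Agent.H799Z.Hrt

open MeasureTheory Set Filter Topology AddCircle
open scoped Real

theorem dioph_sqrt (n : ℕ) (hn : n ≠ 0) (m : ℤ) (hm : |(n : ℝ) * √2 - m| ≤ 1 / 2) :
    1 ≤ 4 * n * |(n : ℝ) * √2 - m| := by
  have h2 : √2 ^ 2 = (2 : ℝ) := Real.sq_sqrt (by norm_num)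
  have hn1 : (1 : ℝ) ≤ n := by exact_mod_cast Nat.one_le_iff_ne_zero.mpr hn
  have hs : √2 < 3 / 2 := by
    apply Real.sqrt_lt' (by norm_num) |>.mpr
    norm_num
  have hs0 : 0 < √2 := Real.sqrt_pos.mpr (by norm_num)
  have hne : (2 * (n : ℤ) ^ 2 - m ^ 2) ≠ 0 := by
    intro h
    have h3 : ((n : ℝ) * √2 - m) * (n * √2 + m) = 0 := by
      have : ((2 * (n : ℤ) ^ 2 - m ^ 2 : ℤ) : ℝ) = 0 := by exact_mod_cast h
      push_cast at this
      linear_combination this + (n : ℝ) ^ 2 * h2
    have hirr : Irrational ((n : ℝ) * √2) := irrational_sqrt_two.natCast_mul hn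
    rcases mul_eq_zero.mp h3 with h4 | h4
    · exact hirr.ne_int m (by linarith)
    · exact hirr.ne_int (-m) (by push_cast; linarith)
  have h1 : (1 : ℝ) ≤ |((2 * (n : ℤ) ^ 2 - m ^ 2 : ℤ) : ℝ)| := by
    exact_mod_cast Int.one_le_abs hne
  have h3 : ((2 * (n : ℤ) ^ 2 - m ^ 2 : ℤ) : ℝ) = ((n : ℝ) * √2 - m) * (n * √2 + m) := by
    push_cast
    linear_combination (-(n : ℝ) ^ 2) * h2
  rw [h3, abs_mul] at h1
  have h4 : |(n : ℝ) * √2 + m| ≤ 4 * n := by
    rw [abs_le] at hm ⊢
    constructor <;> nlinarith [hm.1, hm.2]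
  calc (1 : ℝ) ≤ |(n : ℝ) * √2 - m| * |(n : ℝ) * √2 + m| := h1
    _ ≤ |(n : ℝ) * √2 - m| * (4 * n) := mul_le_mul_of_nonneg_left h4 (abs_nonneg _)
    _ = _ := by ring

theorem norm_ee_sub_one {x : ℝ} (hx : |x| ≤ 1 / 2) : 4 * |x| ≤ ‖ee x - 1‖ := by
  have e : ee x = Complex.exp (Complex.I * ((2 * π * x : ℝ) : ℂ)) := by
    unfold ee
    congr 1
    push_cast
    ring
  rw [e, Complex.norm_exp_I_mul_ofReal_sub_one, Real.norm_eq_abs, abs_mul, abs_two,
    show 2 * π * x / 2 = π * x by ring]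
  have hpi := Real.pi_pos
  have h1 : |π * x| ≤ π / 2 := by
    rw [abs_mul, abs_of_pos hpi]
    nlinarith
  have h2 := Real.mul_abs_le_abs_sin h1
  rw [abs_mul, abs_of_pos hpi, ← mul_assoc, div_mul_cancel₀ _ hpi.ne'] at h2
  linarith

theorem dioph (n : ℕ) (hn : n ≠ 0) (ε : ℤ) (hε : ε = 1 ∨ ε = -1) :
    1 ≤ n * ‖ee (ε * √2) ^ n - 1‖ := by
  have hp : ∀ (x : ℝ) (k : ℕ), ee x ^ k = ee (k * x) := by
    intro x k
    induction k with
    | zero => simp [ee_zero]
    | succ k ih => rw [pow_succ, ih, ← ee_add]; congr 1; push_cast; ring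
  have hm := abs_sub_round ((n : ℝ) * √2)
  have h1 := dioph_sqrt n hn _ hm
  set m := round ((n : ℝ) * √2)
  have e : ee (n * (ε * √2)) = ee (ε * ((n : ℝ) * √2 - m)) := by
    rw [show (n : ℝ) * (ε * √2) = ε * ((n : ℝ) * √2 - m) + ((ε * m : ℤ) : ℝ) by push_cast; ring,
      ee_add, ee_int, mul_one]
  have habs : |(ε : ℝ) * ((n : ℝ) * √2 - m)| = |(n : ℝ) * √2 - m| := by
    rcases hε with rfl | rfl <;> simp [abs_sub_comm]
  have h2 := norm_ee_sub_one (x := ε * ((n : ℝ) * √2 - m)) (by rw [habs]; exact hm)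
  rw [hp, e]
  rw [habs] at h2
  have hn0 : (0 : ℝ) ≤ n := Nat.cast_nonneg n
  nlinarith

/-- The rotation. -/
noncomputable def th : UnitAddCircle := ((-√2 : ℝ) : UnitAddCircle)

theorem fourier_th (n : ℤ) (x : UnitAddCircle) :
    fourier n (x + th) = ee (-(n * √2)) * fourier n x := by
  have h1 : fourier n (x + th) = fourier n x * fourier n th := by
    simp_rw [fourier_apply, zsmul_add, toCircle_add, Circle.coe_mul]
  rw [h1, mul_comm]
  congr 1
  unfold th
  rw [fourier_coe_apply]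
  unfold ee
  congr 1
  push_cast
  ring

theorem norm_fourier_pt (n : ℤ) (x : UnitAddCircle) : ‖fourier n x‖ = 1 := Circle.norm_coe _

/-- `p` is cohomologous to `B z ^ k`. -/
def Cob (p : UnitAddCircle → ℂ) (B : ℂ) (k : ℤ) : Prop :=
  ∃ E : UnitAddCircle → ℂ, Continuous E ∧ (∀ x, E x ≠ 0) ∧
    ∀ x, E (x + th) * p x = B * fourier k x * E x

theorem Cob.mul {p q : UnitAddCircle → ℂ} {B C : ℂ} {k l : ℤ} (hp : Cob p B k) (hq : Cob q C l) :
    Cob (fun x => p x * q x) (B * C) (k + l) := by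
  obtain ⟨E, h1, h2, h3⟩ := hp
  obtain ⟨F, g1, g2, g3⟩ := hq
  refine ⟨fun x => E x * F x, h1.mul g1, fun x => mul_ne_zero (h2 x) (g2 x), fun x => ?_⟩
  rw [fourier_add]
  calc E (x + th) * F (x + th) * (p x * q x) = (E (x + th) * p x) * (F (x + th) * q x) := by ring
    _ = _ := by rw [h3, g3]; ring

theorem cob_mono (B : ℂ) (k : ℤ) : Cob (fun x => B * fourier k x) B k :=
  ⟨fun _ => 1, continuous_const, fun _ => one_ne_zero, fun x => by ring⟩

theorem cob_lin {v : ℂ} (hv : ‖v‖ < 1) (ε : ℤ) (hε : ε = 1 ∨ ε = -1) :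
    Cob (fun x => 1 - v * fourier ε x) 1 0 := by
  obtain ⟨q, hq⟩ : ∃ q, q = ee (((-ε : ℤ) : ℝ) * √2) := ⟨_, rfl⟩
  have hd : ∀ n : ℕ, n ≠ 0 → 1 ≤ n * ‖q ^ n - 1‖ := by
    intro n hn
    rw [hq]
    apply dioph n hn
    omega
  have hq1 : ‖q‖ = 1 := by rw [hq, norm_ee]
  let t : ℕ → ℂ → ℂ := fun n z => z ^ n / (n * (q ^ n - 1))
  have ht : ∀ n z, ‖z‖ = ‖v‖ → ‖t n z‖ ≤ ‖v‖ ^ n := by
    intro n z hz
    simp only [t]
    rcases Nat.eq_zero_or_pos n with rfl | hn
    · simp
    · rw [norm_div, norm_pow, hz, norm_mul, Complex.norm_natCast]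
      exact div_le_self (by positivity) (hd n hn.ne')
  have hs : Summable (fun n : ℕ => ‖v‖ ^ n) := summable_geometric_of_lt_one (norm_nonneg _) hv
  have hsum : ∀ z, ‖z‖ = ‖v‖ → Summable (fun n => t n z) := fun z hz =>
    Summable.of_norm_bounded hs (fun n => ht n z hz)
  have hz : ∀ x : UnitAddCircle, ‖v * fourier ε x‖ = ‖v‖ := fun x => by
    rw [norm_mul, norm_fourier_pt, mul_one]
  refine ⟨fun x => Complex.exp (∑' n, t n (v * fourier ε x)), ?_, fun x => Complex.exp_ne_zero _,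
    fun x => ?_⟩
  · apply Continuous.cexp
    apply continuous_tsum _ hs (fun n x => ht n _ (hz x))
    intro n
    simp only [t]
    exact ((continuous_const.mul (map_continuous (fourier ε))).pow n).div_const _
  · have e1 : v * fourier ε (x + th) = q * (v * fourier ε x) := by
      rw [fourier_th, hq]
      push_cast
      rw [neg_mul]
      ring
    obtain ⟨z, hzz⟩ : ∃ z, z = v * fourier ε x := ⟨_, rfl⟩
    have hz1 : ‖z‖ = ‖v‖ := by rw [hzz, hz]
    simp only [e1, ← hzz]
    have hz2 : ‖q * z‖ = ‖v‖ := by rw [norm_mul, hq1, one_mul, hz1]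
    have h1 := Complex.hasSum_taylorSeries_neg_log (z := z) (by rw [hz1]; exact hv)
    have h2 : ∑' n, t n (q * z) = ∑' n, t n z + -Complex.log (1 - z) := by
      rw [← h1.tsum_eq, ← (hsum z hz1).tsum_add h1.summable]
      refine tsum_congr fun n => ?_
      simp only [t]
      rcases Nat.eq_zero_or_pos n with rfl | hn
      · simp
      · have h3 : q ^ n - 1 ≠ 0 := by
          intro h4
          have := hd n hn.ne'
          rw [h4, norm_zero, mul_zero] at this
          linarith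
        have h4 : (n : ℂ) ≠ 0 := by exact_mod_cast hn.ne'
        rw [mul_pow]
        field_simp
        ring
    have h5 : 1 - z ≠ 0 := by
      intro h6
      have : z = 1 := by linear_combination -h6
      rw [this, norm_one] at hz1
      linarith
    rw [h2, Complex.exp_add, Complex.exp_neg, Complex.exp_log h5, fourier_zero]
    field_simp

theorem Cob.congr {p q : UnitAddCircle → ℂ} {B C : ℂ} {k l : ℤ} (hp : Cob p B k)
    (h : ∀ x, p x = q x) (hB : B = C) (hk : k = l) : Cob q C l := by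
  have : p = q := funext h
  rw [← this, ← hB, ← hk]
  exact hp

theorem cob_in {r : ℂ} (hr : ‖r‖ < 1) : Cob (fun x => fourier 1 x - r) 1 1 := by
  refine ((cob_mono 1 1).mul (cob_lin hr (-1) (Or.inr rfl))).congr (fun x => ?_) (by ring) (by ring)
  have : fourier 1 x * fourier (-1) x = 1 := by rw [← fourier_add]; simp
  linear_combination (-r) * this

theorem cob_out {r : ℂ} (hr : 1 < ‖r‖) : Cob (fun x => fourier 1 x - r) (-r) 0 := by
  have h0 : r ≠ 0 := by
    rintro rfl
    rw [norm_zero] at hr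
    linarith
  have h1 : ‖r⁻¹‖ < 1 := by
    rw [norm_inv]
    exact inv_lt_one_of_one_lt₀ hr
  refine ((cob_mono (-r) 0).mul (cob_lin h1 1 (Or.inl rfl))).congr (fun x => ?_) (by ring) (by ring)
  rw [fourier_zero]
  field_simp
  ring

theorem coef_summable {F : UnitAddCircle → ℂ} (hF : MemLp F 2 haarAddCircle) :
    Summable (fun n => ‖fourierCoeff F n‖ ^ 2) := by
  have h := (hasSum_sq_fourierCoeff (hF.toLp F)).summable
  rwa [fourierCoeff_congr_ae hF.coeFn_toLp] at h

theorem coef_zero {F : UnitAddCircle → ℂ} (hF : MemLp F 2 haarAddCircle)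
    (h0 : ∀ n, fourierCoeff F n = 0) : F =ᵐ[haarAddCircle] 0 := by
  have h := hasSum_fourier_series_L2 (hF.toLp F)
  rw [fourierCoeff_congr_ae hF.coeFn_toLp] at h
  simp only [h0, zero_smul] at h
  have h1 : hF.toLp F = 0 := h.unique hasSum_zero
  exact hF.coeFn_toLp.symm.trans (Lp.eq_zero_iff_ae_eq_zero.mp h1)

theorem coef_shift (F : UnitAddCircle → ℂ) (k n : ℤ) :
    fourierCoeff (fun x => fourier k x * F x) n = fourierCoeff F (n - k) := by
  unfold fourierCoeff
  apply integral_congr_ae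
  filter_upwards with x
  rw [smul_eq_mul, smul_eq_mul, ← mul_assoc, ← fourier_add]
  congr 2
  ring

theorem coef_rot (F : UnitAddCircle → ℂ) (n : ℤ) :
    fourierCoeff (fun x => F (x + th)) n = ee (-(n * √2)) * fourierCoeff F n := by
  unfold fourierCoeff
  rw [← integral_add_right_eq_self (fun t => fourier (-n) t • F t) th, ← integral_const_mul]
  apply integral_congr_ae
  filter_upwards with x
  rw [fourier_th, smul_eq_mul, smul_eq_mul, ← mul_assoc, ← mul_assoc, ← ee_add]
  have : -((n : ℝ) * √2) + -(((-n : ℤ) : ℝ) * √2) = 0 := by push_cast; ring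
  rw [this, ee_zero, one_mul]

theorem geom_zero {u : ℤ → ℝ} (hu : Summable (fun n => u n ^ 2)) (h0 : ∀ n, 0 ≤ u n) {k : ℤ}
    (hk : k ≠ 0) {ρ : ℝ} (hρ : 1 ≤ ρ) (h : ∀ n, u (n + k) = ρ * u n) (n : ℤ) : u n = 0 := by
  have h1 : ∀ j : ℕ, u n ≤ u (n + j * k) := by
    intro j
    induction j with
    | zero => simp
    | succ j ih =>
      have e : n + ((j + 1 : ℕ) : ℤ) * k = n + j * k + k := by push_cast; ring
      rw [e, h]
      nlinarith [h0 (n + j * k)]
  have hinj : Function.Injective (fun j : ℕ => n + j * k) := by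
    intro i j hij
    have : (i : ℤ) * k = j * k := by simpa using hij
    exact_mod_cast mul_right_cancel₀ hk this
  have h2 := (hu.comp_injective hinj).tendsto_atTop_zero
  have h3 : u n ^ 2 ≤ 0 := ge_of_tendsto' h2 (fun j => pow_le_pow_left₀ (h0 n) (h1 j) 2)
  exact pow_eq_zero_iff (two_ne_zero) |>.mp (le_antisymm h3 (sq_nonneg _))

theorem memLp_cont_mul {E F : UnitAddCircle → ℂ} (hE : Continuous E)
    (hF : MemLp F 2 haarAddCircle) : MemLp (fun x => E x * F x) 2 haarAddCircle := by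
  obtain ⟨C, hC⟩ := (isCompact_univ.image hE.norm).bddAbove
  refine hF.of_le_mul (c := C) (hE.aestronglyMeasurable.mul hF.1) ?_
  filter_upwards with x
  rw [norm_mul]
  exact mul_le_mul_of_nonneg_right (hC ⟨x, mem_univ x, rfl⟩) (norm_nonneg _)

/-- An `L²` solution of a cocycle equation forces winding number zero and an eigenvalue. -/
theorem cob_solution {p H : UnitAddCircle → ℂ} {B d : ℂ} {k : ℤ} (hp : Cob p B k) (hB : B ≠ 0)
    (hd : d ≠ 0) (hH : MemLp H 2 haarAddCircle) (h0 : ¬ H =ᵐ[haarAddCircle] 0)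
    (heq : ∀ᵐ x ∂haarAddCircle, p x * H x + d * H (x + th) = 0) :
    k = 0 ∧ ∃ n : ℤ, B = -(d * ee (-(n * √2))) := by
  obtain ⟨E, h1, h2, h3⟩ := hp
  have hK := memLp_cont_mul h1 hH
  obtain ⟨K, hKd⟩ : ∃ K, K = fun x => E x * H x := ⟨_, rfl⟩
  rw [← hKd] at hK
  have hK0 : ∃ n, fourierCoeff K n ≠ 0 := by
    by_contra hc
    push Not at hc
    apply h0
    filter_upwards [coef_zero hK hc] with x hx
    rw [hKd] at hx
    exact (mul_eq_zero.mp hx).resolve_left (h2 x)
  have hKe : (fun x => d * K (x + th)) =ᵐ[haarAddCircle] fun x => -B * (fourier k x * K x) := by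
    filter_upwards [heq] with x hx
    rw [hKd]
    linear_combination (E (x + th)) * hx - (H x) * h3 x
  have hc : ∀ n : ℤ, d * (ee (-(n * √2)) * fourierCoeff K n) = -B * fourierCoeff K (n - k) := by
    intro n
    have := congrFun (fourierCoeff_congr_ae hKe) n
    rwa [fourierCoeff.const_mul, fourierCoeff.const_mul, coef_rot, coef_shift] at this
  have hk : k = 0 := by
    by_contra hk
    obtain ⟨n, hn⟩ := hK0
    apply hn
    have hs := coef_summable hK
    have hn' : ∀ n : ℤ, ‖d‖ * ‖fourierCoeff K n‖ = ‖B‖ * ‖fourierCoeff K (n - k)‖ := by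
      intro n
      have := congrArg norm (hc n)
      rwa [norm_mul, norm_mul, norm_mul, norm_ee, one_mul, norm_neg] at this
    have hd' : 0 < ‖d‖ := norm_pos_iff.mpr hd
    have hB' : 0 < ‖B‖ := norm_pos_iff.mpr hB
    rw [← norm_eq_zero]
    rcases le_total ‖d‖ ‖B‖ with hle | hle
    · refine geom_zero hs (fun _ => norm_nonneg _) hk (ρ := ‖B‖ / ‖d‖)
        ((one_le_div hd').mpr hle) (fun m => ?_) n
      have := hn' (m + k)
      rw [add_sub_cancel_right] at this
      field_simp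
      linarith
    · refine geom_zero hs (fun _ => norm_nonneg _) (neg_ne_zero.mpr hk) (ρ := ‖d‖ / ‖B‖)
        ((one_le_div hB').mpr hle) (fun m => ?_) n
      have := hn' m
      rw [← sub_eq_add_neg]
      field_simp
      linarith
  refine ⟨hk, ?_⟩
  obtain ⟨n, hn⟩ := hK0
  refine ⟨n, ?_⟩
  have := hc n
  rw [hk, sub_zero] at this
  apply mul_right_cancel₀ hn
  linear_combination this

/-- The second order recurrence. -/
theorem second_order {a b c d : ℂ} (hb : b ≠ 0) (hd : d ≠ 0) {h : ℤ → ℂ}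
    (hs : Summable (fun n => ‖h n‖ ^ 2)) (h0 : ∃ n, h n ≠ 0)
    (hrec : ∀ n, c * h n + a * h (n + 1) + b * h (n - 1) + d * (ee (-(n * √2)) * h n) = 0)
    (hroot : ∀ z : ℂ, ‖z‖ = 1 → b * z ^ 2 + c * z + a ≠ 0) :
    ∃ n : ℤ, (d * ee (-(n * √2))) ^ 2 + c * (d * ee (-(n * √2))) + a * b = 0 := by
  have hmem : Memℓp h 2 := by
    apply memℓp_gen
    simpa using hs
  let hl : lp (fun _ : ℤ => ℂ) 2 := ⟨h, hmem⟩
  let H : Lp ℂ 2 (haarAddCircle : Measure UnitAddCircle) := fourierBasis.repr.symm hl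
  have hH : ∀ n, fourierCoeff H n = h n := by
    intro n
    rw [← fourierBasis_repr]
    simp only [H, LinearIsometryEquiv.apply_symm_apply]
    rfl
  have hHm : MemLp H 2 haarAddCircle := Lp.memLp H
  have hH0 : ¬ (H : UnitAddCircle → ℂ) =ᵐ[haarAddCircle] 0 := by
    intro h1
    obtain ⟨n, hn⟩ := h0
    apply hn
    rw [← hH, fourierCoeff_congr_ae h1]
    simp [fourierCoeff]
  have m1 : MemLp (fun x => c * H x) 2 haarAddCircle := hHm.const_mul c
  have m2 : MemLp (fun x => a * (fourier (-1) x * H x)) 2 haarAddCircle :=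
    (memLp_cont_mul (map_continuous _) hHm).const_mul a
  have m3 : MemLp (fun x => b * (fourier 1 x * H x)) 2 haarAddCircle :=
    (memLp_cont_mul (map_continuous _) hHm).const_mul b
  have m4 : MemLp (fun x => d * H (x + th)) 2 haarAddCircle :=
    (hHm.comp_measurePreserving (measurePreserving_add_right haarAddCircle th)).const_mul d
  have i1 := m1.integrable (by norm_num)
  have i2 := m2.integrable (by norm_num)
  have i3 := m3.integrable (by norm_num)
  have i4 := m4.integrable (by norm_num)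
  have heq := coef_zero (((m1.add m2).add m3).add m4) (fun n => by
    rw [fourierCoeff.add ((i1.add i2).add i3) i4, fourierCoeff.add (i1.add i2) i3,
      fourierCoeff.add i1 i2]
    simp only [Pi.add_apply]
    rw [fourierCoeff.const_mul, fourierCoeff.const_mul, fourierCoeff.const_mul,
      fourierCoeff.const_mul, coef_shift, coef_shift, coef_rot, hH, hH, hH, sub_neg_eq_add]
    exact hrec n)
  obtain ⟨s, hsq⟩ := IsAlgClosed.exists_eq_mul_self (c ^ 2 - 4 * b * a)
  obtain ⟨r1, r2, hsum, hprod⟩ : ∃ r1 r2 : ℂ, b * (r1 + r2) = -c ∧ b * (r1 * r2) = a := by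
    refine ⟨(-c + s) / (2 * b), (-c - s) / (2 * b), ?_, ?_⟩
    · field_simp; ring
    · field_simp; linear_combination hsq
  have hr1 : b * r1 ^ 2 + c * r1 + a = 0 := by linear_combination r1 * hsum - hprod
  have hr2 : b * r2 ^ 2 + c * r2 + a = 0 := by linear_combination r2 * hsum - hprod
  have heq' : ∀ᵐ x ∂haarAddCircle, (b * fourier (-1) x * (fourier 1 x - r1) * (fourier 1 x - r2)) *
      H x + d * H (x + th) = 0 := by
    filter_upwards [heq] with x hx
    have h1 : fourier 1 x * fourier (-1) x = 1 := by rw [← fourier_add]; simp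
    simp only [Pi.add_apply, Pi.zero_apply] at hx
    linear_combination hx + (H x * b * (fourier 1 x - r1 - r2)) * h1 - H x * hsum +
      (H x * fourier (-1) x) * hprod
  have n1 : ‖r1‖ ≠ 1 := fun h1 => hroot r1 h1 hr1
  have n2 : ‖r2‖ ≠ 1 := fun h1 => hroot r2 h1 hr2
  have nz : ∀ r : ℂ, 1 < ‖r‖ → r ≠ 0 := by
    rintro r hr rfl
    rw [norm_zero] at hr
    linarith
  rcases lt_or_gt_of_ne n1 with l1 | l1 <;> rcases lt_or_gt_of_ne n2 with l2 | l2
  · have := (cob_solution (((cob_mono b (-1)).mul (cob_in l1)).mul (cob_in l2)) (by simpa using hb)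
      hd hHm hH0 heq').1
    omega
  · obtain ⟨-, n, hn⟩ := cob_solution (((cob_mono b (-1)).mul (cob_in l1)).mul (cob_out l2))
      (by simp [hb, nz r2 l2]) hd hHm hH0 heq'
    refine ⟨n, ?_⟩
    have : d * ee (-(n * √2)) = b * r2 := by linear_combination hn
    rw [this]
    linear_combination b * hr2
  · obtain ⟨-, n, hn⟩ := cob_solution (((cob_mono b (-1)).mul (cob_out l1)).mul (cob_in l2))
      (by simp [hb, nz r1 l1]) hd hHm hH0 heq'
    refine ⟨n, ?_⟩
    have : d * ee (-(n * √2)) = b * r1 := by linear_combination hn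
    rw [this]
    linear_combination b * hr1
  · have := (cob_solution (((cob_mono b (-1)).mul (cob_out l1)).mul (cob_out l2))
      (by simp [hb, nz r1 l1, nz r2 l2]) hd hHm hH0 heq').1
    omega

end Pool.Agent.H799Z.Hrt
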