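import Pool.Agent.H799Z.HrtFourier

/-! Fibres of square integrable functions over cosets, and first order recurrences. -/

set_option autoImplicit false

namespace Pool.Agent.H799Z.Hrt

open MeasureTheory Set Filter Topology
open scoped ENNReal

theorem ae_of_ae_Ioc {β : ℝ} (hβ : 0 < β) {P : ℝ → Prop}
    (h : ∀ a : ℝ, ∀ᵐ x ∂(volume.restrict (Ioc a (a + β))), P x) :
    ∀ᵐ x ∂(volume : Measure ℝ), P x := by
  have h1 : ∀ᵐ x ∂(volume.restrict (⋃ k : ℤ, Ioc ((0 : ℝ) + k • β) (0 + (k + 1) • β))), P x := by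
    rw [ae_restrict_iUnion_iff]
    intro k
    have := h (0 + k • β)
    rwa [add_assoc, ← add_one_zsmul] at this
  rwa [iUnion_Ioc_add_zsmul hβ, Measure.restrict_univ] at h1

theorem summable_fibre_pos {h : ℝ → ℂ} (hh : MemLp h 2 volume) {β : ℝ} (hβ : 0 < β) :
    ∀ᵐ x ∂(volume : Measure ℝ), Summable (fun n : ℤ => ‖h (x + n * β)‖ ^ 2) := by
  let F : ℝ → ℝ≥0∞ := fun x => ENNReal.ofReal (‖h x‖ ^ 2)
  have hint : Integrable (fun x => ‖h x‖ ^ 2) volume := (memLp_two_iff_integrable_sq_norm hh.1).mp hh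
  have hF : ∫⁻ x, F x < ∞ := hint.lintegral_lt_top
  have hFm : AEMeasurable F volume := hint.1.aemeasurable.ennreal_ofReal
  apply ae_of_ae_Ioc hβ
  intro a
  have hm : ∀ n : ℤ, AEMeasurable (fun x => F (x + n * β)) (volume.restrict (Ioc a (a + β))) :=
    fun n => (hFm.comp_quasiMeasurePreserving
      (measurePreserving_add_right volume (n * β)).quasiMeasurePreserving).restrict
  have h1 : ∫⁻ x in Ioc a (a + β), ∑' n : ℤ, F (x + n * β) < ∞ := by
    rw [lintegral_tsum hm]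
    refine lt_of_le_of_lt ?_ hF
    rw [(isAddFundamentalDomain_Ioc hβ a volume).lintegral_eq_tsum'' F]
    let i : ℤ → AddSubgroup.zmultiples β := fun n => ⟨n • β, AddSubgroup.zsmul_mem_zmultiples β n⟩
    have hi : Function.Injective i := by
      intro m n hmn
      exact (zsmul_left_strictMono hβ).injective (congrArg Subtype.val hmn)
    refine le_trans (le_of_eq ?_) (ENNReal.tsum_comp_le_tsum_of_injective hi _)
    refine tsum_congr fun n => ?_
    apply lintegral_congr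
    intro x
    congr 1
    show x + n * β = n • β + x
    rw [zsmul_eq_mul, add_comm]
  have h2 := ae_lt_top' (AEMeasurable.tsum hm) h1.ne
  filter_upwards [h2] with x hx
  have h3 := ENNReal.summable_toReal hx.ne
  refine h3.congr fun n => ?_
  exact ENNReal.toReal_ofReal (by positivity)

theorem summable_fibre {h : ℝ → ℂ} (hh : MemLp h 2 volume) {β : ℝ} (hβ : β ≠ 0) :
    ∀ᵐ x ∂(volume : Measure ℝ), Summable (fun n : ℤ => ‖h (x + n * β)‖ ^ 2) := by
  rcases lt_or_gt_of_ne hβ with h1 | h1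
  · filter_upwards [summable_fibre_pos hh (neg_pos.mpr h1)] with x hx
    have := (Equiv.neg ℤ).summable_iff.mpr hx
    refine this.congr fun n => ?_
    simp
  · exact summable_fibre_pos hh h1

/-- Recurrence modulo a period. -/
theorem recur {E : Set ℝ} (hE : MeasurableSet E) (h0 : volume E ≠ 0) {T : ℝ} (hT : 0 < T)
    (γ : ℝ) : ∃ x ∈ E, ∃ m : ℕ, m ≠ 0 ∧ ∃ k : ℤ, x - m * γ + k * T ∈ E := by
  have : Fact (0 < T) := ⟨hT⟩
  have h1 : ∃ a : ℝ, volume.restrict (Ioc a (a + T)) E ≠ 0 := by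
    by_contra hcon
    push Not at hcon
    apply h0
    have := ae_of_ae_Ioc hT (P := fun x => x ∉ E)
      (fun a => measure_eq_zero_iff_ae_notMem.mp (hcon a))
    exact measure_eq_zero_iff_ae_notMem.mpr this
  obtain ⟨a, ha⟩ := h1
  let S : Set (AddCircle T) := {θ | ((AddCircle.equivIoc T a θ : Ioc a (a + T)) : ℝ) ∈ E}
  have hS : MeasurableSet S :=
    (measurable_subtype_coe.comp (AddCircle.measurableEquivIoc T a).measurable) hE
  have hS0 : volume S ≠ 0 := by
    rw [← (AddCircle.measurePreserving_mk T a).measure_preimage hS.nullMeasurableSet]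
    intro h2
    apply ha
    rw [Measure.restrict_apply' measurableSet_Ioc] at h2 ⊢
    refine measure_mono_null ?_ h2
    rintro x ⟨hx1, hx2⟩
    refine ⟨?_, hx2⟩
    show ((AddCircle.equivIoc T a (x : AddCircle T) : Ioc a (a + T)) : ℝ) ∈ E
    rw [AddCircle.equivIoc_coe_eq hx2]
    exact hx1
  obtain ⟨θ, hθ, m, hm, hmθ⟩ :=
    (measurePreserving_sub_right (volume : Measure (AddCircle T)) ((γ : ℝ) : AddCircle T)).exists_mem_iterate_mem
      hS.nullMeasurableSet hS0
  have hit : ∀ n : ℕ, (fun x : AddCircle T => x - ((γ : ℝ) : AddCircle T))^[n] θ =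
      θ - ((n * γ : ℝ) : AddCircle T) := by
    intro n
    induction n with
    | zero => simp
    | succ n ih =>
      rw [Function.iterate_succ_apply', ih, sub_sub, ← AddCircle.coe_add]
      congr 2
      push_cast
      ring
  rw [hit] at hmθ
  refine ⟨_, hθ, m, hm, ?_⟩
  have e1 : (((AddCircle.equivIoc T a θ : Ioc a (a + T)) : ℝ) : AddCircle T) = θ :=
    (AddCircle.equivIoc T a).symm_apply_apply θ
  have e2 : (((AddCircle.equivIoc T a (θ - ((m * γ : ℝ) : AddCircle T)) : Ioc a (a + T)) : ℝ) :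
      AddCircle T) = θ - ((m * γ : ℝ) : AddCircle T) :=
    (AddCircle.equivIoc T a).symm_apply_apply _
  set x : ℝ := ((AddCircle.equivIoc T a θ : Ioc a (a + T)) : ℝ) with hx
  set y : ℝ := ((AddCircle.equivIoc T a (θ - ((m * γ : ℝ) : AddCircle T)) : Ioc a (a + T)) : ℝ)
    with hy
  have e3 : ((y - (x - m * γ) : ℝ) : AddCircle T) = 0 := by
    rw [AddCircle.coe_sub, AddCircle.coe_sub, e1, e2, sub_self]
  obtain ⟨k, hk⟩ := (AddCircle.coe_eq_zero_iff T).mp e3
  refine ⟨k, ?_⟩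
  have : x - m * γ + k * T = y := by
    rw [zsmul_eq_mul] at hk
    linarith
  rw [this]
  exact hmθ

theorem ae_shift {P : ℝ → Prop} (h : ∀ᵐ x ∂(volume : Measure ℝ), P x) (a : ℝ) :
    ∀ᵐ x ∂(volume : Measure ℝ), P (x + a) :=
  (measurePreserving_add_right volume a).quasiMeasurePreserving.ae h

theorem first_order_meas {h : ℝ → ℂ} (hh : MemLp h 2 volume) (hm : Measurable h) {β T : ℝ}
    (hβ : β ≠ 0) (hT : 0 < T) {m : ℝ → ℝ} (hper : Function.Periodic m T)
    (hrel : ∀ᵐ x ∂(volume : Measure ℝ), ‖h (x - β)‖ = m x * ‖h x‖) : h =ᵐ[volume] 0 := by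
  by_contra hne
  have hΩ : ∀ᵐ x ∂(volume : Measure ℝ), ∀ j : ℕ, ∀ k : ℤ,
      ‖h (x + (k * T - j * β) - β)‖ = m (x + (k * T - j * β)) * ‖h (x + (k * T - j * β))‖ := by
    rw [ae_all_iff]; intro j
    rw [ae_all_iff]; intro k
    exact ae_shift hrel _
  obtain ⟨Ω, hΩm, hΩ1, hΩ2⟩ : ∃ Ω : Set ℝ, MeasurableSet Ω ∧ (∀ᵐ x ∂(volume : Measure ℝ), x ∈ Ω) ∧
      ∀ x ∈ Ω, ∀ j : ℕ, ∀ k : ℤ,
      ‖h (x + (k * T - j * β) - β)‖ = m (x + (k * T - j * β)) * ‖h (x + (k * T - j * β))‖ := by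
    obtain ⟨s, hs1, hs2, hs3⟩ := exists_measurable_superset_of_null (ae_iff.mp hΩ)
    refine ⟨sᶜ, hs2.compl, measure_eq_zero_iff_ae_notMem.mp hs3, fun x hx => ?_⟩
    by_contra hcon
    exact hx (hs1 hcon)
  let E : ℕ → Set ℝ := fun N => Ω ∩ ({x | 0 < ‖h x‖} ∩
    ⋂ n : ℤ, {x | (N : ℤ) < |n| → ‖h (x + n * β)‖ < ‖h x‖ / 2})
  have hEm : ∀ N, MeasurableSet (E N) := by
    intro N
    refine hΩm.inter ((measurableSet_lt measurable_const hm.norm).inter
      (MeasurableSet.iInter fun n => ?_))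
    by_cases hn : (N : ℤ) < |n|
    · simp only [hn, true_imp_iff]
      exact measurableSet_lt (hm.comp (measurable_add_const _)).norm (hm.norm.div_const _)
    · simp only [hn, false_imp_iff, ofPred_true]
      exact MeasurableSet.univ
  have hE0 : ∃ N, volume (E N) ≠ 0 := by
    by_contra hcon
    push Not at hcon
    apply hne
    have h1 : ∀ᵐ x ∂(volume : Measure ℝ), ∀ N, x ∉ E N :=
      ae_all_iff.mpr fun N => measure_eq_zero_iff_ae_notMem.mp (hcon N)
    filter_upwards [h1, hΩ1, summable_fibre hh hβ] with x hx1 hx2 hx3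
    by_contra hx0
    have hpos : 0 < ‖h x‖ := norm_pos_iff.mpr hx0
    have h2 := hx3.tendsto_cofinite_zero.eventually
      (gt_mem_nhds (show (0 : ℝ) < (‖h x‖ / 2) ^ 2 by positivity))
    rw [eventually_cofinite] at h2
    obtain ⟨B, hB⟩ := (h2.image (fun n : ℤ => n.natAbs)).bddAbove
    apply hx1 B
    refine ⟨hx2, hpos, mem_iInter.mpr fun n hn => ?_⟩
    by_contra hcon2
    have h3 : n.natAbs ≤ B := by
      apply hB
      refine ⟨n, ?_, rfl⟩
      intro h4
      exact hcon2 (lt_of_pow_lt_pow_left₀ 2 (by positivity) h4)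
    rw [Int.abs_eq_natAbs] at hn
    omega
  obtain ⟨N, hN⟩ := hE0
  obtain ⟨x, hx, r, hr, k, hy⟩ := recur (hEm N) hN hT ((N + 1 : ℕ) * β)
  obtain ⟨n, hn⟩ : ∃ n : ℕ, n = r * (N + 1) := ⟨_, rfl⟩
  have hnN : N < n := by
    rw [hn]
    have : 1 ≤ r := Nat.one_le_iff_ne_zero.mpr hr
    nlinarith
  have hy' : x - n * β + k * T ∈ E N := by
    have : (n : ℝ) * β = r * ((N + 1 : ℕ) * β) := by rw [hn]; push_cast; ring
    rw [this]; exact hy
  have hprod : ∀ (k : ℤ) (j : ℕ), ‖h (x + (k * T - j * β))‖ =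
      (∏ i ∈ Finset.range j, m (x - i * β)) * ‖h (x + k * T)‖ := by
    intro k j
    induction j with
    | zero => simp
    | succ j ih =>
      have h1 := hΩ2 x hx.1 j k
      have e1 : x + (k * T - ((j + 1 : ℕ) : ℝ) * β) = x + (k * T - j * β) - β := by
        push_cast; ring
      have e2 : m (x + (k * T - j * β)) = m (x - j * β) := by
        have := (hper.int_mul k) (x - j * β)
        rw [← this]
        congr 1
        ring
      rw [e1, h1, ih, e2, Finset.prod_range_succ]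
      ring
  obtain ⟨P, hP⟩ : ∃ P, P = ∏ i ∈ Finset.range n, m (x - i * β) := ⟨_, rfl⟩
  have p0 := hprod 0 n
  have pk := hprod k n
  rw [← hP] at p0 pk
  have x0 : 0 < ‖h x‖ := hx.2.1
  have x1 := (mem_iInter.mp hx.2.2) (-(n : ℤ)) (by rw [abs_neg, Nat.abs_cast]; exact_mod_cast hnN)
  have y0 : 0 < ‖h (x - n * β + k * T)‖ := hy'.2.1
  have y1 := (mem_iInter.mp hy'.2.2) (n : ℤ) (by rw [Nat.abs_cast]; exact_mod_cast hnN)
  have e1 : x + (((0 : ℤ) : ℝ) * T - n * β) = x + ((-(n : ℤ) : ℤ) : ℝ) * β := by push_cast; ring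
  have e2 : x + ((0 : ℤ) : ℝ) * T = x := by simp
  have e3 : x + (k * T - n * β) = x - n * β + k * T := by ring
  have e4 : x - n * β + k * T + ((n : ℤ) : ℝ) * β = x + k * T := by push_cast; ring
  rw [e1, e2] at p0
  rw [e3] at pk
  rw [e4] at y1
  rw [p0] at x1
  have hP1 : P < 1 / 2 := by
    by_contra hc
    push Not at hc
    nlinarith
  have z0 := norm_nonneg (h (x + k * T))
  nlinarith

/-- A square integrable solution of a first order recurrence with periodic modulus vanishes. -/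
theorem first_order {h : ℝ → ℂ} (hh : MemLp h 2 volume) {β T : ℝ}
    (hβ : β ≠ 0) (hT : 0 < T) {m : ℝ → ℝ} (hper : Function.Periodic m T)
    (hrel : ∀ᵐ x ∂(volume : Measure ℝ), ‖h (x - β)‖ = m x * ‖h x‖) : h =ᵐ[volume] 0 := by
  have h1 : h =ᵐ[volume] hh.1.mk h := hh.1.ae_eq_mk
  refine h1.trans (first_order_meas (hh.ae_eq h1) hh.1.stronglyMeasurable_mk.measurable hβ hT hper ?_)
  filter_upwards [hrel, h1, ae_shift h1 (-β)] with x hx1 hx2 hx3
  rw [← sub_eq_add_neg] at hx3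
  rw [← hx2, ← hx3, hx1]

end Pool.Agent.H799Z.Hrt
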