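import Mathlib

/-! Transfer of a linear relation between time-frequency shifts through a chirp and the Fourier
transform. -/

set_option autoImplicit false

namespace Pool.Agent.H799Z.Hrt

open MeasureTheory Complex FourierTransform SchwartzMap
open scoped Real ContDiff

/-- The character `exp (2 π i x)`. -/
noncomputable def ee (x : ℝ) : ℂ := Complex.exp (2 * (π : ℂ) * I * (x : ℂ))

theorem ee_add (x y : ℝ) : ee (x + y) = ee x * ee y := by
  unfold ee
  rw [← Complex.exp_add]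
  push_cast
  ring_nf

theorem ee_zero : ee 0 = 1 := by simp [ee]

theorem norm_ee (x : ℝ) : ‖ee x‖ = 1 := by
  unfold ee
  rw [show 2 * (π : ℂ) * I * (x : ℂ) = ((2 * π * x : ℝ) : ℂ) * I by push_cast; ring]
  exact Complex.norm_exp_ofReal_mul_I _

theorem ee_ne_zero (x : ℝ) : ee x ≠ 0 := Complex.exp_ne_zero _

theorem ee_int (n : ℤ) : ee n = 1 := by
  unfold ee
  rw [show 2 * (π : ℂ) * I * ((n : ℝ) : ℂ) = n * (2 * π * I) by push_cast; ring]
  exact Complex.exp_int_mul_two_pi_mul_I n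

theorem ee_neg_mul (x : ℝ) : ee (-x) * ee x = 1 := by rw [← ee_add, neg_add_cancel, ee_zero]

theorem continuous_ee : Continuous ee := by unfold ee; fun_prop

theorem contDiff_ee : ContDiff ℝ ∞ ee := by
  unfold ee
  apply ContDiff.cexp
  exact contDiff_const.mul Complex.ofRealCLM.contDiff

theorem memLp_shift {f : ℝ → ℂ} (hf : MemLp f 2 volume) (a : ℝ) :
    MemLp (fun x => f (x - a)) 2 volume :=
  hf.comp_measurePreserving (measurePreserving_sub_right volume a)

theorem memLp_unit_mul {f u : ℝ → ℂ} (hf : MemLp f 2 volume) (hu : Continuous u)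
    (hu1 : ∀ x, ‖u x‖ = 1) : MemLp (fun x => u x * f x) 2 volume := by
  refine hf.of_le (hu.aestronglyMeasurable.mul hf.1) ?_
  filter_upwards with x
  rw [norm_mul, hu1, one_mul]

theorem memLp_tf {f : ℝ → ℂ} (hf : MemLp f 2 volume) (a b : ℝ) :
    MemLp (fun x => ee (b * x) * f (x - a)) 2 volume :=
  memLp_unit_mul (memLp_shift hf a) (continuous_ee.comp (by fun_prop)) (fun _ => norm_ee _)

theorem integrable_schwartz_mul (φ : 𝓢(ℝ, ℂ)) {f : ℝ → ℂ} (hf : MemLp f 2 volume) :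
    Integrable (fun x => φ x * f x) volume :=
  MemLp.integrable_mul (φ.memLp 2 volume) hf

/-- The Fourier transform of a square integrable function, characterised by duality. -/
theorem exists_fourier {f : ℝ → ℂ} (hf : MemLp f 2 volume) (h0 : ¬ f =ᵐ[volume] 0) :
    ∃ h : ℝ → ℂ, MemLp h 2 volume ∧ (¬ h =ᵐ[volume] 0) ∧
      ∀ φ : 𝓢(ℝ, ℂ), ∫ x, φ x * h x = ∫ x, (𝓕 φ : 𝓢(ℝ, ℂ)) x * f x := by
  let F : Lp ℂ 2 (volume : Measure ℝ) := hf.toLp f
  refine ⟨(𝓕 F : Lp ℂ 2 (volume : Measure ℝ)), Lp.memLp _, ?_, ?_⟩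
  · intro h1
    apply h0
    have h2 : (𝓕 F : Lp ℂ 2 (volume : Measure ℝ)) = 0 := Lp.eq_zero_iff_ae_eq_zero.mpr h1
    have h3 : ‖F‖ = 0 := by rw [← Lp.norm_fourier_eq F, h2, norm_zero]
    have h4 : F = 0 := norm_eq_zero.mp h3
    have h5 := Lp.eq_zero_iff_ae_eq_zero.mp h4
    exact (hf.coeFn_toLp).symm.trans h5
  · intro φ
    have h1 := congrArg (fun T : TemperedDistribution ℝ ℂ => T φ)
      (Lp.fourier_toTemperedDistribution_eq F)
    simp only [TemperedDistribution.fourier_apply, Lp.toTemperedDistribution_apply,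
      smul_eq_mul] at h1
    rw [← h1]
    apply integral_congr_ae
    filter_upwards [hf.coeFn_toLp] with x hx
    rw [hx]

/-- A linear relation between four time-frequency shifts. -/
def Rel (f : ℝ → ℂ) (c : Fin 4 → ℂ) (a b : Fin 4 → ℝ) : Prop :=
  ∀ᵐ x ∂(volume : Measure ℝ), ∑ j, c j * (ee (b j * x) * f (x - a j)) = 0

theorem fourier_test (φ : ℝ → ℂ) (a b y : ℝ) :
    𝓕 (fun η => φ (η + b) * ee (-(a * η))) (y - a) = ee (b * y) * 𝓕 φ y := by
  rw [Real.fourier_real_eq_integral_exp_smul, Real.fourier_real_eq_integral_exp_smul,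
    ← integral_const_mul, ← integral_add_right_eq_self (fun v : ℝ => ee (b * y) *
      (Complex.exp (↑(-2 * π * v * y) * I) • φ v)) b]
  apply integral_congr_ae
  filter_upwards with v
  simp only [smul_eq_mul, ee]
  rw [mul_comm (φ (v + b)), ← mul_assoc, ← mul_assoc, ← Complex.exp_add, ← Complex.exp_add]
  congr 2
  push_cast
  ring

theorem rel_fourier {f : ℝ → ℂ} (hf : MemLp f 2 volume) (h0 : ¬ f =ᵐ[volume] 0)
    {c : Fin 4 → ℂ} {a b : Fin 4 → ℝ} (hrel : Rel f c a b) :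
    ∃ h : ℝ → ℂ, MemLp h 2 volume ∧ (¬ h =ᵐ[volume] 0) ∧
      Rel h (fun j => c j * ee (a j * b j)) b (fun j => -a j) := by
  obtain ⟨h, hh, hh0, hdual⟩ := exists_fourier hf h0
  refine ⟨h, hh, hh0, ?_⟩
  unfold Rel
  have hL : MemLp (fun x => ∑ j, c j * ee (a j * b j) * (ee (-a j * x) * h (x - b j))) 2 volume :=
    memLp_finsetSum _ (fun j _ => (memLp_tf hh (b j) (-a j)).const_mul _)
  apply ae_eq_zero_of_integral_contDiff_smul_eq_zero (hL.locallyIntegrable (by norm_num))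
  intro g hg hgc
  have hg₁ : HasCompactSupport (Complex.ofRealCLM ∘ g) := hgc.comp_left rfl
  have hg₂ : ContDiff ℝ ∞ (Complex.ofRealCLM ∘ g) := by fun_prop
  let φ : 𝓢(ℝ, ℂ) := hg₁.toSchwartzMap hg₂
  have hφ : ∀ x, φ x = (g x : ℂ) := fun x => rfl
  have key : ∀ j, ∫ x, φ x * (ee (a j * b j) * (ee (-a j * x) * h (x - b j))) =
      ∫ y, (𝓕 φ : 𝓢(ℝ, ℂ)) y * (ee (b j * y) * f (y - a j)) := by
    intro j
    have s1 : HasCompactSupport (fun η => φ (η + b j) * ee (-(a j * η))) := by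
      apply HasCompactSupport.mul_right
      exact hg₁.comp_homeomorph (Homeomorph.addRight (b j))
    have s2 : ContDiff ℝ ∞ (fun η => φ (η + b j) * ee (-(a j * η))) := by
      apply ContDiff.mul
      · exact hg₂.comp (contDiff_id.add contDiff_const)
      · exact contDiff_ee.comp (contDiff_const.mul contDiff_id).neg
    have h1 := hdual (s1.toSchwartzMap s2)
    rw [← integral_add_right_eq_self _ (b j)]
    have e1 : ∀ x, φ (x + b j) * (ee (a j * b j) * (ee (-a j * (x + b j)) * h (x + b j - b j))) =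
        (s1.toSchwartzMap s2) x * h x := by
      intro x
      show _ = φ (x + b j) * ee (-(a j * x)) * h x
      rw [add_sub_cancel_right, ← mul_assoc (ee _), ← ee_add, mul_assoc]
      congr 3
      ring
    simp_rw [e1]
    rw [h1, ← integral_sub_right_eq_self _ (a j)]
    apply integral_congr_ae
    filter_upwards with y
    have h2 : (𝓕 (s1.toSchwartzMap s2) : 𝓢(ℝ, ℂ)) (y - a j) = ee (b j * y) * (𝓕 φ : 𝓢(ℝ, ℂ)) y :=
      fourier_test φ (a j) (b j) y
    rw [h2]
    ring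
  have e2 : ∀ x, g x • ∑ j, c j * ee (a j * b j) * (ee (-a j * x) * h (x - b j)) =
      ∑ j, c j * (φ x * (ee (a j * b j) * (ee (-a j * x) * h (x - b j)))) := by
    intro x
    rw [real_smul, Finset.mul_sum]
    refine Finset.sum_congr rfl fun j _ => ?_
    rw [hφ]
    ring
  simp_rw [e2]
  rw [integral_finsetSum _ (fun j _ => (integrable_schwartz_mul φ
    ((memLp_tf hh (b j) (-a j)).const_mul _)).const_mul _)]
  simp_rw [integral_const_mul, key, ← integral_const_mul]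
  rw [← integral_finsetSum _ (fun j _ => (integrable_schwartz_mul (𝓕 φ)
    (memLp_tf hf (a j) (b j))).const_mul _)]
  apply integral_eq_zero_of_ae
  filter_upwards [hrel] with y hy
  have : ∑ j, c j * ((𝓕 φ : 𝓢(ℝ, ℂ)) y * (ee (b j * y) * f (y - a j))) =
      (𝓕 φ : 𝓢(ℝ, ℂ)) y * ∑ j, c j * (ee (b j * y) * f (y - a j)) := by
    rw [Finset.mul_sum]
    refine Finset.sum_congr rfl fun j _ => ?_
    ring
  rw [this, hy, mul_zero]
  rfl

theorem rel_chirp {g : ℝ → ℂ} (hg : MemLp g 2 volume) (h0 : ¬ g =ᵐ[volume] 0)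
    {c : Fin 4 → ℂ} {a b : Fin 4 → ℝ} (hrel : Rel g c a b) (s : ℝ) :
    ∃ f : ℝ → ℂ, MemLp f 2 volume ∧ (¬ f =ᵐ[volume] 0) ∧
      Rel f (fun j => c j * ee (-(s * a j ^ 2 / 2))) a (fun j => b j + s * a j) := by
  refine ⟨fun x => ee (s * x ^ 2 / 2) * g x,
    memLp_unit_mul hg (continuous_ee.comp (by fun_prop)) (fun _ => norm_ee _), ?_, ?_⟩
  · intro h1
    apply h0
    filter_upwards [h1] with x hx
    exact (mul_eq_zero.mp hx).resolve_left (ee_ne_zero _)
  · filter_upwards [hrel] with x hx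
    have : ∑ j, c j * ee (-(s * a j ^ 2 / 2)) * (ee ((b j + s * a j) * x) *
        (ee (s * (x - a j) ^ 2 / 2) * g (x - a j))) =
        ee (s * x ^ 2 / 2) * ∑ j, c j * (ee (b j * x) * g (x - a j)) := by
      rw [Finset.mul_sum]
      refine Finset.sum_congr rfl fun j _ => ?_
      have e : ee (-(s * a j ^ 2 / 2)) * (ee ((b j + s * a j) * x) * ee (s * (x - a j) ^ 2 / 2)) =
          ee (s * x ^ 2 / 2) * ee (b j * x) := by
        rw [← ee_add, ← ee_add, ← ee_add]
        congr 1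
        ring
      linear_combination (c j * g (x - a j)) * e
    rw [this, hx, mul_zero]

/-- Chirp followed by the Fourier transform. -/
theorem rel_transfer {g : ℝ → ℂ} (hg : MemLp g 2 volume) (h0 : ¬ g =ᵐ[volume] 0)
    {c : Fin 4 → ℂ} {a b : Fin 4 → ℝ} (hrel : Rel g c a b) (s : ℝ) :
    ∃ (h : ℝ → ℂ) (c' : Fin 4 → ℂ), MemLp h 2 volume ∧ (¬ h =ᵐ[volume] 0) ∧
      (∀ j, c' j = 0 ↔ c j = 0) ∧ Rel h c' (fun j => b j + s * a j) (fun j => -a j) := by
  obtain ⟨f, hf, hf0, hr⟩ := rel_chirp hg h0 hrel s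
  obtain ⟨h, hh, hh0, hr'⟩ := rel_fourier hf hf0 hr
  refine ⟨h, _, hh, hh0, ?_, hr'⟩
  intro j
  simp [ee_ne_zero]

end Pool.Agent.H799Z.Hrt
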