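import Pool.Agent.H799Z.HrtFirst
import Pool.Agent.H799Z.HrtCoc

/-! Independence of the four time-frequency shifts by `(0,0)`, `(1,0)`, `(0,1)`, `(√2,√2)`. -/

set_option autoImplicit false

namespace Pool.Agent.H799Z.Hrt

open MeasureTheory Set Filter Topology Polynomial
open scoped Real

theorem countable_ee {γ : ℝ} (hγ : γ ≠ 0) (z : ℂ) : {x : ℝ | ee (γ * x) = z}.Countable := by
  rcases Set.eq_empty_or_nonempty {x : ℝ | ee (γ * x) = z} with h | ⟨x0, hx0⟩
  · rw [h]; exact countable_empty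
  refine (countable_range (fun n : ℤ => x0 + n / γ)).mono ?_
  intro x hx
  have h1 : ee (γ * x) = ee (γ * x0) := by
    rw [show ee (γ * x) = z from hx, show ee (γ * x0) = z from hx0]
  unfold ee at h1
  obtain ⟨n, hn⟩ := Complex.exp_eq_exp_iff_exists_int.mp h1
  refine ⟨n, ?_⟩
  have h2 : (2 * (π : ℂ) * Complex.I) ≠ 0 := Complex.two_pi_I_ne_zero
  have h3 : ((γ * x : ℝ) : ℂ) = ((γ * x0 + n : ℝ) : ℂ) := by
    apply mul_left_cancel₀ h2
    push_cast at hn ⊢
    linear_combination hn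
  have h4 : γ * x = γ * x0 + n := by exact_mod_cast h3
  field_simp
  linarith

theorem countable_lin {γ : ℝ} (hγ : γ ≠ 0) {u w : ℂ} (h : ¬ (u = 0 ∧ w = 0)) :
    {x : ℝ | u * ee (γ * x) + w = 0}.Countable := by
  by_cases hu : u = 0
  · have hw : w ≠ 0 := fun hw => h ⟨hu, hw⟩
    have : {x : ℝ | u * ee (γ * x) + w = 0} = ∅ := by
      ext x
      simp [hu, hw]
    rw [this]; exact countable_empty
  · refine (countable_ee hγ (-w / u)).mono ?_
    intro x hx
    have h1 : u * ee (γ * x) + w = 0 := hx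
    show ee (γ * x) = -w / u
    field_simp
    linear_combination h1

theorem finite_circle {b c : ℂ} (hb : b ≠ 0) (hc : c ≠ 0) (ρ : ℝ) :
    {z : ℂ | ‖z‖ = 1 ∧ ‖b * z + c‖ = ρ}.Finite := by
  let P : ℂ[X] := C (b * starRingEnd ℂ c) * X ^ 2 +
    C (b * starRingEnd ℂ b + c * starRingEnd ℂ c - (ρ : ℂ) ^ 2) * X + C (c * starRingEnd ℂ b)
  have hP : P ≠ 0 := by
    intro h
    have h1 : P.coeff 0 = c * starRingEnd ℂ b := by simp [P]
    rw [h, coeff_zero] at h1
    exact mul_ne_zero hc ((_root_.map_ne_zero _).mpr hb) h1.symm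
  refine (P.finite_setOfPred_isRoot hP).subset ?_
  rintro z ⟨hz, hρ⟩
  have h1 : z * starRingEnd ℂ z = 1 := by
    rw [Complex.mul_conj', hz]; simp
  have h2 : (b * z + c) * starRingEnd ℂ (b * z + c) = (ρ : ℂ) ^ 2 := by
    rw [Complex.mul_conj', hρ]
  rw [map_add, map_mul] at h2
  show P.eval z = 0
  simp only [P, eval_add, eval_mul, eval_C, eval_pow, eval_X]
  linear_combination z * h2 - (b * starRingEnd ℂ b * z + c * starRingEnd ℂ b) * h1

theorem zero_of_lin {h : ℝ → ℂ} (h0 : ¬ h =ᵐ[volume] 0) {γ : ℝ} (hγ : γ ≠ 0) {u w : ℂ}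
    (heq : ∀ᵐ x ∂(volume : Measure ℝ), (u * ee (γ * x) + w) * h x = 0) : u = 0 ∧ w = 0 := by
  by_contra hc
  apply h0
  have h1 := measure_eq_zero_iff_ae_notMem.mp ((countable_lin hγ hc).measure_zero volume)
  filter_upwards [heq, h1] with x hx hx1
  exact (mul_eq_zero.mp hx).resolve_left hx1

theorem first_order' {h : ℝ → ℂ} (hh : MemLp h 2 volume) {β γ : ℝ} (hβ : β ≠ 0) (hγ : γ ≠ 0)
    {u w d : ℂ} (hd : d ≠ 0)
    (heq : ∀ᵐ x ∂(volume : Measure ℝ), ‖d‖ * ‖h (x - β)‖ = ‖u * ee (γ * x) + w‖ * ‖h x‖) :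
    h =ᵐ[volume] 0 := by
  have hd' : 0 < ‖d‖ := norm_pos_iff.mpr hd
  apply first_order hh hβ (T := |γ|⁻¹) (inv_pos.mpr (abs_pos.mpr hγ))
    (m := fun x => ‖u * ee (γ * x) + w‖ / ‖d‖)
  · intro x
    have : ee (γ * (x + |γ|⁻¹)) = ee (γ * x) := by
      rw [mul_add, ee_add]
      rcases lt_or_gt_of_ne hγ with h1 | h1
      · rw [abs_of_neg h1, inv_neg, mul_neg, mul_inv_cancel₀ hγ]
        have := ee_int (-1)
        push_cast at this
        rw [this, mul_one]
      · rw [abs_of_pos h1, mul_inv_cancel₀ hγ]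
        have := ee_int 1
        push_cast at this
        rw [this, mul_one]
    simp only [this]
  · filter_upwards [heq] with x hx
    rw [div_mul_eq_mul_div, eq_div_iff hd'.ne']
    linarith

theorem sqrt_two_ne : √2 ≠ (0 : ℝ) := by positivity

theorem main_case {h : ℝ → ℂ} (hh : MemLp h 2 volume) {c0 c1 c2 c3 : ℂ} (h0 : c0 ≠ 0)
    (h1 : c1 ≠ 0) (h2 : c2 ≠ 0) (h3 : c3 ≠ 0)
    (heq : ∀ᵐ x ∂(volume : Measure ℝ), c0 * h x + c1 * (ee (-1 * x) * h (x + 1)) + c2 * h (x - 1) +
      c3 * (ee (-√2 * x) * h x) = 0) : h =ᵐ[volume] 0 := by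
  have hall : ∀ᵐ t ∂(volume : Measure ℝ), ∀ n : ℤ, c0 * h (t + n) +
      c1 * (ee (-1 * (t + n)) * h (t + n + 1)) + c2 * h (t + n - 1) +
      c3 * (ee (-√2 * (t + n)) * h (t + n)) = 0 :=
    ae_all_iff.mpr fun n => ae_shift heq n
  have B1 : (⋃ z ∈ {z : ℂ | ‖z‖ = 1 ∧ ‖c2 * z + c0‖ = ‖c1‖},
      {t : ℝ | c1 * ee (-1 * t) + (c2 * z ^ 2 + c0 * z) = 0}).Countable :=
    (finite_circle h2 h0 _).countable.biUnion fun z _ =>
      countable_lin (by norm_num) (fun h => h1 h.1)
  have B2 : (⋃ z ∈ {z : ℂ | ‖z‖ = 1 ∧ ‖c3 * z + c0‖ = ‖c1‖ * ‖c2‖ / ‖c3‖},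
      {s : ℝ | ee (-√2 * s) = z}).Countable :=
    (finite_circle h3 h0 _).countable.biUnion fun z _ =>
      countable_ee (neg_ne_zero.mpr sqrt_two_ne) z
  have A1 := measure_eq_zero_iff_ae_notMem.mp (B1.measure_zero volume)
  have A2 := measure_eq_zero_iff_ae_notMem.mp (B2.measure_zero volume)
  have A3 := ae_all_iff.mpr fun n : ℤ => ae_shift A2 n
  filter_upwards [hall, A1, A3, summable_fibre hh one_ne_zero] with t ht a1 a3 hs
  by_contra hne
  simp only [mul_one] at hs
  have hper : ∀ n : ℤ, ee (-1 * (t + n)) = ee (-1 * t) := by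
    intro n
    rw [show -1 * (t + n) = -1 * t + ((-n : ℤ) : ℝ) by push_cast; ring, ee_add, ee_int, mul_one]
  have hsp : ∀ n : ℤ, ee (-√2 * (t + n)) = ee (-√2 * t) * ee (-(n * √2)) := by
    intro n
    rw [← ee_add]
    congr 1
    ring
  obtain ⟨n, hn⟩ := second_order (a := c1 * ee (-1 * t)) (b := c2) (c := c0)
    (d := c3 * ee (-√2 * t)) (h := fun n : ℤ => h (t + n)) h2 (mul_ne_zero h3 (ee_ne_zero _)) hs
    ⟨0, by simpa using hne⟩
    (fun n => by
      have := ht n
      rw [hper, hsp] at this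
      push_cast
      rw [← add_assoc, ← add_sub_assoc]
      linear_combination this)
    (fun z hz hroot => by
      apply a1
      simp only [mem_iUnion]
      refine ⟨z, ⟨hz, ?_⟩, ?_⟩
      · have e : z * (c2 * z + c0) = -(c1 * ee (-1 * t)) := by linear_combination hroot
        have := congrArg norm e
        rwa [norm_mul, hz, one_mul, norm_neg, norm_mul, norm_ee, mul_one] at this
      · show c1 * ee (-1 * t) + (c2 * z ^ 2 + c0 * z) = 0
        linear_combination hroot)
  apply a3 n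
  simp only [mem_iUnion]
  refine ⟨ee (-√2 * (t + n)), ⟨norm_ee _, ?_⟩, rfl⟩
  have e : (c3 * ee (-√2 * (t + n))) * (c3 * ee (-√2 * (t + n)) + c0) =
      -(c1 * ee (-1 * t) * c2) := by
    rw [hsp]
    linear_combination hn
  have := congrArg norm e
  rw [norm_mul, norm_mul, norm_ee, mul_one, norm_neg, norm_mul, norm_mul, norm_ee, mul_one] at this
  have h3' : 0 < ‖c3‖ := norm_pos_iff.mpr h3
  rw [eq_div_iff h3'.ne']
  linarith

theorem hrt_four (g : ℝ → ℂ) (hg : MemLp g 2 volume) (hg0 : ¬ g =ᵐ[volume] 0) (c : Fin 4 → ℂ)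
    (heq : ∀ᵐ x ∂(volume : Measure ℝ), c 0 * g x + c 1 * g (x - 1) + c 2 * (ee x * g x) +
      c 3 * (ee (√2 * x) * g (x - √2)) = 0) : c = 0 := by
  have hrel : Rel g c ![0, 1, 0, √2] ![0, 0, 1, √2] := by
    filter_upwards [heq] with x hx
    simp [Fin.sum_univ_succ, ee_zero]
    linear_combination hx
  suffices H : c 0 = 0 ∧ c 1 = 0 ∧ c 2 = 0 ∧ c 3 = 0 by
    funext j
    fin_cases j
    · exact H.1
    · exact H.2.1
    · exact H.2.2.1
    · exact H.2.2.2
  have hs2 : (2 * √2 - 1 : ℝ) ≠ 0 := by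
    have : (1 : ℝ) < √2 := Real.one_lt_sqrt_two
    linarith
  by_cases c0 : c 0 = 0
  · obtain ⟨h, c', hh, hh0, hc', hr⟩ := rel_transfer hg hg0 hrel 1
    have hr' : ∀ᵐ x ∂(volume : Measure ℝ), (c' 1 * ee (-1 * x) + c' 2) * h (x - 1) +
        c' 3 * (ee (-√2 * x) * h (x - 2 * √2)) = 0 := by
      filter_upwards [hr] with x hx
      simp [Fin.sum_univ_succ, ee_zero, (hc' 0).mpr c0] at hx
      rw [← two_mul] at hx
      simp only [neg_mul, one_mul]
      linear_combination hx
    have hr2 := ae_shift hr' 1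
    have e1 : ∀ x : ℝ, ee (-1 * (x + 1)) = ee (-1 * x) := by
      intro x
      rw [show -1 * (x + 1) = -1 * x + ((-1 : ℤ) : ℝ) by push_cast; ring, ee_add, ee_int, mul_one]
    simp only [add_sub_cancel_right, e1] at hr2
    by_cases c3 : c' 3 = 0
    · have := zero_of_lin hh0 (γ := -1) (by norm_num) (u := c' 1) (w := c' 2) (by
        filter_upwards [hr2] with x hx
        rw [c3] at hx
        linear_combination hx)
      exact ⟨c0, (hc' 1).mp this.1, (hc' 2).mp this.2, (hc' 3).mp c3⟩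
    · exfalso
      apply hh0
      apply first_order' hh hs2 (γ := -1) (by norm_num) (u := c' 1) (w := c' 2) c3
      filter_upwards [hr2] with x hx
      have e : c' 3 * (ee (-√2 * (x + 1)) * h (x - (2 * √2 - 1))) =
          -((c' 1 * ee (-1 * x) + c' 2) * h x) := by
        rw [show x - (2 * √2 - 1) = x + 1 - 2 * √2 by ring]
        linear_combination hx
      have := congrArg norm e
      rwa [norm_mul, norm_mul, norm_ee, one_mul, norm_neg, norm_mul] at this
  exfalso
  by_cases c3 : c 3 = 0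
  · by_cases c1 : c 1 = 0
    · have := zero_of_lin hg0 (γ := 1) one_ne_zero (u := c 2) (w := c 0) (by
        filter_upwards [heq] with x hx
        rw [c3, c1] at hx
        rw [one_mul]
        linear_combination hx)
      exact c0 this.2
    · apply hg0
      apply first_order' hg one_ne_zero (γ := 1) one_ne_zero (u := c 2) (w := c 0) c1
      filter_upwards [heq] with x hx
      have e : c 1 * g (x - 1) = -((c 2 * ee (1 * x) + c 0) * g x) := by
        rw [c3] at hx
        rw [one_mul]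
        linear_combination hx
      have := congrArg norm e
      rwa [norm_mul, norm_neg, norm_mul] at this
  obtain ⟨h, c', hh, hh0, hc', hr⟩ := rel_transfer hg hg0 hrel (-1)
  have hr' : ∀ᵐ x ∂(volume : Measure ℝ), c' 0 * h x + c' 1 * (ee (-1 * x) * h (x + 1)) +
      c' 2 * h (x - 1) + c' 3 * (ee (-√2 * x) * h x) = 0 := by
    filter_upwards [hr] with x hx
    simp [Fin.sum_univ_succ, ee_zero] at hx
    simp only [neg_mul, one_mul]
    linear_combination hx
  have d0 : c' 0 ≠ 0 := fun h => c0 ((hc' 0).mp h)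
  have d3 : c' 3 ≠ 0 := fun h => c3 ((hc' 3).mp h)
  have hγ : -√2 ≠ (0 : ℝ) := neg_ne_zero.mpr sqrt_two_ne
  by_cases d1 : c' 1 = 0
  · by_cases d2 : c' 2 = 0
    · have := zero_of_lin hh0 hγ (u := c' 3) (w := c' 0) (by
        filter_upwards [hr'] with x hx
        rw [d1, d2] at hx
        linear_combination hx)
      exact d0 this.2
    · apply hh0
      apply first_order' hh one_ne_zero hγ (u := c' 3) (w := c' 0) d2
      filter_upwards [hr'] with x hx
      have e : c' 2 * h (x - 1) = -((c' 3 * ee (-√2 * x) + c' 0) * h x) := by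
        rw [d1] at hx
        linear_combination hx
      have := congrArg norm e
      rwa [norm_mul, norm_neg, norm_mul] at this
  by_cases d2 : c' 2 = 0
  · apply hh0
    apply first_order' hh (β := -1) (by norm_num) hγ (u := c' 3) (w := c' 0) d1
    filter_upwards [hr'] with x hx
    have e : c' 1 * (ee (-1 * x) * h (x - -1)) = -((c' 3 * ee (-√2 * x) + c' 0) * h x) := by
      rw [d2] at hx
      rw [sub_neg_eq_add]
      linear_combination hx
    have := congrArg norm e
    rwa [norm_mul, norm_mul, norm_ee, one_mul, norm_neg, norm_mul] at this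
  exact hh0 (main_case hh d0 d1 d2 d3 hr')

end Pool.Agent.H799Z.Hrt
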