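import Pool.Agent.H799Z.LssRed

/-! The ideal of fifteen pairwise orthogonal vectors in dimension nineteen is not radical. -/

set_option autoImplicit false

namespace Pool.Agent.H799Z.Lss

open MvPolynomial Matrix

theorem sum_cols {R : Type*} [CommRing R] (f : (Fin 9 ⊕ Fin 9) ⊕ Fin 1 → R) :
    ∑ k, f k = ∑ k : Fin 9, (f (Sum.inl (Sum.inl k)) + f (Sum.inl (Sum.inr k))) + f (Sum.inr 0) := by
  rw [Fintype.sum_sum_type, Fintype.sum_sum_type, Finset.sum_add_distrib, Fin.sum_univ_one]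

theorem core {B F T : Type} [CommRing B] [IsDomain B] [Field F] [Algebra B F]
    [IsFractionRing B F] [CommRing T] [IsReduced T] (cB : ℂ →+* B) (cT : ℂ →+* T)
    (x : Fin 9 ⊕ Fin 6 → (Fin 9 ⊕ Fin 9) ⊕ Fin 1 → T)
    (hx : ∀ i j, i ≠ j → ∑ k, x i k * x j k = 0)
    (univ : ∀ (R : Type) [CommRing R] (cR : ℂ →+* R)
      (v : Fin 9 ⊕ Fin 6 → (Fin 9 ⊕ Fin 9) ⊕ Fin 1 → R),
      (∀ i j, i ≠ j → ∑ k, v i k * v j k = 0) →
        ∃ β : T →+* R, (∀ z, β (cT z) = cR z) ∧ ∀ i k, β (x i k) = v i k)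
    (G : Matrix (Fin 9 ⊕ Fin 6) (Fin 9) B) (ι0 : B →+* T) (hι1 : ∀ z, ι0 (cB z) = cT z)
    (hι2 : ∀ i k, ι0 (G i k) = x i (Sum.inl (Sum.inl k)) + cT Complex.I * x i (Sum.inl (Sum.inr k)))
    (hext : ∀ (R : Type) [CommRing R] (f g : B →+* R), (∀ z, f (cB z) = g (cB z)) →
      (∀ i k, f (G i k) = g (G i k)) → f = g)
    (M : Matrix (Fin 9 ⊕ Fin 6) (Fin 9) F) (hM : ∀ i k, M i k = algebraMap B F (G i k))
    (hδ : M.toRows₁.det ≠ 0) (H : Matrix (Fin 9) (Fin 9) F) (hH : E1 (kap1 M) * H = 1) :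
    (Ideal.span (Set.range (qq (H * E2 (kap1 M))))).IsRadical := by
  obtain ⟨J, hJ⟩ : ∃ J, J = Ideal.span (Set.range (qq (H * E2 (kap1 M)))) := ⟨_, rfl⟩
  rw [← hJ]
  let Mo : Submonoid T := (nonZeroDivisors B).map ι0
  let T' := Localization Mo
  have hu1 : ∀ y : nonZeroDivisors B, IsUnit (((algebraMap T T').comp ι0) y) := fun y =>
    IsLocalization.map_units T' (⟨ι0 y, y, y.2, rfl⟩ : Mo)
  let φF : F →+* T' := IsLocalization.lift (M := nonZeroDivisors B) hu1
  have hφF : ∀ b, φF (algebraMap B F b) = algebraMap T T' (ι0 b) := fun b =>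
    IsLocalization.lift_eq hu1 b
  let R := MvPolynomial (Fin 6) F ⧸ J
  let φR : F →+* R := (Ideal.Quotient.mk J).comp C
  let u : Fin 6 → R := fun p => Ideal.Quotient.mk J (X p)
  have hmk : eval₂Hom φR u = Ideal.Quotient.mk J := by
    apply MvPolynomial.ringHom_ext
    · intro r; simp [φR]
    · intro p; simp [u]
  obtain ⟨D, hD⟩ := diag_of_qq φR hδ hH u (fun s => by
    rw [hmk, Ideal.Quotient.eq_zero_iff_mem, hJ]
    exact Ideal.subset_span ⟨s, rfl⟩)
  obtain ⟨ρ, lam, hf1, hf2⟩ := exists_frame M hδ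
  let cR : ℂ →+* R := φR.comp ((algebraMap B F).comp cB)
  have hh : cR (1 / 2) + cR (1 / 2) = 1 := by rw [← map_add]; norm_num
  have hI : cR Complex.I * cR Complex.I = -1 := by rw [← map_mul]; simp
  obtain ⟨c, y, hy, hrel⟩ := beta_exists (cR (1 / 2)) hh (M.map φR) (ρ.map φR) (lam.map φR)
    ((kap M).map φR)
    (by rw [← Matrix.map_mul, ← Matrix.map_mul, ← Matrix.map_add _ (map_add φR), hf1,
      Matrix.map_one _ (map_zero φR) (map_one φR)])
    (by rw [← Matrix.map_mul, hf2, Matrix.map_one _ (map_zero φR) (map_one φR)]) u D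
    (fun p q => by simp only [Matrix.map_apply, kap_apply]; exact hD p q)
  let v : Fin 9 ⊕ Fin 6 → (Fin 9 ⊕ Fin 9) ⊕ Fin 1 → R := fun i =>
    Sum.elim (Sum.elim (fun k => cR (1 / 2) * φR (M i k) + c i k)
      (fun k => -cR Complex.I * (cR (1 / 2) * φR (M i k) - c i k))) (fun _ => y i)
  obtain ⟨β, hβ1, hβ2⟩ := univ R cR v (fun i j hij => by
    rw [sum_cols, ← hrel i j hij]
    refine congrArg₂ (· + ·) (Finset.sum_congr rfl fun k _ => ?_) rfl
    simp only [v, Sum.elim_inl, Sum.elim_inr, Matrix.map_apply]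
    linear_combination (φR (M i k) * c j k + c i k * φR (M j k)) * hh +
      ((cR (1 / 2) * φR (M i k) - c i k) * (cR (1 / 2) * φR (M j k) - c j k)) * hI)
  have hβι : β.comp ι0 = φR.comp (algebraMap B F) := by
    apply hext
    · intro z
      show β (ι0 (cB z)) = cR z
      rw [hι1, hβ1]
    · intro i k
      show β (ι0 (G i k)) = φR (algebraMap B F (G i k))
      rw [hι2, map_add, map_mul, hβ1, hβ2, hβ2, ← hM]
      simp only [v, Sum.elim_inl, Sum.elim_inr]
      linear_combination (φR (M i k)) * hh - (cR (1 / 2) * φR (M i k) - c i k) * hI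
  have hu2 : ∀ y : Mo, IsUnit (β y) := by
    rintro ⟨_, b, hb, rfl⟩
    have h1 : β (ι0 b) = φR (algebraMap B F b) := RingHom.congr_fun hβι b
    show IsUnit (β (ι0 b))
    rw [h1]
    exact (IsLocalization.map_units F (⟨b, hb⟩ : nonZeroDivisors B)).map φR
  let β2 : T' →+* R := IsLocalization.lift (M := Mo) hu2
  have hβ3 : ∀ t, β2 (algebraMap T T' t) = β t := fun t => IsLocalization.lift_eq hu2 t
  have hβφ : β2.comp φF = φR := by
    apply IsLocalization.ringHom_ext (nonZeroDivisors B)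
    ext b
    show β2 (φF (algebraMap B F b)) = φR (algebraMap B F b)
    rw [hφF, hβ3]
    exact RingHom.congr_fun hβι b
  let y' : Fin 9 ⊕ Fin 6 → T' := fun i => algebraMap T T' (x i (Sum.inr 0))
  let c' : Matrix (Fin 9 ⊕ Fin 6) (Fin 9) T' := Matrix.of fun i k => algebraMap T T'
    (cT (1 / 2) * (x i (Sum.inl (Sum.inl k)) - cT Complex.I * x i (Sum.inl (Sum.inr k))))
  have hhT : cT (1 / 2) + cT (1 / 2) = 1 := by rw [← map_add]; norm_num
  have hIT : cT Complex.I * cT Complex.I = -1 := by rw [← map_mul]; simp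
  obtain ⟨D', hD'⟩ := alpha_diag (M.map φF) c' y' ((kap M).map φF)
    (by rw [← Matrix.map_mul, kap_mul, Matrix.map_zero _ (map_zero φF)])
    (fun i j hij => by
      have h1 := congrArg (algebraMap T T') (hx i j hij)
      rw [map_zero, sum_cols, map_add, map_sum] at h1
      rw [← h1, map_mul]
      refine congrArg₂ (· + ·) (Finset.sum_congr rfl fun k _ => ?_) rfl
      simp only [c', Matrix.map_apply, Matrix.of_apply, hM, hφF, hι2]
      rw [← map_mul, ← map_mul, ← map_add]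
      congr 1
      linear_combination (x i (Sum.inl (Sum.inl k)) * x j (Sum.inl (Sum.inl k)) +
        x i (Sum.inl (Sum.inr k)) * x j (Sum.inl (Sum.inr k))) * hhT -
        (2 * cT (1 / 2) * x i (Sum.inl (Sum.inr k)) * x j (Sum.inl (Sum.inr k))) * hIT)
  let α : MvPolynomial (Fin 6) F →+* T' := eval₂Hom φF ((kap M).map φF *ᵥ y')
  have hαJ : J ≤ RingHom.ker α := by
    rw [hJ, Ideal.span_le]
    rintro _ ⟨s, rfl⟩
    exact eval_qq_of_diag φF M.toRows₁.det hH _ D'
      (fun p q => by rw [hD']; simp only [Matrix.map_apply, kap_apply]) s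
  have hβα : β2.comp α = Ideal.Quotient.mk J := by
    apply MvPolynomial.ringHom_ext
    · intro r
      show β2 (α (C r)) = φR r
      rw [show α (C r) = φF r from eval₂Hom_C _ _ _]
      exact RingHom.congr_fun hβφ r
    · intro p
      show β2 (α (X p)) = u p
      rw [show α (X p) = ((kap M).map φF *ᵥ y') p from eval₂Hom_X' _ _ _, ← hy]
      simp only [Matrix.mulVec, dotProduct, map_sum, map_mul, Matrix.map_apply]
      refine Finset.sum_congr rfl fun i _ => ?_
      rw [show β2 (φF (kap M p i)) = φR (kap M p i) from RingHom.congr_fun hβφ _]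
      simp only [y']
      rw [hβ3, hβ2]
      rfl
  rintro g ⟨n, hn⟩
  have h1 : α g ^ n = 0 := by rw [← map_pow]; exact hαJ hn
  have h2 : α g = 0 := IsReduced.eq_zero _ ⟨n, h1⟩
  rw [← Ideal.Quotient.eq_zero_iff_mem, ← hβα]
  show β2 (α g) = 0
  rw [h2, map_zero]

theorem not_radical_15_19 :
    ¬ (Ideal.span {p : MvPolynomial (Fin 15 × Fin 19) ℂ |
      ∃ i j : Fin 15, i ≠ j ∧ p = ∑ k : Fin 19, X (i, k) * X (j, k)}).IsRadical := by
  intro hrad
  obtain ⟨I, hI⟩ : ∃ I, I = Ideal.span {p : MvPolynomial (Fin 15 × Fin 19) ℂ |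
      ∃ i j : Fin 15, i ≠ j ∧ p = ∑ k : Fin 19, X (i, k) * X (j, k)} := ⟨_, rfl⟩
  rw [← hI] at hrad
  have hred : IsReduced (MvPolynomial (Fin 15 × Fin 19) ℂ ⧸ I) :=
    (Ideal.isRadical_iff_quotient_reduced I).mp hrad
  let e : Fin 9 ⊕ Fin 6 ≃ Fin 15 := finSumFinEquiv
  let e' : (Fin 9 ⊕ Fin 9) ⊕ Fin 1 ≃ Fin 19 :=
    (Equiv.sumCongr finSumFinEquiv (Equiv.refl _)).trans finSumFinEquiv
  let B := MvPolynomial ((Fin 9 ⊕ Fin 6) × Fin 9) ℂ
  let F := FractionRing B
  let j : MvPolynomial ((Fin 9 ⊕ Fin 6) × Fin 9) ℤ →+* F :=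
    (algebraMap B F).comp (MvPolynomial.map (Int.castRingHom ℂ))
  have hj : Function.Injective j :=
    (IsFractionRing.injective B F).comp (MvPolynomial.map_injective _ Int.cast_injective)
  obtain ⟨hδ, H, hH, hdet⟩ := generic j hj
  apply not_radical hδ hH hdet
  let cT : ℂ →+* MvPolynomial (Fin 15 × Fin 19) ℂ ⧸ I := (Ideal.Quotient.mk I).comp C
  let x : Fin 9 ⊕ Fin 6 → (Fin 9 ⊕ Fin 9) ⊕ Fin 1 → MvPolynomial (Fin 15 × Fin 19) ℂ ⧸ I :=
    fun i k => Ideal.Quotient.mk I (X (e i, e' k))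
  refine core (B := B) (F := F) C cT x ?_ ?_ (genA ℂ)
    (eval₂Hom cT fun p => x p.1 (Sum.inl (Sum.inl p.2)) +
      cT Complex.I * x p.1 (Sum.inl (Sum.inr p.2))) ?_ ?_ ?_ _ ?_ hδ H hH
  · intro a b hab
    simp only [x]
    simp only [← map_mul]
    rw [← map_sum, Ideal.Quotient.eq_zero_iff_mem, hI]
    refine Ideal.subset_span ⟨e a, e b, fun h => hab (e.injective h), ?_⟩
    exact Equiv.sum_comp e' (fun k => (X (e a, k) * X (e b, k) : MvPolynomial (Fin 15 × Fin 19) ℂ))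
  · intro R _ cR v hv
    let β0 : MvPolynomial (Fin 15 × Fin 19) ℂ →+* R :=
      eval₂Hom cR fun p => v (e.symm p.1) (e'.symm p.2)
    have hk : ∀ p ∈ I, β0 p = 0 := by
      have : I ≤ RingHom.ker β0 := by
        rw [hI, Ideal.span_le]
        rintro _ ⟨a, b, hab, rfl⟩
        show β0 _ = 0
        simp only [β0, map_sum, map_mul, eval₂Hom_X']
        rw [← hv (e.symm a) (e.symm b) (fun h => hab (e.symm.injective h))]
        exact Equiv.sum_comp e'.symm (fun k => v (e.symm a) k * v (e.symm b) k)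
      exact fun p hp => this hp
    refine ⟨Ideal.Quotient.lift I β0 hk, fun z => ?_, fun a k => ?_⟩
    · show β0 (C z) = cR z
      exact eval₂Hom_C _ _ _
    · show β0 (X (e a, e' k)) = v a k
      simp only [β0, eval₂Hom_X', Equiv.symm_apply_apply]
  · intro z
    exact eval₂Hom_C _ _ _
  · intro a k
    exact eval₂Hom_X' _ _ _
  · intro R _ f g h1 h2
    exact MvPolynomial.ringHom_ext h1 (fun p => h2 p.1 p.2)
  · intro a k
    show algebraMap B F (MvPolynomial.map (Int.castRingHom ℂ) (X (a, k))) = algebraMap B F (X (a, k))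
    rw [map_X]

end Pool.Agent.H799Z.Lss
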