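import Pool.Agent.H799Z.LssData

/-! Six quadrics through fifteen points of projective five-space generate a non-radical ideal. -/

set_option autoImplicit false

namespace Pool.Agent.H799Z.Lss

open MvPolynomial Matrix Module

section Defs
variable {A : Type*} [CommRing A]

def E1 (κ : Matrix (Fin 6) (Fin 9) A) : Matrix (Fin 9) (Fin 9) A :=
  Matrix.of fun i t => κ (pc (Sum.inl t)) i * κ (pd (Sum.inl t)) i

def E2 (κ : Matrix (Fin 6) (Fin 9) A) : Matrix (Fin 9) (Fin 6) A :=
  Matrix.of fun i s => κ (pc (Sum.inr s)) i * κ (pd (Sum.inr s)) i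

noncomputable def zz (t : Fin 9 ⊕ Fin 6) : MvPolynomial (Fin 6) A := X (pc t) * X (pd t)

noncomputable def qq (Y : Matrix (Fin 9) (Fin 6) A) (s : Fin 6) : MvPolynomial (Fin 6) A :=
  zz (Sum.inr s) - ∑ t, C (Y t s) * zz (Sum.inl t)

def cd (r : Fin 111) (t : Fin 9 ⊕ Fin 6) : ℕ := wt (rA r) + wt (rB r) + (wt (pc t) + wt (pd t))

def Mat (g : A) (Y : Matrix (Fin 9) (Fin 6) A) : Matrix (Fin 111) (Fin 111) A :=
  Matrix.of fun r j => g * (nu j (cd r (Sum.inr (rS r))) : ℕ) -
    ∑ t, Y t (rS r) * (nu j (cd r (Sum.inl t)) : ℕ)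

def pt (κ : Matrix (Fin 6) (Fin 9) A) (δ : A) : Fin 9 ⊕ Fin 6 → Fin 6 → A :=
  Sum.elim (fun i a => κ a i) (fun b a => if a = b then δ else 0)

end Defs

theorem pc_ne_pd : ∀ t, pc t ≠ pd t := by decide

variable {F : Type*} [Field F]

theorem finrank_hom (n : ℕ) :
    finrank F (homogeneousSubmodule (Fin 6) F n) = (5 + n).choose n := by
  have h1 : {d : Fin 6 →₀ ℕ | d.degree = n} =
      (((Finset.univ : Finset (Fin 6)).finsuppAntidiag n : Finset (Fin 6 →₀ ℕ)) : Set _) := by
    ext d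
    simp [Finset.mem_finsuppAntidiag, Finsupp.degree_eq_sum]
  rw [homogeneousSubmodule_eq_finsupp_supported, h1,
    (AddMonoidAlgebra.supportedEquivFinsupp _).finrank_eq, finrank_finsupp_self]
  simp only [Finset.coe_sort_coe, Fintype.card_coe]
  rw [Finset.card_finsuppAntidiag_nat_eq_choose]
  simp

instance finite_hom (n : ℕ) : Module.Finite F (homogeneousSubmodule (Fin 6) F n) :=
  Module.Finite.iff_fg.mpr (homogeneousSubmodule_fg _ _ n)

theorem hom_zz (t : Fin 9 ⊕ Fin 6) : (zz t : MvPolynomial (Fin 6) F).IsHomogeneous 2 :=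
  (isHomogeneous_X F _).mul (isHomogeneous_X F _)

theorem hom_qq (Y : Matrix (Fin 9) (Fin 6) F) (s : Fin 6) : (qq Y s).IsHomogeneous 2 :=
  (hom_zz _).sub (IsHomogeneous.sum _ _ _ fun _ _ => (hom_zz _).C_mul _)

theorem eval_zz_inr (κ : Matrix (Fin 6) (Fin 9) F) (δ : F) (b : Fin 6) (t : Fin 9 ⊕ Fin 6) :
    eval (pt κ δ (Sum.inr b)) (zz t) = 0 := by
  have := pc_ne_pd t
  simp only [zz, pt, map_mul, eval_X, Sum.elim_inr]
  by_cases h : pc t = b
  · rw [if_neg (show ¬ pd t = b from fun h' => this (h.trans h'.symm)), mul_zero]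
  · rw [if_neg h, zero_mul]

theorem eval_qq {κ : Matrix (Fin 6) (Fin 9) F} (δ : F) {H : Matrix (Fin 9) (Fin 9) F}
    (hH : E1 κ * H = 1) (i : Fin 9 ⊕ Fin 6) (s : Fin 6) :
    eval (pt κ δ i) (qq (H * E2 κ) s) = 0 := by
  rcases i with i | b
  · have h1 : (E1 κ * (H * E2 κ)) i s = E2 κ i s := by rw [← Matrix.mul_assoc, hH, Matrix.one_mul]
    rw [Matrix.mul_apply] at h1
    simp only [qq, zz, pt, map_sub, map_sum, map_mul, eval_X, eval_C, Sum.elim_inl]
    rw [sub_eq_zero]
    refine h1.symm.trans (Finset.sum_congr rfl fun t _ => ?_)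
    rw [mul_comm]
    rfl
  · simp only [qq, map_sub, map_sum, map_mul, eval_zz_inr, mul_zero, Finset.sum_const_zero,
      sub_zero]

theorem surj_two {κ : Matrix (Fin 6) (Fin 9) F} {δ : F} (hδ : δ ≠ 0)
    {H : Matrix (Fin 9) (Fin 9) F} (hH : E1 κ * H = 1) (y : Fin 9 ⊕ Fin 6 → F) :
    ∃ p : MvPolynomial (Fin 6) F, p.IsHomogeneous 2 ∧ ∀ i, eval (pt κ δ i) p = y i := by
  let y' : Fin 9 → F := fun i => y (Sum.inl i) - ∑ b, y (Sum.inr b) / δ ^ 2 * κ b i ^ 2
  refine ⟨∑ b, C (y (Sum.inr b) / δ ^ 2) * X b ^ 2 + ∑ t, C ((H *ᵥ y') t) * zz (Sum.inl t), ?_, ?_⟩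
  · exact (IsHomogeneous.sum _ _ _ fun b _ => isHomogeneous_C_mul_X_pow _ _ _).add
      (IsHomogeneous.sum _ _ _ fun t _ => (hom_zz _).C_mul _)
  · rintro (i | b)
    · have h1 : (E1 κ *ᵥ (H *ᵥ y')) i = y' i := by rw [Matrix.mulVec_mulVec, hH, Matrix.one_mulVec]
      have h2 : (E1 κ *ᵥ (H *ᵥ y')) i =
          ∑ t, (H *ᵥ y') t * (κ (pc (Sum.inl t)) i * κ (pd (Sum.inl t)) i) := by
        rw [Matrix.mulVec, dotProduct]
        exact Finset.sum_congr rfl fun t _ => mul_comm _ _
      simp only [zz, pt, map_add, map_sum, map_mul, map_pow, eval_X, eval_C, Sum.elim_inl]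
      rw [← h2, h1]
      simp only [y']
      ring
    · simp only [map_add, map_sum, map_mul, map_pow, eval_X, eval_C, eval_zz_inr, mul_zero,
        Finset.sum_const_zero, add_zero]
      rw [Finset.sum_eq_single b]
      · simp only [pt, Sum.elim_inr, if_true]
        field_simp
      · intro a _ hab
        simp [pt, hab]
      · simp

/-- Evaluation at the fifteen points. -/
noncomputable def evL (κ : Matrix (Fin 6) (Fin 9) F) (δ : F) :
    MvPolynomial (Fin 6) F →ₗ[F] (Fin 9 ⊕ Fin 6 → F) :=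
  LinearMap.pi fun i => (aeval (pt κ δ i)).toLinearMap

theorem evL_apply (κ : Matrix (Fin 6) (Fin 9) F) (δ : F) (p : MvPolynomial (Fin 6) F)
    (i : Fin 9 ⊕ Fin 6) : evL κ δ p i = eval (pt κ δ i) p := by
  simp [evL, aeval_eq_eval]

/-- The functionals. -/
noncomputable def phi (j : ℕ) : MvPolynomial (Fin 6) F →ₗ[F] F :=
  (basisMonomials (Fin 6) F).constr F fun e => ((nu j (Finsupp.weight wt e) : ℕ) : F)

theorem phi_mono (j : ℕ) (r : Fin 111) (t : Fin 9 ⊕ Fin 6) :
    phi j (X (rA r) * X (rB r) * zz t : MvPolynomial (Fin 6) F) = (nu j (cd r t) : ℕ) := by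
  have h1 : (X (rA r) * X (rB r) * zz t : MvPolynomial (Fin 6) F) =
      basisMonomials (Fin 6) F (Finsupp.single (rA r) 1 + Finsupp.single (rB r) 1 +
        (Finsupp.single (pc t) 1 + Finsupp.single (pd t) 1)) := by
    simp only [coe_basisMonomials, zz, X, monomial_mul, mul_one]
  rw [h1, phi, Basis.constr_basis]
  simp [cd, Finsupp.weight_single]

theorem phi_qq (Y : Matrix (Fin 9) (Fin 6) F) (r j : Fin 111) :
    phi j (X (rA r) * X (rB r) * qq Y (rS r)) = Mat 1 Y r j := by
  have h1 : X (rA r) * X (rB r) * qq Y (rS r) = X (rA r) * X (rB r) * zz (Sum.inr (rS r)) -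
      ∑ t, Y t (rS r) • (X (rA r) * X (rB r) * zz (Sum.inl t)) := by
    rw [qq, mul_sub, Finset.mul_sum]
    congr 1
    refine Finset.sum_congr rfl fun t _ => ?_
    rw [smul_eq_C_mul]
    ring
  rw [h1, map_sub, map_sum]
  simp only [map_smul, phi_mono, smul_eq_mul, Mat, Matrix.of_apply, one_mul]

theorem indep (Y : Matrix (Fin 9) (Fin 6) F) (hdet : (Mat 1 Y).det ≠ 0) :
    LinearIndependent F (fun r : Fin 111 => X (rA r) * X (rB r) * qq Y (rS r)) := by
  rw [Fintype.linearIndependent_iff]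
  intro c hc
  have h1 : c ᵥ* Mat 1 Y = 0 := by
    funext j
    have := congrArg (phi j) hc
    rw [map_sum, map_zero] at this
    simp only [map_smul, phi_qq, smul_eq_mul] at this
    exact this
  exact congrFun (Matrix.eq_zero_of_vecMul_eq_zero hdet h1)

theorem quartic_mem {κ : Matrix (Fin 6) (Fin 9) F} {δ : F} (hδ : δ ≠ 0)
    {H : Matrix (Fin 9) (Fin 9) F} (hH : E1 κ * H = 1) (hdet : (Mat 1 (H * E2 κ)).det ≠ 0)
    {p : MvPolynomial (Fin 6) F} (hp : p.IsHomogeneous 4) (h0 : evL κ δ p = 0) :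
    p ∈ Ideal.span (Set.range (qq (H * E2 κ))) := by
  let U := homogeneousSubmodule (Fin 6) F 4
  let f : U →ₗ[F] (Fin 9 ⊕ Fin 6 → F) := (evL κ δ).comp U.subtype
  have hsurj : LinearMap.range f = ⊤ := by
    rw [LinearMap.range_eq_top]
    intro y
    obtain ⟨a, ha, ha'⟩ := surj_two hδ hH y
    obtain ⟨b, hb, hb'⟩ := surj_two hδ hH (fun _ => 1)
    refine ⟨⟨a * b, ha.mul hb⟩, ?_⟩
    funext i
    show evL κ δ (a * b) i = y i
    rw [evL_apply, map_mul, ha', hb', mul_one]
  have hk : finrank F (LinearMap.ker f) = 111 := by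
    have h1 := LinearMap.finrank_range_add_finrank_ker f
    rw [hsurj, finrank_top, finrank_fintype_fun_eq_card, finrank_hom] at h1
    simp only [Fintype.card_sum, Fintype.card_fin] at h1
    have : (5 + 4).choose 4 = 126 := by decide
    omega
  let W : Submodule F (MvPolynomial (Fin 6) F) :=
    Submodule.span F (Set.range fun r : Fin 111 => X (rA r) * X (rB r) * qq (H * E2 κ) (rS r))
  let K : Submodule F (MvPolynomial (Fin 6) F) := (LinearMap.ker f).map U.subtype
  have hW : finrank F W = 111 := by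
    rw [finrank_span_eq_card (indep _ hdet), Fintype.card_fin]
  have hK : finrank F K = 111 := by rw [Submodule.finrank_map_subtype_eq, hk]
  have hle : W ≤ K := by
    rw [Submodule.span_le]
    rintro _ ⟨r, rfl⟩
    refine ⟨⟨_, ((isHomogeneous_X F _).mul (isHomogeneous_X F _)).mul (hom_qq _ _)⟩, ?_, rfl⟩
    funext i
    show evL κ δ (X (rA r) * X (rB r) * qq (H * E2 κ) (rS r)) i = 0
    rw [evL_apply, map_mul, eval_qq δ hH, mul_zero]
  have heq : W = K := Submodule.eq_of_le_of_finrank_eq hle (hW.trans hK.symm)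
  have hpW : p ∈ W := by
    rw [heq]
    exact ⟨⟨p, hp⟩, h0, rfl⟩
  have hWJ : W ≤ (Ideal.span (Set.range (qq (H * E2 κ)))).restrictScalars F := by
    rw [Submodule.span_le]
    rintro _ ⟨r, rfl⟩
    exact Ideal.mul_mem_left _ _ (Ideal.subset_span ⟨_, rfl⟩)
  exact hWJ hpW

theorem comp_three (Y : Matrix (Fin 9) (Fin 6) F) (s : Fin 6) (h : MvPolynomial (Fin 6) F) :
    homogeneousComponent 3 (h * qq Y s) ∈
      Submodule.span F (Set.range fun x : Fin 6 × Fin 6 => X x.1 * qq Y x.2) := by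
  rw [← sum_homogeneousComponent h, Finset.sum_mul, map_sum]
  refine Submodule.sum_mem _ fun n _ => ?_
  have h1 := (homogeneousComponent_isHomogeneous n h).mul (hom_qq Y s)
  rw [homogeneousComponent_of_mem h1]
  split_ifs with hn
  · have hn1 : n = 1 := by omega
    have h2 : homogeneousComponent n h ∈ homogeneousSubmodule (Fin 6) F 1 := by
      rw [hn1]; exact homogeneousComponent_mem 1 h
    rw [homogeneousSubmodule_one_eq_span_X] at h2
    generalize homogeneousComponent n h = l at h2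
    induction h2 using Submodule.span_induction with
    | mem x hx =>
      obtain ⟨a, rfl⟩ := hx
      exact Submodule.subset_span ⟨(a, s), rfl⟩
    | zero => rw [zero_mul]; exact Submodule.zero_mem _
    | add x y _ _ hx hy => rw [add_mul]; exact Submodule.add_mem _ hx hy
    | smul c x _ hx => rw [smul_mul_assoc]; exact Submodule.smul_mem _ _ hx
  · exact Submodule.zero_mem _

theorem not_radical {κ : Matrix (Fin 6) (Fin 9) F} {δ : F} (hδ : δ ≠ 0)
    {H : Matrix (Fin 9) (Fin 9) F} (hH : E1 κ * H = 1) (hdet : (Mat 1 (H * E2 κ)).det ≠ 0) :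
    ¬ (Ideal.span (Set.range (qq (H * E2 κ)))).IsRadical := by
  intro hrad
  let U := homogeneousSubmodule (Fin 6) F 3
  let f : U →ₗ[F] (Fin 9 ⊕ Fin 6 → F) := (evL κ δ).comp U.subtype
  have hk : 41 ≤ finrank F (LinearMap.ker f) := by
    have h1 := LinearMap.finrank_range_add_finrank_ker f
    have h2 := Submodule.finrank_le (LinearMap.range f)
    rw [finrank_fintype_fun_eq_card] at h2
    rw [finrank_hom] at h1
    simp only [Fintype.card_sum, Fintype.card_fin] at h2
    have : (5 + 3).choose 3 = 56 := by decide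
    omega
  let W : Submodule F (MvPolynomial (Fin 6) F) :=
    Submodule.span F (Set.range fun x : Fin 6 × Fin 6 => X x.1 * qq (H * E2 κ) x.2)
  let K : Submodule F (MvPolynomial (Fin 6) F) := (LinearMap.ker f).map U.subtype
  have hW : finrank F W ≤ 36 := by
    have := finrank_range_le_card (R := F)
      (fun x : Fin 6 × Fin 6 => (X x.1 * qq (H * E2 κ) x.2 : MvPolynomial (Fin 6) F))
    rw [Fintype.card_prod, Fintype.card_fin] at this
    exact this
  have hK : 41 ≤ finrank F K := by rw [Submodule.finrank_map_subtype_eq]; exact hk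
  have hle : K ≤ W := by
    rintro _ ⟨⟨g, hg⟩, hg0, rfl⟩
    have hg0' : evL κ δ g = 0 := hg0
    have hg3 : g.IsHomogeneous 3 := hg
    have h1 : ∀ a, g * X a ∈ Ideal.span (Set.range (qq (H * E2 κ))) := by
      intro a
      apply quartic_mem hδ hH hdet (hg3.mul (isHomogeneous_X F a))
      funext i
      have := congrFun hg0' i
      rw [evL_apply] at this
      rw [evL_apply, map_mul, this]
      simp
    have h2 : g ∈ Ideal.span (X '' (Set.univ : Set (Fin 6)) : Set (MvPolynomial (Fin 6) F)) := by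
      rw [mem_ideal_span_X_image]
      intro m hm
      by_contra hc
      push Not at hc
      have hm0 : m = 0 := Finsupp.ext fun i => hc i (Set.mem_univ i)
      have := hg3.coeff_eq_zero (d := m) (by rw [hm0]; simp)
      exact (mem_support_iff.mp hm) this
    have h3 : ∀ p ∈ Ideal.span (X '' (Set.univ : Set (Fin 6)) : Set (MvPolynomial (Fin 6) F)),
        g * p ∈ Ideal.span (Set.range (qq (H * E2 κ))) := by
      intro p hp
      induction hp using Submodule.span_induction with
      | mem x hx =>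
        obtain ⟨a, -, rfl⟩ := hx
        exact h1 a
      | zero => rw [mul_zero]; exact Ideal.zero_mem _
      | add x y _ _ hx hy => rw [mul_add]; exact Ideal.add_mem _ hx hy
      | smul c x _ hx =>
        rw [smul_eq_mul, mul_left_comm]
        exact Ideal.mul_mem_left _ _ hx
    have h4 : g ∈ Ideal.span (Set.range (qq (H * E2 κ))) := hrad ⟨2, by rw [sq]; exact h3 g h2⟩
    obtain ⟨c, hc⟩ := Ideal.mem_span_range_iff_exists_fun.mp h4
    show g ∈ W
    rw [← homogeneousComponent_eq_self hg3, ← hc, map_sum]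
    exact Submodule.sum_mem _ fun s _ => comp_three _ s (c s)
  have : Module.Finite F W := Module.Finite.span_of_finite F (Set.finite_range _)
  have := Submodule.finrank_mono hle
  omega

end Pool.Agent.H799Z.Lss
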