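import Pool.Agent.H799Z.LssSpec

/-! Reduction of the radicality of the off-diagonal ideal to the ideal of six quadrics. -/

set_option autoImplicit false

namespace Pool.Agent.H799Z.Lss

open MvPolynomial Matrix

section Alg
variable {R : Type*} [CommRing R] {ι : Type*} [Fintype ι] [DecidableEq ι]

theorem alpha_diag (a c : Matrix ι (Fin 9) R) (y : ι → R) (κ : Matrix (Fin 6) ι R)
    (hκ : κ * a = 0)
    (hrel : ∀ i j, i ≠ j → ∑ k, (a i k * c j k + c i k * a j k) + y i * y j = 0) :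
    ∃ D : ι → R, ∀ p q, (κ *ᵥ y) p * (κ *ᵥ y) q = ∑ i, D i * (κ p i * κ q i) := by
  let G : Matrix ι ι R := a * cᵀ + c * aᵀ + vecMulVec y y
  refine ⟨fun i => G i i, fun p q => ?_⟩
  have hG : G = diagonal fun i => G i i := by
    ext i j
    by_cases hij : i = j
    · rw [hij, diagonal_apply_eq]
    · rw [diagonal_apply_ne _ hij, ← hrel i j hij]
      simp only [G, Matrix.add_apply, Matrix.mul_apply, transpose_apply, vecMulVec_apply,
        Finset.sum_add_distrib]
  have h1 : κ * G * κᵀ = vecMulVec (κ *ᵥ y) (κ *ᵥ y) := by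
    have h2 : aᵀ * κᵀ = 0 := by rw [← transpose_mul, hκ, transpose_zero]
    simp only [G, Matrix.mul_add, Matrix.add_mul]
    rw [← Matrix.mul_assoc κ a, hκ, Matrix.zero_mul, Matrix.zero_mul, zero_add, Matrix.mul_assoc κ,
      Matrix.mul_assoc c, h2, Matrix.mul_zero, Matrix.mul_zero, zero_add, mul_vecMulVec,
      vecMulVec_mul, vecMul_transpose]
  have h3 := congrFun (congrFun h1 p) q
  rw [vecMulVec_apply] at h3
  rw [← h3]
  conv_lhs => rw [hG]
  rw [Matrix.mul_apply]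
  refine Finset.sum_congr rfl fun i _ => ?_
  rw [mul_diagonal, transpose_apply]
  ring

theorem beta_exists (h : R) (hh : h + h = 1) (A : Matrix ι (Fin 9) R) (ρ : Matrix (Fin 9) ι R)
    (lam : Matrix ι (Fin 6) R) (κ : Matrix (Fin 6) ι R) (h1 : A * ρ + lam * κ = 1)
    (h2 : κ * lam = 1) (u : Fin 6 → R) (D : ι → R)
    (hD : ∀ p q, u p * u q = ∑ i, D i * (κ p i * κ q i)) :
    ∃ (c : Matrix ι (Fin 9) R) (y : ι → R), κ *ᵥ y = u ∧
      ∀ i j, i ≠ j → ∑ k, (A i k * c j k + c i k * A j k) + y i * y j = 0 := by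
  let y := lam *ᵥ u
  have hy : κ *ᵥ y = u := by rw [mulVec_mulVec, h2, one_mulVec]
  let M : Matrix ι ι R := vecMulVec y y - diagonal D
  have hM : Mᵀ = M := by
    simp only [M, transpose_sub, diagonal_transpose, transpose_vecMulVec]
  have hκM : κ * M * κᵀ = 0 := by
    simp only [M, Matrix.mul_sub, Matrix.sub_mul]
    rw [mul_vecMulVec, vecMulVec_mul, vecMul_transpose, hy]
    ext p q
    rw [Matrix.sub_apply, vecMulVec_apply, hD, Matrix.mul_apply, Matrix.zero_apply, sub_eq_zero]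
    refine Finset.sum_congr rfl fun i _ => ?_
    rw [mul_diagonal, transpose_apply]
    ring
  let c : Matrix ι (Fin 9) R := -(h • (A * ρ * M * ρᵀ) + lam * κ * M * ρᵀ)
  refine ⟨c, y, hy, fun i j hij => ?_⟩
  obtain ⟨P, hP⟩ : ∃ P, P = A * ρ := ⟨_, rfl⟩
  obtain ⟨Q, hQ⟩ : ∃ Q, Q = lam * κ := ⟨_, rfl⟩
  have e1 : c * Aᵀ = -(h • (P * M * Pᵀ) + Q * M * Pᵀ) := by
    simp only [c, hP, hQ, Matrix.neg_mul, Matrix.add_mul, Matrix.smul_mul, transpose_mul,
      Matrix.mul_assoc]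
  have e2 : A * cᵀ = -(h • (P * M * Pᵀ) + P * M * Qᵀ) := by
    have := congrArg transpose e1
    rw [transpose_mul, transpose_transpose] at this
    rw [this]
    simp only [transpose_neg, transpose_add, transpose_smul, transpose_mul, transpose_transpose,
      hM, Matrix.mul_assoc]
  have e3 : Q * M * Qᵀ = 0 := by
    have : Q * M * Qᵀ = lam * (κ * M * κᵀ) * lamᵀ := by
      simp only [hQ, transpose_mul, Matrix.mul_assoc]
    rw [this, hκM, Matrix.mul_zero, Matrix.zero_mul]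
  have e4 : M = (P + Q) * M * (P + Q)ᵀ := by
    rw [hP, hQ, h1, transpose_one, Matrix.one_mul, Matrix.mul_one]
  have e5 : A * cᵀ + c * Aᵀ + M = 0 := by
    have e6 : h • (P * M * Pᵀ) + h • (P * M * Pᵀ) = P * M * Pᵀ := by
      rw [← add_smul, hh, one_smul]
    have e7 : M = P * M * Pᵀ + P * M * Qᵀ + Q * M * Pᵀ + Q * M * Qᵀ := by
      conv_lhs => rw [e4]
      simp only [transpose_add, Matrix.add_mul, Matrix.mul_add]
      abel
    rw [e1, e2]
    rw [e3, add_zero, ← e6] at e7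
    generalize h • (P * M * Pᵀ) = Z at e7 ⊢
    generalize P * M * Qᵀ = Z1 at e7 ⊢
    generalize Q * M * Pᵀ = Z2 at e7 ⊢
    rw [e7]
    abel
  have e8 := congrFun (congrFun e5 i) j
  simp only [M, Matrix.add_apply, Matrix.sub_apply, Matrix.mul_apply, transpose_apply,
    vecMulVec_apply, diagonal_apply_ne _ hij, sub_zero, Matrix.zero_apply] at e8
  rw [Finset.sum_add_distrib]
  exact e8

end Alg

variable {F : Type*} [Field F]

theorem eval_qq_of_diag {T : Type*} [CommRing T] (φ : F →+* T) {κ : Matrix (Fin 6) (Fin 9) F}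
    (δ : F) {H : Matrix (Fin 9) (Fin 9) F} (hH : E1 κ * H = 1) (u : Fin 6 → T)
    (D : Fin 9 ⊕ Fin 6 → T)
    (hD : ∀ p q, u p * u q = ∑ i, D i * (φ (pt κ δ i p) * φ (pt κ δ i q))) (s : Fin 6) :
    eval₂Hom φ u (qq (H * E2 κ) s) = 0 := by
  have hz : ∀ t, eval₂Hom φ u (zz t) = ∑ i, D i * φ (eval (pt κ δ i) (zz t)) := by
    intro t
    simp only [zz, map_mul, eval₂Hom_X', eval_X, hD]
  have h1 : eval₂Hom φ u (qq (H * E2 κ) s) = ∑ i, D i * φ (eval (pt κ δ i) (qq (H * E2 κ) s)) := by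
    simp only [qq, map_sub, map_sum, map_mul, eval₂Hom_C, eval_C, hz, mul_sub, Finset.mul_sum,
      Finset.sum_sub_distrib]
    rw [Finset.sum_comm]
    refine congrArg₂ (· - ·) rfl (Finset.sum_congr rfl fun i _ => Finset.sum_congr rfl fun t _ => ?_)
    ring
  rw [h1]
  simp only [eval_qq δ hH, map_zero, mul_zero, Finset.sum_const_zero]

theorem pairs_cover : ∀ p q : Fin 6, p ≠ q →
    ∃ t, (pc t = p ∧ pd t = q) ∨ (pc t = q ∧ pd t = p) := by decide

theorem diag_of_qq {T : Type*} [CommRing T] (φ : F →+* T) {κ : Matrix (Fin 6) (Fin 9) F}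
    {δ : F} (hδ : δ ≠ 0) {H : Matrix (Fin 9) (Fin 9) F} (hH : E1 κ * H = 1) (u : Fin 6 → T)
    (hq : ∀ s, eval₂Hom φ u (qq (H * E2 κ) s) = 0) :
    ∃ D : Fin 9 ⊕ Fin 6 → T,
      ∀ p q, u p * u q = ∑ i, D i * (φ (pt κ δ i p) * φ (pt κ δ i q)) := by
  have hH' : H * E1 κ = 1 := mul_eq_one_comm.mp hH
  let z : Fin 9 → T := fun t => u (pc (Sum.inl t)) * u (pd (Sum.inl t))
  let d : Fin 9 → T := fun i => ∑ t, φ (H t i) * z t
  have key : ∀ (E : Fin 9 → F), ∑ i, d i * φ (E i) = ∑ t, φ (∑ i, H t i * E i) * z t := by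
    intro E
    simp only [d, map_sum, map_mul, Finset.sum_mul]
    rw [Finset.sum_comm]
    refine Finset.sum_congr rfl fun t _ => Finset.sum_congr rfl fun i _ => ?_
    ring
  have hpair : ∀ t, u (pc t) * u (pd t) = ∑ i, d i * (φ (κ (pc t) i) * φ (κ (pd t) i)) := by
    rintro (t | s)
    · have h1 := key (fun i => E1 κ i t)
      have h2 : ∀ t', ∑ i, H t' i * E1 κ i t = (1 : Matrix (Fin 9) (Fin 9) F) t' t := by
        intro t'
        rw [← hH', Matrix.mul_apply]
      simp only [h2] at h1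
      have h3 : ∑ x, φ ((1 : Matrix (Fin 9) (Fin 9) F) x t) * z x = z t := by
        rw [Finset.sum_eq_single t (fun b _ hb => by rw [one_apply_ne hb, map_zero, zero_mul])
          (by simp), one_apply_eq, map_one, one_mul]
      rw [h3] at h1
      simp only [E1, Matrix.of_apply, map_mul] at h1
      exact h1.symm
    · have h1 := key (fun i => E2 κ i s)
      have h2 := hq s
      simp only [qq, zz, map_sub, map_sum, map_mul, eval₂Hom_C, eval₂Hom_X'] at h2
      rw [sub_eq_zero] at h2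
      simp only [← Matrix.mul_apply] at h1
      simp only [E2, Matrix.of_apply, map_mul] at h1
      rw [h1, h2]
      rfl
  refine ⟨Sum.elim d fun b => (u b * u b - ∑ i, d i * (φ (κ b i) * φ (κ b i))) * φ (δ⁻¹ * δ⁻¹),
    fun p q => ?_⟩
  rw [Fintype.sum_sum_type]
  simp only [Sum.elim_inl, Sum.elim_inr, pt]
  by_cases hpq : p = q
  · subst hpq
    rw [Finset.sum_eq_single p (fun b _ hb => by
      rw [if_neg (Ne.symm hb), map_zero, mul_zero, mul_zero]) (by simp), if_pos rfl, mul_assoc,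
      ← map_mul, ← map_mul]
    have : δ⁻¹ * δ⁻¹ * (δ * δ) = 1 := by field_simp
    rw [this, map_one]
    ring
  · have h0 : ∑ b : Fin 6, (u b * u b - ∑ i, d i * (φ (κ b i) * φ (κ b i))) * φ (δ⁻¹ * δ⁻¹) *
        (φ (if p = b then δ else 0) * φ (if q = b then δ else 0)) = 0 := by
      refine Finset.sum_eq_zero fun b _ => ?_
      by_cases h : p = b
      · rw [if_neg (show ¬ q = b from fun h' => hpq (h.trans h'.symm)), map_zero, mul_zero,
          mul_zero]
      · rw [if_neg h, map_zero, zero_mul, mul_zero]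
    rw [h0, add_zero]
    obtain ⟨t, ⟨h1, h2⟩ | ⟨h1, h2⟩⟩ := pairs_cover p q hpq
    · rw [← h1, ← h2]
      exact hpair t
    · rw [← h1, ← h2, mul_comm, hpair t]
      exact Finset.sum_congr rfl fun i _ => by ring

/-- The matrix whose columns are the fifteen points. -/
def kap (M : Matrix (Fin 9 ⊕ Fin 6) (Fin 9) F) : Matrix (Fin 6) (Fin 9 ⊕ Fin 6) F :=
  fromCols (kap1 M) (M.toRows₁.det • (1 : Matrix (Fin 6) (Fin 6) F))

theorem kap_apply (M : Matrix (Fin 9 ⊕ Fin 6) (Fin 9) F) (p : Fin 6) (i : Fin 9 ⊕ Fin 6) :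
    kap M p i = pt (kap1 M) M.toRows₁.det i p := by
  rcases i with i | b
  · rfl
  · simp [kap, pt, one_apply]

theorem kap_mul (M : Matrix (Fin 9 ⊕ Fin 6) (Fin 9) F) : kap M * M = 0 := by
  conv_lhs => rw [← fromRows_toRows M]
  rw [fromRows_toRows M, kap]
  conv_lhs => congr; rfl; rw [← fromRows_toRows M]
  rw [fromCols_mul_fromRows, kap1, Matrix.neg_mul, Matrix.mul_assoc, adjugate_mul, Matrix.mul_smul,
    Matrix.mul_one, Matrix.smul_mul, Matrix.one_mul, neg_add_cancel]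

theorem exists_frame (M : Matrix (Fin 9 ⊕ Fin 6) (Fin 9) F) (hδ : M.toRows₁.det ≠ 0) :
    ∃ (ρ : Matrix (Fin 9) (Fin 9 ⊕ Fin 6) F) (lam : Matrix (Fin 9 ⊕ Fin 6) (Fin 6) F),
      M * ρ + lam * kap M = 1 ∧ kap M * lam = 1 := by
  refine ⟨fromCols (M.toRows₁.det⁻¹ • adjugate M.toRows₁) 0,
    fromRows 0 (M.toRows₁.det⁻¹ • (1 : Matrix (Fin 6) (Fin 6) F)), ?_, ?_⟩
  · conv_lhs => congr; congr; rw [← fromRows_toRows M]
    rw [kap, fromRows_mul_fromCols, fromRows_mul_fromCols, fromBlocks_add, ← fromBlocks_one]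
    simp only [Matrix.mul_zero, Matrix.zero_mul, add_zero, zero_add, Matrix.mul_smul,
      Matrix.smul_mul, Matrix.one_mul, mul_adjugate, smul_smul, inv_mul_cancel₀ hδ,
      mul_inv_cancel₀ hδ, one_smul, kap1, smul_neg, add_neg_cancel, smul_zero]
  · rw [kap, fromCols_mul_fromRows]
    simp only [Matrix.mul_zero, zero_add, Matrix.mul_smul, Matrix.smul_mul, Matrix.one_mul,
      smul_smul, inv_mul_cancel₀ hδ, one_smul]

end Pool.Agent.H799Z.Lss
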