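import Pool.Agent.H799Z.LssNonrad

/-! Non-vanishing of three determinants at the generic point, by specialisation modulo 13. -/

set_option autoImplicit false

namespace Pool.Agent.H799Z.Lss

open MvPolynomial Matrix

section Nat
variable {A A' : Type*} [CommRing A] [CommRing A']

def kap1 (M : Matrix (Fin 9 ⊕ Fin 6) (Fin 9) A) : Matrix (Fin 6) (Fin 9) A :=
  -(M.toRows₂ * adjugate M.toRows₁)

def NN (A : Type*) [CommRing A] : Matrix (Fin 9) (Fin 9) A := N1.map Nat.cast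

def GG (M : Matrix (Fin 9 ⊕ Fin 6) (Fin 9) A) : Matrix (Fin 9) (Fin 9) A := E1 (kap1 M) * NN A

def Yp (M : Matrix (Fin 9 ⊕ Fin 6) (Fin 9) A) : Matrix (Fin 9) (Fin 6) A :=
  NN A * adjugate (GG M) * E2 (kap1 M)

theorem adj_map (φ : A →+* A') (M : Matrix (Fin 9) (Fin 9) A) :
    (adjugate M).map φ = adjugate (M.map φ) := RingHom.map_adjugate φ M

theorem kap1_map (φ : A →+* A') (M : Matrix (Fin 9 ⊕ Fin 6) (Fin 9) A) :
    (kap1 M).map φ = kap1 (M.map φ) := by
  unfold kap1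
  rw [Matrix.map_neg _ (map_neg φ), Matrix.map_mul, adj_map]
  rfl

theorem E1_map (φ : A →+* A') (κ : Matrix (Fin 6) (Fin 9) A) : (E1 κ).map φ = E1 (κ.map φ) := by
  ext i t
  simp [E1]

theorem E2_map (φ : A →+* A') (κ : Matrix (Fin 6) (Fin 9) A) : (E2 κ).map φ = E2 (κ.map φ) := by
  ext i t
  simp [E2]

theorem NN_map (φ : A →+* A') : (NN A).map φ = NN A' := by
  ext i t
  simp [NN]

theorem GG_map (φ : A →+* A') (M : Matrix (Fin 9 ⊕ Fin 6) (Fin 9) A) :
    (GG M).map φ = GG (M.map φ) := by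
  unfold GG
  rw [Matrix.map_mul, E1_map, kap1_map, NN_map]

theorem Yp_map (φ : A →+* A') (M : Matrix (Fin 9 ⊕ Fin 6) (Fin 9) A) :
    (Yp M).map φ = Yp (M.map φ) := by
  unfold Yp
  rw [Matrix.map_mul, Matrix.map_mul, E2_map, kap1_map, NN_map, adj_map, GG_map]

theorem Mat_map (φ : A →+* A') (g : A) (Y : Matrix (Fin 9) (Fin 6) A) :
    (Mat g Y).map φ = Mat (φ g) (Y.map φ) := by
  ext r j
  simp [Mat]

theorem det_map' {n : ℕ} (φ : A →+* A') (M : Matrix (Fin n) (Fin n) A) :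
    φ M.det = (M.map φ).det := RingHom.map_det φ M

end Nat

/-- The special point. -/
def A0 : Matrix (Fin 9 ⊕ Fin 6) (Fin 9) (ZMod 13) := fromRows 1 (-B0)

theorem kap1_A0 : kap1 A0 = B0 := by
  simp [kap1, A0]

theorem GG_A0 : GG A0 = 1 := by
  unfold GG
  rw [kap1_A0]
  decide +kernel

theorem Yp_A0 : Yp A0 = Matrix.of fun (t : Fin 9) (s : Fin 6) => ((yy t s : ℕ) : ZMod 13) := by
  unfold Yp
  rw [GG_A0, kap1_A0, adjugate_one, Matrix.mul_one]
  decide +kernel

theorem Mat_A0 : Mat 1 (Yp A0) = 1 := by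
  rw [Yp_A0]
  ext r j
  have h := chk_true
  unfold chk at h
  rw [List.all_eq_true] at h
  have h1 := h r (List.mem_range.mpr r.2)
  rw [List.all_eq_true] at h1
  have h2 := Nat.eq_of_beq_eq_true (h1 j (List.mem_range.mpr j.2))
  have w1 : ∀ a : Fin 6, wt a = wn a := by decide
  have w2 : ∀ s : Fin 6, wt (pc (Sum.inr s)) + wt (pd (Sum.inr s)) = fr s := by decide
  have w3 : ∀ t : Fin 9, wt (pc (Sum.inl t)) + wt (pd (Sum.inl t)) = pv t := by decide
  have e1 : (rS r : ℕ) = dig tabS 3 r % 6 := rfl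
  have e2 : (rA r : ℕ) = dig tabA 3 r % 6 := rfl
  have e3 : (rB r : ℕ) = dig tabB 3 r % 6 := rfl
  rw [← e1, ← e2, ← e3] at h2
  have h3 : ((ent (rS r) (wn (rA r) + wn (rB r)) j : ℕ) : ZMod 13) =
      ((if (r : ℕ) = j then 1 else 0 : ℕ) : ZMod 13) := by
    rw [← h2, ZMod.natCast_mod]
  have h4 : ((if (r : ℕ) = j then 1 else 0 : ℕ) : ZMod 13) =
      (1 : Matrix (Fin 111) (Fin 111) (ZMod 13)) r j := by
    rw [Matrix.one_apply]
    by_cases hrj : r = j
    · simp [hrj]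
    · rw [if_neg hrj, if_neg (fun h => hrj (Fin.ext h))]
      simp
  rw [← h4, ← h3]
  simp only [Mat, Matrix.of_apply, cd, w2, w3]
  simp only [w1]
  generalize wn (rA r) + wn (rB r) = c
  generalize (rS r : ℕ) = s
  have h13 : (12 : ZMod 13) = -1 := by decide
  unfold ent
  push_cast
  rw [h13]
  simp only [Fin.sum_univ_succ, Fin.sum_univ_zero]
  norm_num
  ring

/-- The generic matrix. -/
noncomputable def genA (R : Type*) [CommRing R] :
    Matrix (Fin 9 ⊕ Fin 6) (Fin 9) (MvPolynomial ((Fin 9 ⊕ Fin 6) × Fin 9) R) :=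
  Matrix.of fun i k => X (i, k)

theorem generic {F : Type*} [Field F] (j : MvPolynomial ((Fin 9 ⊕ Fin 6) × Fin 9) ℤ →+* F)
    (hj : Function.Injective j) :
    ((genA ℤ).map j).toRows₁.det ≠ 0 ∧ ∃ H, E1 (kap1 ((genA ℤ).map j)) * H = 1 ∧
      (Mat 1 (H * E2 (kap1 ((genA ℤ).map j)))).det ≠ 0 := by
  let ψ : MvPolynomial ((Fin 9 ⊕ Fin 6) × Fin 9) ℤ →+* ZMod 13 :=
    eval₂Hom (Int.castRingHom _) (fun x => A0 x.1 x.2)
  have hψ : (genA ℤ).map ψ = A0 := by
    ext i k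
    simp [genA, ψ]
  have : Fact (1 < 13) := ⟨by norm_num⟩
  have key : ∀ z, ψ z = 1 → j z ≠ 0 := by
    intro z hz h0
    have : z = 0 := hj (by rw [h0, map_zero])
    rw [this, map_zero] at hz
    exact zero_ne_one hz
  have d1 : ((genA ℤ).map j).toRows₁.det ≠ 0 := by
    have := key (genA ℤ).toRows₁.det (by
      rw [det_map']
      have : (genA ℤ).toRows₁.map ψ = ((genA ℤ).map ψ).toRows₁ := rfl
      rw [this, hψ]
      simp [A0])
    rwa [det_map'] at this
  have d2 : (GG ((genA ℤ).map j)).det ≠ 0 := by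
    have := key (GG (genA ℤ)).det (by rw [det_map', GG_map, hψ, GG_A0, det_one])
    rwa [det_map', GG_map] at this
  have d3 : (Mat (GG ((genA ℤ).map j)).det (Yp ((genA ℤ).map j))).det ≠ 0 := by
    have := key (Mat (GG (genA ℤ)).det (Yp (genA ℤ))).det (by
      rw [det_map', Mat_map, det_map', GG_map, Yp_map, hψ, GG_A0, det_one, Mat_A0, det_one])
    rwa [det_map', Mat_map, det_map', GG_map, Yp_map] at this
  generalize (genA ℤ).map j = M at d1 d2 d3 ⊢
  refine ⟨d1, (GG M).det⁻¹ • (NN F * adjugate (GG M)), ?_, ?_⟩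
  · rw [Matrix.mul_smul, ← Matrix.mul_assoc]
    show (GG M).det⁻¹ • (GG M * adjugate (GG M)) = 1
    rw [mul_adjugate, smul_smul, inv_mul_cancel₀ d2, one_smul]
  · intro h0
    apply d3
    have e : Mat (GG M).det (Yp M) =
        (GG M).det • Mat 1 (((GG M).det⁻¹ • (NN F * adjugate (GG M))) * E2 (kap1 M)) := by
      rw [Matrix.smul_mul]
      show _ = (GG M).det • Mat 1 ((GG M).det⁻¹ • Yp M)
      ext r k
      simp only [Mat, Matrix.of_apply, Matrix.smul_apply, smul_eq_mul, mul_sub, Finset.mul_sum,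
        one_mul]
      refine congrArg₂ (· - ·) rfl (Finset.sum_congr rfl fun t _ => ?_)
      rw [← mul_assoc, ← mul_assoc, mul_inv_cancel₀ d2, one_mul]
    rw [e, det_smul, h0, mul_zero]

end Pool.Agent.H799Z.Lss
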