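import Mathlib

/-! Definitions for immersed surfaces of 2-type in Euclidean space, in global coordinates
`(u, v)` on the parameter plane. -/

set_option autoImplicit false

namespace Pool.Agent.H799Z.Surf

open scoped ContDiff

/-- Partial derivative of a vector valued map of the plane in the first coordinate. -/
noncomputable def pdu {m : ℕ} (φ : ℝ × ℝ → EuclideanSpace ℝ (Fin m)) (p : ℝ × ℝ) :
    EuclideanSpace ℝ (Fin m) :=
  fderiv ℝ φ p ((1 : ℝ), (0 : ℝ))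

/-- Partial derivative of a vector valued map of the plane in the second coordinate. -/
noncomputable def pdv {m : ℕ} (φ : ℝ × ℝ → EuclideanSpace ℝ (Fin m)) (p : ℝ × ℝ) :
    EuclideanSpace ℝ (Fin m) :=
  fderiv ℝ φ p ((0 : ℝ), (1 : ℝ))

/-- First coefficient `E` of the metric induced by `x`. -/
noncomputable def gE {m : ℕ} (x : ℝ × ℝ → EuclideanSpace ℝ (Fin m)) (p : ℝ × ℝ) : ℝ :=
  inner ℝ (pdu x p) (pdu x p)

/-- Mixed coefficient `F` of the metric induced by `x`. -/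
noncomputable def gF {m : ℕ} (x : ℝ × ℝ → EuclideanSpace ℝ (Fin m)) (p : ℝ × ℝ) : ℝ :=
  inner ℝ (pdu x p) (pdv x p)

/-- Last coefficient `G` of the metric induced by `x`. -/
noncomputable def gG {m : ℕ} (x : ℝ × ℝ → EuclideanSpace ℝ (Fin m)) (p : ℝ × ℝ) : ℝ :=
  inner ℝ (pdv x p) (pdv x p)

/-- Area density `√(E G - F²)` of the metric induced by `x`. -/
noncomputable def area {m : ℕ} (x : ℝ × ℝ → EuclideanSpace ℝ (Fin m)) (p : ℝ × ℝ) : ℝ :=
  Real.sqrt (gE x p * gG x p - gF x p ^ 2)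

/-- The Laplace-Beltrami operator (with nonnegative spectrum) of the metric induced by `x`,
applied componentwise to the vector valued map `φ`. -/
noncomputable def lap {m : ℕ} (x φ : ℝ × ℝ → EuclideanSpace ℝ (Fin m)) (p : ℝ × ℝ) :
    EuclideanSpace ℝ (Fin m) :=
  -((area x p)⁻¹ •
    (pdu (fun q => (area x q)⁻¹ • (gG x q • pdu φ q - gF x q • pdv φ q)) p +
     pdv (fun q => (area x q)⁻¹ • (gE x q • pdv φ q - gF x q • pdu φ q)) p))

/-- `x` is a smooth immersion of the plane. -/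
def IsImmersion {m : ℕ} (x : ℝ × ℝ → EuclideanSpace ℝ (Fin m)) : Prop :=
  ContDiff ℝ ∞ x ∧ ∀ p, LinearIndependent ℝ ![pdu x p, pdv x p]

/-- `x` is of 2-type with constant term `c`: `x = c + x₁ + x₂` with `x₁`, `x₂` smooth
non-constant eigenmaps of the Laplace operator of the induced metric, for distinct eigenvalues. -/
def IsTwoTypeWith {m : ℕ} (x : ℝ × ℝ → EuclideanSpace ℝ (Fin m))
    (c : EuclideanSpace ℝ (Fin m)) : Prop :=
  ∃ (x₁ x₂ : ℝ × ℝ → EuclideanSpace ℝ (Fin m)) (lam₁ lam₂ : ℝ),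
    lam₁ ≠ lam₂ ∧ ContDiff ℝ ∞ x₁ ∧ ContDiff ℝ ∞ x₂ ∧
    (∀ a, ∃ p, x₁ p ≠ a) ∧ (∀ a, ∃ p, x₂ p ≠ a) ∧
    (∀ p, x p = c + x₁ p + x₂ p) ∧
    (∀ p, lap x x₁ p = lam₁ • x₁ p) ∧ (∀ p, lap x x₂ p = lam₂ • x₂ p)

/-- The image of `x` lies in the hypersphere with centre `o` and radius `r > 0`, and in no affine
hyperplane. -/
def LiesFullyIn {m : ℕ} (x : ℝ × ℝ → EuclideanSpace ℝ (Fin m))
    (o : EuclideanSpace ℝ (Fin m)) (r : ℝ) : Prop :=
  0 < r ∧ (∀ p, ‖x p - o‖ = r) ∧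
  ∀ (w : EuclideanSpace ℝ (Fin m)) (t : ℝ), w ≠ 0 → ∃ p, inner ℝ w (x p) ≠ t

end Pool.Agent.H799Z.Surf
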