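import Pool.Agent.H799Z.SurfDefs

/-! A mass-symmetric 2-type torus lying fully in the sphere `S⁸`.  In the conformal coordinate
`s` with `ds = du / w`, `w = √(8 - 3 sin² u)`, the components are Lame functions of degree one
and two for the modulus `k² = 3 / 8`. -/

set_option autoImplicit false

namespace Pool.Agent.H799Z.Surf

open scoped ContDiff
open Real

/-- Maps with separated variables. -/
noncomputable def sep (f g : Fin 9 → ℝ → ℝ) (p : ℝ × ℝ) : EuclideanSpace ℝ (Fin 9) :=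
  WithLp.toLp 2 (fun i => f i p.1 * g i p.2)

theorem sep_apply (f g : Fin 9 → ℝ → ℝ) (p : ℝ × ℝ) (i : Fin 9) :
    sep f g p i = f i p.1 * g i p.2 := rfl

theorem hasFDerivAt_sep {f g f' g' : Fin 9 → ℝ → ℝ} (hf : ∀ i u, HasDerivAt (f i) (f' i u) u)
    (hg : ∀ i v, HasDerivAt (g i) (g' i v) v) (p : ℝ × ℝ) :
    HasFDerivAt (sep f g) ((ContinuousLinearMap.fst ℝ ℝ ℝ).smulRight (sep f' g p) +
      (ContinuousLinearMap.snd ℝ ℝ ℝ).smulRight (sep f g' p)) p := by
  rw [← hasFDerivWithinAt_univ, hasFDerivWithinAt_euclidean]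
  intro i
  rw [hasFDerivWithinAt_univ]
  have h1 : HasFDerivAt (fun q : ℝ × ℝ => f i q.1)
      (f' i p.1 • ContinuousLinearMap.fst ℝ ℝ ℝ) p :=
    (hf i p.1).comp_hasFDerivAt p hasFDerivAt_fst
  have h2 : HasFDerivAt (fun q : ℝ × ℝ => g i q.2)
      (g' i p.2 • ContinuousLinearMap.snd ℝ ℝ ℝ) p :=
    (hg i p.2).comp_hasFDerivAt p hasFDerivAt_snd
  refine (h1.mul h2).congr_fderiv ?_
  ext <;> (simp [sep_apply]; try ring)

theorem pdu_sep {f g f' g' : Fin 9 → ℝ → ℝ} (hf : ∀ i u, HasDerivAt (f i) (f' i u) u)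
    (hg : ∀ i v, HasDerivAt (g i) (g' i v) v) (p : ℝ × ℝ) : pdu (sep f g) p = sep f' g p := by
  unfold pdu
  rw [(hasFDerivAt_sep hf hg p).fderiv]
  simp

theorem pdv_sep {f g f' g' : Fin 9 → ℝ → ℝ} (hf : ∀ i u, HasDerivAt (f i) (f' i u) u)
    (hg : ∀ i v, HasDerivAt (g i) (g' i v) v) (p : ℝ × ℝ) : pdv (sep f g) p = sep f g' p := by
  unfold pdv
  rw [(hasFDerivAt_sep hf hg p).fderiv]
  simp

theorem contDiff_sep {f g : Fin 9 → ℝ → ℝ} (hf : ∀ i, ContDiff ℝ ∞ (f i))
    (hg : ∀ i, ContDiff ℝ ∞ (g i)) : ContDiff ℝ ∞ (sep f g) := by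
  rw [contDiff_euclidean]
  intro i
  exact ((hf i).comp contDiff_fst).mul ((hg i).comp contDiff_snd)

/-- The function `w`. -/
noncomputable def w (u : ℝ) : ℝ := √(8 - 3 * sin u ^ 2)

theorem w_arg_pos (u : ℝ) : 0 < 8 - 3 * sin u ^ 2 := by
  have := sin_sq_le_one u
  linarith

theorem w_pos (u : ℝ) : 0 < w u := Real.sqrt_pos.mpr (w_arg_pos u)

theorem w_sq (u : ℝ) : w u ^ 2 = 8 - 3 * sin u ^ 2 := Real.sq_sqrt (w_arg_pos u).le

theorem hasDerivAt_w (u : ℝ) : HasDerivAt w (-3 * sin u * cos u / w u) u := by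
  have h1 : HasDerivAt (fun u => 8 - 3 * sin u ^ 2) (-(3 * (2 * sin u * cos u))) u := by
    have h := (((hasDerivAt_sin u).pow 2).const_mul 3).const_sub 8
    refine h.congr_deriv ?_
    simp
  have h2 := h1.sqrt (w_arg_pos u).ne'
  refine h2.congr_deriv ?_
  have := w_pos u
  unfold w at this ⊢
  field_simp

theorem contDiff_w : ContDiff ℝ ∞ w := by
  unfold w
  apply ContDiff.sqrt _ (fun u => (w_arg_pos u).ne')
  fun_prop

/-- Angular factors. -/
noncomputable def g0 : Fin 9 → ℝ → ℝ :=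
  ![fun v => cos (2 * v), fun v => sin (2 * v), fun v => cos v, fun v => sin v, fun _ => 1,
    fun v => cos (5 * v), fun v => sin (5 * v), fun v => cos (4 * v), fun v => sin (4 * v)]

noncomputable def g1 : Fin 9 → ℝ → ℝ :=
  ![fun v => -2 * sin (2 * v), fun v => 2 * cos (2 * v), fun v => -sin v, fun v => cos v,
    fun _ => 0, fun v => -5 * sin (5 * v), fun v => 5 * cos (5 * v), fun v => -4 * sin (4 * v),
    fun v => 4 * cos (4 * v)]

/-- Squares of the frequencies. -/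
def kk : Fin 9 → ℝ := ![4, 4, 1, 1, 0, 25, 25, 16, 16]

theorem dcos (a v : ℝ) : HasDerivAt (fun v => cos (a * v)) (-a * sin (a * v)) v := by
  have h := ((hasDerivAt_id v).const_mul a).cos
  refine h.congr_deriv ?_
  simp; ring

theorem dsin (a v : ℝ) : HasDerivAt (fun v => sin (a * v)) (a * cos (a * v)) v := by
  have h := ((hasDerivAt_id v).const_mul a).sin
  refine h.congr_deriv ?_
  simp; ring

theorem hg0 (i : Fin 9) (v : ℝ) : HasDerivAt (g0 i) (g1 i v) v := by
  fin_cases i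
  · exact dcos 2 v
  · exact dsin 2 v
  · exact hasDerivAt_cos v
  · exact hasDerivAt_sin v
  · exact hasDerivAt_const v 1
  · exact dcos 5 v
  · exact dsin 5 v
  · exact dcos 4 v
  · exact dsin 4 v

theorem hg1 (i : Fin 9) (v : ℝ) : HasDerivAt (g1 i) (-(kk i * g0 i v)) v := by
  fin_cases i
  · refine ((dsin 2 v).const_mul (-2)).congr_deriv ?_
    simp [kk, g0]; ring
  · refine ((dcos 2 v).const_mul 2).congr_deriv ?_
    simp [kk, g0]; ring
  · refine (hasDerivAt_sin v).neg.congr_deriv ?_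
    simp [kk, g0]
  · refine (hasDerivAt_cos v).congr_deriv ?_
    simp [kk, g0]
  · refine (hasDerivAt_const v (0 : ℝ)).congr_deriv ?_
    simp [kk, g0]
  · refine ((dsin 5 v).const_mul (-5)).congr_deriv ?_
    simp [kk, g0]; ring
  · refine ((dcos 5 v).const_mul 5).congr_deriv ?_
    simp [kk, g0]; ring
  · refine ((dsin 4 v).const_mul (-4)).congr_deriv ?_
    simp [kk, g0]; ring
  · refine ((dcos 4 v).const_mul 4).congr_deriv ?_
    simp [kk, g0]; ring

theorem contDiff_g0 (i : Fin 9) : ContDiff ℝ ∞ (g0 i) := by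
  fin_cases i <;> simp only [g0] <;> simp <;> fun_prop

/-- Radial factors. -/
noncomputable def f0 : Fin 9 → ℝ → ℝ :=
  ![fun u => 60 * cos u, fun u => 60 * cos u, fun u => 60 * sin u, fun u => 60 * sin u,
    fun u => √3 * (9 * sin u ^ 2 - 4), fun u => 12 * (w u * cos u), fun u => 12 * (w u * cos u),
    fun u => 15 * (w u * sin u), fun u => 15 * (w u * sin u)]

/-- `w` times the derivatives of the radial factors. -/
noncomputable def f1 : Fin 9 → ℝ → ℝ :=
  ![fun u => -60 * (w u * sin u), fun u => -60 * (w u * sin u), fun u => 60 * (w u * cos u),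
    fun u => 60 * (w u * cos u), fun u => 18 * √3 * (w u * (sin u * cos u)),
    fun u => -12 * (sin u * (11 - 6 * sin u ^ 2)), fun u => -12 * (sin u * (11 - 6 * sin u ^ 2)),
    fun u => 15 * (cos u * (8 - 6 * sin u ^ 2)), fun u => 15 * (cos u * (8 - 6 * sin u ^ 2))]

/-- The Lame couplings. -/
def nn : Fin 9 → ℝ := ![6, 6, 6, 6, 18, 18, 18, 18, 18]

theorem d_wcos (u : ℝ) :
    HasDerivAt (fun u => w u * cos u) (-(sin u * (11 - 6 * sin u ^ 2)) / w u) u := by
  refine ((hasDerivAt_w u).mul (hasDerivAt_cos u)).congr_deriv ?_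
  have h1 := w_pos u
  have h2 := w_sq u
  have h3 := sin_sq_add_cos_sq u
  field_simp
  linear_combination (-sin u) * h2 - 3 * sin u * h3

theorem d_wsin (u : ℝ) :
    HasDerivAt (fun u => w u * sin u) (cos u * (8 - 6 * sin u ^ 2) / w u) u := by
  refine ((hasDerivAt_w u).mul (hasDerivAt_sin u)).congr_deriv ?_
  have h1 := w_pos u
  have h2 := w_sq u
  field_simp
  linear_combination (cos u) * h2

theorem d_sq (u : ℝ) : HasDerivAt (fun u => sin u ^ 2) (2 * (sin u * cos u)) u := by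
  refine ((hasDerivAt_sin u).pow 2).congr_deriv ?_
  simp; ring

theorem hf0 (i : Fin 9) (u : ℝ) : HasDerivAt (f0 i) (f1 i u / w u) u := by
  have h1 := w_pos u
  fin_cases i
  · refine ((hasDerivAt_cos u).const_mul 60).congr_deriv ?_
    simp [f1]; field_simp
  · refine ((hasDerivAt_cos u).const_mul 60).congr_deriv ?_
    simp [f1]; field_simp
  · refine ((hasDerivAt_sin u).const_mul 60).congr_deriv ?_
    simp [f1]; field_simp
  · refine ((hasDerivAt_sin u).const_mul 60).congr_deriv ?_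
    simp [f1]; field_simp
  · refine ((((d_sq u).const_mul 9).sub_const 4).const_mul √3).congr_deriv ?_
    simp [f1]; field_simp; ring
  · refine ((d_wcos u).const_mul 12).congr_deriv ?_
    simp [f1]; field_simp
  · refine ((d_wcos u).const_mul 12).congr_deriv ?_
    simp [f1]; field_simp
  · refine ((d_wsin u).const_mul 15).congr_deriv ?_
    simp [f1]; field_simp
  · refine ((d_wsin u).const_mul 15).congr_deriv ?_
    simp [f1]; field_simp

theorem hf1 (i : Fin 9) (u : ℝ) :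
    HasDerivAt (f1 i) ((kk i - nn i * (2 - sin u ^ 2)) * f0 i u / w u) u := by
  have h1 := w_pos u
  have h2 := w_sq u
  have h3 := sin_sq_add_cos_sq u
  have hA : HasDerivAt (fun u => -12 * (sin u * (11 - 6 * sin u ^ 2)))
      ((25 - 18 * (2 - sin u ^ 2)) * (12 * (w u * cos u)) / w u) u := by
    refine (((hasDerivAt_sin u).mul (((d_sq u).const_mul 6).const_sub 11)).const_mul
      (-12)).congr_deriv ?_
    field_simp
    ring
  have hB : HasDerivAt (fun u => 15 * (cos u * (8 - 6 * sin u ^ 2)))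
      ((16 - 18 * (2 - sin u ^ 2)) * (15 * (w u * sin u)) / w u) u := by
    refine (((hasDerivAt_cos u).mul (((d_sq u).const_mul 6).const_sub 8)).const_mul
      15).congr_deriv ?_
    field_simp
    linear_combination (-12 * sin u) * h3
  fin_cases i
  · refine ((d_wsin u).const_mul (-60)).congr_deriv ?_
    simp [f0, kk, nn]; field_simp; ring
  · refine ((d_wsin u).const_mul (-60)).congr_deriv ?_
    simp [f0, kk, nn]; field_simp; ring
  · refine ((d_wcos u).const_mul 60).congr_deriv ?_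
    simp [f0, kk, nn]; field_simp; ring
  · refine ((d_wcos u).const_mul 60).congr_deriv ?_
    simp [f0, kk, nn]; field_simp; ring
  · refine (((hasDerivAt_w u).mul ((hasDerivAt_sin u).mul (hasDerivAt_cos u))).const_mul
      (18 * √3)).congr_deriv ?_
    simp [f0, kk, nn]; field_simp
    linear_combination (cos u ^ 2 - sin u ^ 2) * h2 + (8 - 6 * sin u ^ 2) * h3
  · exact hA
  · exact hA
  · exact hB
  · exact hB

theorem contDiff_f0 (i : Fin 9) : ContDiff ℝ ∞ (f0 i) := by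
  have hw := contDiff_w
  fin_cases i <;> simp only [f0] <;> simp <;> fun_prop

/-- The surface. -/
noncomputable def X : ℝ × ℝ → EuclideanSpace ℝ (Fin 9) := sep f0 g0

theorem pdu_X (p : ℝ × ℝ) : pdu X p = sep (fun i u => f1 i u / w u) g0 p := pdu_sep hf0 hg0 p

theorem pdv_X (p : ℝ × ℝ) : pdv X p = sep f0 g1 p := pdv_sep hf0 hg0 p

theorem inner_eq (a b : EuclideanSpace ℝ (Fin 9)) :
    inner ℝ a b = a 0 * b 0 + a 1 * b 1 + a 2 * b 2 + a 3 * b 3 + a 4 * b 4 + a 5 * b 5 +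
      a 6 * b 6 + a 7 * b 7 + a 8 * b 8 := by
  rw [PiLp.inner_apply]
  simp [Fin.sum_univ_succ]
  ring

/-- The conformal factor. -/
noncomputable def GG (u : ℝ) : ℝ := 21600 * (2 - sin u ^ 2)

theorem GG_pos (u : ℝ) : 0 < GG u := by
  have := sin_sq_le_one u
  unfold GG
  nlinarith

theorem gG_X (p : ℝ × ℝ) : gG X p = GG p.1 := by
  unfold gG GG
  rw [inner_eq, pdv_X]
  simp [sep_apply, f0, g1]
  have h2 := w_sq p.1
  have h3 := sin_sq_add_cos_sq p.1
  have e1 := sin_sq_add_cos_sq p.2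
  have e2 := sin_sq_add_cos_sq (2 * p.2)
  have e4 := sin_sq_add_cos_sq (4 * p.2)
  have e5 := sin_sq_add_cos_sq (5 * p.2)
  linear_combination (14400 * cos p.1 ^ 2) * e2 + (3600 * sin p.1 ^ 2) * e1 +
    (3600 * w p.1 ^ 2 * cos p.1 ^ 2) * e5 + (3600 * w p.1 ^ 2 * sin p.1 ^ 2) * e4 +
    (14400 + 3600 * w p.1 ^ 2) * h3 + 3600 * h2

theorem gF_X (p : ℝ × ℝ) : gF X p = 0 := by
  unfold gF
  rw [inner_eq, pdv_X, pdu_X]
  simp [sep_apply, f0, f1, g0, g1]
  ring

theorem gE_X (p : ℝ × ℝ) : gE X p = GG p.1 / w p.1 ^ 2 := by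
  unfold gE GG
  rw [inner_eq, pdu_X]
  have h1 := w_pos p.1
  have h2 := w_sq p.1
  have h3 := sin_sq_add_cos_sq p.1
  have e1 := sin_sq_add_cos_sq p.2
  have e2 := sin_sq_add_cos_sq (2 * p.2)
  have e4 := sin_sq_add_cos_sq (4 * p.2)
  have e5 := sin_sq_add_cos_sq (5 * p.2)
  have r3 : √3 ^ 2 = 3 := Real.sq_sqrt (by norm_num)
  have key : (f1 0 p.1 * g0 0 p.2) ^ 2 + (f1 1 p.1 * g0 1 p.2) ^ 2 + (f1 2 p.1 * g0 2 p.2) ^ 2 +
      (f1 3 p.1 * g0 3 p.2) ^ 2 + (f1 4 p.1 * g0 4 p.2) ^ 2 + (f1 5 p.1 * g0 5 p.2) ^ 2 +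
      (f1 6 p.1 * g0 6 p.2) ^ 2 + (f1 7 p.1 * g0 7 p.2) ^ 2 + (f1 8 p.1 * g0 8 p.2) ^ 2 =
      21600 * (2 - sin p.1 ^ 2) := by
    simp [f1, g0]
    have hc : cos p.1 ^ 2 = 1 - sin p.1 ^ 2 := by linarith
    have k1 : (60 * (w p.1 * sin p.1) * cos (2 * p.2)) ^ 2 +
        (60 * (w p.1 * sin p.1) * sin (2 * p.2)) ^ 2 =
        3600 * ((8 - 3 * sin p.1 ^ 2) * sin p.1 ^ 2) := by
      rw [← h2]
      linear_combination (3600 * w p.1 ^ 2 * sin p.1 ^ 2) * e2
    have k2 : (60 * (w p.1 * cos p.1) * cos p.2) ^ 2 + (60 * (w p.1 * cos p.1) * sin p.2) ^ 2 =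
        3600 * ((8 - 3 * sin p.1 ^ 2) * (1 - sin p.1 ^ 2)) := by
      rw [← h2, ← hc]
      linear_combination (3600 * w p.1 ^ 2 * cos p.1 ^ 2) * e1
    have k3 : (18 * √3 * (w p.1 * (sin p.1 * cos p.1))) ^ 2 =
        972 * ((8 - 3 * sin p.1 ^ 2) * (sin p.1 ^ 2 * (1 - sin p.1 ^ 2))) := by
      rw [← h2, ← hc]
      linear_combination (324 * w p.1 ^ 2 * sin p.1 ^ 2 * cos p.1 ^ 2) * r3
    have k4 : (12 * (sin p.1 * (11 - 6 * sin p.1 ^ 2)) * cos (5 * p.2)) ^ 2 +
        (12 * (sin p.1 * (11 - 6 * sin p.1 ^ 2)) * sin (5 * p.2)) ^ 2 =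
        144 * (sin p.1 ^ 2 * (11 - 6 * sin p.1 ^ 2) ^ 2) := by
      linear_combination (144 * (sin p.1 ^ 2 * (11 - 6 * sin p.1 ^ 2) ^ 2)) * e5
    have k5 : (15 * (cos p.1 * (8 - 6 * sin p.1 ^ 2)) * cos (4 * p.2)) ^ 2 +
        (15 * (cos p.1 * (8 - 6 * sin p.1 ^ 2)) * sin (4 * p.2)) ^ 2 =
        225 * ((1 - sin p.1 ^ 2) * (8 - 6 * sin p.1 ^ 2) ^ 2) := by
      rw [← hc]
      linear_combination (225 * (cos p.1 ^ 2 * (8 - 6 * sin p.1 ^ 2) ^ 2)) * e4
    linear_combination k1 + k2 + k3 + k4 + k5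
  simp only [sep_apply]
  rw [← key]
  field_simp

theorem area_X (p : ℝ × ℝ) : area X p = GG p.1 / w p.1 := by
  unfold area
  rw [gE_X, gF_X, gG_X]
  have h1 := w_pos p.1
  have h2 := GG_pos p.1
  rw [show GG p.1 / w p.1 ^ 2 * GG p.1 - (0 : ℝ) ^ 2 = (GG p.1 / w p.1) ^ 2 by field_simp; ring]
  exact Real.sqrt_sq (by positivity)

/-- Part of the surface selected by a mask. -/
noncomputable def part (m : Fin 9 → ℝ) : ℝ × ℝ → EuclideanSpace ℝ (Fin 9) :=
  sep (fun i u => m i * f0 i u) g0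

theorem lap_part (m : Fin 9 → ℝ) (n : ℝ) (hm : ∀ i, m i * nn i = m i * n) (p : ℝ × ℝ) :
    lap X (part m) p = (n / 21600) • part m p := by
  have hu : ∀ q, pdu (part m) q = sep (fun i u => m i * (f1 i u / w u)) g0 q :=
    pdu_sep (fun i u => (hf0 i u).const_mul (m i)) hg0
  have hv : ∀ q, pdv (part m) q = sep (fun i u => m i * f0 i u) g1 q :=
    pdv_sep (fun i u => (hf0 i u).const_mul (m i)) hg0
  have h1 : (fun q => (area X q)⁻¹ • (gG X q • pdu (part m) q - gF X q • pdv (part m) q)) =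
      sep (fun i u => m i * f1 i u) g0 := by
    funext q
    rw [area_X, gG_X, gF_X, hu, zero_smul, sub_zero]
    have h1 := w_pos q.1
    have h2 := GG_pos q.1
    ext i
    simp only [sep_apply, PiLp.smul_apply, smul_eq_mul]
    field_simp
  have h2 : (fun q => (area X q)⁻¹ • (gE X q • pdv (part m) q - gF X q • pdu (part m) q)) =
      sep (fun i u => m i * f0 i u * (w u)⁻¹) g1 := by
    funext q
    rw [area_X, gE_X, gF_X, hv, zero_smul, sub_zero]
    have h1 := w_pos q.1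
    have h2 := GG_pos q.1
    ext i
    simp only [sep_apply, PiLp.smul_apply, smul_eq_mul]
    field_simp
  unfold lap
  rw [h1, h2, pdu_sep (fun i u => (hf1 i u).const_mul (m i)) hg0,
    pdv_sep (f := fun i u => m i * f0 i u * (w u)⁻¹) (fun i u => ((hf0 i u).const_mul (m i)).mul
      ((hasDerivAt_w u).inv (w_pos u).ne')) hg1, area_X]
  have h1 := w_pos p.1
  have h2 := GG_pos p.1
  have h3 : 2 - sin p.1 ^ 2 = GG p.1 / 21600 := by unfold GG; ring
  ext i
  simp only [part, sep_apply, PiLp.smul_apply, smul_eq_mul, PiLp.neg_apply, PiLp.add_apply]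
  rw [h3]
  have h4 := hm i
  field_simp
  linear_combination (f0 i p.1 * g0 i p.2 * GG p.1) * h4

theorem contDiff_part (m : Fin 9 → ℝ) : ContDiff ℝ ∞ (part m) :=
  contDiff_sep (fun i => contDiff_const.mul (contDiff_f0 i)) contDiff_g0

theorem isImmersion_X : IsImmersion X := by
  refine ⟨contDiff_sep contDiff_f0 contDiff_g0, fun p => ?_⟩
  rw [LinearIndependent.pair_iff]
  intro s t hst
  have hE : inner ℝ (pdu X p) (pdu X p) = GG p.1 / w p.1 ^ 2 := gE_X p
  have hF : inner ℝ (pdu X p) (pdv X p) = (0 : ℝ) := gF_X p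
  have hG : inner ℝ (pdv X p) (pdv X p) = GG p.1 := gG_X p
  have h1 : inner ℝ (pdu X p) (s • pdu X p + t • pdv X p) = (0 : ℝ) := by
    rw [hst, inner_zero_right]
  have h2 : inner ℝ (s • pdu X p + t • pdv X p) (pdv X p) = (0 : ℝ) := by
    rw [hst, inner_zero_left]
  rw [inner_add_right, inner_smul_right, inner_smul_right, hE, hF] at h1
  rw [inner_add_left, real_inner_smul_left, real_inner_smul_left, hF, hG] at h2
  have h3 := w_pos p.1
  have h4 := GG_pos p.1
  have h5 : 0 < GG p.1 / w p.1 ^ 2 := by positivity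
  constructor
  · rw [mul_zero, add_zero] at h1
    exact (mul_eq_zero.mp h1).resolve_right h5.ne'
  · rw [mul_zero, zero_add] at h2
    exact (mul_eq_zero.mp h2).resolve_right h4.ne'

/-- First mask. -/
def m1 : Fin 9 → ℝ := ![1, 1, 1, 1, 0, 0, 0, 0, 0]

/-- Second mask. -/
def m2 : Fin 9 → ℝ := ![0, 0, 0, 0, 1, 1, 1, 1, 1]

theorem isTwoType_X : IsTwoTypeWith X 0 := by
  refine ⟨part m1, part m2, 6 / 21600, 18 / 21600, by norm_num, contDiff_part _, contDiff_part _,
    ?_, ?_, ?_, lap_part m1 6 ?_, lap_part m2 18 ?_⟩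
  · intro a
    by_contra hcon
    push Not at hcon
    have h0 : part m1 ((0 : ℝ), (0 : ℝ)) 0 = part m1 (π, (0 : ℝ)) 0 := by rw [hcon, hcon]
    simp [part, sep_apply, m1, f0, g0] at h0
    linarith
  · intro a
    by_contra hcon
    push Not at hcon
    have h0 : part m2 ((0 : ℝ), (0 : ℝ)) 4 = part m2 (π / 2, (0 : ℝ)) 4 := by rw [hcon, hcon]
    simp [part, sep_apply, m2, f0, g0] at h0
    have : (0 : ℝ) < √3 := Real.sqrt_pos.mpr (by norm_num)
    linarith
  · intro p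
    ext i
    simp only [X, part, sep_apply, PiLp.add_apply, PiLp.zero_apply]
    have : m1 i + m2 i = 1 := by fin_cases i <;> simp [m1, m2]
    linear_combination (-(f0 i p.1 * g0 i p.2)) * this
  · intro i
    fin_cases i <;> simp [m1, nn]
  · intro i
    fin_cases i <;> simp [m2, nn]

theorem norm_X (p : ℝ × ℝ) : ‖X p‖ ^ 2 = 4800 := by
  rw [← real_inner_self_eq_norm_sq, inner_eq]
  simp [X, sep_apply, f0, g0]
  have h2 := w_sq p.1
  have h3 := sin_sq_add_cos_sq p.1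
  have e1 := sin_sq_add_cos_sq p.2
  have e2 := sin_sq_add_cos_sq (2 * p.2)
  have e4 := sin_sq_add_cos_sq (4 * p.2)
  have e5 := sin_sq_add_cos_sq (5 * p.2)
  have r3 : √3 ^ 2 = 3 := Real.sq_sqrt (by norm_num)
  linear_combination (3600 * cos p.1 ^ 2) * e2 + (3600 * sin p.1 ^ 2) * e1 +
    (144 * w p.1 ^ 2 * cos p.1 ^ 2) * e5 + (225 * w p.1 ^ 2 * sin p.1 ^ 2) * e4 +
    (9 * sin p.1 ^ 2 - 4) ^ 2 * r3 + (3600 + 144 * w p.1 ^ 2) * h3 +
    (144 + 81 * sin p.1 ^ 2) * h2

theorem full_X (a : EuclideanSpace ℝ (Fin 9)) (t : ℝ) (h : ∀ p, inner ℝ a (X p) = t) :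
    a = 0 := by
  have H : ∀ u v : ℝ, 60 * cos u * (a 0 * cos (2 * v) + a 1 * sin (2 * v)) +
      60 * sin u * (a 2 * cos v + a 3 * sin v) + a 4 * (√3 * (9 * sin u ^ 2 - 4)) +
      12 * (w u * cos u) * (a 5 * cos (5 * v) + a 6 * sin (5 * v)) +
      15 * (w u * sin u) * (a 7 * cos (4 * v) + a 8 * sin (4 * v)) = t := by
    intro u v
    have h1 := h (u, v)
    rw [inner_eq] at h1
    simp [X, sep_apply, f0, g0] at h1
    linear_combination h1
  have w0 : w π = w 0 := by simp [w]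
  have w1 : w (-(π / 2)) = w (π / 2) := by simp [w]
  have p0 := w_pos 0
  have p1 := w_pos (π / 2)
  have r3 : (0 : ℝ) < √3 := Real.sqrt_pos.mpr (by norm_num)
  have A := H 0
  have B := H π
  have C := H (π / 2)
  have D := H (-(π / 2))
  simp only [w0, w1, sin_zero, cos_zero, sin_pi, cos_pi, sin_pi_div_two, cos_pi_div_two, sin_neg,
    cos_neg] at A B C D
  have a4 : a 4 = 0 := by
    have : a 4 * √3 = 0 := by linarith [A 0, B 0, C 0, D 0]
    exact (mul_eq_zero.mp this).resolve_right r3.ne'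
  have ht : t = 0 := by
    have h1 := A 0
    have h2 := B 0
    rw [a4] at h1 h2
    linarith
  rw [a4, ht] at A C
  have A0 := A 0
  have A1 := A π
  have A2 := A (π / 2)
  have A3 := A (π / 4)
  have C0 := C 0
  have C1 := C π
  have C2 := C (π / 2)
  have C3 := C (π / 8)
  have c5 : cos (5 * π) = -1 := by
    rw [show 5 * π = π + (2 : ℕ) * (2 * π) by push_cast; ring, cos_add_nat_mul_two_pi, cos_pi]
  have s5 : sin (5 * π) = 0 := by
    rw [show 5 * π = π + (2 : ℕ) * (2 * π) by push_cast; ring, sin_add_nat_mul_two_pi, sin_pi]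
  have c4 : cos (4 * π) = 1 := by
    rw [show 4 * π = 0 + (2 : ℕ) * (2 * π) by push_cast; ring, cos_add_nat_mul_two_pi, cos_zero]
  have s4 : sin (4 * π) = 0 := by
    rw [show 4 * π = 0 + (2 : ℕ) * (2 * π) by push_cast; ring, sin_add_nat_mul_two_pi, sin_zero]
  have s52 : sin (5 * (π / 2)) = 1 := by
    rw [show 5 * (π / 2) = π / 2 + 2 * π by ring, sin_add_two_pi, sin_pi_div_two]
  rw [show 2 * (π / 2) = π by ring, s52] at A2
  rw [show 2 * (π / 4) = π / 2 by ring] at A3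
  rw [show 4 * (π / 2) = 2 * π by ring] at C2
  rw [show 4 * (π / 8) = π / 2 by ring] at C3
  simp only [mul_zero, sin_zero, cos_zero, sin_pi, cos_pi, sin_two_pi, cos_two_pi, c5, s5, c4, s4,
    sin_pi_div_two, cos_pi_div_two] at A0 A1 A2 A3 C0 C1 C2 C3
  have a0 : a 0 = 0 := by linarith
  have a5 : a 5 = 0 := by
    have : w 0 * a 5 = 0 := by linarith
    exact (mul_eq_zero.mp this).resolve_left p0.ne'
  have a6 : a 6 = 0 := by
    rw [a0, a5] at A2
    have : w 0 * a 6 = 0 := by linarith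
    exact (mul_eq_zero.mp this).resolve_left p0.ne'
  have a1 : a 1 = 0 := by
    rw [a5, a6] at A3
    linarith
  have a2 : a 2 = 0 := by linarith
  have a7 : a 7 = 0 := by
    have : w (π / 2) * a 7 = 0 := by linarith
    exact (mul_eq_zero.mp this).resolve_left p1.ne'
  have a3 : a 3 = 0 := by
    rw [a7] at C2
    linarith
  have a8 : a 8 = 0 := by
    rw [a2, a3] at C3
    have : w (π / 2) * a 8 = 0 := by linarith
    exact (mul_eq_zero.mp this).resolve_left p1.ne'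
  ext i
  fin_cases i <;> simpa

theorem liesFully_X : LiesFullyIn X 0 √4800 := by
  refine ⟨by positivity, fun p => ?_, fun a t ha => ?_⟩
  · rw [sub_zero, ← norm_X p, Real.sqrt_sq (norm_nonneg _)]
  · by_contra hcon
    push Not at hcon
    exact ha (full_X a t hcon)

theorem periodic_X (u v : ℝ) : X (u + 2 * π, v) = X (u, v) ∧ X (u, v + 2 * π) = X (u, v) := by
  have hc : ∀ (k : ℕ) (v : ℝ), cos (k * (v + 2 * π)) = cos (k * v) := by
    intro k v
    rw [mul_add, cos_add_nat_mul_two_pi]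
  have hs : ∀ (k : ℕ) (v : ℝ), sin (k * (v + 2 * π)) = sin (k * v) := by
    intro k v
    rw [mul_add, sin_add_nat_mul_two_pi]
  have c2 := hc 2 v
  have c4 := hc 4 v
  have c5 := hc 5 v
  have s2 := hs 2 v
  have s4 := hs 4 v
  have s5 := hs 5 v
  push_cast at c2 c4 c5 s2 s4 s5
  constructor
  · ext i
    fin_cases i <;> simp [X, sep_apply, f0, w]
  · ext i
    fin_cases i <;> simp [X, sep_apply, g0, c2, c4, c5, s2, s4, s5]

end Pool.Agent.H799Z.Surf
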